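import Pool.Agent.FLX.Defs

/-!
# A sharp character bound for `GL_n(q)`, all `q` (MP_5b5212_al): statements

For every nonlinear irreducible character `X` of `GL_n(q)` and every `x` killed by a polynomial of degree `m`
`|X(x)| ≤ (|C(x)| q^(-n^2/m))^(1/2) X(1)^(1/m + ε)`, `n ≥ r(m, ε)`, all `q` (`S_XMB`), and then
the surjectivity theorem of `Pool/Agent/SRJ` with the weight `1 - 1/k` for all `q` (`MainV`).
`S_X` is the statement of module `X`; the module proves `theorem t_X : M_X` (or `t_X : S_X` if there is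
no `M_X`) in `Pool/Agent/FLX/X.lean`, namespace `FLX`, importing this file. The proved files of `Pool/Agent/SRJ`,
`FLC`, `FL0`, `FLN`, `FLW`, `RSF`, `Lib_helper13` may be imported. `q = Nat.card F`.

Plan. `V` the representation, `W = F^n` with the operator `x`. Choose an invariant `W' ⊂ W` with `E = W / W'` simple, of
dimension `d`. The group `A = Hom(E, W')` is normalized by `x`, its characters are the `B ∈ Hom(W', E)`
(`a ↦ ψ(tr(B a))`), and the trace of `x` on `V` is the sum over the `B` fixed by `x`, i.e. the `F[x]`-homomorphisms `W' → E`, which are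
`0` or surjective. For `B = 0` the isotypic space is a representation of `GL(W') × GL(E)`: go on with `W'` (choose a new `E`). For
`B ≠ 0` it is a representation of the parabolic subgroup of `W'' = ker B` in `GL(W')`: go on with `W''` and the same `E`.
The same decomposition gives a lower bound for `dim V`. Potential `pt m x = max(|C(x)| q^(-n^2/m), const)^(1/2)`: it does not
increase in the steps `B = 0` if `E` belongs to the largest multiplicity (`K2N`), and the sum over the `B ≠ 0` of the potential of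
`ker B` is at most `const · q^(d dim W' / m)` times the potential of `W'` (`K1N`), where `q^(d dim W')` is the number of all `B`.
-/

namespace FLX

open RSF FL0 SRJ Polynomial Pool.Agent.Lib_helper13

noncomputable section

/-! ## 1. The block groups -/

/-- **CHR**. `phc_main` (`SRJ/PHC.lean`) for the group `PB a d F × C`, `A = Matrix (Fin a) (Fin d) F`, `u v = (⟨1, 1, v⟩, 1)`; (1) `θ = 1`,
`j (g, (h, c)) = (⟨g, h, 0⟩, c)`: `u v * j = (⟨g, h, v h⟩, c)`, and `v ↦ v h` is a bijection; (2) `θ v = ψ (lk v)`,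
`j (p, c) = (⟨emb p, p.h, 0⟩, c)`: `j u(v) j⁻¹ = u (emb p · v · h⁻¹)`, `lk v = tr (b0 v)`, `b0 · emb p = h · b0`, so
`lk (emb p · v · h⁻¹) = tr (h b0 v h⁻¹) = lk v`. (3) `IsChr.comp`. -/
def S_CHR : Prop :=
  ∀ (F : Type) [Field F] [Fintype F] [DecidableEq F] (ψ : AddChar F ℂ) (C : Type) [Group C] [Fintype C],
    (∀ (a d : ℕ) (X : PB a d F × C → ℂ), IsChr X → IsChr (X0 X)) ∧
    (∀ (b d : ℕ) (X : PB (b + d) d F × C → ℂ), IsChr X → IsChr (X1 ψ X)) ∧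
    ∀ (a d : ℕ) (X : GL (Fin (a + d)) F × C → ℂ), IsChr X →
      IsChr (fun p : PB a d F × C => X (PB.emb p.1, p.2))

/-- **DGR**. `v ↦ X (⟨1, 1, v⟩, 1)` is a character of the additive group of the `v`; let `c_B` be the multiplicity of
`v ↦ ψ (tr (B v))` (natural numbers, `∑_B c_B = X 1`; Fourier inversion, `ψ ≠ 1`, compare `SRJ/MUB.lean`). `c_0 = X0 X 1`. For
`B = b0 G`, `G` invertible, conjugation by `⟨G, 1, 0⟩` (`⟨1, 1, v⟩ ↦ ⟨1, 1, G v⟩`) gives `c_B = c_(b0) = X1 ψ X 1`. The `b0 G` are the `d × (b+d)`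
matrices with linearly independent rows; their number is `∏_{t<d} (q^(b+d) - q^t)` (`card_linearIndependent` in Mathlib). -/
def S_DGR : Prop :=
  ∀ (F : Type) [Field F] [Fintype F] [DecidableEq F] (ψ : AddChar F ℂ), ψ ≠ 1 →
    ∀ (C : Type) [Group C] [Fintype C],
    (∀ (a d : ℕ) (X : PB a d F × C → ℂ), IsChr X → (X0 X 1).re ≤ (X 1).re) ∧
    ∀ (b d : ℕ) (X : PB (b + d) d F × C → ℂ), 1 ≤ d → IsChr X →
      (X0 X 1).re + (∏ t ∈ Finset.range d, ((Nat.card F : ℝ) ^ (b + d) - (Nat.card F : ℝ) ^ t)) *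
        (X1 ψ X 1).re ≤ (X 1).re

/-- **STP**. For `B ∈ Matrix (Fin d) (Fin a) F` let `X_B(p,c) = q^(-a d) ∑_v ψ(- tr (B v)) X (⟨p.g, p.h, p.v + v p.h⟩, c)`
(`⟨1,1,v⟩ * p = ⟨p.g, p.h, p.v + v p.h⟩`). `X (p,c) = ∑_B X_B (p,c)` (orthogonality in `v`). Conjugation with `⟨1,1,w⟩`:
`⟨1,1,w⟩ ⟨1,1,v⟩ p ⟨1,1,-w⟩ = ⟨1,1, v + w - g w h⁻¹⟩ p`, so `X_B = ψ(tr (B (w - g w h⁻¹))) X_B` for all `w`, and `X_B (p,c) = 0` unless
`tr (B w) = tr (h⁻¹ B g w)` for all `w`, i.e. `h B = B g`. `X_0 (p,c) = X0 X (p.g, (p.h, c))` (substitute `p.v + v p.h`). For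
`B = b0 G`, `G g G⁻¹ = emb (k B)`, `(k B).h = h`: conjugation by `⟨G, 1, 0⟩` gives `X_B(p,c) = X_(b0)(⟨emb (k B), h, G p.v⟩, c)`, and with
`v = v' - G p.v h⁻¹` this is `ψ (lk (G p.v h⁻¹))` times `X1 ψ X (k B, c)`. Absolute values. -/
def S_STP : Prop :=
  ∀ (F : Type) [Field F] [Fintype F] [DecidableEq F] (ψ : AddChar F ℂ), ψ ≠ 1 →
    ∀ (C : Type) [Group C] [Fintype C],
    (∀ (a d : ℕ) (X : PB a d F × C → ℂ), IsChr X → ∀ (p : PB a d F) (c : C),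
      ib (p.g : Matrix (Fin a) (Fin a) F) (p.h : Matrix (Fin d) (Fin d) F) = ∅ →
        ‖X (p, c)‖ ≤ ‖X0 X (p.g, (p.h, c))‖) ∧
    ∀ (b d : ℕ) (X : PB (b + d) d F × C → ℂ), IsChr X → ∀ (p : PB (b + d) d F) (c : C)
      (k : Matrix (Fin d) (Fin (b + d)) F → PB b d F), Sel p.g p.h k →
        ‖X (p, c)‖ ≤ ‖X0 X (p.g, (p.h, c))‖ +
          ∑ B ∈ ib (p.g : Matrix (Fin (b + d)) (Fin (b + d)) F) (p.h : Matrix (Fin d) (Fin d) F),
            ‖X1 ψ X (k B, c)‖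

/-- **SEL**. Let `0 ≠ B`, `h B = B g`. The range of `B` is invariant under `h`, so it is everything (an invariant subspace `≠ 0, F^d`
would give a factorization of the characteristic polynomial; e.g. a nonzero vector `w` generates a subspace with
minimal polynomial dividing the irreducible `charpoly h` of degree `d`). So the rows of `B` are linearly independent,
`d ≤ a`, and can be completed to an invertible matrix `G` with the last `d` rows `B`, `B = b0 G`. `b0 (G g G⁻¹) = B g G⁻¹ = h B G⁻¹ = h b0`: the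
last `d` rows of `G g G⁻¹` are `(0 h)`, so it is `bm g'' v'' h` with `g''` invertible. (3) `aeval (bm g v h) f` is block upper
triangular with the diagonal blocks `aeval g f`, `aeval h f`. -/
def S_SEL : Prop :=
  ∀ (F : Type) [Field F] [Fintype F] [DecidableEq F],
    (∀ (b d : ℕ) (g : GL (Fin (b + d)) F) (h : GL (Fin d) F),
      Irreducible (h : Matrix (Fin d) (Fin d) F).charpoly → ∃ k, Sel g h k) ∧
    (∀ (a d : ℕ) (g : GL (Fin a) F) (h : GL (Fin d) F), a < d →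
      Irreducible (h : Matrix (Fin d) (Fin d) F).charpoly →
      ib (g : Matrix (Fin a) (Fin a) F) (h : Matrix (Fin d) (Fin d) F) = ∅) ∧
    ∀ (b d : ℕ) (p : PB b d F) (f : F[X]),
      aeval ((PB.emb p : GL (Fin (b + d)) F) : Matrix (Fin (b + d)) (Fin (b + d)) F) f = 0 →
      aeval (p.g : Matrix (Fin b) (Fin b) F) f = 0

/-! ## 2. Types -/

/-- **TYP** (compare `SRJ/HMF.lean`: the index set is the set of the pairs `(p, t)`, `p ∣ g₀` monic irreducible, `1 ≤ t ≤` multiplicity of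
`p` in `g₀`, `P = p`, `e = t`, weight `w = deg p`; the other indices have weight `0`). `F^n` with the action of `A` is a direct sum of
modules `F[X]/(p^s)`; `ν (p, t)` is the number of the summands `F[X]/(p^s)` with `s ≥ t`. `kd A p t = ∑ deg p · min(s, t)` over the
summands with this `p`, so `kd A p t - kd A p (t-1) = deg p · ν (p, t)`. `|Hom|` as in `HMF`. -/
def S_TYP : Prop :=
  ∀ (F : Type) [Field F] [Finite F] (g₀ : F[X]), g₀.Monic →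
    ∃ (w e : Fin g₀.natDegree → ℕ) (P : Fin g₀.natDegree → F[X]),
      ∑ j, w j = g₀.natDegree ∧
      (∀ j, w j ≠ 0 → (P j).Monic ∧ Irreducible (P j) ∧ (P j).natDegree = w j ∧ 1 ≤ e j) ∧
      (∀ i j, w i ≠ 0 → w j ≠ 0 → P i = P j → e i = e j → i = j) ∧
      (∀ j t, w j ≠ 0 → 1 ≤ t → t ≤ e j → ∃ i, w i ≠ 0 ∧ P i = P j ∧ e i = t) ∧
      ∀ (n : ℕ) (A : Matrix (Fin n) (Fin n) F), aeval A g₀ = 0 →
        ∃ ν : Fin g₀.natDegree → ℕ,
          (∀ j, w j = 0 → ν j = 0) ∧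
          (∀ j, w j ≠ 0 → kd A (P j) (e j) = kd A (P j) (e j - 1) + w j * ν j) ∧
          (∀ i j, w i ≠ 0 → w j ≠ 0 → P i = P j → e j ≤ e i → ν i ≤ ν j) ∧
          ∑ j, w j * ν j = n ∧
          cN A = Nat.card F ^ (∑ j, w j * (ν j * ν j)) ∧
          ∀ (p : F[X]) (t : ℕ), p.Monic → Irreducible p → kd A p t ≠ kd A p (t + 1) →
            ∃ j, w j ≠ 0 ∧ P j = p ∧ e j = t + 1

/-- **KDN**. `f₀ = charpoly h`, `h = p.h`, `K = ker B`. `G` maps `K` onto the vectors with last `d` coordinates `0`, so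
`(K, g) ≅ (F^b, p.g)` and `kd p.g f t = dim (ker f(g)^t ∩ K)`. `B f(g) = f(h) B`. If `f ≠ f₀` then `f(h)` is invertible (coprime to the
characteristic polynomial), so `ker f(g)^t ⊆ K`. For `f₀` the image of `ker f₀(g)^t` under `B` is an `h`-invariant subspace,
`0` or `F^d`, increasing with `t`, `0` for `t = 0` and `F^d` for large `t` (`f₀(h) = 0`, and `B` kills the `f`-primary parts for `f ≠ f₀`). -/
def S_KDN : Prop :=
  ∀ (F : Type) [Field F] [Fintype F] [DecidableEq F] (b d : ℕ) (g : GL (Fin (b + d)) F) (p : PB b d F)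
    (G : GL (Fin (b + d)) F) (B : Matrix (Fin d) (Fin (b + d)) F),
    Irreducible (p.h : Matrix (Fin d) (Fin d) F).charpoly →
    B = b0 b d F * (G : Matrix (Fin (b + d)) (Fin (b + d)) F) → G * g * G⁻¹ = PB.emb p →
    (∀ f : F[X], f.Monic → Irreducible f → f ≠ (p.h : Matrix (Fin d) (Fin d) F).charpoly → ∀ t,
      kd (p.g : Matrix (Fin b) (Fin b) F) f t = kd (g : Matrix (Fin (b + d)) (Fin (b + d)) F) f t) ∧
    ∃ t₀, 1 ≤ t₀ ∧
      (∀ t, kd (g : Matrix (Fin (b + d)) (Fin (b + d)) F) (p.h : Matrix (Fin d) (Fin d) F).charpoly t =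
        kd (p.g : Matrix (Fin b) (Fin b) F) (p.h : Matrix (Fin d) (Fin d) F).charpoly t +
          if t₀ ≤ t then d else 0) ∧
      (∀ x, ((aeval (g : Matrix (Fin (b + d)) (Fin (b + d)) F)
        (p.h : Matrix (Fin d) (Fin d) F).charpoly) ^ (t₀ - 1)).mulVec x = 0 → B.mulVec x = 0) ∧
      ∃ x, ((aeval (g : Matrix (Fin (b + d)) (Fin (b + d)) F)
        (p.h : Matrix (Fin d) (Fin d) F).charpoly) ^ t₀).mulVec x = 0 ∧ B.mulVec x ≠ 0

/-- **CNB**. `f₀ = charpoly h`. `B f₀(g) = f₀(h) B = 0`, so `B` kills `N = range f₀(g) + ker f₀(g)^t`. For a linear functional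
`ℓ ≠ 0` of `F^d` the map `B ↦ ℓ B` is injective on the `B` with `h B = B g`: `ℓ B = 0` gives `ℓ h^i B = ℓ B g^i = 0`, and the `ℓ h^i` span the
dual space (`charpoly h` is irreducible). So the number of these `B` is at most the number of the functionals that kill `N`,
`q^(dim V/N)`, and `dim V/N = dim V - dim range f₀(g) - dim ker f₀(g)^t + dim (range f₀(g) ∩ ker f₀(g)^t)`,
`range f₀(g) ∩ ker f₀(g)^t = f₀(g)(ker f₀(g)^(t+1))`: this is `kd 1 - kd t + kd (t+1) - kd 1`. -/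
def S_CNB : Prop :=
  ∀ (F : Type) [Field F] [Fintype F] [DecidableEq F] (a d : ℕ) (g : Matrix (Fin a) (Fin a) F)
    (h : GL (Fin d) F), Irreducible (h : Matrix (Fin d) (Fin d) F).charpoly → ∀ t : ℕ,
    Nat.card {B : Matrix (Fin d) (Fin a) F // B ∈ ib g (h : Matrix (Fin d) (Fin d) F) ∧
      ∀ x, ((aeval g (h : Matrix (Fin d) (Fin d) F).charpoly) ^ t).mulVec x = 0 → B.mulVec x = 0} ≤
    Nat.card F ^ (kd g (h : Matrix (Fin d) (Fin d) F).charpoly (t + 1) -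
      kd g (h : Matrix (Fin d) (Fin d) F).charpoly t)

/-- **EXB**. As in `CNB` `dim V / (range f(g) + ker f(g)^t) = kd (t+1) - kd t < kd 1 = dim V / range f(g)`, so there is
`x ∈ ker f(g)^t`, `x ∉ range f(g)`. `V / range f(g)` is a vector space over the field `k = F[X]/(f)`; a `k`-linear functional with value
`≠ 0` at `x` and an `F`-basis of `k` give `B : F^n → F^(deg f)`, `h` the matrix of the multiplication by `X` in `k`: `charpoly h = f`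
(it has degree `deg f` and `f(h) = 0`, `f` irreducible is the minimal polynomial). `h` is invertible because `f ≠ X`:
`f(g)` is not injective (`kd 1 > 0`) and `g` is. -/
def S_EXB : Prop :=
  ∀ (F : Type) [Field F] [Fintype F] [DecidableEq F] (n : ℕ) (g : GL (Fin n) F) (f : F[X]) (t : ℕ),
    f.Monic → Irreducible f →
    kd (g : Matrix (Fin n) (Fin n) F) f (t + 1) - kd (g : Matrix (Fin n) (Fin n) F) f t <
      kd (g : Matrix (Fin n) (Fin n) F) f 1 →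
    ∃ (h : GL (Fin f.natDegree) F) (B : Matrix (Fin f.natDegree) (Fin n) F),
      (h : Matrix (Fin f.natDegree) (Fin f.natDegree) F).charpoly = f ∧
      (h : Matrix (Fin f.natDegree) (Fin f.natDegree) F) * B = B * (g : Matrix (Fin n) (Fin n) F) ∧
      ∃ x, ((aeval (g : Matrix (Fin n) (Fin n) F) f) ^ t).mulVec x = 0 ∧ B.mulVec x ≠ 0

/-- **K1N**. `a = b + d`, `w`, `P`, `e` from `S_TYP`, `ν` the type of `g`, `δ(A) = |C(A)| q^(-(size A)^2/m)`. For `B ∈ ib g h` let `ν'` be the type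
of `(k B).g` (`S_SEL` (3)), `f₀ = charpoly h`, `t₀` from `S_KDN`. `kd g f₀ (t₀ - 1) ≠ kd g f₀ t₀` (`kd (k B).g` is increasing), so there is
`j = j(B)` with `P j = f₀`, `e j = t₀`, `w j = d` (`S_TYP`, last claim); by `S_KDN` `ν' = ν` except `ν' j = ν j - 1`. So
`δ((k B).g) = δ(g) q^(- 2 d ν_j + d + (2 a d - d^2)/m)`. For given `j` the number of the `B` is at most `q^(d ν_j)` (`S_CNB`, `t = t₀ - 1`),
so the sum of the `δ((k B).g)^(1/2)` is at most `m q^(m/2) q^(a d/m) δ(g)^(1/2)` (at most `m` values of `j`, `d ≤ m`). The number of all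
`B` is at most `q^(d ν_i)`, `P i = f₀`, `e i = 1` (`S_CNB`, `t = 0`), and `log_q δ(g) = ∑ w_j (ν_j - a/m)^2 ≥ d (ν_i - a/m)^2 ≥ d (2 (ν_i - a/m) - 1)`, so
`d ν_i ≤ a d/m + d/2 + (1/2) log_q δ(g)`. `max(x, y)^(1/2) ≤ x^(1/2) + y^(1/2)`. If `ib g h` is empty the sum is `0`. -/
def S_K1N : Prop :=
  ∀ m : ℕ, 1 ≤ m → ∀ (F : Type) [Field F] [Fintype F] [DecidableEq F] (g₀ : F[X]), g₀.Monic →
    g₀.natDegree = m → ∀ (b d : ℕ) (g : GL (Fin (b + d)) F) (h : GL (Fin d) F)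
      (k : Matrix (Fin d) (Fin (b + d)) F → PB b d F), 1 ≤ d →
      aeval (g : Matrix (Fin (b + d)) (Fin (b + d)) F) g₀ = 0 →
      Irreducible (h : Matrix (Fin d) (Fin d) F).charpoly → Sel g h k →
      ∑ B ∈ ib (g : Matrix (Fin (b + d)) (Fin (b + d)) F) (h : Matrix (Fin d) (Fin d) F),
        pt m ((k B).g : Matrix (Fin b) (Fin b) F) ≤
      KK m (Nat.card F) * (Nat.card F : ℝ) ^ ((d : ℝ) * ((b : ℝ) + d) / m) *
        pt m (g : Matrix (Fin (b + d)) (Fin (b + d)) F)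

def M_K1N : Prop := S_TYP → S_SEL → S_KDN → S_CNB → S_K1N

/-- **K2N**. `ν` the type of `g`, `i` with `w i ≠ 0` and `ν i = H` maximal (`≥ n/m > 0`, since `∑ w ν = n`, `∑ w = m`); among the indices `i'` with
`P i' = P i =: f` and `ν i' = H` let `t = e i'` be the largest. (All `i'` with `e i' ≤ t`, `P i' = f` have `ν = H`, `S_TYP`.) Then
`kd (t+1) - kd t < d H = kd 1`, `d = deg f`: `S_EXB` gives `h`, `B ≠ 0`; `S_SEL` (2) and (1): `n = b + d`, `p = k B`. `S_KDN`: `t₀ ≤ t` because `B` does not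
kill `ker f(g)^t` (`ker f(g)^t ⊆ ker f(g)^(t₀-1)` if `t < t₀`), so the type of `p.g` is `ν` with `H` replaced by `H - 1` at one place of weight `d`. With
`δ` as in `K1N` `log_q δ(p.g) = log_q δ(g) - 2 d (H - n/m) + d - d^2/m`. If `H - n/m ≥ 1/2` this is at most `log_q δ(g)`. Otherwise
`y_j = ν_j - n/m < 1/2` for all `j` with `w_j ≠ 0`, `∑ w_j y_j = 0`, so the `w_j |y_j|`, `y_j < 0`, have the sum `≤ m/2`, each `|y_j| ≤ m/2`, and
`log_q δ(g) = ∑ w_j y_j^2 ≤ m/4 + m^2/4`, `log_q δ(p.g) ≤ m/4 + m^2/4 + d ≤ m^2 + m`. -/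
def S_K2N : Prop :=
  ∀ m : ℕ, 1 ≤ m → ∀ (F : Type) [Field F] [Fintype F] [DecidableEq F] (g₀ : F[X]), g₀.Monic →
    g₀.natDegree = m → ∀ n : ℕ, 1 ≤ n → ∀ g : GL (Fin n) F,
      aeval (g : Matrix (Fin n) (Fin n) F) g₀ = 0 →
      ∃ (b d : ℕ) (hn : n = b + d) (p : PB b d F) (G : GL (Fin (b + d)) F), 1 ≤ d ∧ d ≤ m ∧
        Irreducible (p.h : Matrix (Fin d) (Fin d) F).charpoly ∧
        aeval (p.g : Matrix (Fin b) (Fin b) F) g₀ = 0 ∧
        (G : Matrix (Fin (b + d)) (Fin (b + d)) F) *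
            (g : Matrix (Fin n) (Fin n) F).submatrix (Fin.cast hn.symm) (Fin.cast hn.symm) =
          ((PB.emb p : GL (Fin (b + d)) F) : Matrix (Fin (b + d)) (Fin (b + d)) F) *
            (G : Matrix (Fin (b + d)) (Fin (b + d)) F) ∧
        pt m (p.g : Matrix (Fin b) (Fin b) F) ≤ pt m (g : Matrix (Fin n) (Fin n) F)

def M_K2N : Prop := S_TYP → S_SEL → S_KDN → S_EXB → S_K2N

/-! ## 3. The induction -/

/-- the bound for `GL_n × C` -/
def Fr {F : Type} [Field F] [Fintype F] [DecidableEq F] (ψ : AddChar F ℂ) (m : ℕ) (g₀ : F[X]) (n : ℕ) :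
    Prop :=
  ∀ (C : Type) [Group C] [Fintype C] (X : GL (Fin n) F × C → ℂ), IsChr X →
    ∀ c : ℕ → ℝ, (∀ s, 0 ≤ c s) → BF ψ m n c (FLC.xm fun g => X (g, 1)) →
    ∀ (x : GL (Fin n) F) (y : C), aeval (x : Matrix (Fin n) (Fin n) F) g₀ = 0 →
      ‖X (x, y)‖ ≤ pt m (x : Matrix (Fin n) (Fin n) F) *
        TT n (KK m (Nat.card F)) c ^ (1 - 1 / (m : ℝ)) *
        (pq (Nat.card F) n * (X 1).re) ^ (1 / (m : ℝ))

/-- the bound for `PB a d F × C` -/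
def St {F : Type} [Field F] [Fintype F] [DecidableEq F] (ψ : AddChar F ℂ) (m : ℕ) (g₀ : F[X])
    (a d : ℕ) : Prop :=
  ∀ (C : Type) [Group C] [Fintype C] (X : PB a d F × C → ℂ), IsChr X →
    ∀ c : ℕ → ℝ, (∀ s, 0 ≤ c s) → BS ψ m a d c (zm X) →
    ∀ (p : PB a d F) (y : C), Irreducible (p.h : Matrix (Fin d) (Fin d) F).charpoly →
      aeval (p.g : Matrix (Fin a) (Fin a) F) g₀ = 0 →
      ‖X (p, y)‖ ≤ pt m (p.g : Matrix (Fin a) (Fin a) F) *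
        TT (a + 1) (KK m (Nat.card F)) c ^ (1 - 1 / (m : ℝ)) *
        (pq (Nat.card F) a * (X 1).re) ^ (1 / (m : ℝ))

/-- **HLD**. `K ≤ (K²)^(1 - 1/m)`; Hölder's inequality for two terms with exponents `1 - 1/m`, `1/m`
(`Real.inner_le_Lp_mul_Lq` or weighted AM-GM). -/
def S_HLD : Prop :=
  ∀ m : ℕ, 2 ≤ m → ∀ K T₀ T₁ D₀ D₁ : ℝ, 1 ≤ K → 0 ≤ T₀ → 0 ≤ T₁ → 0 ≤ D₀ → 0 ≤ D₁ →
    T₀ ^ (1 - 1 / (m : ℝ)) * D₀ ^ (1 / (m : ℝ)) + K * (T₁ ^ (1 - 1 / (m : ℝ)) * D₁ ^ (1 / (m : ℝ))) ≤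
      (T₀ + K ^ 2 * T₁) ^ (1 - 1 / (m : ℝ)) * (D₀ + D₁) ^ (1 / (m : ℝ))

/-- **PSC**, numbers: Pascal's rule for `TT`, and `pq`. (5): `∏_{t<d} (q^(b+d) - q^t) = q^((b+d) d) ∏_{t<d} (1 - q^(t-b-d))`. (6): `RSF.S_PI`. -/
def S_PSC : Prop :=
  (∀ (n n' : ℕ) (K : ℝ) (c : ℕ → ℝ), n ≤ n' → 0 ≤ K → (∀ s, 0 ≤ c s) → 0 ≤ TT n K c ∧ TT n K c ≤ TT n' K c) ∧
  (∀ (K : ℝ) (c : ℕ → ℝ), TT 0 K c = c 0) ∧
  (∀ (a : ℕ) (K : ℝ) (c : ℕ → ℝ), 1 ≤ a → 0 ≤ K → (∀ s, 0 ≤ c s) →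
    TT a K c + K ^ 2 * TT a K (fun s => c (s + 1)) ≤ TT (a + 1) K c) ∧
  (∀ (q : ℝ) (n n' : ℕ), 2 ≤ q → n ≤ n' → 1 ≤ pq q n ∧ pq q n ≤ pq q n') ∧
  (∀ (q : ℝ) (b d : ℕ), 2 ≤ q →
    q ^ ((b + d) * d) * pq q b = pq q (b + d) * ∏ t ∈ Finset.range d, (q ^ (b + d) - q ^ t)) ∧
  ∀ (q : ℝ) (n : ℕ), 2 ≤ q → pq q n ≤ 4

/-- **PAT**, patterns (definitions; `FLC.xm (fun g => X0 X (g, 1)) A = stp ψ false (zm X) A` and
`zm (X1 ψ X) g v = stp ψ true (zm X) (bm g v 1)`, because `bm g v 1` is invertible iff `g` is; for (2) use the patterns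
`(d, true) :: (d, β) :: τ`). (3): `mu ψ ((d, β) :: τ) Y = mu ψ τ (stp ψ β (fun g v => Y (bm g v 1)))`. In (1), (3) `1 ≤ d ≤ m` gives
`vl m ((d, false) :: τ)`. -/
def S_PAT : Prop :=
  ∀ (F : Type) [Field F] [Fintype F] [DecidableEq F] (ψ : AddChar F ℂ) (C : Type) [Group C] [Fintype C]
    (m : ℕ) (c : ℕ → ℝ),
    (∀ (a d : ℕ) (X : PB a d F × C → ℂ), 1 ≤ d → d ≤ m → BS ψ m a d c (zm X) →
      BF ψ m a c (FLC.xm fun g => X0 X (g, 1))) ∧
    (∀ (b d : ℕ) (X : PB (b + d) d F × C → ℂ), BS ψ m (b + d) d c (zm X) →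
      BS ψ m b d (fun s => c (s + 1)) (zm (X1 ψ X))) ∧
    ∀ (b d : ℕ) (X : GL (Fin (b + d)) F × C → ℂ), BF ψ m (b + d) c (FLC.xm fun g => X (g, 1)) →
      BS ψ m b d c (zm fun p : PB b d F × C => X (PB.emb p.1, p.2))

/-- **IFR**. `n = 0`: `x = 1`, `‖X (1, y)‖ ≤ ‖X 1‖` (`FLC.S_MN`), `X 1 ≤ c 0` (the empty pattern), `pt ≥ 1`, `TT 0 K c = c 0`, `pq = 1`. `n ≥ 1`:
`S_K2N`; `X (x, y) = X (emb p, y)` (conjugation by `(G, 1)`; `subst` `n = b + d`), `X' = X ∘ (emb × id)` is a character of `PB b d F × C` (`S_CHR` (3)),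
`X' 1 = X 1`, `S_PAT` (3), the assumption for `(b, d)`, `S_PSC` (monotonicity, `b + 1 ≤ n`). -/
def S_IFR : Prop :=
  ∀ m : ℕ, 2 ≤ m → ∀ (F : Type) [Field F] [Fintype F] [DecidableEq F] (ψ : AddChar F ℂ), ψ ≠ 1 →
    ∀ (g₀ : F[X]), g₀.Monic → g₀.natDegree = m → ∀ n : ℕ,
      (∀ b d, b < n → 1 ≤ d → d ≤ m → St ψ m g₀ b d) → Fr ψ m g₀ n

def M_IFR : Prop := FLC.S_MN → S_CHR → S_K2N → S_PSC → S_PAT → S_IFR

/-- **IST**. Let `D = X 1`, `K = KK m q ≥ 1`. If `ib p.g p.h = ∅` (in particular if `a < d`, `S_SEL` (2)): `S_STP` (1), `S_CHR` (1), `S_PAT` (1),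
`Fr a`, `S_DGR`, `S_PSC`. Otherwise `a = b + d`, `k` from `S_SEL` (1), `S_STP` (2). The first term: `Fr a` for `X0 X`:
`≤ pt · T₀^(1-1/m) D₀^(1/m)`, `T₀ = TT a K c`, `D₀ = pq a · X0 X 1`. The others: `St b d` for `X1 ψ X` (`S_CHR` (2), `S_PAT` (2), `(k B).h = p.h`, `S_SEL` (3)) and
`S_K1N`: the sum is at most `K q^(d a/m) pt · TT (b+1) K c'^(1-1/m) (pq b · X1 ψ X 1)^(1/m)`, `c' s = c (s+1)`, `TT (b+1) K c' ≤ TT a K c' =: T₁`,
`q^(d a) pq b = pq a · S`, `S = ∏ (q^a - q^t)` (`S_PSC` (5)): `≤ pt · K T₁^(1-1/m) D₁^(1/m)`, `D₁ = pq a · S · X1 ψ X 1`. `S_HLD`,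
`T₀ + K² T₁ ≤ TT (a+1) K c` (`S_PSC` (3)), `D₀ + D₁ ≤ pq a · D` (`S_DGR`). -/
def S_IST : Prop :=
  ∀ m : ℕ, 2 ≤ m → ∀ (F : Type) [Field F] [Fintype F] [DecidableEq F] (ψ : AddChar F ℂ), ψ ≠ 1 →
    ∀ (g₀ : F[X]), g₀.Monic → g₀.natDegree = m → ∀ a d : ℕ, 1 ≤ d → d ≤ m →
      Fr ψ m g₀ a → (∀ b, b < a → St ψ m g₀ b d) → St ψ m g₀ a d

def M_IST : Prop :=
  S_CHR → S_DGR → S_STP → S_SEL → S_K1N → S_HLD → S_PSC → S_PAT → S_IST

/-- **CHN**. Strong induction on `n`: `Fr n` and `St n d` for all `1 ≤ d ≤ m` (`S_IFR`, then `S_IST`). Apply `Fr n` with `C = Unit`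
(`X' (g, y) = X g` is a character), `pq ≤ 4`. -/
def S_CHN : Prop :=
  ∀ m : ℕ, 2 ≤ m → ∀ (F : Type) [Field F] [Fintype F] [DecidableEq F] (ψ : AddChar F ℂ), ψ ≠ 1 →
    ∀ (g₀ : F[X]), g₀.Monic → g₀.natDegree = m → ∀ (n : ℕ) (X : GL (Fin n) F → ℂ), IsChr X →
      ∀ c : ℕ → ℝ, (∀ s, 0 ≤ c s) → BF ψ m n c (FLC.xm X) →
      ∀ x : GL (Fin n) F, aeval (x : Matrix (Fin n) (Fin n) F) g₀ = 0 →
        ‖X x‖ ≤ pt m (x : Matrix (Fin n) (Fin n) F) *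
          TT n (KK m (Nat.card F)) c ^ (1 - 1 / (m : ℝ)) * (4 * (X 1).re) ^ (1 / (m : ℝ))

def M_CHN : Prop := S_IFR → S_IST → S_PSC → S_CHN

/-! ## 4. Multiplicities of patterns -/

/-- **UTG**. Induction on `τ`: `UT ((d, β) :: τ)` is the group of the `bm u v 1`, `u ∈ UT τ`, `bm u v 1 * bm u' v' 1 = bm (u u') (u v' + v) 1`, and
`lk (u v') = lk v'` if `τ = (d, β') :: τ'` (the last `d` rows of `u` are `(0 1)`). The averages are iterated averages. -/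
def S_UTG : Prop :=
  ∀ (F : Type) [Field F] [Fintype F] [DecidableEq F] (ψ : AddChar F ℂ) (m : ℕ)
    (τ : List (ℕ × Bool)), vl m τ →
    ∃ H : Subgroup (GL (Fin (sz τ)) F),
      (∀ g, g ∈ H ↔ UT τ (g : Matrix (Fin (sz τ)) (Fin (sz τ)) F)) ∧
      FLC.LC H (fun g => ψ (tv τ (g : Matrix (Fin (sz τ)) (Fin (sz τ)) F))) ∧
      ∀ X : GL (Fin (sz τ)) F → ℂ,
        mu ψ τ (FLC.xm X) =
          FLC.mlt H (fun g => ψ (tv τ (g : Matrix (Fin (sz τ)) (Fin (sz τ)) F))) X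

/-- **RA1**. `FLC.S_BR1`: `g = u w v`, `u`, `v` upper unitriangular, `w` in a set of `n! (q-1)^n` matrices. The upper unitriangular
matrices are the products `u' l`, `l' v'` with `u'`, `v'` in `UT τ` and `l`, `l'` block diagonal unitriangular, at most `q^((m-1) n/2)`
possibilities for `l` (blocks of size `d ≤ m`, `d (d-1)/2 ≤ (m-1) d/2`). -/
def S_RA1 : Prop :=
  ∀ (F : Type) [Field F] [Fintype F] [DecidableEq F] (m : ℕ) (τ : List (ℕ × Bool)), 1 ≤ m → vl m τ →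
    ∃ R : Finset (GL (Fin (sz τ)) F), R.card ≤ (sz τ).factorial * Nat.card F ^ (m * sz τ) ∧
      ∀ g : GL (Fin (sz τ)) F, ∃ h k : GL (Fin (sz τ)) F,
        UT τ (h : Matrix (Fin (sz τ)) (Fin (sz τ)) F) ∧ UT τ (k : Matrix (Fin (sz τ)) (Fin (sz τ)) F) ∧
          h * g * k ∈ R

def M_RA1 : Prop := FLC.S_BR1 → S_RA1

/-- **RA2** (compare `FLC.S_BR2`, `FLC/BR2.lean`). The coset `g HK` is determined by the first `K` columns of `g` (an `n × K` matrix `M`). From the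
last block upwards: to the rows of a block one can add combinations of the rows of the lower blocks (left multiplication by
`UT τ`); if the rows of the block are in the span of the rows of the lower blocks, the block can be cleared; this fails for at most
`K` blocks (rank). So every orbit contains a matrix which is zero outside of at most `K` blocks of at most `m` rows: at most
`n^K q^(m K^2)` such matrices (`K` places, `m K` entries each). -/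
def S_RA2 : Prop :=
  ∀ (F : Type) [Field F] [Fintype F] [DecidableEq F] (m : ℕ) (τ : List (ℕ × Bool)) (K : ℕ), vl m τ →
    K ≤ sz τ →
    ∃ R : Finset (GL (Fin (sz τ)) F), R.card ≤ (sz τ) ^ K * Nat.card F ^ (m * K ^ 2) ∧
      ∀ g : GL (Fin (sz τ)) F, ∃ h k : GL (Fin (sz τ)) F,
        UT τ (h : Matrix (Fin (sz τ)) (Fin (sz τ)) F) ∧ k ∈ FLC.HK (sz τ) F K ∧ h * g * k ∈ R

/-- **RNK**. Let `y_j = g e_j`, `j < K`, and `Y` the space of the row vectors `φ` with `φ · y_j = 0` for all `j < K`, of dimension `≥ n - K`. Some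
`φ ∈ Y` has its first nonzero coordinate `i` in a block with a flag: otherwise the restriction to the other `n - rk τ` coordinates is
injective on `Y`. The block of `i` (size `d`) is linked to the block before it (same size); let `u` be the matrix `1 + s E`, `E` with the row
`i - d` equal to `φ` and the other rows `0`. It is in `UT τ`, `u y_j = y_j`, and `tv τ u = s φ_i`. Choose `s` with `ψ (s φ_i) ≠ 1`. -/
def S_RNK : Prop :=
  ∀ (F : Type) [Field F] [Fintype F] [DecidableEq F] (ψ : AddChar F ℂ), ψ ≠ 1 → ∀ (m : ℕ)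
    (τ : List (ℕ × Bool)), vl m τ → ∀ K : ℕ, K < rk τ → ∀ g : GL (Fin (sz τ)) F,
    ∃ h : GL (Fin (sz τ)) F, UT τ (h : Matrix (Fin (sz τ)) (Fin (sz τ)) F) ∧
      g⁻¹ * h * g ∈ FLC.HK (sz τ) F K ∧ ψ (tv τ (h : Matrix (Fin (sz τ)) (Fin (sz τ)) F)) ≠ 1

/-- **DC0** (compare `FLC/DC.lean`). The sum is `(1/|H||K|)` times the sum over the `g` of the sum over the `h ∈ H ∩ g K g⁻¹` of
`θ(h)⁻¹ χ(g⁻¹ h g)`, a sum of the values of a linear character of `H ∩ g K g⁻¹` that is not trivial, so `0`. All terms of the sum over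
`X` are natural numbers (`FLC.S_MN`). -/
def S_DC0 : Prop :=
  ∀ (G : Type) [Group G] [Fintype G] (H K : Subgroup G) (θ χ : G → ℂ), FLC.LC H θ → FLC.LC K χ →
    (∀ g : G, ∃ h ∈ H, g⁻¹ * h * g ∈ K ∧ θ h ≠ χ (g⁻¹ * h * g)) →
    ∀ X : G → ℂ, IsIrr X → FLC.mlt K χ X ≠ 0 → FLC.mlt H θ X = 0

def M_DC0 : Prop := FLC.S_MN → S_DC0

/-- **MBX**. `S_UTG`: `mu` is a multiplicity (a natural number, `FLC.S_MN`). (1) `FLC.S_DC` with `H = K` and `S_RA1`. (2) `FLC.S_DC` with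
`HK n F K` (`ld l` is a linear character of it) and `S_RA2`; the other multiplicity is at least `1`. (3) `S_DC0` with
`S_RNK`: `fl τ ≤ rk τ` (sizes `≥ 1`), `ld l h = 1` for `h ∈ UT τ` (`det h = 1`). -/
def S_MBX : Prop :=
  ∀ (F : Type) [Field F] [Fintype F] [DecidableEq F] (ψ : AddChar F ℂ), ψ ≠ 1 → ∀ (m : ℕ), 1 ≤ m →
    ∀ (τ : List (ℕ × Bool)), vl m τ → ∀ X : GL (Fin (sz τ)) F → ℂ, IsIrr X →
      ‖mu ψ τ (FLC.xm X)‖ ^ 2 ≤ ((sz τ).factorial : ℝ) * (Nat.card F : ℝ) ^ (m * sz τ) ∧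
      ∀ (K : ℕ) (l : Fˣ →* ℂˣ), K ≤ sz τ → FLC.mlt (FLC.HK (sz τ) F K) (FLC.ld l) X ≠ 0 →
        ‖mu ψ τ (FLC.xm X)‖ ≤ (sz τ : ℝ) ^ K * (Nat.card F : ℝ) ^ (m * K ^ 2) ∧
        (K < fl τ → mu ψ τ (FLC.xm X) = 0)

def M_MBX : Prop :=
  FLC.S_MN → FLC.S_DC → S_UTG → S_RA1 → S_RA2 → S_RNK → S_DC0 → S_MBX

/-! ## 5. The character bound -/

/-- **XNM**, the numerical part of `S_XMB` (compare `FLC/FLN.lean`). `D ≥ q^(n j/2) / 4`, `j ≥ 1`, `m` fixed; take logarithms to the base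
`q`, `log_q n ≤ log_2 n`. `4`, `q^((m²+m)/2)`, `2 j + 1`, `n^(2j)`, `KK^(4j) = (m+1)^(4j) q^(2 (m²+2m) j)` are each at most `D^(ε/7)` for
`n ≥ r`; `B ≤ D^(ε/7)`: if `j ≤ η n` then `B ≤ n^(2j) q^(4 m η n j)`, otherwise `B ≤ (n! q^(m n))^(1/2)` and `n j/2 ≥ η n²/2`. -/
def S_XNM : Prop :=
  ∀ (m : ℕ) (ε : ℝ), 1 ≤ m → 0 < ε → ∃ r : ℕ, ∀ n : ℕ, r ≤ n → ∀ (q j : ℕ) (D B : ℝ), 2 ≤ q → 1 ≤ j →
    0 ≤ B → (q : ℝ) ^ ((n : ℝ) * j / 2) ≤ 4 * D → B ^ 2 ≤ (n.factorial : ℝ) * (q : ℝ) ^ (m * n) →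
    B ≤ (n : ℝ) ^ (2 * j) * (q : ℝ) ^ (4 * m * j ^ 2) →
    1 ≤ D ∧ 4 * (q : ℝ) ^ (((m : ℝ) ^ 2 + m) / 2) *
      (1 + (2 * j + 1) * (n : ℝ) ^ (2 * j) * KK m q ^ (4 * j) * B) ≤ D ^ ε

/-- **XMB**, the sharp character bound. `ψ`, `j = j X ≥ 1` (`X 1 ≠ 1`), `K ≤ 2 j` from `FLC.S_STR`. `B = min((n! q^(m n))^(1/2), n^(2j) q^(4 m j²))`,
`c s = B` for `s ≤ 2 j` and `0` for `s > 2 j`: `BF ψ m n c (xm X)` by `S_MBX` (`n^K q^(m K²) ≤ n^(2j) q^(4 m j²)`). `S_CHN`: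
`TT n K' c ≤ (2 j + 1) n^(2j) K'^(4j) B =: T`, `K' = KK m q`, `T^(1-1/m) ≤ 1 + T`, `(4 D)^(1/m) ≤ 4 D^(1/m)`,
`pt ≤ q^((m²+m)/2) δ^(1/2)`, `δ = cN x q^(-n²/m) ≥ 1` (`S_TYP`, Cauchy-Schwarz). `S_XNM`. -/
def S_XMB : Prop :=
  ∀ m : ℕ, 2 ≤ m → ∀ ε : ℝ, 0 < ε → ∃ r : ℕ, ∀ n : ℕ, r ≤ n →
    ∀ (F : Type) [Field F] [Fintype F] [DecidableEq F] (X : GL (Fin n) F → ℂ), IsIrr X → X 1 ≠ 1 →
    ∀ g₀ : F[X], g₀.Monic → g₀.natDegree = m → ∀ x : GL (Fin n) F,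
      aeval (x : Matrix (Fin n) (Fin n) F) g₀ = 0 →
      ‖X x‖ ≤ ((cN (x : Matrix (Fin n) (Fin n) F) : ℝ) *
          (Nat.card F : ℝ) ^ (-((n : ℝ) ^ 2 / m))) ^ (1 / 2 : ℝ) * (X 1).re ^ (1 / (m : ℝ) + ε)

def M_XMB : Prop := FLC.S_STR → S_TYP → S_CHN → S_MBX → S_XNM → S_XMB

/-! ## 6. Surjectivity for all `q` with the sharp weights -/

/-- **CLR** (copy `SRJ/CLQ.lean`, exponent `1/2`): the sum over the class of `A` is at most
`4^k |GL_n| / cN A · (cN A q^(-n²/k))^(1/2) ≤ 4^k |GL_n| q^(-n²/k)` as `cN A ≥ q^(n²/k)`. -/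
def S_CLR : Prop :=
  ∀ k : ℕ, 1 ≤ k → ∃ C : ℝ, 0 ≤ C ∧ ∀ n, 1 ≤ n → ∀ (F : Type) [Field F] [Finite F],
    ∑ᶠ A : CA n F k, ((cN A.1.1 : ℝ) * (Nat.card F : ℝ) ^ (-((n : ℝ) ^ 2 / k))) ^ (1 / 2 : ℝ) ≤
      ((n : ℝ) + 1) ^ k * (Nat.card F : ℝ) ^ C * Nat.card (CA n F k)

def M_CLR : Prop := S_HMF → S_AUL → RSF.S_JL → S_CLR

/-- **SBX** (copy `SRJ/SBA.lean` with `S_XMB` for `g₀ = X^k - λ`, exponent `1/k + ε/2`, and `S_CLR`). -/
def S_SBX : Prop :=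
  ∀ k : ℕ, 2 ≤ k → ∀ ε : ℝ, 0 < ε → ∃ r : ℕ, ∀ n, r ≤ n → ∀ (F : Type) [Field F] [Finite F],
    SB k (1 / (k : ℝ) + ε) n F

def M_SBX : Prop := FLC.S_STR → S_XMB → S_CLR → S_POL → S_SBX

/-- **NUZ** (copy `SRJ/NUX.lean`; the weight of `k` is `1 - 1/k` for all `q`, the total weight is `sig m`). -/
def S_NUZ : Prop :=
  ∀ m : List ℕ, (∀ k ∈ m, 2 ≤ k) → 1 < sig m → ∃ (c : ℝ) (r : ℕ), 0 < c ∧ 1 ≤ r ∧ ∀ n, r ≤ n →
    ∀ (F : Type) [Field F] [Finite F], V2 (PS n F) m ≤ (Nat.card F : ℝ) ^ (-c * (n : ℝ))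

def M_NUZ : Prop := S_SBX → S_LTP → S_NUZ

/-- Q1 for the family `PSL_n(q)`, `n ≥ r`, all `q`, and the groups of the four open classes whose list of periods contains
sufficiently many disjoint parts with `∑ (1 - 1/k) > 1` (a part with at least two periods, not `(2, 2)`): one part for oriented
genus 1 and non-oriented genus 2, two for non-oriented genus 1, three for oriented genus 0. -/
def MainV : Prop :=
  ∀ m₁ m₂ m₃ : List ℕ, (∀ k ∈ m₁ ++ m₂ ++ m₃, 2 ≤ k) → 1 < sig m₁ →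
    ∃ r : ℕ, ∀ ε : ℝ, 0 < ε → ∃ N : ℕ,
    ∀ n, r ≤ n → ∀ (F : Type) [Field F] [Finite F], N ≤ Nat.card (PS n F) →
      1 - ε ≤ prob (OGroup 1 m₁) (PS n F) (fun ρ => Function.Surjective ρ) ∧
      1 - ε ≤ prob (NGroup 2 m₁) (PS n F) (fun ρ => Function.Surjective ρ) ∧
      (1 < sig m₂ →
        1 - ε ≤ prob (NGroup 1 (m₁ ++ m₂)) (PS n F) (fun ρ => Function.Surjective ρ) ∧
        (1 < sig m₃ →
          1 - ε ≤ prob (OGroup 0 (m₁ ++ m₂ ++ m₃)) (PS n F) (fun ρ => Function.Surjective ρ)))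

/-- **MAV** (copy `SRJ/MAU.lean` with `S_NUZ`). -/
def M_MAV : Prop := S_NUZ → S_ZEP → S_TVB → S_TVA → S_TVO → S_GEN → MainV

end

end FLX
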