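import Mathlib
import Pool.Agent.FLX.StX

set_option autoImplicit false

/-!
# Module CHN: the induction and the bound for `GL_n(q)`
-/

namespace FLX

open RSF FL0 SRJ Polynomial Pool.Agent.Lib_helper13

/-- the value at `1` of a character is its degree -/
theorem chn_re_nonneg {G : Type} [Group G] {X : G → ℂ} (hX : IsChr X) : 0 ≤ (X 1).re := by
  obtain ⟨n, ρ, rfl⟩ := hX
  rw [Representation.char_one]
  simp

theorem chn_pt_nonneg {F : Type} [Field F] (m : ℕ) {n : ℕ} (A : Matrix (Fin n) (Fin n) F) :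
    0 ≤ pt m A := by
  unfold pt
  refine Real.rpow_nonneg (le_max_of_le_right ?_) _
  positivity

theorem chn_all (hI : S_IFR) (hS : S_IST) (m : ℕ) (hm : 2 ≤ m) (F : Type) [Field F] [Fintype F]
    [DecidableEq F] (ψ : AddChar F ℂ) (hψ : ψ ≠ 1) (g₀ : F[X]) (hg : g₀.Monic)
    (hd : g₀.natDegree = m) (n : ℕ) :
    Fr ψ m g₀ n ∧ ∀ d, 1 ≤ d → d ≤ m → St ψ m g₀ n d := by
  induction n using Nat.strong_induction_on with
  | _ n ih =>
    have hF : Fr ψ m g₀ n := hI m hm F ψ hψ g₀ hg hd n fun b d hb h1 h2 => (ih b hb).2 d h1 h2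
    exact ⟨hF, fun d h1 h2 => hS m hm F ψ hψ g₀ hg hd n d h1 h2 hF fun b hb => (ih b hb).2 d h1 h2⟩

theorem t_CHN : M_CHN := by
  intro hI hS hP m hm F _ _ _ ψ hψ g₀ hg hd n X hX c hc hB x hx
  have hF := (chn_all hI hS m hm F ψ hψ g₀ hg hd n).1
  have h1 := hF Unit (fun p => X p.1) (hX.comp (MonoidHom.fst (GL (Fin n) F) Unit)) c hc hB x () hx
  refine h1.trans ?_
  have hq : (2 : ℝ) ≤ Nat.card F := by
    rw [Nat.card_eq_fintype_card]
    exact_mod_cast Fintype.one_lt_card (α := F)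
  have hK : 0 ≤ KK m (Nat.card F : ℝ) := by
    unfold KK
    positivity
  have hT := (hP.1 n n (KK m (Nat.card F)) c le_rfl hK hc).1
  have hp4 := hP.2.2.2.2.2 (Nat.card F) n hq
  have hp1 := (hP.2.2.2.1 (Nat.card F) n n hq le_rfl).1
  have hr : 0 ≤ (X 1).re := chn_re_nonneg hX
  have hpt := chn_pt_nonneg m (x : Matrix (Fin n) (Fin n) F)
  refine mul_le_mul_of_nonneg_left ?_ (mul_nonneg hpt (Real.rpow_nonneg hT _))
  refine Real.rpow_le_rpow (mul_nonneg (by linarith) hr) ?_ (by positivity)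
  exact mul_le_mul_of_nonneg_right hp4 hr

end FLX
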