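import Mathlib
import Pool.Agent.FLX.StX
import Pool.Agent.SRJ.PHC

/-!
# FLX, CHR: the characters of the isotypic spaces for the block groups
-/

set_option autoImplicit false

namespace FLX

open RSF FL0 SRJ Polynomial Pool.Agent.Lib_helper13

section

variable {F : Type} [Field F] {a b d : ℕ} {C : Type} [Group C]

/-- the elements of the unipotent radical -/
def chr_u (C : Type) [Group C] (v : Matrix (Fin a) (Fin d) F) : PB a d F × C := (⟨1, 1, v⟩, 1)

theorem chr_u_add (v w : Matrix (Fin a) (Fin d) F) :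
    chr_u C (v + w) = chr_u C v * chr_u C w := by
  refine Prod.ext ?_ ?_
  · show (⟨1, 1, v + w⟩ : PB a d F) = ⟨1, 1, v⟩ * ⟨1, 1, w⟩
    ext1
    · rw [PB.mul_g, one_mul]
    · rw [PB.mul_h, one_mul]
    · rw [PB.mul_v, Matrix.GeneralLinearGroup.coe_one, Matrix.GeneralLinearGroup.coe_one,
        Matrix.one_mul, Matrix.mul_one, add_comm]
  · show (1 : C) = 1 * 1
    rw [one_mul]

/-- the bijection `v ↦ G v h⁻¹` -/
def chr_c (G : GL (Fin a) F) (h : GL (Fin d) F) :
    Matrix (Fin a) (Fin d) F ≃ Matrix (Fin a) (Fin d) F where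
  toFun v := (G : Matrix (Fin a) (Fin a) F) * v *
    ((h⁻¹ : GL (Fin d) F) : Matrix (Fin d) (Fin d) F)
  invFun v := ((G⁻¹ : GL (Fin a) F) : Matrix (Fin a) (Fin a) F) * v *
    (h : Matrix (Fin d) (Fin d) F)
  left_inv v := by
    have h1 : ((h⁻¹ : GL (Fin d) F) : Matrix (Fin d) (Fin d) F) * (h : Matrix (Fin d) (Fin d) F) = 1 := by
      rw [← Matrix.GeneralLinearGroup.coe_mul, inv_mul_cancel, Matrix.GeneralLinearGroup.coe_one]
    have h2 : ((G⁻¹ : GL (Fin a) F) : Matrix (Fin a) (Fin a) F) * (G : Matrix (Fin a) (Fin a) F) = 1 := by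
      rw [← Matrix.GeneralLinearGroup.coe_mul, inv_mul_cancel, Matrix.GeneralLinearGroup.coe_one]
    show ((G⁻¹ : GL (Fin a) F) : Matrix (Fin a) (Fin a) F) *
      ((G : Matrix (Fin a) (Fin a) F) * v * ((h⁻¹ : GL (Fin d) F) : Matrix (Fin d) (Fin d) F)) *
      (h : Matrix (Fin d) (Fin d) F) = v
    calc ((G⁻¹ : GL (Fin a) F) : Matrix (Fin a) (Fin a) F) *
          ((G : Matrix (Fin a) (Fin a) F) * v * ((h⁻¹ : GL (Fin d) F) : Matrix (Fin d) (Fin d) F)) *
          (h : Matrix (Fin d) (Fin d) F)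
        = (((G⁻¹ : GL (Fin a) F) : Matrix (Fin a) (Fin a) F) * (G : Matrix (Fin a) (Fin a) F)) * v *
          (((h⁻¹ : GL (Fin d) F) : Matrix (Fin d) (Fin d) F) * (h : Matrix (Fin d) (Fin d) F)) := by
          simp only [Matrix.mul_assoc]
      _ = v := by rw [h1, h2, Matrix.one_mul, Matrix.mul_one]
  right_inv v := by
    have h1 : (h : Matrix (Fin d) (Fin d) F) * ((h⁻¹ : GL (Fin d) F) : Matrix (Fin d) (Fin d) F) = 1 := by
      rw [← Matrix.GeneralLinearGroup.coe_mul, mul_inv_cancel, Matrix.GeneralLinearGroup.coe_one]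
    have h2 : (G : Matrix (Fin a) (Fin a) F) * ((G⁻¹ : GL (Fin a) F) : Matrix (Fin a) (Fin a) F) = 1 := by
      rw [← Matrix.GeneralLinearGroup.coe_mul, mul_inv_cancel, Matrix.GeneralLinearGroup.coe_one]
    show (G : Matrix (Fin a) (Fin a) F) *
      (((G⁻¹ : GL (Fin a) F) : Matrix (Fin a) (Fin a) F) * v * (h : Matrix (Fin d) (Fin d) F)) *
      ((h⁻¹ : GL (Fin d) F) : Matrix (Fin d) (Fin d) F) = v
    calc (G : Matrix (Fin a) (Fin a) F) *
          (((G⁻¹ : GL (Fin a) F) : Matrix (Fin a) (Fin a) F) * v * (h : Matrix (Fin d) (Fin d) F)) *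
          ((h⁻¹ : GL (Fin d) F) : Matrix (Fin d) (Fin d) F)
        = ((G : Matrix (Fin a) (Fin a) F) * ((G⁻¹ : GL (Fin a) F) : Matrix (Fin a) (Fin a) F)) * v *
          ((h : Matrix (Fin d) (Fin d) F) * ((h⁻¹ : GL (Fin d) F) : Matrix (Fin d) (Fin d) F)) := by
          simp only [Matrix.mul_assoc]
      _ = v := by rw [h1, h2, Matrix.one_mul, Matrix.mul_one]

theorem chr_c_mul (G : GL (Fin a) F) (h : GL (Fin d) F) (c : C) (v : Matrix (Fin a) (Fin d) F) :
    ((⟨G, h, 0⟩ : PB a d F), c) * chr_u C v = chr_u C (chr_c G h v) * ((⟨G, h, 0⟩ : PB a d F), c) := by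
  have h1 : ((h⁻¹ : GL (Fin d) F) : Matrix (Fin d) (Fin d) F) * (h : Matrix (Fin d) (Fin d) F) = 1 := by
    rw [← Matrix.GeneralLinearGroup.coe_mul, inv_mul_cancel, Matrix.GeneralLinearGroup.coe_one]
  refine Prod.ext ?_ ?_
  · show (⟨G, h, 0⟩ : PB a d F) * ⟨1, 1, v⟩ = ⟨1, 1, chr_c G h v⟩ * ⟨G, h, 0⟩
    ext1
    · rw [PB.mul_g, PB.mul_g, mul_one, one_mul]
    · rw [PB.mul_h, PB.mul_h, mul_one, one_mul]
    · rw [PB.mul_v, PB.mul_v]
      show (G : Matrix (Fin a) (Fin a) F) * v + 0 * ((1 : GL (Fin d) F) : Matrix (Fin d) (Fin d) F) =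
        ((1 : GL (Fin a) F) : Matrix (Fin a) (Fin a) F) * 0 +
          (G : Matrix (Fin a) (Fin a) F) * v *
            ((h⁻¹ : GL (Fin d) F) : Matrix (Fin d) (Fin d) F) * (h : Matrix (Fin d) (Fin d) F)
      rw [Matrix.zero_mul, Matrix.mul_zero, add_zero, zero_add, Matrix.mul_assoc _ _
        (h : Matrix (Fin d) (Fin d) F), h1, Matrix.mul_one]
  · show c * 1 = 1 * c
    rw [mul_one, one_mul]

theorem chr_u_mul (G : GL (Fin a) F) (h : GL (Fin d) F) (c : C) (v : Matrix (Fin a) (Fin d) F) :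
    chr_u C v * ((⟨G, h, 0⟩ : PB a d F), c) =
      ((⟨G, h, v * (h : Matrix (Fin d) (Fin d) F)⟩ : PB a d F), c) := by
  refine Prod.ext ?_ ?_
  · show (⟨1, 1, v⟩ : PB a d F) * ⟨G, h, 0⟩ = ⟨G, h, v * (h : Matrix (Fin d) (Fin d) F)⟩
    ext1
    · rw [PB.mul_g, one_mul]
    · rw [PB.mul_h, one_mul]
    · rw [PB.mul_v, Matrix.mul_zero, zero_add]
  · show 1 * c = c
    rw [one_mul]

/-- the embedding of the block diagonal matrices -/
def chr_j0 (a d : ℕ) (F : Type) [Field F] (C : Type) [Group C] :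
    GL (Fin a) F × (GL (Fin d) F × C) →* PB a d F × C where
  toFun p := (⟨p.1, p.2.1, 0⟩, p.2.2)
  map_one' := rfl
  map_mul' p p' := by
    refine Prod.ext ?_ rfl
    show (⟨p.1 * p'.1, p.2.1 * p'.2.1, 0⟩ : PB a d F) = ⟨p.1, p.2.1, 0⟩ * ⟨p'.1, p'.2.1, 0⟩
    ext1
    · rfl
    · rfl
    · rw [PB.mul_v, Matrix.mul_zero, Matrix.zero_mul, add_zero]

/-- the embedding of the stabilizer of the character -/
def chr_j1 (b d : ℕ) (F : Type) [Field F] (C : Type) [Group C] :
    PB b d F × C →* PB (b + d) d F × C where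
  toFun p := (⟨PB.emb p.1, p.1.h, 0⟩, p.2)
  map_one' := by
    refine Prod.ext ?_ rfl
    show (⟨PB.emb (1 : PB b d F), (1 : PB b d F).h, 0⟩ : PB (b + d) d F) = 1
    ext1
    · show PB.emb (1 : PB b d F) = 1
      rw [map_one]
    · rfl
    · rfl
  map_mul' p p' := by
    refine Prod.ext ?_ rfl
    show (⟨PB.emb (p.1 * p'.1), (p.1 * p'.1).h, 0⟩ : PB (b + d) d F) =
      ⟨PB.emb p.1, p.1.h, 0⟩ * ⟨PB.emb p'.1, p'.1.h, 0⟩
    ext1
    · rw [PB.mul_g]
      show PB.emb (p.1 * p'.1) = PB.emb p.1 * PB.emb p'.1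
      rw [map_mul]
    · rfl
    · rw [PB.mul_v, Matrix.mul_zero, Matrix.zero_mul, add_zero]

/-! ## The functional `lk` -/

theorem chr_lk_add (v w : Matrix (Fin a) (Fin d) F) : lk (v + w) = lk v + lk w := by
  unfold lk
  rw [← Finset.sum_add_distrib]
  refine Finset.sum_congr rfl fun i _ => ?_
  rw [← Finset.sum_add_distrib]
  refine Finset.sum_congr rfl fun j _ => ?_
  split_ifs
  · rw [Matrix.add_apply]
  · rw [add_zero]

theorem chr_lk_zero : lk (0 : Matrix (Fin a) (Fin d) F) = 0 := by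
  unfold lk
  refine Finset.sum_eq_zero fun i _ => Finset.sum_eq_zero fun j _ => ?_
  split_ifs
  · rw [Matrix.zero_apply]
  · rfl

theorem chr_lk_neg (v : Matrix (Fin a) (Fin d) F) : lk (-v) = -(lk v) := by
  have h1 := chr_lk_add v (-v)
  rw [add_neg_cancel, chr_lk_zero] at h1
  exact eq_neg_of_add_eq_zero_right h1.symm

theorem chr_lk_trace (v : Matrix (Fin (b + d)) (Fin d) F) : lk v = (b0 b d F * v).trace := by
  unfold lk
  rw [Finset.sum_comm, Matrix.trace]
  refine Finset.sum_congr rfl fun j _ => ?_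
  rw [Matrix.diag_apply, Matrix.mul_apply]
  refine Finset.sum_congr rfl fun i _ => ?_
  unfold b0
  by_cases h : i.val = b + j.val
  · rw [if_pos (by omega), if_pos h, one_mul]
  · rw [if_neg (by omega), if_neg h, zero_mul]

theorem chr_b0_mul (g : Matrix (Fin b) (Fin b) F) (v : Matrix (Fin b) (Fin d) F)
    (h : Matrix (Fin d) (Fin d) F) : b0 b d F * bm g v h = h * b0 b d F := by
  ext i k
  rw [Matrix.mul_apply, Matrix.mul_apply]
  have h1 : ∑ j, b0 b d F i j * bm g v h j k = bm g v h (Fin.natAdd b i) k := by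
    rw [Finset.sum_eq_single (Fin.natAdd b i)]
    · unfold b0
      rw [if_pos (by simp), one_mul]
    · intro j _ hj
      unfold b0
      rw [if_neg (fun h' => hj (Fin.ext (by simpa using h'))), zero_mul]
    · intro h'
      exact absurd (Finset.mem_univ _) h'
  rw [h1]
  induction k using Fin.addCases with
  | left k =>
    have h2 : bm g v h (Fin.natAdd b i) (Fin.castAdd d k) = 0 := by
      simp [bm, Matrix.reindex_apply]
    rw [h2]
    refine (Finset.sum_eq_zero fun j _ => ?_).symm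
    unfold b0
    have := k.isLt
    rw [if_neg (by simp only [Fin.val_castAdd]; omega), mul_zero]
  | right k =>
    have h2 : bm g v h (Fin.natAdd b i) (Fin.natAdd b k) = h i k := by
      simp [bm, Matrix.reindex_apply]
    rw [h2, Finset.sum_eq_single k]
    · unfold b0
      rw [if_pos (by simp), mul_one]
    · intro j _ hj
      unfold b0
      rw [if_neg (fun h' => hj (Fin.ext (by simp only [Fin.val_natAdd] at h'; omega))), mul_zero]
    · intro h'
      exact absurd (Finset.mem_univ _) h'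

theorem chr_lk_conj (p : PB b d F) (v : Matrix (Fin (b + d)) (Fin d) F) :
    lk (chr_c (PB.emb p) p.h v) = lk v := by
  rw [chr_lk_trace, chr_lk_trace]
  have h1 : ((p.h⁻¹ : GL (Fin d) F) : Matrix (Fin d) (Fin d) F) *
      (p.h : Matrix (Fin d) (Fin d) F) = 1 := by
    rw [← Matrix.GeneralLinearGroup.coe_mul, inv_mul_cancel, Matrix.GeneralLinearGroup.coe_one]
  show (b0 b d F * ((PB.emb p : Matrix (Fin (b + d)) (Fin (b + d)) F) * v *
    ((p.h⁻¹ : GL (Fin d) F) : Matrix (Fin d) (Fin d) F))).trace = _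
  rw [← Matrix.mul_assoc, ← Matrix.mul_assoc, PB.emb_val, chr_b0_mul, Matrix.trace_mul_comm,
    ← Matrix.mul_assoc, ← Matrix.mul_assoc, h1, Matrix.one_mul]

/-- the additive character `ψ (lk v)` -/
def chr_th (ψ : AddChar F ℂ) (a d : ℕ) : AddChar (Matrix (Fin a) (Fin d) F) ℂ where
  toFun v := ψ (lk v)
  map_zero_eq_one' := by
    show ψ (lk (0 : Matrix (Fin a) (Fin d) F)) = 1
    rw [chr_lk_zero, AddChar.map_zero_eq_one]
  map_add_eq_mul' v w := by
    show ψ (lk (v + w)) = ψ (lk v) * ψ (lk w)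
    rw [chr_lk_add, AddChar.map_add_eq_mul]

theorem chr_card [Fintype F] (a d : ℕ) :
    (Fintype.card (Matrix (Fin a) (Fin d) F) : ℂ) = (Nat.card F : ℂ) ^ (a * d) := by
  have h1 : Fintype.card (Matrix (Fin a) (Fin d) F) = Nat.card F ^ (a * d) := by
    rw [← Nat.card_eq_fintype_card]
    show Nat.card (Fin a → Fin d → F) = _
    rw [Nat.card_fun, Nat.card_fun, Nat.card_fin, Nat.card_fin, ← pow_mul, mul_comm]
  rw [h1, Nat.cast_pow]

end

theorem t_CHR : S_CHR := by
  classical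
  intro F _ _ _ ψ C _ _
  refine ⟨?_, ?_, ?_⟩
  · intro a d X hX
    obtain ⟨N, ρ, rfl⟩ := hX
    have : Fintype (PB a d F × C) := Fintype.ofFinite _
    have h1 := phc_main ρ (chr_u (a := a) (d := d) (F := F) C)
      (1 : AddChar (Matrix (Fin a) (Fin d) F) ℂ) (fun v w => chr_u_add v w) (chr_j0 a d F C)
      (fun p => ⟨chr_c p.1 p.2.1, fun v => chr_c_mul p.1 p.2.1 p.2.2 v, fun v => by
        rw [AddChar.one_apply, AddChar.one_apply]⟩)
    have h2 : X0 ρ.character = fun p : GL (Fin a) F × (GL (Fin d) F × C) =>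
        (Fintype.card (Matrix (Fin a) (Fin d) F) : ℂ)⁻¹ * ∑ v : Matrix (Fin a) (Fin d) F,
          (1 : AddChar (Matrix (Fin a) (Fin d) F) ℂ) (-v) *
            ρ.character (chr_u C v * chr_j0 a d F C p) := by
      funext p
      rw [X0, div_eq_inv_mul, chr_card]
      congr 1
      refine (Fintype.sum_equiv (chr_c 1 p.2.1⁻¹) _ _ fun v => ?_).symm
      rw [AddChar.one_apply, one_mul]
      have h3 : chr_u C v * chr_j0 a d F C p =
          ((⟨p.1, p.2.1, v * (p.2.1 : Matrix (Fin d) (Fin d) F)⟩ : PB a d F), p.2.2) :=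
        chr_u_mul p.1 p.2.1 p.2.2 v
      rw [h3]
      have h4 : chr_c (1 : GL (Fin a) F) p.2.1⁻¹ v = v * (p.2.1 : Matrix (Fin d) (Fin d) F) := by
        show ((1 : GL (Fin a) F) : Matrix (Fin a) (Fin a) F) * v *
          (((p.2.1⁻¹)⁻¹ : GL (Fin d) F) : Matrix (Fin d) (Fin d) F) = _
        rw [inv_inv, Matrix.GeneralLinearGroup.coe_one, Matrix.one_mul]
      rw [h4]
    rw [h2]
    exact h1
  · intro b d X hX
    obtain ⟨N, ρ, rfl⟩ := hX
    have : Fintype (PB (b + d) d F × C) := Fintype.ofFinite _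
    have h1 := phc_main ρ (chr_u (a := b + d) (d := d) (F := F) C) (chr_th ψ (b + d) d)
      (fun v w => chr_u_add v w) (chr_j1 b d F C)
      (fun p => ⟨chr_c (PB.emb p.1) p.1.h, fun v => chr_c_mul (PB.emb p.1) p.1.h p.2 v, fun v => by
        show ψ (lk (chr_c (PB.emb p.1) p.1.h v)) = ψ (lk v)
        rw [chr_lk_conj]⟩)
    have h2 : X1 ψ ρ.character = fun p : PB b d F × C =>
        (Fintype.card (Matrix (Fin (b + d)) (Fin d) F) : ℂ)⁻¹ *
          ∑ v : Matrix (Fin (b + d)) (Fin d) F, chr_th ψ (b + d) d (-v) *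
            ρ.character (chr_u C v * chr_j1 b d F C p) := by
      funext p
      rw [X1, div_eq_inv_mul, chr_card]
      congr 1
      refine Finset.sum_congr rfl fun v _ => ?_
      have h3 : chr_u C v * chr_j1 b d F C p =
          ((⟨PB.emb p.1, p.1.h, v * (p.1.h : Matrix (Fin d) (Fin d) F)⟩ : PB (b + d) d F), p.2) :=
        chr_u_mul (PB.emb p.1) p.1.h p.2 v
      rw [h3]
      congr 1
      show ψ (-(lk v)) = ψ (lk (-v))
      rw [chr_lk_neg]
    rw [h2]
    exact h1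
  · intro a d X hX
    exact hX.comp ((PB.emb (a := a) (d := d) (F := F)).prodMap (MonoidHom.id C))

end FLX
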