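import Mathlib
import Pool.Agent.FLX.StX

set_option autoImplicit false

/-!
The number of the intertwiners `B`, `h B = B g`, that kill `ker f(g)^t`, `f = charpoly h` irreducible.
-/

namespace FLX

open RSF FL0 SRJ Polynomial Pool.Agent.Lib_helper13

section

variable {F : Type} [Field F]

/-- `p(h) B = B p(g)` if `h B = B g` -/
theorem cnb_aeval {a d : ℕ} (g : Matrix (Fin a) (Fin a) F) (h : Matrix (Fin d) (Fin d) F)
    (B : Matrix (Fin d) (Fin a) F) (hB : h * B = B * g) (p : F[X]) :
    aeval h p * B = B * aeval g p := by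
  induction p using Polynomial.induction_on' with
  | add p q hp hq => rw [map_add, map_add, Matrix.add_mul, Matrix.mul_add, hp, hq]
  | monomial n c =>
    have hn : h ^ n * B = B * g ^ n := by
      induction n with
      | zero => rw [pow_zero, pow_zero, Matrix.one_mul, Matrix.mul_one]
      | succ n ih =>
        rw [pow_succ, pow_succ, Matrix.mul_assoc, hB, ← Matrix.mul_assoc, ih, Matrix.mul_assoc]
    rw [aeval_monomial, aeval_monomial, ← Algebra.smul_def, ← Algebra.smul_def, Matrix.smul_mul,
      Matrix.mul_smul, hn]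

/-- the vectors `v p(h)` are all vectors, if `charpoly h` is irreducible and `v` is not `0` -/
theorem cnb_span {d : ℕ} (h : Matrix (Fin d) (Fin d) F) (hirr : Irreducible h.charpoly)
    (v : Fin d → F) (hv : v ≠ 0) (w : Fin d → F) :
    ∃ p : F[X], Matrix.vecMul v (aeval h p) = w := by
  let φ : F[X] →ₗ[F] (Fin d → F) :=
    { toFun := fun p => Matrix.vecMul v (aeval h p)
      map_add' := by
        intro p q
        rw [map_add, Matrix.vecMul_add]
      map_smul' := by
        intro c p
        rw [map_smul, Matrix.vecMul_smul]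
        rfl }
  have hφ : ∀ p, φ p = Matrix.vecMul v (aeval h p) := fun p => rfl
  have hfin : Module.Finite F (degreeLT F d) := Module.Finite.equiv (degreeLTEquiv F d).symm
  have hrk : Module.finrank F (degreeLT F d) = Module.finrank F (Fin d → F) :=
    (degreeLTEquiv F d).finrank_eq
  have hinj : Function.Injective (φ.domRestrict (degreeLT F d)) := by
    rw [← LinearMap.ker_eq_bot, LinearMap.ker_eq_bot']
    rintro ⟨p, hp⟩ hp0
    have hp0' : Matrix.vecMul v (aeval h p) = 0 := hp0
    rw [mem_degreeLT] at hp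
    by_contra hne
    have hpne : p ≠ 0 := by
      intro h0
      exact hne (Subtype.ext h0)
    have hdeg : p.degree < h.charpoly.degree := by
      rw [Matrix.charpoly_degree_eq_dim, Fintype.card_fin]
      exact hp
    have hcop : IsCoprime h.charpoly p :=
      (Irreducible.coprime_iff_not_dvd hirr).2 (Polynomial.not_dvd_of_degree_lt hpne hdeg)
    obtain ⟨u, w', huw⟩ := hcop
    have h1 : aeval h (u * h.charpoly + w' * p) = 1 := by rw [huw, map_one]
    rw [map_add, map_mul, Matrix.aeval_self_charpoly, mul_zero, zero_add, mul_comm w' p,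
      map_mul] at h1
    apply hv
    calc v = Matrix.vecMul v 1 := (Matrix.vecMul_one v).symm
      _ = Matrix.vecMul v (aeval h p * aeval h w') := by rw [h1]
      _ = Matrix.vecMul (Matrix.vecMul v (aeval h p)) (aeval h w') :=
          (Matrix.vecMul_vecMul v _ _).symm
      _ = 0 := by rw [hp0', Matrix.zero_vecMul]
  have hsur := (LinearMap.injective_iff_surjective_of_finrank_eq_finrank hrk).1 hinj
  obtain ⟨⟨p, hp⟩, hpw⟩ := hsur w
  exact ⟨p, hpw⟩

/-- an intertwiner is determined by one row -/
theorem cnb_row {a d : ℕ} (g : Matrix (Fin a) (Fin a) F) (h : Matrix (Fin d) (Fin d) F)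
    (hirr : Irreducible h.charpoly) (B : Matrix (Fin d) (Fin a) F) (hB : h * B = B * g)
    (i : Fin d) (hi : B i = 0) : B = 0 := by
  classical
  have hv : (Pi.single i 1 : Fin d → F) ≠ 0 := by
    intro h0
    have := congrFun h0 i
    rw [Pi.single_eq_same] at this
    exact one_ne_zero this
  ext j k
  obtain ⟨p, hp⟩ := cnb_span h hirr (Pi.single i 1) hv (Pi.single j 1)
  have h1 : Matrix.vecMul (Pi.single j 1) B = B j := by
    rw [Matrix.single_one_vecMul]
    rfl
  have h2 : Matrix.vecMul (Pi.single i 1) B = B i := by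
    rw [Matrix.single_one_vecMul]
    rfl
  have h3 : Matrix.vecMul (Pi.single j 1) B = 0 := by
    rw [← hp, Matrix.vecMul_vecMul, cnb_aeval g h B hB p, ← Matrix.vecMul_vecMul, h2, hi,
      Matrix.zero_vecMul]
  rw [← h1, h3]
  rfl

/-- the dimension of `range T + ker T^t` -/
theorem cnb_dim {V : Type} [AddCommGroup V] [Module F V] [FiniteDimensional F V] (T : V →ₗ[F] V)
    (t : ℕ) : Module.finrank F ↥(LinearMap.range T ⊔ LinearMap.ker (T ^ t)) +
      Module.finrank F (LinearMap.ker (T ^ (t + 1))) =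
    Module.finrank F V + Module.finrank F (LinearMap.ker (T ^ t)) := by
  have h1 := Submodule.finrank_sup_add_finrank_inf_eq (LinearMap.range T) (LinearMap.ker (T ^ t))
  have h2 := T.finrank_range_add_finrank_ker
  have hle : LinearMap.ker T ≤ LinearMap.ker (T ^ (t + 1)) := by
    intro x hx
    rw [LinearMap.mem_ker] at hx ⊢
    rw [pow_succ, Module.End.mul_apply, hx, map_zero]
  have h3 := (T.domRestrict (LinearMap.ker (T ^ (t + 1)))).finrank_range_add_finrank_ker
  have h4 : LinearMap.range (T.domRestrict (LinearMap.ker (T ^ (t + 1)))) =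
      LinearMap.range T ⊓ LinearMap.ker (T ^ t) := by
    ext y
    rw [Submodule.mem_inf, LinearMap.mem_range, LinearMap.mem_range, LinearMap.mem_ker]
    constructor
    · rintro ⟨⟨x, hx⟩, rfl⟩
      rw [LinearMap.mem_ker, pow_succ, Module.End.mul_apply] at hx
      exact ⟨⟨x, rfl⟩, hx⟩
    · rintro ⟨⟨x, rfl⟩, hx⟩
      refine ⟨⟨x, ?_⟩, rfl⟩
      rw [LinearMap.mem_ker, pow_succ, Module.End.mul_apply]
      exact hx
  have h5 : Module.finrank F (LinearMap.ker (T.domRestrict (LinearMap.ker (T ^ (t + 1))))) =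
      Module.finrank F (LinearMap.ker T) := by
    have h6 : LinearMap.ker (T.domRestrict (LinearMap.ker (T ^ (t + 1)))) =
        Submodule.comap (LinearMap.ker (T ^ (t + 1))).subtype (LinearMap.ker T) := by
      ext x
      rfl
    rw [h6]
    exact (Submodule.comapSubtypeEquivOfLe hle).finrank_eq
  rw [h4, h5] at h3
  omega

end

theorem t_CNB : S_CNB := by
  classical
  intro F _ _ _ a d g h hirr t
  obtain ⟨H, hH⟩ : ∃ H : Matrix (Fin d) (Fin d) F, H = (h : Matrix (Fin d) (Fin d) F) := ⟨_, rfl⟩
  rw [← hH] at hirr ⊢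
  -- `d` is positive
  have hd : 0 < d := by
    by_contra h0
    have hd0 : d = 0 := by omega
    have h1 : H.charpoly.natDegree = 0 := by
      rw [Matrix.charpoly_natDegree_eq_dim, Fintype.card_fin, hd0]
    have h2 : 0 < H.charpoly.natDegree := hirr.natDegree_pos
    omega
  obtain ⟨i, -⟩ : ∃ i : Fin d, i = ⟨0, hd⟩ := ⟨_, rfl⟩
  obtain ⟨T, hT⟩ : ∃ T : (Fin a → F) →ₗ[F] (Fin a → F),
    T = Matrix.toLin' (aeval g H.charpoly) := ⟨_, rfl⟩
  have hTp : ∀ s : ℕ, Matrix.toLin' ((aeval g H.charpoly) ^ s) = T ^ s := by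
    intro s
    rw [Matrix.toLin'_pow, ← hT]
  have hkd : ∀ s : ℕ, kd g H.charpoly s = Module.finrank F (LinearMap.ker (T ^ s)) := by
    intro s
    rw [kd, hTp]
  have hdim := cnb_dim T t
  rw [hkd, hkd]
  obtain ⟨N, hN⟩ : ∃ N : Submodule F (Fin a → F),
    N = LinearMap.range T ⊔ LinearMap.ker (T ^ t) := ⟨_, rfl⟩
  rw [← hN] at hdim
  have hann := Subspace.finrank_add_finrank_dualAnnihilator_eq N
  have hcard : Nat.card N.dualAnnihilator =
      Nat.card F ^ (Module.finrank F (LinearMap.ker (T ^ (t + 1))) -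
        Module.finrank F (LinearMap.ker (T ^ t))) := by
    rw [Module.natCard_eq_pow_finrank (K := F)]
    congr 1
    omega
  rw [← hcard]
  have hfin : Finite N.dualAnnihilator := by
    have : Finite (Module.Dual F (Fin a → F)) := Module.finite_of_finite F
    exact Subtype.finite
  -- the map
  have hmem : ∀ B : {B : Matrix (Fin d) (Fin a) F // B ∈ ib g H ∧
      ∀ x, ((aeval g H.charpoly) ^ t).mulVec x = 0 → B.mulVec x = 0},
      (LinearMap.proj i ∘ₗ Matrix.toLin' B.1 : Module.Dual F (Fin a → F)) ∈ N.dualAnnihilator := by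
    rintro ⟨B, hB, hBt⟩
    have hBg : H * B = B * g := by
      have := (Finset.mem_filter.1 hB).2.2
      exact this
    rw [Submodule.mem_dualAnnihilator]
    intro x hx
    rw [hN] at hx
    obtain ⟨y, ⟨z, rfl⟩, w, hw, rfl⟩ := Submodule.mem_sup.1 hx
    have h1 : Matrix.toLin' B (T z) = 0 := by
      rw [hT, Matrix.toLin'_apply, Matrix.toLin'_apply, Matrix.mulVec_mulVec,
        ← cnb_aeval g H B hBg H.charpoly, Matrix.aeval_self_charpoly, Matrix.zero_mul,
        Matrix.zero_mulVec]
    have h2 : Matrix.toLin' B w = 0 := by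
      rw [Matrix.toLin'_apply]
      apply hBt
      rw [LinearMap.mem_ker, ← hTp, Matrix.toLin'_apply] at hw
      exact hw
    rw [LinearMap.comp_apply, map_add, h1, h2, add_zero, map_zero]
  refine Nat.card_le_card_of_injective (fun B => (⟨_, hmem B⟩ : N.dualAnnihilator)) ?_
  rintro ⟨B, hB, hBt⟩ ⟨B', hB', hBt'⟩ heq
  have hBg : H * B = B * g := (Finset.mem_filter.1 hB).2.2
  have hBg' : H * B' = B' * g := (Finset.mem_filter.1 hB').2.2
  have h1 : (LinearMap.proj i ∘ₗ Matrix.toLin' B : Module.Dual F (Fin a → F)) =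
      LinearMap.proj i ∘ₗ Matrix.toLin' B' := congrArg Subtype.val heq
  have h2 : (B - B') i = 0 := by
    ext k
    have h3 := LinearMap.congr_fun h1 (Pi.single k 1)
    rw [LinearMap.comp_apply, LinearMap.comp_apply, LinearMap.proj_apply, LinearMap.proj_apply,
      Matrix.toLin'_apply, Matrix.toLin'_apply, Matrix.mulVec_single_one,
      Matrix.mulVec_single_one] at h3
    have h4 : B i k = B' i k := h3
    rw [Matrix.sub_apply, h4, sub_self]
    rfl
  have h3 : B - B' = 0 := cnb_row g H hirr (B - B') (by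
    rw [Matrix.mul_sub, Matrix.sub_mul, hBg, hBg']) i h2
  exact Subtype.ext (sub_eq_zero.1 h3)

end FLX
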