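import Mathlib
import Pool.Agent.FLX.StX
import Pool.Agent.FLC.DC

/-!
# DC0: vanishing of the other multiplicity
-/

set_option autoImplicit false

namespace FLX

open Pool.Agent.Lib_helper13 RSF FLC

noncomputable section

open Classical in
theorem dc0_sum {G : Type} [Group G] [Fintype G] (H K : Subgroup G) (θ χ : G → ℂ)
    (hθ : FLC.LC H θ) :
    ∑ X ∈ irrF G, FLC.mlt H θ X * FLC.mlt K χ X =
      (∑ g : G, ∑ b : G, if b ∈ K ∧ g * b * g⁻¹ ∈ H then θ (g * b * g⁻¹) * (χ b)⁻¹ else 0) /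
        ((Nat.card H : ℂ) * Nat.card K) := by
  have h1 : ∀ X ∈ irrF G, FLC.mlt H θ X * FLC.mlt K χ X =
      (∑ a : G, ∑ b : G, (if a ∈ H then θ a else 0) * (if b ∈ K then (χ b)⁻¹ else 0) *
        (X a⁻¹ * X b)) / ((Nat.card H : ℂ) * Nat.card K) := by
    intro X _
    rw [dc_mlt hθ X, mlt, div_mul_div_comm, Finset.sum_mul_sum]
    congr 1
    refine Finset.sum_congr rfl fun a _ => Finset.sum_congr rfl fun b _ => ?_
    split_ifs <;> ring
  rw [Finset.sum_congr rfl h1, ← Finset.sum_div]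
  congr 1
  rw [Finset.sum_comm]
  have h2 : ∀ a : G, ∑ X ∈ irrF G, ∑ b : G, (if a ∈ H then θ a else 0) *
      (if b ∈ K then (χ b)⁻¹ else 0) * (X a⁻¹ * X b) =
      ∑ b : G, ∑ g : G, if g * b * g⁻¹ = a then (if a ∈ H then θ a else 0) *
        (if b ∈ K then (χ b)⁻¹ else 0) else 0 := by
    intro a
    rw [Finset.sum_comm]
    refine Finset.sum_congr rfl fun b _ => ?_
    rw [← Finset.mul_sum, dc_orth, Finset.mul_sum]
    refine Finset.sum_congr rfl fun g _ => ?_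
    split_ifs <;> simp
  rw [Finset.sum_congr rfl fun a _ => h2 a, Finset.sum_comm]
  have h3 : ∀ b : G, ∑ a : G, ∑ g : G, (if g * b * g⁻¹ = a then (if a ∈ H then θ a else 0) *
        (if b ∈ K then (χ b)⁻¹ else 0) else 0) =
      ∑ g : G, (if g * b * g⁻¹ ∈ H then θ (g * b * g⁻¹) else 0) *
        (if b ∈ K then (χ b)⁻¹ else 0) := by
    intro b
    rw [Finset.sum_comm]
    refine Finset.sum_congr rfl fun g _ => ?_
    rw [Finset.sum_ite_eq, if_pos (Finset.mem_univ _)]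
  rw [Finset.sum_congr rfl fun b _ => h3 b, Finset.sum_comm]
  refine Finset.sum_congr rfl fun g _ => Finset.sum_congr rfl fun b _ => ?_
  by_cases hb : b ∈ K
  · by_cases hg : g * b * g⁻¹ ∈ H
    · rw [if_pos hg, if_pos hb, if_pos ⟨hb, hg⟩]
    · simp [hb, hg]
  · simp [hb]

open Classical in
theorem dc0_inner {G : Type} [Group G] [Fintype G] (H K : Subgroup G) (θ χ : G → ℂ)
    (hθ : FLC.LC H θ) (hχ : FLC.LC K χ) (g : G)
    (hg : ∃ h ∈ H, g⁻¹ * h * g ∈ K ∧ θ h ≠ χ (g⁻¹ * h * g)) :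
    (∑ b : G, if b ∈ K ∧ g * b * g⁻¹ ∈ H then θ (g * b * g⁻¹) * (χ b)⁻¹ else 0) = 0 := by
  obtain ⟨h, hh, hk, hne⟩ := hg
  obtain ⟨b₀, hb₀⟩ : ∃ b₀ : G, b₀ = g⁻¹ * h * g := ⟨_, rfl⟩
  rw [← hb₀] at hk hne
  have hgb : g * b₀ * g⁻¹ = h := by rw [hb₀]; group
  obtain ⟨S, hS⟩ : ∃ S : ℂ, S = ∑ b : G,
    if b ∈ K ∧ g * b * g⁻¹ ∈ H then θ (g * b * g⁻¹) * (χ b)⁻¹ else 0 := ⟨_, rfl⟩
  rw [← hS]
  have hχ0 : χ b₀ ≠ 0 := by
    have := dc_norm hχ hk
    intro h0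
    rw [h0, norm_zero] at this
    exact zero_ne_one this
  have h1 : S = θ h * (χ b₀)⁻¹ * S := by
    have h2 : S = ∑ b : G, if b₀ * b ∈ K ∧ g * (b₀ * b) * g⁻¹ ∈ H then
        θ (g * (b₀ * b) * g⁻¹) * (χ (b₀ * b))⁻¹ else 0 := by
      rw [hS]
      exact (Fintype.sum_equiv (Equiv.mulLeft b₀) _ _ fun b => rfl).symm
    refine h2.trans ?_
    rw [hS, Finset.mul_sum]
    refine Finset.sum_congr rfl fun b _ => ?_
    have e : g * (b₀ * b) * g⁻¹ = h * (g * b * g⁻¹) := by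
      rw [← hgb]; group
    rw [e, K.mul_mem_cancel_left hk, H.mul_mem_cancel_left hh]
    split_ifs with hc
    · rw [hθ.2 h hh _ hc.2, hχ.2 b₀ hk b hc.1, mul_inv]
      ring
    · rw [mul_zero]
  have h3 : (θ h * (χ b₀)⁻¹ - 1) * S = 0 := by
    rw [sub_mul, one_mul, ← h1, sub_self]
  rcases mul_eq_zero.1 h3 with h4 | h4
  · exfalso
    apply hne
    have h5 : θ h * (χ b₀)⁻¹ = 1 := sub_eq_zero.1 h4
    rw [← div_eq_mul_inv, div_eq_one_iff_eq hχ0] at h5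
    exact h5
  · exact h4

theorem t_DC0 : M_DC0 := by
  classical
  intro hMN G _ _ H K θ χ hθ hχ hg X hX hne
  have hsum : ∑ X ∈ irrF G, FLC.mlt H θ X * FLC.mlt K χ X = 0 := by
    rw [dc0_sum H K θ χ hθ, Finset.sum_eq_zero fun g _ => dc0_inner H K θ χ hθ hχ g (hg g), zero_div]
  have hnn : ∀ Y ∈ irrF G, ∃ n : ℕ, FLC.mlt H θ Y * FLC.mlt K χ Y = n := by
    intro Y hY
    obtain ⟨a, ha⟩ := (hMN G Y (mem_irrF.mp hY).isChr).1 H θ hθ
    obtain ⟨b, hb⟩ := (hMN G Y (mem_irrF.mp hY).isChr).1 K χ hχ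
    exact ⟨a * b, by rw [ha, hb]; push_cast; ring⟩
  choose! n hn using hnn
  rw [Finset.sum_congr rfl hn, ← Nat.cast_sum, Nat.cast_eq_zero] at hsum
  have h1 : n X = 0 := (Finset.sum_eq_zero_iff.1 hsum) X (mem_irrF.mpr hX)
  have h2 := hn X (mem_irrF.mpr hX)
  rw [h1, Nat.cast_zero] at h2
  exact (mul_eq_zero.1 h2).resolve_right hne

end

end FLX
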