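import Mathlib
import Pool.Agent.FLX.StX
import Pool.Agent.FLC.MN

/-!
# FLX, module DGR: degrees of the isotypic parts

MP_5b5212_al.
-/

set_option autoImplicit false

namespace FLX

open RSF FL0 SRJ Polynomial Pool.Agent.Lib_helper13 Module

noncomputable section

/-! ### completing linearly independent rows -/

theorem dgr_sumExtend {ι K V : Type*} [DivisionRing K] [AddCommGroup V] [Module K V] {v : ι → V}
    (hs : LinearIndependent K v) (i : ι) : Basis.sumExtend hs (Sum.inl i) = v i := by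
  classical
  unfold Basis.sumExtend
  rw [Basis.reindex_apply, Basis.extend_apply_self]
  simp only [Trans.trans]
  erw [Equiv.Set.sumDiffSubset_apply_inl]
  · rfl
  · exact hs.linearIndepOn_id.subset_extend _

theorem dgr_exists {F : Type} [Field F] (b d : ℕ) (B : Matrix (Fin d) (Fin (b + d)) F)
    (hB : LinearIndependent F (fun i => B i)) :
    ∃ G : GL (Fin (b + d)) F, B = b0 b d F * (G : Matrix (Fin (b + d)) (Fin (b + d)) F) := by
  classical
  set bs := Basis.sumExtend hB with hbs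
  have hfin : Finite (Fin d ⊕ Basis.sumExtendIndex hB) := by
    have h1 := Module.Basis.linearIndependent bs
    exact h1.finite
  have hfin2 : Finite (Basis.sumExtendIndex hB) :=
    Finite.of_injective (Sum.inr : _ → Fin d ⊕ Basis.sumExtendIndex hB) Sum.inr_injective
  have hcard : Nat.card (Basis.sumExtendIndex hB) = b := by
    have h1 : Nat.card (Fin d ⊕ Basis.sumExtendIndex hB) = b + d := by
      rw [← Module.finrank_eq_nat_card_basis bs, Module.finrank_fin_fun]
    rw [Nat.card_sum, Nat.card_eq_fintype_card, Fintype.card_fin] at h1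
    omega
  let e : Basis.sumExtendIndex hB ≃ Fin b := Finite.equivFinOfCardEq hcard
  let e2 : Fin d ⊕ Basis.sumExtendIndex hB ≃ Fin (b + d) :=
    (Equiv.sumComm _ _).trans ((Equiv.sumCongr e (Equiv.refl _)).trans finSumFinEquiv)
  let bs2 := bs.reindex e2
  let M : Matrix (Fin (b + d)) (Fin (b + d)) F := fun i => bs2 i
  have hM : IsUnit M := by
    rw [← Matrix.linearIndependent_rows_iff_isUnit]
    exact bs2.linearIndependent
  refine ⟨hM.unit, ?_⟩
  have h2 : ∀ i : Fin d, M (Fin.natAdd b i) = B i := by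
    intro i
    change bs2 (Fin.natAdd b i) = B i
    rw [Basis.reindex_apply]
    have h3 : e2.symm (Fin.natAdd b i) = Sum.inl i := by
      rw [Equiv.symm_apply_eq]
      simp [e2]
    rw [h3, hbs, dgr_sumExtend]
  ext i j
  rw [IsUnit.unit_spec, Matrix.mul_apply, Finset.sum_eq_single (Fin.natAdd b i)]
  · rw [h2]
    simp [b0]
  · intro k _ hk
    unfold b0
    rw [if_neg, zero_mul]
    intro h4
    exact hk (Fin.ext (by rw [h4]; rfl))
  · intro h
    exact absurd (Finset.mem_univ _) h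

theorem dgr_ne {F : Type} [Field F] {a d : ℕ} (hd : 1 ≤ d) (B : Matrix (Fin d) (Fin a) F)
    (hB : LinearIndependent F (fun i => B i)) : B ≠ 0 := by
  rintro rfl
  exact hB.ne_zero (⟨0, hd⟩ : Fin d) rfl

theorem dgr_lk {F : Type} [Field F] {b d : ℕ} (v : Matrix (Fin (b + d)) (Fin d) F) :
    lk v = (b0 b d F * v).trace := by
  unfold lk Matrix.trace
  rw [Finset.sum_comm]
  refine Finset.sum_congr rfl fun j _ => ?_
  rw [Matrix.diag_apply, Matrix.mul_apply]
  refine Finset.sum_congr rfl fun i _ => ?_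
  unfold b0
  by_cases h : i.val = b + j.val
  · rw [if_pos h, if_pos (by omega), one_mul]
  · rw [if_neg h, if_neg (by omega), zero_mul]

section

variable {F : Type} [Field F] [Fintype F] [DecidableEq F] {a d : ℕ} {C : Type} [Group C] [Fintype C]

/-- the element `⟨1, 1, v⟩` -/
def dgr_u (C : Type) [Group C] (v : Matrix (Fin a) (Fin d) F) : PB a d F × C := (⟨1, 1, v⟩, 1)

omit [Fintype F] [DecidableEq F] [Fintype C] in
theorem dgr_u_add (v w : Matrix (Fin a) (Fin d) F) :
    dgr_u C (v + w) = dgr_u C v * dgr_u C w := by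
  unfold dgr_u
  refine Prod.ext ?_ (one_mul 1).symm
  refine PB.ext (one_mul 1).symm (one_mul 1).symm ?_
  change v + w = ((1 : GL (Fin a) F) : Matrix (Fin a) (Fin a) F) * w +
    v * ((1 : GL (Fin d) F) : Matrix (Fin d) (Fin d) F)
  rw [Matrix.GeneralLinearGroup.coe_one, Matrix.GeneralLinearGroup.coe_one, Matrix.one_mul,
    Matrix.mul_one, add_comm]

/-- the homomorphism `v ↦ ⟨1, 1, v⟩` -/
def dgr_hom (F : Type) [Field F] (a d : ℕ) (C : Type) [Group C] :
    Multiplicative (Matrix (Fin a) (Fin d) F) →* PB a d F × C where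
  toFun v := dgr_u C v.toAdd
  map_one' := rfl
  map_mul' v w := dgr_u_add v.toAdd w.toAdd

/-- the multiplicity of `v ↦ ψ (tr (B v))` -/
def dgr_c (ψ : AddChar F ℂ) (X : PB a d F × C → ℂ) (B : Matrix (Fin d) (Fin a) F) : ℂ :=
  (∑ v : Matrix (Fin a) (Fin d) F, ψ (-(B * v).trace) * X (dgr_u C v)) /
    (Nat.card F : ℂ) ^ (a * d)

omit [DecidableEq F] in
theorem dgr_card : (Nat.card (Matrix (Fin a) (Fin d) F) : ℂ) = (Nat.card F : ℂ) ^ (a * d) := by
  classical
  have h1 : Nat.card (Matrix (Fin a) (Fin d) F) = Nat.card F ^ (a * d) := by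
    have h2 : Nat.card (Matrix (Fin a) (Fin d) F) = Nat.card (Fin a → Fin d → F) := rfl
    rw [h2, Nat.card_eq_fintype_card, Nat.card_eq_fintype_card]
    simp [pow_mul, pow_right_comm]
  rw [h1, Nat.cast_pow]

omit [DecidableEq F] [Fintype C] in
theorem dgr_nat (ψ : AddChar F ℂ) {X : PB a d F × C → ℂ} (hX : IsChr X)
    (B : Matrix (Fin d) (Fin a) F) : ∃ k : ℕ, dgr_c ψ X B = k := by
  classical
  have h1 : IsChr (fun v : Multiplicative (Matrix (Fin a) (Fin d) F) => X (dgr_hom F a d C v)) :=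
    hX.comp _
  have h2 : IsChr (fun v : Multiplicative (Matrix (Fin a) (Fin d) F) =>
      ψ (B * v.toAdd).trace) := by
    refine FLC.mn_isChr_lin _ ?_ ?_
    · change ψ (B * (0 : Matrix (Fin a) (Fin d) F)).trace = 1
      rw [Matrix.mul_zero, Matrix.trace_zero, AddChar.map_zero_eq_one]
    · intro g h
      change ψ (B * (g.toAdd + h.toAdd)).trace = _
      rw [Matrix.mul_add, Matrix.trace_add, AddChar.map_add_eq_mul]
  obtain ⟨k, hk⟩ := h1.exists_ip h2
  refine ⟨k, ?_⟩
  rw [← hk]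
  unfold dgr_c ip
  have h3 : (Nat.card (Multiplicative (Matrix (Fin a) (Fin d) F)) : ℂ) =
      (Nat.card F : ℂ) ^ (a * d) := dgr_card
  rw [h3]
  congr 1
  refine Fintype.sum_equiv Multiplicative.ofAdd _ _ fun v => ?_
  change ψ (-(B * v).trace) * X (dgr_u C v) = X (dgr_u C v) * ψ (B * (-v)).trace
  rw [Matrix.mul_neg, Matrix.trace_neg, mul_comm]

omit [DecidableEq F] in
theorem dgr_orth {ψ : AddChar F ℂ} (hψ : ψ ≠ 1) {x : Matrix (Fin a) (Fin d) F} (hx0 : x ≠ 0) :
    ∑ T : Matrix (Fin d) (Fin a) F, ψ (-(T * x).trace) = 0 := by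
  classical
  obtain ⟨i, j, hij⟩ : ∃ i j, x i j ≠ 0 := by
    by_contra hcon
    push Not at hcon
    exact hx0 (Matrix.ext fun i j => by rw [hcon i j]; rfl)
  obtain ⟨c, hc⟩ : ∃ c, ψ c ≠ 1 := by
    by_contra hcon
    push Not at hcon
    exact hψ (DFunLike.ext _ _ fun c => by rw [hcon c]; rfl)
  set T0 : Matrix (Fin d) (Fin a) F := Matrix.single j i (-c / x i j) with hT0
  have htr : (T0 * x).trace = -c := by
    rw [hT0, Matrix.trace_single_mul, smul_eq_mul, div_mul_cancel₀ _ hij]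
  have h1 : ∑ T : Matrix (Fin d) (Fin a) F, ψ (-(T * x).trace) =
      ∑ T : Matrix (Fin d) (Fin a) F, ψ (-((T0 + T) * x).trace) :=
    (Fintype.sum_equiv (Equiv.addLeft T0) _ _ fun _ => rfl).symm
  have h2 : ∑ T : Matrix (Fin d) (Fin a) F, ψ (-((T0 + T) * x).trace) =
      ψ c * ∑ T : Matrix (Fin d) (Fin a) F, ψ (-(T * x).trace) := by
    rw [Finset.mul_sum]
    refine Finset.sum_congr rfl fun T _ => ?_
    rw [Matrix.add_mul, Matrix.trace_add, htr, ← AddChar.map_add_eq_mul]
    congr 1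
    ring
  rw [h2] at h1
  have h3 : (1 - ψ c) * ∑ T : Matrix (Fin d) (Fin a) F, ψ (-(T * x).trace) = 0 := by
    rw [sub_mul, one_mul, ← h1, sub_self]
  rcases mul_eq_zero.mp h3 with h4 | h4
  · exact absurd (sub_eq_zero.mp h4).symm hc
  · exact h4

omit [DecidableEq F] [Fintype C] in
theorem dgr_sum {ψ : AddChar F ℂ} (hψ : ψ ≠ 1) (X : PB a d F × C → ℂ) :
    ∑ B : Matrix (Fin d) (Fin a) F, dgr_c ψ X B = X 1 := by
  classical
  unfold dgr_c
  rw [← Finset.sum_div, Finset.sum_comm]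
  have h1 : ∀ v : Matrix (Fin a) (Fin d) F,
      ∑ B : Matrix (Fin d) (Fin a) F, ψ (-(B * v).trace) * X (dgr_u C v) =
        if v = 0 then (Nat.card F : ℂ) ^ (a * d) * X 1 else 0 := by
    intro v
    rw [← Finset.sum_mul]
    split_ifs with h
    · subst h
      have h2 : dgr_u C (0 : Matrix (Fin a) (Fin d) F) = 1 := rfl
      rw [h2]
      congr 1
      simp only [Matrix.mul_zero, Matrix.trace_zero, neg_zero, AddChar.map_zero_eq_one]
      rw [Finset.sum_const, Finset.card_univ, ← Nat.card_eq_fintype_card, nsmul_eq_mul, mul_one,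
        dgr_card, mul_comm d a]
    · rw [dgr_orth hψ h, zero_mul]
  simp only [h1]
  rw [Finset.sum_ite_eq', if_pos (Finset.mem_univ _), mul_div_cancel_left₀]
  exact pow_ne_zero _ (Nat.cast_ne_zero.mpr Nat.card_pos.ne')

omit [DecidableEq F] [Fintype C] in
theorem dgr_c_zero (ψ : AddChar F ℂ) (X : PB a d F × C → ℂ) : dgr_c ψ X 0 = X0 X 1 := by
  unfold dgr_c X0
  congr 1
  refine Finset.sum_congr rfl fun v _ => ?_
  rw [Matrix.zero_mul, Matrix.trace_zero, neg_zero, AddChar.map_zero_eq_one, one_mul]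
  rfl

omit [DecidableEq F] [Fintype C] in
theorem dgr_conj (ψ : AddChar F ℂ) {X : PB a d F × C → ℂ} (hX : IsChr X)
    (B : Matrix (Fin d) (Fin a) F) (G : GL (Fin a) F) :
    dgr_c ψ X (B * (G : Matrix (Fin a) (Fin a) F)) = dgr_c ψ X B := by
  classical
  have e1 : ((G⁻¹ : GL (Fin a) F) : Matrix (Fin a) (Fin a) F) *
      (G : Matrix (Fin a) (Fin a) F) = 1 := Units.inv_mul G
  have e2 : (G : Matrix (Fin a) (Fin a) F) *
      ((G⁻¹ : GL (Fin a) F) : Matrix (Fin a) (Fin a) F) = 1 := Units.mul_inv G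
  let e : Matrix (Fin a) (Fin d) F ≃ Matrix (Fin a) (Fin d) F :=
    { toFun := fun v => (G : Matrix (Fin a) (Fin a) F) * v
      invFun := fun v => ((G⁻¹ : GL (Fin a) F) : Matrix (Fin a) (Fin a) F) * v
      left_inv := fun v => by
        change ((G⁻¹ : GL (Fin a) F) : Matrix (Fin a) (Fin a) F) *
          ((G : Matrix (Fin a) (Fin a) F) * v) = v
        rw [← Matrix.mul_assoc, e1, Matrix.one_mul]
      right_inv := fun v => by
        change (G : Matrix (Fin a) (Fin a) F) *
          (((G⁻¹ : GL (Fin a) F) : Matrix (Fin a) (Fin a) F) * v) = v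
        rw [← Matrix.mul_assoc, e2, Matrix.one_mul] }
  unfold dgr_c
  congr 1
  refine Fintype.sum_equiv e _ _ fun v => ?_
  change ψ (-(B * (G : Matrix (Fin a) (Fin a) F) * v).trace) * X (dgr_u C v) =
    ψ (-(B * ((G : Matrix (Fin a) (Fin a) F) * v)).trace) *
      X (dgr_u C ((G : Matrix (Fin a) (Fin a) F) * v))
  rw [Matrix.mul_assoc]
  congr 1
  rw [← hX.conj_eq ((⟨G, 1, 0⟩ : PB a d F), (1 : C)) (dgr_u C v)]
  congr 1
  have h1 : dgr_u C ((G : Matrix (Fin a) (Fin a) F) * v) * ((⟨G, 1, 0⟩ : PB a d F), (1 : C)) =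
      ((⟨G, 1, 0⟩ : PB a d F), (1 : C)) * dgr_u C v := by
    refine Prod.ext ?_ rfl
    refine PB.ext ?_ rfl ?_
    · change 1 * G = G * 1
      rw [one_mul, mul_one]
    · change ((1 : GL (Fin a) F) : Matrix (Fin a) (Fin a) F) * (0 : Matrix (Fin a) (Fin d) F) +
          (G : Matrix (Fin a) (Fin a) F) * v * ((1 : GL (Fin d) F) : Matrix (Fin d) (Fin d) F) =
        (G : Matrix (Fin a) (Fin a) F) * v +
          0 * ((1 : GL (Fin d) F) : Matrix (Fin d) (Fin d) F)
      rw [Matrix.mul_zero, zero_add, Matrix.zero_mul, add_zero,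
        Matrix.GeneralLinearGroup.coe_one, Matrix.mul_one]
  rw [← h1, mul_inv_cancel_right]

omit [DecidableEq F] [Fintype C] in
theorem dgr_c_b0 {b : ℕ} (ψ : AddChar F ℂ) (X : PB (b + d) d F × C → ℂ) :
    dgr_c ψ X (b0 b d F) = X1 ψ X 1 := by
  unfold dgr_c X1
  congr 1
  refine Finset.sum_congr rfl fun v _ => ?_
  rw [dgr_lk]
  congr 2
  unfold dgr_u
  refine Prod.ext ?_ rfl
  refine PB.ext ?_ rfl ?_
  · change (1 : GL (Fin (b + d)) F) = PB.emb (1 : PB b d F)
    rw [map_one]
  · change v = v * ((1 : GL (Fin d) F) : Matrix (Fin d) (Fin d) F)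
    rw [Matrix.GeneralLinearGroup.coe_one, Matrix.mul_one]

omit [DecidableEq F] in
open Classical in
theorem dgr_count (b d : ℕ) :
    (((Finset.univ : Finset (Matrix (Fin d) (Fin (b + d)) F)).filter
      fun B => LinearIndependent F (fun i => B i)).card : ℝ) =
      ∏ t ∈ Finset.range d, ((Nat.card F : ℝ) ^ (b + d) - (Nat.card F : ℝ) ^ t) := by
  have h1 := card_linearIndependent (K := F) (V := Fin (b + d) → F) (k := d)
    (by rw [Module.finrank_fin_fun]; omega)
  rw [Module.finrank_fin_fun] at h1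
  have h2 : ((Finset.univ : Finset (Matrix (Fin d) (Fin (b + d)) F)).filter
      fun B => LinearIndependent F (fun i => B i)).card =
      Nat.card { s : Fin d → Fin (b + d) → F // LinearIndependent F s } := by
    rw [Nat.card_eq_fintype_card, Fintype.card_subtype]
    rfl
  rw [h2, h1, ← Fin.prod_univ_eq_prod_range
    (fun t => (Nat.card F : ℝ) ^ (b + d) - (Nat.card F : ℝ) ^ t), Nat.cast_prod]
  refine Finset.prod_congr rfl fun i _ => ?_
  rw [Nat.cast_sub, Nat.cast_pow, Nat.cast_pow, ← Nat.card_eq_fintype_card]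
  exact Nat.pow_le_pow_right Fintype.card_pos (by have := i.2; omega)

end

theorem t_DGR : S_DGR := by
  classical
  intro F _ _ _ ψ hψ C _ _
  have hnn : ∀ (a d : ℕ) (X : PB a d F × C → ℂ), IsChr X →
      ∀ B : Matrix (Fin d) (Fin a) F, 0 ≤ (dgr_c ψ X B).re := by
    intro a d X hX B
    obtain ⟨k, hk⟩ := dgr_nat ψ hX B
    rw [hk, Complex.natCast_re]
    exact Nat.cast_nonneg k
  have hsum : ∀ (a d : ℕ) (X : PB a d F × C → ℂ),
      ∑ B : Matrix (Fin d) (Fin a) F, (dgr_c ψ X B).re = (X 1).re := by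
    intro a d X
    rw [← Complex.re_sum, dgr_sum hψ X]
  refine ⟨fun a d X hX => ?_, fun b d X hd hX => ?_⟩
  · rw [← hsum a d X, ← dgr_c_zero ψ X]
    exact Finset.single_le_sum (f := fun B => (dgr_c ψ X B).re) (fun B _ => hnn a d X hX B)
      (Finset.mem_univ _)
  · set L := (Finset.univ : Finset (Matrix (Fin d) (Fin (b + d)) F)).filter
      fun B => LinearIndependent F (fun i => B i) with hL
    have h0 : (0 : Matrix (Fin d) (Fin (b + d)) F) ∉ L := by
      intro h
      rw [hL, Finset.mem_filter] at h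
      exact dgr_ne hd _ h.2 rfl
    have h1 : ∑ B ∈ L, (dgr_c ψ X B).re =
        (∏ t ∈ Finset.range d, ((Nat.card F : ℝ) ^ (b + d) - (Nat.card F : ℝ) ^ t)) *
          (X1 ψ X 1).re := by
      rw [← dgr_count b d, ← nsmul_eq_mul, ← Finset.sum_const]
      refine Finset.sum_congr rfl fun B hB => ?_
      rw [Finset.mem_filter] at hB
      obtain ⟨G, hG⟩ := dgr_exists b d B hB.2
      rw [hG, dgr_conj ψ hX, dgr_c_b0]
    rw [← h1, ← dgr_c_zero ψ X, ← hsum (b + d) d X,
      ← Finset.sum_insert (f := fun B => (dgr_c ψ X B).re) h0]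
    exact Finset.sum_le_sum_of_subset_of_nonneg (Finset.subset_univ _)
      fun B _ _ => hnn _ _ X hX B

end

end FLX
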