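import Pool.Agent.SRJ.StC

/-!
# A sharp character bound for `GL_n(q)`, all `q` (MP_5b5212_al): definitions

`bm g v h` is the block matrix `[g v; 0 h]`, `PB a d F` the group of the invertible ones, `PB.emb` its embedding in
`GL_(a+d)`. A pattern `τ : List (ℕ × Bool)` is a list of blocks (size, flag), the head is the last (lower right) block; a
block with the flag `true` has the same size as the next one of the list (its left neighbour) and is linked to it.
`mu ψ τ Y` is the average of `Y u · ψ (- tv u)` over the block upper unitriangular matrices `u`, `tv u` the sum of the traces of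
the blocks of `u` between linked blocks.
-/

namespace FLX

open RSF FL0 SRJ Polynomial Pool.Agent.Lib_helper13

noncomputable section

section

variable {F : Type} [Field F]

/-- the block matrix `[g v; 0 h]` -/
def bm {a d : ℕ} (g : Matrix (Fin a) (Fin a) F) (v : Matrix (Fin a) (Fin d) F)
    (h : Matrix (Fin d) (Fin d) F) : Matrix (Fin (a + d)) (Fin (a + d)) F :=
  Matrix.reindex finSumFinEquiv finSumFinEquiv (Matrix.fromBlocks g v 0 h)

theorem bm_mul {a d : ℕ} (g g' : Matrix (Fin a) (Fin a) F) (v v' : Matrix (Fin a) (Fin d) F)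
    (h h' : Matrix (Fin d) (Fin d) F) :
    bm g v h * bm g' v' h' = bm (g * g') (g * v' + v * h') (h * h') := by
  simp only [bm, Matrix.reindex_apply, Matrix.submatrix_mul_equiv, Matrix.fromBlocks_multiply,
    Matrix.zero_mul, Matrix.mul_zero, add_zero, zero_add]

theorem bm_one (a d : ℕ) : bm (1 : Matrix (Fin a) (Fin a) F) 0 (1 : Matrix (Fin d) (Fin d) F) = 1 := by
  simp only [bm, Matrix.fromBlocks_one, Matrix.reindex_apply, Matrix.submatrix_one_equiv]

/-- the group of the invertible block matrices `[g v; 0 h]` -/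
@[ext] structure PB (a d : ℕ) (F : Type) [Field F] where
  /-- upper left block -/
  g : GL (Fin a) F
  /-- lower right block -/
  h : GL (Fin d) F
  /-- upper right block -/
  v : Matrix (Fin a) (Fin d) F

variable {a d : ℕ}

instance : Mul (PB a d F) :=
  ⟨fun p p' => ⟨p.g * p'.g, p.h * p'.h,
    (p.g : Matrix (Fin a) (Fin a) F) * p'.v + p.v * (p'.h : Matrix (Fin d) (Fin d) F)⟩⟩

instance : One (PB a d F) := ⟨⟨1, 1, 0⟩⟩

instance : Inv (PB a d F) :=
  ⟨fun p => ⟨p.g⁻¹, p.h⁻¹, -(((p.g⁻¹ : GL (Fin a) F) : Matrix (Fin a) (Fin a) F) * p.v *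
    ((p.h⁻¹ : GL (Fin d) F) : Matrix (Fin d) (Fin d) F))⟩⟩

theorem PB.mul_g (p p' : PB a d F) : (p * p').g = p.g * p'.g := rfl
theorem PB.mul_h (p p' : PB a d F) : (p * p').h = p.h * p'.h := rfl
theorem PB.mul_v (p p' : PB a d F) : (p * p').v =
    (p.g : Matrix (Fin a) (Fin a) F) * p'.v + p.v * (p'.h : Matrix (Fin d) (Fin d) F) := rfl
theorem PB.one_g : (1 : PB a d F).g = 1 := rfl
theorem PB.one_h : (1 : PB a d F).h = 1 := rfl
theorem PB.one_v : (1 : PB a d F).v = 0 := rfl
theorem PB.inv_g (p : PB a d F) : (p⁻¹).g = p.g⁻¹ := rfl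
theorem PB.inv_h (p : PB a d F) : (p⁻¹).h = p.h⁻¹ := rfl
theorem PB.inv_v (p : PB a d F) : (p⁻¹).v =
    -(((p.g⁻¹ : GL (Fin a) F) : Matrix (Fin a) (Fin a) F) * p.v *
      ((p.h⁻¹ : GL (Fin d) F) : Matrix (Fin d) (Fin d) F)) := rfl

instance : Group (PB a d F) where
  mul_assoc p p' p'' := by
    ext1
    · simp only [PB.mul_g, mul_assoc]
    · simp only [PB.mul_h, mul_assoc]
    · simp only [PB.mul_v, PB.mul_g, PB.mul_h, Matrix.GeneralLinearGroup.coe_mul, Matrix.mul_add,
        Matrix.add_mul, Matrix.mul_assoc, add_assoc]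
  one_mul p := by
    ext1
    · simp only [PB.mul_g, PB.one_g, one_mul]
    · simp only [PB.mul_h, PB.one_h, one_mul]
    · simp only [PB.mul_v, PB.one_g, PB.one_v, Matrix.GeneralLinearGroup.coe_one, Matrix.one_mul,
        Matrix.zero_mul, add_zero]
  mul_one p := by
    ext1
    · simp only [PB.mul_g, PB.one_g, mul_one]
    · simp only [PB.mul_h, PB.one_h, mul_one]
    · simp only [PB.mul_v, PB.one_h, PB.one_v, Matrix.GeneralLinearGroup.coe_one, Matrix.mul_one,
        Matrix.mul_zero, zero_add]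
  inv_mul_cancel p := by
    ext1
    · simp only [PB.mul_g, PB.inv_g, PB.one_g, inv_mul_cancel]
    · simp only [PB.mul_h, PB.inv_h, PB.one_h, inv_mul_cancel]
    · have h1 : ((p.h⁻¹ : GL (Fin d) F) : Matrix (Fin d) (Fin d) F) * (p.h : Matrix (Fin d) (Fin d) F) = 1 := by
        rw [← Matrix.GeneralLinearGroup.coe_mul, inv_mul_cancel, Matrix.GeneralLinearGroup.coe_one]
      simp only [PB.mul_v, PB.inv_g, PB.inv_v, PB.one_v, Matrix.neg_mul]
      rw [Matrix.mul_assoc _ _ (p.h : Matrix (Fin d) (Fin d) F), h1, Matrix.mul_one, add_neg_cancel]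

instance [Finite F] : Finite (PB a d F) :=
  Finite.of_injective (fun p : PB a d F => (p.g, p.h, p.v)) (by
    intro p p' h
    simp only [Prod.mk.injEq] at h
    exact PB.ext h.1 h.2.1 h.2.2)

/-- the embedding in `GL_(a+d)` -/
def PB.emb : PB a d F →* GL (Fin (a + d)) F where
  toFun p :=
    { val := bm p.g p.v p.h
      inv := bm (p⁻¹).g (p⁻¹).v (p⁻¹).h
      val_inv := by
        rw [bm_mul]
        have h1 := mul_inv_cancel p
        have h2 := congrArg PB.v h1
        rw [PB.mul_v] at h2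
        rw [h2, ← Matrix.GeneralLinearGroup.coe_mul, ← Matrix.GeneralLinearGroup.coe_mul, ← PB.mul_g,
          ← PB.mul_h, h1, PB.one_g, PB.one_h, PB.one_v]
        exact bm_one a d
      inv_val := by
        rw [bm_mul]
        have h1 := inv_mul_cancel p
        have h2 := congrArg PB.v h1
        rw [PB.mul_v] at h2
        rw [h2, ← Matrix.GeneralLinearGroup.coe_mul, ← Matrix.GeneralLinearGroup.coe_mul, ← PB.mul_g,
          ← PB.mul_h, h1, PB.one_g, PB.one_h, PB.one_v]
        exact bm_one a d }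
  map_one' := Units.ext (bm_one a d)
  map_mul' p p' := Units.ext (bm_mul _ _ _ _ _ _).symm

theorem PB.emb_val (p : PB a d F) :
    ((PB.emb p : GL (Fin (a + d)) F) : Matrix (Fin (a + d)) (Fin (a + d)) F) = bm p.g p.v p.h := rfl

/-- the sum of the entries of `v` in the places `(a - d + j, j)` (the trace of the lowest `d` rows) -/
def lk (v : Matrix (Fin a) (Fin d) F) : F :=
  ∑ i : Fin a, ∑ j : Fin d, if i.val + d = a + j.val then v i j else 0

/-- the matrix `[0 1]`; `lk v = tr (b0 * v)` -/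
def b0 (b d : ℕ) (F : Type) [Field F] : Matrix (Fin d) (Fin (b + d)) F :=
  fun i j => if j.val = b + i.val then 1 else 0

/-- the dimension of the kernel of `p(A)^t` -/
def kd {n : ℕ} (A : Matrix (Fin n) (Fin n) F) (p : F[X]) (t : ℕ) : ℕ :=
  Module.finrank F (LinearMap.ker (Matrix.toLin' ((aeval A p) ^ t)))

/-- the potential of `A`, `A` killed by a polynomial of degree `m` -/
def pt (m : ℕ) {n : ℕ} (A : Matrix (Fin n) (Fin n) F) : ℝ :=
  (max ((cN A : ℝ) * (Nat.card F : ℝ) ^ (-((n : ℝ) ^ 2 / m)))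
    ((Nat.card F : ℝ) ^ ((m : ℝ) ^ 2 + m))) ^ (1 / 2 : ℝ)

end

/-! ## Characters of `PB a d F × C` -/

section

variable {F : Type} [Field F] [Fintype F] [DecidableEq F] {a b d : ℕ} {C : Type} [Group C]

open Classical in
/-- the nonzero matrices `B` with `h B = B g` -/
def ib (g : Matrix (Fin a) (Fin a) F) (h : Matrix (Fin d) (Fin d) F) :
    Finset (Matrix (Fin d) (Fin a) F) :=
  Finset.univ.filter fun B => B ≠ 0 ∧ h * B = B * g

/-- `k B` is the transform of `g` by a `G` with `B = [0 1] G`, for all `B` in `ib g h` -/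
def Sel (g : GL (Fin (b + d)) F) (h : GL (Fin d) F) (k : Matrix (Fin d) (Fin (b + d)) F → PB b d F) :
    Prop :=
  ∀ B ∈ ib (g : Matrix (Fin (b + d)) (Fin (b + d)) F) (h : Matrix (Fin d) (Fin d) F),
    (k B).h = h ∧ ∃ G : GL (Fin (b + d)) F,
      B = b0 b d F * (G : Matrix (Fin (b + d)) (Fin (b + d)) F) ∧ G * g * G⁻¹ = PB.emb (k B)

/-- the character on the vectors fixed by the unipotent radical -/
def X0 (X : PB a d F × C → ℂ) (p : GL (Fin a) F × (GL (Fin d) F × C)) : ℂ :=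
  (∑ v : Matrix (Fin a) (Fin d) F, X (⟨p.1, p.2.1, v⟩, p.2.2)) / (Nat.card F : ℂ) ^ (a * d)

/-- the character on the vectors on which the unipotent radical acts by `v ↦ ψ (lk v)` -/
def X1 (ψ : AddChar F ℂ) (X : PB (b + d) d F × C → ℂ) (p : PB b d F × C) : ℂ :=
  (∑ v : Matrix (Fin (b + d)) (Fin d) F, ψ (-(lk v)) *
    X (⟨PB.emb p.1, p.1.h, v * (p.1.h : Matrix (Fin d) (Fin d) F)⟩, p.2)) /
      (Nat.card F : ℂ) ^ ((b + d) * d)

open Classical in
/-- the restriction to the `[g v; 0 1]`, extended by `0` -/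
def zm (X : PB a d F × C → ℂ) (g : Matrix (Fin a) (Fin a) F) (v : Matrix (Fin a) (Fin d) F) : ℂ :=
  if h : IsUnit g then X (⟨h.unit, 1, v⟩, 1) else 0

end

/-! ## Patterns -/

/-- the size -/
def sz : List (ℕ × Bool) → ℕ
  | [] => 0
  | p :: τ => sz τ + p.1

/-- the number of flags -/
def fl : List (ℕ × Bool) → ℕ
  | [] => 0
  | p :: τ => fl τ + (if p.2 then 1 else 0)

/-- the sum of the sizes of the blocks with flags -/
def rk : List (ℕ × Bool) → ℕ
  | [] => 0
  | p :: τ => rk τ + (if p.2 then p.1 else 0)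

/-- all sizes are between `1` and `m`, and a flag requires that the next block has the same size -/
def vl (m : ℕ) : List (ℕ × Bool) → Prop
  | [] => True
  | p :: τ => 1 ≤ p.1 ∧ p.1 ≤ m ∧ (p.2 = true → ∃ (β : Bool) (τ' : List (ℕ × Bool)), τ = (p.1, β) :: τ') ∧
      vl m τ

section

variable {F : Type} [Field F] [Fintype F]

/-- one step: the average over `v` with the character `ψ (lk v)` if `β` -/
def stp (ψ : AddChar F ℂ) (β : Bool) {a d : ℕ}
    (Z : Matrix (Fin a) (Fin a) F → Matrix (Fin a) (Fin d) F → ℂ) (g : Matrix (Fin a) (Fin a) F) : ℂ :=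
  (∑ v : Matrix (Fin a) (Fin d) F, (if β then ψ (-(lk v)) else 1) * Z g v) / (Nat.card F : ℂ) ^ (a * d)

/-- the multiplicity for a pattern -/
def mu (ψ : AddChar F ℂ) :
    (τ : List (ℕ × Bool)) → (Matrix (Fin (sz τ)) (Fin (sz τ)) F → ℂ) → ℂ
  | [], Y => Y 1
  | p :: τ, Y => mu ψ τ (stp ψ p.2 (fun (g : Matrix (Fin (sz τ)) (Fin (sz τ)) F)
      (v : Matrix (Fin (sz τ)) (Fin p.1) F) => Y (bm g v 1)))

/-- upper left block -/
def tlb {a d : ℕ} (M : Matrix (Fin (a + d)) (Fin (a + d)) F) : Matrix (Fin a) (Fin a) F :=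
  fun i j => M (Fin.castAdd d i) (Fin.castAdd d j)

/-- upper right block -/
def trb {a d : ℕ} (M : Matrix (Fin (a + d)) (Fin (a + d)) F) : Matrix (Fin a) (Fin d) F :=
  fun i j => M (Fin.castAdd d i) (Fin.natAdd a j)

/-- block upper unitriangular -/
def UT : (τ : List (ℕ × Bool)) → Matrix (Fin (sz τ)) (Fin (sz τ)) F → Prop
  | [], _ => True
  | p :: τ, M => UT τ (tlb (d := p.1) M) ∧ M = bm (tlb (d := p.1) M) (trb (d := p.1) M) 1

/-- the sum of the traces of the blocks between linked blocks -/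
def tv : (τ : List (ℕ × Bool)) → Matrix (Fin (sz τ)) (Fin (sz τ)) F → F
  | [], _ => 0
  | p :: τ, M => tv τ (tlb (d := p.1) M) + (if p.2 then lk (trb (d := p.1) M) else 0)

/-- all multiplicities of patterns of size `n` with `s` flags are at most `c s` -/
def BF (ψ : AddChar F ℂ) (m n : ℕ) (c : ℕ → ℝ) (Y : Matrix (Fin n) (Fin n) F → ℂ) : Prop :=
  ∀ τ : List (ℕ × Bool), vl m τ → ∀ h : sz τ = n,
    ‖mu ψ τ (fun A => Y (A.submatrix (Fin.cast h.symm) (Fin.cast h.symm)))‖ ≤ c (fl τ)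

/-- the same for functions of `[g v; 0 1]`, the last block has size `d` -/
def BS (ψ : AddChar F ℂ) (m a d : ℕ) (c : ℕ → ℝ)
    (Z : Matrix (Fin a) (Fin a) F → Matrix (Fin a) (Fin d) F → ℂ) : Prop :=
  ∀ (τ : List (ℕ × Bool)) (β : Bool), vl m ((d, β) :: τ) → ∀ h : sz τ = a,
    ‖mu ψ τ (fun A => stp ψ β Z (A.submatrix (Fin.cast h.symm) (Fin.cast h.symm)))‖ ≤
      c (fl ((d, β) :: τ))

end

/-! ## Numbers -/

/-- the constant of a step -/
def KK (m : ℕ) (q : ℝ) : ℝ := (m + 1) * q ^ (((m : ℝ) ^ 2 + 2 * m) / 2)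

/-- the weighted sum of the bounds -/
def TT (n : ℕ) (K : ℝ) (c : ℕ → ℝ) : ℝ :=
  ∑ s ∈ Finset.range (n + 1), ((n - 1).choose s : ℝ) * K ^ (2 * s) * c s

/-- `∏ (1 - q^(-j))⁻¹`, `1 ≤ j ≤ n` -/
def pq (q : ℝ) (n : ℕ) : ℝ := ∏ j ∈ Finset.range n, (1 - q ^ (-((j : ℝ) + 1)))⁻¹

end

end FLX
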