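import Mathlib
import Pool.Agent.FLX.StX

/-! # EXB: existence of a `B` (MP_5b5212_al) -/

set_option autoImplicit false

namespace FLX

open Polynomial

noncomputable section

/-- if `ker L^t` is contained in the range of `L`, then `dim ker L^(t+1) = dim ker L + dim ker L^t` -/
theorem exb_dim {F V : Type} [Field F] [AddCommGroup V] [Module F V] [FiniteDimensional F V]
    (L : V →ₗ[F] V) (t : ℕ) (h : LinearMap.ker (L ^ t) ≤ LinearMap.range L) :
    Module.finrank F (LinearMap.ker (L ^ (t + 1))) =
      Module.finrank F (LinearMap.ker L) + Module.finrank F (LinearMap.ker (L ^ t)) := by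
  have hm : ∀ x ∈ LinearMap.ker (L ^ (t + 1)), L x ∈ LinearMap.ker (L ^ t) := by
    intro x hx
    rw [LinearMap.mem_ker] at hx ⊢
    rw [pow_succ, Module.End.mul_apply] at hx
    exact hx
  let R : LinearMap.ker (L ^ (t + 1)) →ₗ[F] LinearMap.ker (L ^ t) := L.restrict hm
  have hR : ∀ x : LinearMap.ker (L ^ (t + 1)), ((R x : LinearMap.ker (L ^ t)) : V) = L (x : V) :=
    fun x => rfl
  have hsur : LinearMap.range R = ⊤ := by
    rw [LinearMap.range_eq_top]
    rintro ⟨x, hx⟩
    obtain ⟨y, hy⟩ := h hx
    refine ⟨⟨y, ?_⟩, ?_⟩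
    · rw [LinearMap.mem_ker, pow_succ, Module.End.mul_apply, hy]
      exact hx
    · exact Subtype.ext hy
  have hker : Module.finrank F (LinearMap.ker R) = Module.finrank F (LinearMap.ker L) := by
    have hle : LinearMap.ker L ≤ LinearMap.ker (L ^ (t + 1)) := by
      intro x hx
      rw [LinearMap.mem_ker] at hx ⊢
      rw [pow_succ, Module.End.mul_apply, hx, map_zero]
    have e : LinearMap.ker R = (LinearMap.ker L).comap (LinearMap.ker (L ^ (t + 1))).subtype := by
      ext x
      rw [LinearMap.mem_ker, Submodule.mem_comap, LinearMap.mem_ker, Submodule.subtype_apply]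
      rw [← hR x]
      constructor
      · intro hx
        rw [hx]
        rfl
      · intro hx
        exact Subtype.ext hx
    rw [e]
    exact (Submodule.comapSubtypeEquivOfLe hle).finrank_eq
  have hrn := LinearMap.finrank_range_add_finrank_ker R
  rw [hsur, finrank_top, hker] at hrn
  omega

theorem t_EXB : S_EXB := by
  intro F _ _ _ n g f t hmon hirr hlt
  set N : Matrix (Fin n) (Fin n) F := aeval (g : Matrix (Fin n) (Fin n) F) f with hN
  have hkd : ∀ s, kd (g : Matrix (Fin n) (Fin n) F) f s =
      Module.finrank F (LinearMap.ker ((Matrix.toLin' N) ^ s)) := by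
    intro s
    unfold kd
    rw [← Matrix.toLin'_pow]
  -- the vector `x`
  obtain ⟨x, hx1, hx2⟩ : ∃ x, x ∈ LinearMap.ker ((Matrix.toLin' N) ^ t) ∧
      x ∉ LinearMap.range (Matrix.toLin' N) := by
    by_contra hcon
    push Not at hcon
    have hd := exb_dim (Matrix.toLin' N) t (fun x hx => hcon x hx)
    rw [hkd, hkd, hkd, hd, pow_one] at hlt
    omega
  -- the functional
  obtain ⟨lam, hlam1, hlam2⟩ := Submodule.exists_le_ker_of_notMem hx2
  have hlam : ∀ v, lam (N.mulVec v) = 0 := by
    intro v
    have : Matrix.toLin' N v ∈ LinearMap.range (Matrix.toLin' N) := LinearMap.mem_range_self _ v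
    have := hlam2 this
    rw [LinearMap.mem_ker, Matrix.toLin'_apply] at this
    exact this
  have hkill : ∀ p q : F[X], AdjoinRoot.mk f p = AdjoinRoot.mk f q → ∀ v,
      lam ((aeval (g : Matrix (Fin n) (Fin n) F) p).mulVec v) =
        lam ((aeval (g : Matrix (Fin n) (Fin n) F) q).mulVec v) := by
    intro p q hpq v
    rw [AdjoinRoot.mk_eq_mk] at hpq
    obtain ⟨r, hr⟩ := hpq
    have h1 : aeval (g : Matrix (Fin n) (Fin n) F) p =
        aeval (g : Matrix (Fin n) (Fin n) F) q + N * aeval (g : Matrix (Fin n) (Fin n) F) r := by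
      rw [hN, ← map_mul, ← hr, map_sub]
      abel
    rw [h1, Matrix.add_mulVec, map_add, ← Matrix.mulVec_mulVec, hlam, add_zero]
  have hf0 : f ≠ 0 := hmon.ne_zero
  set pb : PowerBasis F (AdjoinRoot f) := AdjoinRoot.powerBasis' hmon with hpb
  let Lm : Matrix (Fin f.natDegree) (Fin f.natDegree) F := Algebra.leftMulMatrix pb.basis pb.gen
  have hgen : pb.gen = AdjoinRoot.root f := rfl
  have hbas : ∀ i : Fin f.natDegree, pb.basis i = AdjoinRoot.root f ^ (i : ℕ) := by
    intro i
    rw [pb.basis_eq_pow i, hgen]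
  have hrel : ∀ i : Fin f.natDegree, AdjoinRoot.mk f (X * X ^ (i : ℕ)) =
      AdjoinRoot.mk f (∑ j : Fin f.natDegree, C (Lm j i) * X ^ (j : ℕ)) := by
    intro i
    have h1 : pb.gen * pb.basis i = ∑ j, Lm j i • pb.basis j := by
      have := pb.basis.sum_repr (pb.gen * pb.basis i)
      rw [← this]
      apply Finset.sum_congr rfl
      intro j _
      rw [← Algebra.leftMulMatrix_eq_repr_mul pb.basis pb.gen j i]
    have h2 : AdjoinRoot.mk f (∑ j : Fin f.natDegree, C (Lm j i) * X ^ (j : ℕ)) =
        ∑ j : Fin f.natDegree, Lm j i • pb.basis j := by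
      rw [map_sum]
      apply Finset.sum_congr rfl
      intro j _
      rw [map_mul, map_pow, AdjoinRoot.mk_X, AdjoinRoot.mk_C, hbas j, Algebra.smul_def]
      rfl
    have h3 : AdjoinRoot.mk f (X * X ^ (i : ℕ)) = pb.gen * pb.basis i := by
      rw [map_mul, map_pow, AdjoinRoot.mk_X, hbas i, hgen]
    rw [h2, h3]
    exact h1
  have hchar : Lm.transpose.charpoly = f := by
    have h1 : Lm.charpoly = minpoly F pb.gen := charpoly_leftMulMatrix pb
    rw [Matrix.charpoly_transpose, h1, hgen, AdjoinRoot.minpoly_root hf0, hmon.leadingCoeff, inv_one,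
      map_one, mul_one]
  have hpos : 0 < kd (g : Matrix (Fin n) (Fin n) F) f 1 := by omega
  have hdet : Lm.transpose.det ≠ 0 := by
    intro h0
    rw [Matrix.det_eq_sign_charpoly_coeff, hchar] at h0
    have hc : f.coeff 0 = 0 := by
      rcases mul_eq_zero.mp h0 with h | h
      · exact absurd h (pow_ne_zero _ (neg_ne_zero.mpr one_ne_zero))
      · exact h
    have hX : X ∣ f := Polynomial.X_dvd_iff.mpr hc
    have hass : Associated X f := (Polynomial.irreducible_X).associated_of_dvd hirr hX
    have hfX : f = X := (Polynomial.eq_of_monic_of_associated monic_X hmon hass).symm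
    have hNg : N = (g : Matrix (Fin n) (Fin n) F) := by rw [hN, hfX, aeval_X]
    rw [hkd, pow_one, hNg] at hpos
    have hinj : LinearMap.ker (Matrix.toLin' (g : Matrix (Fin n) (Fin n) F)) = ⊥ := by
      rw [LinearMap.ker_eq_bot']
      intro v hv
      rw [Matrix.toLin'_apply] at hv
      have h2 := congrArg (fun w => ((g⁻¹ : GL (Fin n) F) : Matrix (Fin n) (Fin n) F).mulVec w) hv
      simp only [Matrix.mulVec_mulVec, Matrix.mulVec_zero] at h2
      rw [← Matrix.GeneralLinearGroup.coe_mul, inv_mul_cancel, Matrix.GeneralLinearGroup.coe_one,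
        Matrix.one_mulVec] at h2
      exact h2
    rw [hinj, finrank_bot] at hpos
    exact absurd hpos (lt_irrefl 0)
  refine ⟨Matrix.GeneralLinearGroup.mkOfDetNeZero Lm.transpose hdet,
    Matrix.of fun i k => lam ((aeval (g : Matrix (Fin n) (Fin n) F) (X ^ (i : ℕ) : F[X])).mulVec
      (Pi.single k 1)), hchar, ?_, ?_⟩
  · -- the relation
    have hrow : ∀ (i : Fin f.natDegree) (v : Fin n → F),
        ∑ k, lam ((aeval (g : Matrix (Fin n) (Fin n) F) (X ^ (i : ℕ) : F[X])).mulVec (Pi.single k 1)) * v k =
          lam ((aeval (g : Matrix (Fin n) (Fin n) F) (X ^ (i : ℕ) : F[X])).mulVec v) := by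
      intro i v
      have hv : v = ∑ k, v k • (Pi.single k (1 : F) : Fin n → F) := by
        ext l
        simp [Finset.sum_apply, Pi.single_apply]
      conv_rhs => rw [hv]
      rw [Matrix.mulVec_sum, map_sum]
      apply Finset.sum_congr rfl
      intro k _
      rw [Matrix.mulVec_smul, map_smul, smul_eq_mul, mul_comm]
    have hcoe : ((Matrix.GeneralLinearGroup.mkOfDetNeZero Lm.transpose hdet :
        GL (Fin f.natDegree) F) : Matrix (Fin f.natDegree) (Fin f.natDegree) F) = Lm.transpose := rfl
    rw [hcoe]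
    ext i k
    rw [Matrix.mul_apply, Matrix.mul_apply]
    simp only [Matrix.of_apply, Matrix.transpose_apply]
    have h1 := hrow i (fun l => (g : Matrix (Fin n) (Fin n) F) l k)
    rw [h1]
    have h2 := hkill _ _ (hrel i) (Pi.single k 1)
    have h3 : (aeval (g : Matrix (Fin n) (Fin n) F) (X * X ^ (i : ℕ) : F[X])).mulVec (Pi.single k 1) =
        (aeval (g : Matrix (Fin n) (Fin n) F) (X ^ (i : ℕ) : F[X])).mulVec
          (fun l => (g : Matrix (Fin n) (Fin n) F) l k) := by
      rw [mul_comm, map_mul, aeval_X, ← Matrix.mulVec_mulVec]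
      congr 1
      ext l
      rw [Matrix.mulVec_single_one]
      rfl
    rw [← h3, h2, map_sum, Matrix.sum_mulVec, map_sum]
    apply Finset.sum_congr rfl
    intro j _
    rw [map_mul, aeval_C, Algebra.algebraMap_eq_smul_one, smul_mul_assoc, one_mul, Matrix.smul_mulVec,
      map_smul, smul_eq_mul]
  · refine ⟨x, ?_, ?_⟩
    · rw [LinearMap.mem_ker, ← Matrix.toLin'_pow, Matrix.toLin'_apply] at hx1
      exact hx1
    · intro h0
      have hd : 0 < f.natDegree := hirr.natDegree_pos
      have h1 := congrFun h0 ⟨0, hd⟩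
      rw [Matrix.mulVec, dotProduct] at h1
      simp only [Matrix.of_apply, pow_zero, map_one, Matrix.one_mulVec, Pi.zero_apply] at h1
      have hv : x = ∑ k, x k • (Pi.single k (1 : F) : Fin n → F) := by
        ext l
        simp [Finset.sum_apply, Pi.single_apply]
      apply hlam1
      rw [hv, map_sum, ← h1]
      apply Finset.sum_congr rfl
      intro k _
      rw [map_smul, smul_eq_mul, mul_comm]

end

end FLX
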