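import Mathlib
import Pool.Agent.FLX.StX

/-!
# IST: the induction step for `PB a d F × C`
-/

set_option autoImplicit false

namespace FLX

open RSF FL0 SRJ Polynomial Pool.Agent.Lib_helper13

noncomputable section

/-- the value at `1` of a character is its degree -/
theorem ist_re_nonneg {G : Type} [Group G] {X : G → ℂ} (hX : IsChr X) : 0 ≤ (X 1).re := by
  obtain ⟨n, ρ, rfl⟩ := hX
  rw [Representation.char_one]
  simp

theorem ist_pt_nonneg {F : Type} [Field F] (m : ℕ) {n : ℕ} (A : Matrix (Fin n) (Fin n) F) :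
    0 ≤ pt m A := by
  unfold pt
  refine Real.rpow_nonneg (le_max_of_le_right ?_) _
  positivity

theorem ist_one_le_KK (m : ℕ) (q : ℝ) (hq : 2 ≤ q) : 1 ≤ KK m q := by
  unfold KK
  have h1 : (1 : ℝ) ≤ (m : ℝ) + 1 := by
    have : (0 : ℝ) ≤ m := Nat.cast_nonneg m
    linarith
  have h2 : (1 : ℝ) ≤ q ^ (((m : ℝ) ^ 2 + 2 * m) / 2) :=
    Real.one_le_rpow (by linarith) (by positivity)
  calc (1 : ℝ) = 1 * 1 := (one_mul 1).symm
    _ ≤ ((m : ℝ) + 1) * q ^ (((m : ℝ) ^ 2 + 2 * m) / 2) :=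
        mul_le_mul h1 h2 zero_le_one (by linarith)

/-- `aeval` of a conjugate -/
theorem ist_aeval_conj {F : Type} [Field F] {n : ℕ} (g G p : GL (Fin n) F) (h : G * g * G⁻¹ = p)
    (f : F[X]) (hf : aeval (g : Matrix (Fin n) (Fin n) F) f = 0) :
    aeval (p : Matrix (Fin n) (Fin n) F) f = 0 := by
  have h1 : (p : Matrix (Fin n) (Fin n) F) = (G : Matrix (Fin n) (Fin n) F) *
      (g : Matrix (Fin n) (Fin n) F) * ((G⁻¹ : GL (Fin n) F) : Matrix (Fin n) (Fin n) F) := by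
    rw [← h, Matrix.GeneralLinearGroup.coe_mul, Matrix.GeneralLinearGroup.coe_mul]
  have hGG : (G : Matrix (Fin n) (Fin n) F) * ((G⁻¹ : GL (Fin n) F) : Matrix (Fin n) (Fin n) F) = 1 := by
    rw [← Matrix.GeneralLinearGroup.coe_mul, mul_inv_cancel, Matrix.GeneralLinearGroup.coe_one]
  have hGG' : ((G⁻¹ : GL (Fin n) F) : Matrix (Fin n) (Fin n) F) * (G : Matrix (Fin n) (Fin n) F) = 1 := by
    rw [← Matrix.GeneralLinearGroup.coe_mul, inv_mul_cancel, Matrix.GeneralLinearGroup.coe_one]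
  have key : ∀ r : F[X], aeval (p : Matrix (Fin n) (Fin n) F) r =
      (G : Matrix (Fin n) (Fin n) F) * aeval (g : Matrix (Fin n) (Fin n) F) r *
        ((G⁻¹ : GL (Fin n) F) : Matrix (Fin n) (Fin n) F) := by
    intro r
    induction r using Polynomial.induction_on' with
    | add r s hr hs => rw [map_add, map_add, hr, hs, Matrix.mul_add, Matrix.add_mul]
    | monomial k c =>
      rw [aeval_monomial, aeval_monomial]
      have hpow : ∀ k : ℕ, (p : Matrix (Fin n) (Fin n) F) ^ k = (G : Matrix (Fin n) (Fin n) F) *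
          (g : Matrix (Fin n) (Fin n) F) ^ k *
            ((G⁻¹ : GL (Fin n) F) : Matrix (Fin n) (Fin n) F) := by
        intro k
        induction k with
        | zero => rw [pow_zero, pow_zero, Matrix.mul_one, hGG]
        | succ k ih =>
          rw [pow_succ, ih, h1, pow_succ]
          calc (G : Matrix (Fin n) (Fin n) F) * (g : Matrix (Fin n) (Fin n) F) ^ k *
              ((G⁻¹ : GL (Fin n) F) : Matrix (Fin n) (Fin n) F) *
              ((G : Matrix (Fin n) (Fin n) F) * (g : Matrix (Fin n) (Fin n) F) *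
                ((G⁻¹ : GL (Fin n) F) : Matrix (Fin n) (Fin n) F))
              = (G : Matrix (Fin n) (Fin n) F) * (g : Matrix (Fin n) (Fin n) F) ^ k *
                (((G⁻¹ : GL (Fin n) F) : Matrix (Fin n) (Fin n) F) * (G : Matrix (Fin n) (Fin n) F)) *
                (g : Matrix (Fin n) (Fin n) F) *
                ((G⁻¹ : GL (Fin n) F) : Matrix (Fin n) (Fin n) F) := by
                simp only [Matrix.mul_assoc]
            _ = _ := by rw [hGG', Matrix.mul_one]; simp only [Matrix.mul_assoc]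
      rw [hpow k, Algebra.algebraMap_eq_smul_one, Matrix.smul_mul, Matrix.one_mul, Matrix.smul_mul,
        Matrix.one_mul, Matrix.mul_smul, Matrix.smul_mul]
  rw [key f, hf, Matrix.mul_zero, Matrix.zero_mul]

/-- the sum over the `B ≠ 0`, numbers -/
theorem ist_num (m : ℕ) (q : ℝ) (hq : 2 ≤ q) (b d : ℕ) (K T S pb pa D r σ : ℝ)
    (hT : 0 ≤ T) (hpb : 0 ≤ pb) (hD : 0 ≤ D)
    (h5 : q ^ ((b + d) * d) * pb = pa * S)
    (hσ : σ ≤ K * q ^ ((d : ℝ) * ((b : ℝ) + d) / m) * r) :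
    σ * (T ^ (1 - 1 / (m : ℝ)) * (pb * D) ^ (1 / (m : ℝ))) ≤
      r * (K * (T ^ (1 - 1 / (m : ℝ)) * (pa * (S * D)) ^ (1 / (m : ℝ)))) := by
  have hq0 : (0 : ℝ) ≤ q := by linarith
  have e1 : (pa * (S * D)) ^ (1 / (m : ℝ)) =
      q ^ ((d : ℝ) * ((b : ℝ) + d) / m) * (pb * D) ^ (1 / (m : ℝ)) := by
    have h1 : pa * (S * D) = q ^ ((b + d) * d) * (pb * D) := by
      rw [← mul_assoc, ← h5, mul_assoc]
    rw [h1, Real.mul_rpow (by positivity) (mul_nonneg hpb hD)]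
    congr 1
    rw [← Real.rpow_natCast q ((b + d) * d), ← Real.rpow_mul hq0]
    congr 1
    push_cast
    ring
  have h2 : 0 ≤ T ^ (1 - 1 / (m : ℝ)) * (pb * D) ^ (1 / (m : ℝ)) :=
    mul_nonneg (Real.rpow_nonneg hT _) (Real.rpow_nonneg (mul_nonneg hpb hD) _)
  calc σ * (T ^ (1 - 1 / (m : ℝ)) * (pb * D) ^ (1 / (m : ℝ)))
      ≤ (K * q ^ ((d : ℝ) * ((b : ℝ) + d) / m) * r) *
        (T ^ (1 - 1 / (m : ℝ)) * (pb * D) ^ (1 / (m : ℝ))) := mul_le_mul_of_nonneg_right hσ h2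
    _ = r * (K * (T ^ (1 - 1 / (m : ℝ)) * (pa * (S * D)) ^ (1 / (m : ℝ)))) := by
        rw [e1]
        ring

theorem t_IST : M_IST := by
  intro hCHR hDGR hSTP hSEL hK1N hHLD hPSC hPAT m hm F _ _ _ ψ hψ g₀ hg₀ hdeg a d hd1 hdm hFr hSt
    C _ _ X hX c hc hBS p y hirr hev
  obtain ⟨hP1, -, hP3, hP4, hP5, -⟩ := hPSC
  have hq : (2 : ℝ) ≤ Nat.card F := by
    rw [Nat.card_eq_fintype_card]
    exact_mod_cast Fintype.one_lt_card (α := F)
  have hK1 : 1 ≤ KK m (Nat.card F : ℝ) := ist_one_le_KK m _ hq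
  have hK0 : 0 ≤ KK m (Nat.card F : ℝ) := by linarith
  have hm0 : (0 : ℝ) < m := by positivity
  have hm1 : 0 ≤ 1 - 1 / (m : ℝ) := by
    rw [sub_nonneg, div_le_one hm0]
    exact_mod_cast (by omega : 1 ≤ m)
  have hm2 : (0 : ℝ) ≤ 1 / (m : ℝ) := by positivity
  have hX0 : IsChr (X0 X) := (hCHR F ψ C).1 a d X hX
  have hBF : BF ψ m a c (FLC.xm fun g => X0 X (g, 1)) := (hPAT F ψ C m c).1 a d X hd1 hdm hBS
  have hF := hFr (GL (Fin d) F × C) (X0 X) hX0 c hc hBF p.g (p.h, y) hev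
  have hD0 : 0 ≤ (X0 X 1).re := ist_re_nonneg hX0
  have hD : 0 ≤ (X 1).re := ist_re_nonneg hX
  have hpa : 0 ≤ pq (Nat.card F : ℝ) a := by linarith [(hP4 (Nat.card F) a a hq le_rfl).1]
  have hpt : 0 ≤ pt m (p.g : Matrix (Fin a) (Fin a) F) := ist_pt_nonneg m _
  have hT0 : 0 ≤ TT a (KK m (Nat.card F)) c := (hP1 a a _ c le_rfl hK0 hc).1
  by_cases hib : ib (p.g : Matrix (Fin a) (Fin a) F) (p.h : Matrix (Fin d) (Fin d) F) = ∅
  · -- no nonzero homomorphism
    have h1 := (hSTP F ψ hψ C).1 a d X hX p y hib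
    refine h1.trans (hF.trans ?_)
    have h2 := (hDGR F ψ hψ C).1 a d X hX
    have h3 := (hP1 a (a + 1) (KK m (Nat.card F)) c (Nat.le_succ a) hK0 hc).2
    have e1 : TT a (KK m (Nat.card F)) c ^ (1 - 1 / (m : ℝ)) ≤
        TT (a + 1) (KK m (Nat.card F)) c ^ (1 - 1 / (m : ℝ)) := Real.rpow_le_rpow hT0 h3 hm1
    have e2 : (pq (Nat.card F) a * (X0 X 1).re) ^ (1 / (m : ℝ)) ≤
        (pq (Nat.card F) a * (X 1).re) ^ (1 / (m : ℝ)) :=
      Real.rpow_le_rpow (mul_nonneg hpa hD0) (mul_le_mul_of_nonneg_left h2 hpa) hm2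
    exact mul_le_mul (mul_le_mul_of_nonneg_left e1 hpt) e2
      (Real.rpow_nonneg (mul_nonneg hpa hD0) _)
      (mul_nonneg hpt (Real.rpow_nonneg (hT0.trans h3) _))
  · -- `a = b + d`
    have had : d ≤ a := by
      by_contra hlt
      exact hib ((hSEL F).2.1 a d p.g p.h (by omega) hirr)
    obtain ⟨b, rfl⟩ : ∃ b, a = b + d := ⟨a - d, by omega⟩
    obtain ⟨k, hk⟩ := (hSEL F).1 b d p.g p.h hirr
    have h1 := (hSTP F ψ hψ C).2 b d X hX p y k hk
    have hX1 : IsChr (X1 ψ X) := (hCHR F ψ C).2.1 b d X hX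
    have hc' : ∀ s, 0 ≤ (fun s => c (s + 1)) s := fun s => hc (s + 1)
    have hBS' : BS ψ m b d (fun s => c (s + 1)) (zm (X1 ψ X)) := (hPAT F ψ C m c).2.1 b d X hBS
    have hD1 : 0 ≤ (X1 ψ X 1).re := ist_re_nonneg hX1
    have hpb : 0 ≤ pq (Nat.card F : ℝ) b := by linarith [(hP4 (Nat.card F) b b hq le_rfl).1]
    have hT1' : 0 ≤ TT (b + 1) (KK m (Nat.card F)) (fun s => c (s + 1)) :=
      (hP1 (b + 1) (b + 1) _ _ le_rfl hK0 hc').1
    have hT1 : TT (b + 1) (KK m (Nat.card F)) (fun s => c (s + 1)) ≤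
        TT (b + d) (KK m (Nat.card F)) (fun s => c (s + 1)) :=
      (hP1 (b + 1) (b + d) _ _ (by omega) hK0 hc').2
    have hS : 0 ≤ ∏ t ∈ Finset.range d, ((Nat.card F : ℝ) ^ (b + d) - (Nat.card F : ℝ) ^ t) := by
      refine Finset.prod_nonneg fun t ht => ?_
      rw [Finset.mem_range] at ht
      have : (Nat.card F : ℝ) ^ t ≤ (Nat.card F : ℝ) ^ (b + d) :=
        pow_le_pow_right₀ (by linarith) (by omega)
      linarith
    -- the terms of the sum
    have hterm : ∀ B ∈ ib (p.g : Matrix (Fin (b + d)) (Fin (b + d)) F)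
        (p.h : Matrix (Fin d) (Fin d) F),
        ‖X1 ψ X (k B, y)‖ ≤ pt m ((k B).g : Matrix (Fin b) (Fin b) F) *
          (TT (b + d) (KK m (Nat.card F)) (fun s => c (s + 1)) ^ (1 - 1 / (m : ℝ)) *
            (pq (Nat.card F) b * (X1 ψ X 1).re) ^ (1 / (m : ℝ))) := by
      intro B hB
      obtain ⟨hkh, G, hG1, hG2⟩ := hk B hB
      have hirr' : Irreducible ((k B).h : Matrix (Fin d) (Fin d) F).charpoly := by
        rw [hkh]; exact hirr
      have hev' : aeval ((k B).g : Matrix (Fin b) (Fin b) F) g₀ = 0 :=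
        (hSEL F).2.2 b d (k B) g₀ (ist_aeval_conj p.g G _ hG2 g₀ hev)
      have h2 := hSt b (by omega) C (X1 ψ X) hX1 (fun s => c (s + 1)) hc' hBS' (k B) y hirr' hev'
      refine h2.trans ?_
      rw [mul_assoc]
      refine mul_le_mul_of_nonneg_left ?_ (ist_pt_nonneg m _)
      exact mul_le_mul_of_nonneg_right (Real.rpow_le_rpow hT1' hT1 hm1)
        (Real.rpow_nonneg (mul_nonneg hpb hD1) _)
    have hsum := Finset.sum_le_sum hterm
    rw [← Finset.sum_mul] at hsum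
    have hK := hK1N m (by omega) F g₀ hg₀ hdeg b d p.g p.h k hd1 hev hirr hk
    have h5 := hP5 (Nat.card F) b d hq
    have hnum := ist_num m (Nat.card F) hq b d (KK m (Nat.card F))
      (TT (b + d) (KK m (Nat.card F)) (fun s => c (s + 1)))
      (∏ t ∈ Finset.range d, ((Nat.card F : ℝ) ^ (b + d) - (Nat.card F : ℝ) ^ t))
      (pq (Nat.card F) b) (pq (Nat.card F) (b + d)) (X1 ψ X 1).re
      (pt m (p.g : Matrix (Fin (b + d)) (Fin (b + d)) F)) _ (hT1'.trans hT1) hpb hD1 h5 hK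
    have hH := hHLD m hm (KK m (Nat.card F)) (TT (b + d) (KK m (Nat.card F)) c)
      (TT (b + d) (KK m (Nat.card F)) (fun s => c (s + 1)))
      (pq (Nat.card F) (b + d) * (X0 X 1).re)
      (pq (Nat.card F) (b + d) *
        ((∏ t ∈ Finset.range d, ((Nat.card F : ℝ) ^ (b + d) - (Nat.card F : ℝ) ^ t)) *
          (X1 ψ X 1).re)) hK1 hT0 (hT1'.trans hT1) (mul_nonneg hpa hD0)
      (mul_nonneg hpa (mul_nonneg hS hD1))
    have hT2 := hP3 (b + d) (KK m (Nat.card F)) c (by omega) hK0 hc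
    have hDD := (hDGR F ψ hψ C).2 b d X hd1 hX
    have hT3 : 0 ≤ TT (b + d) (KK m (Nat.card F)) c + KK m (Nat.card F) ^ 2 *
        TT (b + d) (KK m (Nat.card F)) (fun s => c (s + 1)) :=
      add_nonneg hT0 (mul_nonneg (sq_nonneg _) (hT1'.trans hT1))
    have hfin : (TT (b + d) (KK m (Nat.card F)) c + KK m (Nat.card F) ^ 2 *
        TT (b + d) (KK m (Nat.card F)) (fun s => c (s + 1))) ^ (1 - 1 / (m : ℝ)) *
        (pq (Nat.card F) (b + d) * (X0 X 1).re + pq (Nat.card F) (b + d) *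
          ((∏ t ∈ Finset.range d, ((Nat.card F : ℝ) ^ (b + d) - (Nat.card F : ℝ) ^ t)) *
          (X1 ψ X 1).re)) ^ (1 / (m : ℝ)) ≤
        TT (b + d + 1) (KK m (Nat.card F)) c ^ (1 - 1 / (m : ℝ)) *
          (pq (Nat.card F) (b + d) * (X 1).re) ^ (1 / (m : ℝ)) := by
      refine mul_le_mul (Real.rpow_le_rpow hT3 hT2 hm1) (Real.rpow_le_rpow ?_ ?_ hm2)
        (Real.rpow_nonneg ?_ _) (Real.rpow_nonneg (hT3.trans hT2) _)
      · exact add_nonneg (mul_nonneg hpa hD0) (mul_nonneg hpa (mul_nonneg hS hD1))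
      · rw [← mul_add]
        exact mul_le_mul_of_nonneg_left hDD hpa
      · exact add_nonneg (mul_nonneg hpa hD0) (mul_nonneg hpa (mul_nonneg hS hD1))
    calc ‖X (p, y)‖ ≤ _ := h1
      _ ≤ pt m (p.g : Matrix (Fin (b + d)) (Fin (b + d)) F) *
            TT (b + d) (KK m (Nat.card F)) c ^ (1 - 1 / (m : ℝ)) *
            (pq (Nat.card F) (b + d) * (X0 X 1).re) ^ (1 / (m : ℝ)) +
          pt m (p.g : Matrix (Fin (b + d)) (Fin (b + d)) F) * (KK m (Nat.card F) *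
            (TT (b + d) (KK m (Nat.card F)) (fun s => c (s + 1)) ^ (1 - 1 / (m : ℝ)) *
            (pq (Nat.card F) (b + d) *
              ((∏ t ∈ Finset.range d, ((Nat.card F : ℝ) ^ (b + d) - (Nat.card F : ℝ) ^ t)) *
              (X1 ψ X 1).re)) ^ (1 / (m : ℝ)))) := add_le_add hF (hsum.trans hnum)
      _ = pt m (p.g : Matrix (Fin (b + d)) (Fin (b + d)) F) *
          (TT (b + d) (KK m (Nat.card F)) c ^ (1 - 1 / (m : ℝ)) *
            (pq (Nat.card F) (b + d) * (X0 X 1).re) ^ (1 / (m : ℝ)) +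
            KK m (Nat.card F) *
            (TT (b + d) (KK m (Nat.card F)) (fun s => c (s + 1)) ^ (1 - 1 / (m : ℝ)) *
            (pq (Nat.card F) (b + d) *
              ((∏ t ∈ Finset.range d, ((Nat.card F : ℝ) ^ (b + d) - (Nat.card F : ℝ) ^ t)) *
              (X1 ψ X 1).re)) ^ (1 / (m : ℝ)))) := by ring
      _ ≤ pt m (p.g : Matrix (Fin (b + d)) (Fin (b + d)) F) *
          (TT (b + d + 1) (KK m (Nat.card F)) c ^ (1 - 1 / (m : ℝ)) *
          (pq (Nat.card F) (b + d) * (X 1).re) ^ (1 / (m : ℝ))) :=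
          mul_le_mul_of_nonneg_left (hH.trans hfin) hpt
      _ = _ := by ring

end

end FLX
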