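import Mathlib
import Pool.Agent.FLX.StX
import Pool.Agent.FLC.MB

/-!
# MBX: bounds for the multiplicities of patterns
-/

set_option autoImplicit false

namespace FLX

open RSF FL0 SRJ Polynomial Pool.Agent.Lib_helper13

/-- a flag needs a block of size at least one -/
theorem mbx_fl_le (m : ℕ) : ∀ τ : List (ℕ × Bool), vl m τ → fl τ ≤ rk τ
  | [], _ => le_rfl
  | p :: τ, h => by
      obtain ⟨h1, -, -, h4⟩ := h
      have h5 := mbx_fl_le m τ h4
      unfold fl rk
      split_ifs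
      · omega
      · omega

/-- the matrices of `UT` have determinant one -/
theorem mbx_det {F : Type} [Field F] [Fintype F] :
    ∀ (τ : List (ℕ × Bool)) (M : Matrix (Fin (sz τ)) (Fin (sz τ)) F), UT τ M → M.det = 1
  | [], M, _ => by
      have : IsEmpty (Fin (sz [])) := by
        unfold sz
        infer_instance
      exact Matrix.det_isEmpty
  | p :: τ, M, h => by
      obtain ⟨h1, h2⟩ := h
      have h3 := mbx_det τ _ h1
      have h4 : (bm (tlb (d := p.1) M) (trb (d := p.1) M) 1).det = 1 := by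
        unfold bm
        rw [Matrix.det_reindex_self, Matrix.det_fromBlocks_zero₂₁, h3, Matrix.det_one, one_mul]
      rw [h2]
      exact h4

theorem t_MBX : M_MBX := by
  intro hMN hDC hUTG hRA1 hRA2 hRNK hDC0 F _ _ _ ψ hψ m hm τ hτ X hX
  obtain ⟨H, hH, hLC, hav⟩ := hUTG F ψ m τ hτ
  obtain ⟨k, hk⟩ := (hMN _ X hX.isChr).1 H _ hLC
  have hmu : mu ψ τ (FLC.xm X) = (k : ℂ) := (hav X).trans hk
  have hre : (FLC.mlt H (fun g => ψ (tv τ (g : Matrix (Fin (sz τ)) (Fin (sz τ)) F))) X).re =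
      (k : ℝ) := by
    rw [hk, Complex.natCast_re]
  have hno : ‖mu ψ τ (FLC.xm X)‖ = (k : ℝ) := by
    rw [hmu, Complex.norm_natCast]
  refine ⟨?_, ?_⟩
  · obtain ⟨R, hRc, hR⟩ := hRA1 F m τ hm hτ
    have h2 := FLC.mb_term hMN hDC H H _ _ R hLC hLC (fun g => by
      obtain ⟨h, k', hh, hk', hhk⟩ := hR g
      exact ⟨h, (hH h).2 hh, k', (hH k').2 hk', hhk⟩) X hX
    rw [hre] at h2
    rw [hno, pow_two]
    refine h2.trans ?_
    have h3 : (R.card : ℝ) ≤ (((sz τ).factorial * (Nat.card F) ^ (m * sz τ) : ℕ) : ℝ) :=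
      Nat.cast_le.2 hRc
    refine h3.trans (le_of_eq ?_)
    push_cast
    rfl
  · intro K l hK h0
    refine ⟨?_, ?_⟩
    · obtain ⟨R, hRc, hR⟩ := hRA2 F m τ K hτ hK
      have h2 := FLC.mb_term hMN hDC H (FLC.HK (sz τ) F K) _ (FLC.ld l) R hLC
        (FLC.mb_ld _ l) (fun g => by
          obtain ⟨h, k', hh, hk', hhk⟩ := hR g
          exact ⟨h, (hH h).2 hh, k', hk', hhk⟩) X hX
      rw [hre] at h2
      have h3 := FLC.mb_one_le hMN (FLC.HK (sz τ) F K) (FLC.ld l) X (FLC.mb_ld _ l) hX h0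
      have h4 : (0 : ℝ) ≤ (k : ℝ) := Nat.cast_nonneg k
      have h5 : (R.card : ℝ) ≤ (((sz τ) ^ K * Nat.card F ^ (m * K ^ 2) : ℕ) : ℝ) :=
        Nat.cast_le.2 hRc
      rw [hno]
      calc (k : ℝ) ≤ (k : ℝ) * (FLC.mlt (FLC.HK (sz τ) F K) (FLC.ld l) X).re :=
            le_mul_of_one_le_right h4 h3
        _ ≤ (R.card : ℝ) := h2
        _ ≤ _ := h5
        _ = _ := by push_cast; rfl
    · intro hKf
      rw [hav X]
      refine hDC0 _ H (FLC.HK (sz τ) F K) _ (FLC.ld l) hLC (FLC.mb_ld _ l) ?_ X hX h0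
      intro g
      obtain ⟨h, hh, hhK, hne⟩ := hRNK F ψ hψ m τ hτ K (lt_of_lt_of_le hKf (mbx_fl_le m τ hτ)) g
      refine ⟨h, (hH h).2 hh, hhK, ?_⟩
      have hd : FLC.ld l (g⁻¹ * h * g) = 1 := by
        have h6 : Matrix.GeneralLinearGroup.det h = 1 := by
          apply Units.ext
          rw [Matrix.GeneralLinearGroup.val_det_apply, Units.val_one]
          exact mbx_det τ _ hh
        have h7 : Matrix.GeneralLinearGroup.det (g⁻¹ * h * g) = 1 := by
          rw [map_mul Matrix.GeneralLinearGroup.det (g⁻¹ * h) g,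
            map_mul Matrix.GeneralLinearGroup.det g⁻¹ h, h6, mul_one,
            ← map_mul Matrix.GeneralLinearGroup.det g⁻¹ g, inv_mul_cancel, map_one]
        unfold FLC.ld
        rw [h7, map_one, Units.val_one]
      rw [hd]
      exact hne

end FLX
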