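import Mathlib
import Pool.Agent.FLX.StX

/-!
# FLX: one step of the chain

MP_5b5212_al, module STP.
-/

set_option autoImplicit false

namespace FLX

open RSF FL0 SRJ Polynomial Pool.Agent.Lib_helper13

noncomputable section

section

variable {F : Type} [Field F] [Fintype F] [DecidableEq F] {a b d : ℕ}

theorem stp_card (a d : ℕ) (F : Type) [Field F] [Fintype F] [DecidableEq F] :
    Fintype.card (Matrix (Fin d) (Fin a) F) = Nat.card F ^ (a * d) := by
  rw [Fintype.card_congr (Matrix.of (α := F)).symm]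
  simp only [Fintype.card_pi, Finset.prod_const, Finset.card_univ, Fintype.card_fin]
  rw [← pow_mul, Nat.card_eq_fintype_card]

theorem stp_tr (v : Matrix (Fin a) (Fin d) F) (hv : v ≠ 0) (t : F) :
    ∃ B : Matrix (Fin d) (Fin a) F, (B * v).trace = t := by
  obtain ⟨i, j, hij⟩ : ∃ i j, v i j ≠ 0 := by
    by_contra hcon
    push Not at hcon
    exact hv (Matrix.ext fun i j => hcon i j)
  refine ⟨Matrix.single j i (t / v i j), ?_⟩
  rw [Matrix.trace_single_mul]
  exact div_mul_cancel₀ _ hij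

theorem stp_tr' (B : Matrix (Fin d) (Fin a) F) (hB : B ≠ 0) (t : F) :
    ∃ v : Matrix (Fin a) (Fin d) F, (B * v).trace = t := by
  obtain ⟨v, hv⟩ := stp_tr B hB t
  exact ⟨v, by rw [Matrix.trace_mul_comm]; exact hv⟩

theorem stp_ne {ψ : AddChar F ℂ} (hψ : ψ ≠ 1) : ∃ t, ψ t ≠ 1 := AddChar.ne_one_iff.1 hψ

theorem stp_orth {ψ : AddChar F ℂ} (hψ : ψ ≠ 1) (v : Matrix (Fin a) (Fin d) F) :
    ∑ B : Matrix (Fin d) (Fin a) F, ψ (-(B * v).trace) =
      if v = 0 then (Nat.card F : ℂ) ^ (a * d) else 0 := by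
  by_cases hv : v = 0
  · rw [if_pos hv, hv]
    simp only [Matrix.mul_zero, Matrix.trace_zero, neg_zero, AddChar.map_zero_eq_one,
      Finset.sum_const, Finset.card_univ, nsmul_eq_mul, mul_one]
    rw [stp_card]
    push_cast
    ring
  · rw [if_neg hv]
    obtain ⟨t, ht⟩ := stp_ne hψ
    obtain ⟨B₀, hB₀⟩ := stp_tr v hv (-t)
    have h1 : ∑ B : Matrix (Fin d) (Fin a) F, ψ (-(B * v).trace) =
        ψ t * ∑ B : Matrix (Fin d) (Fin a) F, ψ (-(B * v).trace) := by
      rw [Finset.mul_sum, ← Equiv.sum_comp (Equiv.addRight B₀)]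
      refine Finset.sum_congr rfl fun B _ => ?_
      rw [← AddChar.map_add_eq_mul, Equiv.coe_addRight, Matrix.add_mul, Matrix.trace_add, hB₀]
      congr 1
      ring
    have h2 : (ψ t - 1) * ∑ B : Matrix (Fin d) (Fin a) F, ψ (-(B * v).trace) = 0 := by
      rw [sub_mul, one_mul, ← h1, sub_self]
    exact (mul_eq_zero.1 h2).resolve_left (sub_ne_zero.2 ht)

/-- `lk v` is the trace of `b0 * v` -/
theorem stp_lk (v : Matrix (Fin (b + d)) (Fin d) F) : lk v = (b0 b d F * v).trace := by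
  unfold lk
  rw [Matrix.trace, Finset.sum_comm]
  refine Finset.sum_congr rfl fun j _ => ?_
  rw [Matrix.diag_apply, Matrix.mul_apply]
  refine Finset.sum_congr rfl fun i _ => ?_
  unfold b0
  by_cases h : i.val = b + j.val
  · rw [if_pos (by omega), if_pos h, one_mul]
  · rw [if_neg (by omega), if_neg h, zero_mul]

variable {C : Type} [Group C]

/-- the part of `X` belonging to `B`, at `(⟨g, h, u⟩, c)` -/
def stp_x (ψ : AddChar F ℂ) (X : PB a d F × C → ℂ) (B : Matrix (Fin d) (Fin a) F)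
    (g : GL (Fin a) F) (h : GL (Fin d) F) (u : Matrix (Fin a) (Fin d) F) (c : C) : ℂ :=
  (∑ v : Matrix (Fin a) (Fin d) F, ψ (-(B * v).trace) *
    X (⟨g, h, u + v * (h : Matrix (Fin d) (Fin d) F)⟩, c)) / (Nat.card F : ℂ) ^ (a * d)

theorem stp_q (a d : ℕ) (F : Type) [Field F] [Fintype F] : (Nat.card F : ℂ) ^ (a * d) ≠ 0 := by
  refine pow_ne_zero _ ?_
  have : Nat.card F ≠ 0 := Nat.card_pos.ne'
  exact_mod_cast this

theorem stp_sum {ψ : AddChar F ℂ} (hψ : ψ ≠ 1) (X : PB a d F × C → ℂ)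
    (g : GL (Fin a) F) (h : GL (Fin d) F) (u : Matrix (Fin a) (Fin d) F) (c : C) :
    ∑ B : Matrix (Fin d) (Fin a) F, stp_x ψ X B g h u c = X (⟨g, h, u⟩, c) := by
  unfold stp_x
  rw [← Finset.sum_div, Finset.sum_comm, div_eq_iff (stp_q a d F)]
  have h1 : ∀ v : Matrix (Fin a) (Fin d) F, ∑ B : Matrix (Fin d) (Fin a) F,
      ψ (-(B * v).trace) * X (⟨g, h, u + v * (h : Matrix (Fin d) (Fin d) F)⟩, c) =
      if v = 0 then (Nat.card F : ℂ) ^ (a * d) * X (⟨g, h, u⟩, c) else 0 := by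
    intro v
    rw [← Finset.sum_mul, stp_orth hψ]
    by_cases hv : v = 0
    · rw [if_pos hv, if_pos hv, hv, Matrix.zero_mul, add_zero]
    · rw [if_neg hv, if_neg hv, zero_mul]
  rw [Finset.sum_congr rfl fun v _ => h1 v, Finset.sum_ite_eq' Finset.univ (0 : Matrix (Fin a) (Fin d) F),
    if_pos (Finset.mem_univ _)]
  ring

theorem stp_conj1 {X : PB a d F × C → ℂ} (hX : IsChr X)
    (g : GL (Fin a) F) (h : GL (Fin d) F) (u w : Matrix (Fin a) (Fin d) F) (c : C) :
    X (⟨g, h, u⟩, c) = X (⟨g, h, u + (w * (h : Matrix (Fin d) (Fin d) F) -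
      (g : Matrix (Fin a) (Fin a) F) * w)⟩, c) := by
  have h1 := hX.conj_eq ((⟨1, 1, w⟩ : PB a d F), (1 : C)) (⟨g, h, u⟩, c)
  rw [← h1]
  congr 1
  refine Prod.ext ?_ ?_
  · show (⟨1, 1, w⟩ : PB a d F) * ⟨g, h, u⟩ * (⟨1, 1, w⟩ : PB a d F)⁻¹ = _
    ext1
    · simp only [PB.mul_g, PB.inv_g, inv_one, one_mul, mul_one]
    · simp only [PB.mul_h, PB.inv_h, inv_one, one_mul, mul_one]
    · simp only [PB.mul_v, PB.mul_g, PB.inv_g, PB.inv_h, PB.inv_v, inv_one, one_mul, mul_one,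
        Matrix.GeneralLinearGroup.coe_one, Matrix.one_mul, Matrix.mul_one, Matrix.mul_neg]
      abel
  · show (1 : C) * c * (1 : C)⁻¹ = c
    rw [one_mul, inv_one, mul_one]

theorem stp_conj2 {X : PB a d F × C → ℂ} (hX : IsChr X) (G : GL (Fin a) F)
    (g : GL (Fin a) F) (h : GL (Fin d) F) (u : Matrix (Fin a) (Fin d) F) (c : C) :
    X (⟨g, h, u⟩, c) = X (⟨G * g * G⁻¹, h, (G : Matrix (Fin a) (Fin a) F) * u⟩, c) := by
  have h1 := hX.conj_eq ((⟨G, 1, 0⟩ : PB a d F), (1 : C)) (⟨g, h, u⟩, c)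
  rw [← h1]
  congr 1
  refine Prod.ext ?_ ?_
  · show (⟨G, 1, 0⟩ : PB a d F) * ⟨g, h, u⟩ * (⟨G, 1, 0⟩ : PB a d F)⁻¹ = _
    ext1
    · simp only [PB.mul_g, PB.inv_g]
    · simp only [PB.mul_h, PB.inv_h, inv_one, one_mul, mul_one]
    · simp only [PB.mul_v, PB.mul_g, PB.inv_g, PB.inv_h, PB.inv_v, inv_one, one_mul, mul_one,
        Matrix.GeneralLinearGroup.coe_one, Matrix.mul_one, Matrix.zero_mul, Matrix.mul_zero,
        neg_zero, add_zero, zero_add]
  · show (1 : C) * c * (1 : C)⁻¹ = c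
    rw [one_mul, inv_one, mul_one]

theorem stp_hh (h : GL (Fin d) F) (v : Matrix (Fin a) (Fin d) F) :
    v * ((h⁻¹ : GL (Fin d) F) : Matrix (Fin d) (Fin d) F) * (h : Matrix (Fin d) (Fin d) F) = v := by
  rw [Matrix.mul_assoc, ← Matrix.GeneralLinearGroup.coe_mul, inv_mul_cancel,
    Matrix.GeneralLinearGroup.coe_one, Matrix.mul_one]

theorem stp_hh' (h : GL (Fin d) F) (v : Matrix (Fin a) (Fin d) F) :
    v * (h : Matrix (Fin d) (Fin d) F) * ((h⁻¹ : GL (Fin d) F) : Matrix (Fin d) (Fin d) F) = v := by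
  rw [Matrix.mul_assoc, ← Matrix.GeneralLinearGroup.coe_mul, mul_inv_cancel,
    Matrix.GeneralLinearGroup.coe_one, Matrix.mul_one]

/-- translation of `v` -/
theorem stp_shift (ψ : AddChar F ℂ) (X : PB a d F × C → ℂ) (B : Matrix (Fin d) (Fin a) F)
    (g : GL (Fin a) F) (h : GL (Fin d) F) (u w : Matrix (Fin a) (Fin d) F) (c : C) :
    stp_x ψ X B g h (u + w * (h : Matrix (Fin d) (Fin d) F)) c =
      ψ ((B * w).trace) * stp_x ψ X B g h u c := by
  unfold stp_x
  rw [← mul_div_assoc]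
  congr 1
  rw [Finset.mul_sum, ← Equiv.sum_comp (Equiv.addRight w) (fun v => ψ ((B * w).trace) *
    (ψ (-(B * v).trace) * X (⟨g, h, u + v * (h : Matrix (Fin d) (Fin d) F)⟩, c)))]
  refine Finset.sum_congr rfl fun v _ => ?_
  have e1 : (B * w).trace + -(B * (v + w)).trace = -(B * v).trace := by
    rw [Matrix.mul_add, Matrix.trace_add]
    ring
  have e2 : u + w * (h : Matrix (Fin d) (Fin d) F) + v * (h : Matrix (Fin d) (Fin d) F) =
      u + (v + w) * (h : Matrix (Fin d) (Fin d) F) := by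
    rw [Matrix.add_mul]
    abel
  simp only [Equiv.coe_addRight]
  rw [← mul_assoc, ← AddChar.map_add_eq_mul, e1, e2]

theorem stp_van {ψ : AddChar F ℂ} (hψ : ψ ≠ 1) {X : PB a d F × C → ℂ} (hX : IsChr X)
    (B : Matrix (Fin d) (Fin a) F) (g : GL (Fin a) F) (h : GL (Fin d) F)
    (u : Matrix (Fin a) (Fin d) F) (c : C)
    (hB : (h : Matrix (Fin d) (Fin d) F) * B ≠ B * (g : Matrix (Fin a) (Fin a) F)) :
    stp_x ψ X B g h u c = 0 := by
  -- for all `w` the value is multiplied by `ψ (tr (B w - h⁻¹ B g w))`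
  have h1 : ∀ w : Matrix (Fin a) (Fin d) F, stp_x ψ X B g h u c =
      ψ (((B - ((h⁻¹ : GL (Fin d) F) : Matrix (Fin d) (Fin d) F) * B *
        (g : Matrix (Fin a) (Fin a) F)) * w).trace) * stp_x ψ X B g h u c := by
    intro w
    have e1 : stp_x ψ X B g h u c = stp_x ψ X B g h (u + (w - (g : Matrix (Fin a) (Fin a) F) * w *
        ((h⁻¹ : GL (Fin d) F) : Matrix (Fin d) (Fin d) F)) * (h : Matrix (Fin d) (Fin d) F)) c := by
      unfold stp_x
      congr 1
      refine Finset.sum_congr rfl fun v _ => ?_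
      rw [stp_conj1 hX g h (u + v * (h : Matrix (Fin d) (Fin d) F)) w c, Matrix.sub_mul, stp_hh,
        add_right_comm]
    have e2 := stp_shift ψ X B g h u (w - (g : Matrix (Fin a) (Fin a) F) * w *
        ((h⁻¹ : GL (Fin d) F) : Matrix (Fin d) (Fin d) F)) c
    rw [e2] at e1
    refine e1.trans ?_
    congr 2
    rw [Matrix.mul_sub, Matrix.sub_mul, Matrix.trace_sub, Matrix.trace_sub]
    congr 1
    rw [← Matrix.mul_assoc, ← Matrix.mul_assoc, Matrix.trace_mul_comm, ← Matrix.mul_assoc,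
      ← Matrix.mul_assoc]
  have h2 : B - ((h⁻¹ : GL (Fin d) F) : Matrix (Fin d) (Fin d) F) * B *
      (g : Matrix (Fin a) (Fin a) F) ≠ 0 := by
    intro h3
    apply hB
    have h4 : B = ((h⁻¹ : GL (Fin d) F) : Matrix (Fin d) (Fin d) F) * B *
      (g : Matrix (Fin a) (Fin a) F) := sub_eq_zero.1 h3
    calc (h : Matrix (Fin d) (Fin d) F) * B = (h : Matrix (Fin d) (Fin d) F) *
        (((h⁻¹ : GL (Fin d) F) : Matrix (Fin d) (Fin d) F) * B * (g : Matrix (Fin a) (Fin a) F)) := by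
          rw [← h4]
      _ = ((h : Matrix (Fin d) (Fin d) F) * ((h⁻¹ : GL (Fin d) F) : Matrix (Fin d) (Fin d) F)) * B *
          (g : Matrix (Fin a) (Fin a) F) := by simp only [Matrix.mul_assoc]
      _ = B * (g : Matrix (Fin a) (Fin a) F) := by
          rw [← Matrix.GeneralLinearGroup.coe_mul, mul_inv_cancel,
            Matrix.GeneralLinearGroup.coe_one, Matrix.one_mul]
  obtain ⟨t, ht⟩ := stp_ne hψ
  obtain ⟨w, hw⟩ := stp_tr' _ h2 t
  have h3 := h1 w
  rw [hw] at h3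
  have h4 : (ψ t - 1) * stp_x ψ X B g h u c = 0 := by
    rw [sub_mul, one_mul, ← h3, sub_self]
  exact (mul_eq_zero.1 h4).resolve_left (sub_ne_zero.2 ht)

theorem stp_zero (ψ : AddChar F ℂ) (X : PB a d F × C → ℂ) (g : GL (Fin a) F) (h : GL (Fin d) F)
    (u : Matrix (Fin a) (Fin d) F) (c : C) :
    stp_x ψ X 0 g h u c = X0 X (g, (h, c)) := by
  unfold stp_x X0
  congr 1
  let e : Matrix (Fin a) (Fin d) F ≃ Matrix (Fin a) (Fin d) F :=
    { toFun := fun v => u + v * (h : Matrix (Fin d) (Fin d) F)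
      invFun := fun v => (v - u) * ((h⁻¹ : GL (Fin d) F) : Matrix (Fin d) (Fin d) F)
      left_inv := fun v => by
        show (u + v * (h : Matrix (Fin d) (Fin d) F) - u) * _ = v
        rw [add_sub_cancel_left, stp_hh']
      right_inv := fun v => by
        show u + (v - u) * ((h⁻¹ : GL (Fin d) F) : Matrix (Fin d) (Fin d) F) *
          (h : Matrix (Fin d) (Fin d) F) = v
        rw [stp_hh, add_sub_cancel] }
  rw [← Equiv.sum_comp e (fun v => X (⟨g, h, v⟩, c))]
  refine Finset.sum_congr rfl fun v _ => ?_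
  rw [Matrix.zero_mul, Matrix.trace_zero, neg_zero, AddChar.map_zero_eq_one, one_mul]
  rfl

theorem stp_conjx (ψ : AddChar F ℂ) {X : PB a d F × C → ℂ} (hX : IsChr X)
    (B : Matrix (Fin d) (Fin a) F) (G : GL (Fin a) F) (g : GL (Fin a) F) (h : GL (Fin d) F)
    (u : Matrix (Fin a) (Fin d) F) (c : C) :
    stp_x ψ X (B * (G : Matrix (Fin a) (Fin a) F)) g h u c =
      stp_x ψ X B (G * g * G⁻¹) h ((G : Matrix (Fin a) (Fin a) F) * u) c := by
  unfold stp_x
  congr 1
  let e : Matrix (Fin a) (Fin d) F ≃ Matrix (Fin a) (Fin d) F :=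
    { toFun := fun v => (G : Matrix (Fin a) (Fin a) F) * v
      invFun := fun v => ((G⁻¹ : GL (Fin a) F) : Matrix (Fin a) (Fin a) F) * v
      left_inv := fun v => by
        show ((G⁻¹ : GL (Fin a) F) : Matrix (Fin a) (Fin a) F) * ((G : Matrix (Fin a) (Fin a) F) * v) = v
        rw [← Matrix.mul_assoc, ← Matrix.GeneralLinearGroup.coe_mul, inv_mul_cancel,
          Matrix.GeneralLinearGroup.coe_one, Matrix.one_mul]
      right_inv := fun v => by
        show (G : Matrix (Fin a) (Fin a) F) * (((G⁻¹ : GL (Fin a) F) : Matrix (Fin a) (Fin a) F) * v) = v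
        rw [← Matrix.mul_assoc, ← Matrix.GeneralLinearGroup.coe_mul, mul_inv_cancel,
          Matrix.GeneralLinearGroup.coe_one, Matrix.one_mul] }
  rw [← Equiv.sum_comp e (fun v => ψ (-(B * v).trace) *
    X (⟨G * g * G⁻¹, h, (G : Matrix (Fin a) (Fin a) F) * u + v * (h : Matrix (Fin d) (Fin d) F)⟩, c))]
  refine Finset.sum_congr rfl fun v _ => ?_
  show _ = ψ (-(B * ((G : Matrix (Fin a) (Fin a) F) * v)).trace) *
    X (⟨G * g * G⁻¹, h, (G : Matrix (Fin a) (Fin a) F) * u +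
      ((G : Matrix (Fin a) (Fin a) F) * v) * (h : Matrix (Fin d) (Fin d) F)⟩, c)
  rw [stp_conj2 hX G g h (u + v * (h : Matrix (Fin d) (Fin d) F)) c, Matrix.mul_assoc,
    Matrix.mul_add, Matrix.mul_assoc]

end

theorem t_STP : S_STP := by
  intro F _ _ _ ψ hψ C _ _
  refine ⟨?_, ?_⟩
  · intro a d X hX p c hib
    have h0 : ∀ B : Matrix (Fin d) (Fin a) F, B ≠ 0 → stp_x ψ X B p.g p.h p.v c = 0 := by
      intro B hB
      refine stp_van hψ hX B p.g p.h p.v c fun h1 => ?_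
      have h2 : B ∈ ib (p.g : Matrix (Fin a) (Fin a) F) (p.h : Matrix (Fin d) (Fin d) F) := by
        unfold ib
        rw [Finset.mem_filter]
        exact ⟨Finset.mem_univ _, hB, h1⟩
      rw [hib] at h2
      exact Finset.notMem_empty _ h2
    have h1 := stp_sum hψ X p.g p.h p.v c
    rw [Finset.sum_eq_single (0 : Matrix (Fin d) (Fin a) F) (fun B _ hB => h0 B hB)
      (fun h => absurd (Finset.mem_univ _) h), stp_zero] at h1
    show ‖X (⟨p.g, p.h, p.v⟩, c)‖ ≤ _
    rw [← h1]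
  · intro b d X hX p c k hk
    classical
    have h1 := stp_sum hψ X p.g p.h p.v c
    show ‖X (⟨p.g, p.h, p.v⟩, c)‖ ≤ _
    rw [← h1]
    have h2 : ∑ B : Matrix (Fin d) (Fin (b + d)) F, stp_x ψ X B p.g p.h p.v c =
        X0 X (p.g, (p.h, c)) +
          ∑ B ∈ ib (p.g : Matrix (Fin (b + d)) (Fin (b + d)) F) (p.h : Matrix (Fin d) (Fin d) F),
            stp_x ψ X B p.g p.h p.v c := by
      rw [← Finset.add_sum_erase Finset.univ _ (Finset.mem_univ (0 : Matrix (Fin d) (Fin (b + d)) F)),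
        stp_zero]
      congr 1
      symm
      refine Finset.sum_subset ?_ ?_
      · intro B hB
        unfold ib at hB
        rw [Finset.mem_filter] at hB
        exact Finset.mem_erase.2 ⟨hB.2.1, Finset.mem_univ _⟩
      · intro B hB hB2
        refine stp_van hψ hX B p.g p.h p.v c fun h3 => hB2 ?_
        unfold ib
        rw [Finset.mem_filter]
        exact ⟨Finset.mem_univ _, (Finset.mem_erase.1 hB).1, h3⟩
    rw [h2]
    refine (norm_add_le _ _).trans (add_le_add le_rfl ((norm_sum_le _ _).trans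
      (Finset.sum_le_sum fun B hB => le_of_eq ?_)))
    obtain ⟨hkh, G, hG, hGk⟩ := hk B hB
    rw [hG, stp_conjx ψ hX (b0 b d F) G p.g p.h p.v c, hGk]
    have h4 : stp_x ψ X (b0 b d F) (PB.emb (k B)) p.h
        ((G : Matrix (Fin (b + d)) (Fin (b + d)) F) * p.v) c =
        ψ ((b0 b d F * ((G : Matrix (Fin (b + d)) (Fin (b + d)) F) * p.v *
          ((p.h⁻¹ : GL (Fin d) F) : Matrix (Fin d) (Fin d) F))).trace) *
          stp_x ψ X (b0 b d F) (PB.emb (k B)) p.h 0 c := by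
      rw [← stp_shift, zero_add, stp_hh]
    rw [h4, norm_mul, AddChar.norm_apply, one_mul]
    congr 1
    unfold stp_x X1
    rw [← hG, hkh]
    congr 1
    refine Finset.sum_congr rfl fun v _ => ?_
    rw [stp_lk, zero_add]

end

end FLX
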