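import Mathlib
import Pool.Agent.FLX.StX

/-!
# FLX, module UTG: the unipotent group of a pattern

`utg_sum`: a sum over `UT (p :: τ)` is a double sum over `UT τ` and the upper right blocks; `utg_mu`: the multiplicity `mu` is
the average over `UT τ`; `utg_mul`: `UT τ` is closed under products and `tv τ` is additive on it.
-/

set_option autoImplicit false

namespace FLX

open RSF FL0 SRJ Polynomial Pool.Agent.Lib_helper13

noncomputable section

section

variable {F : Type} [Field F]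

theorem utg_tlb {a d : ℕ} (g : Matrix (Fin a) (Fin a) F) (v : Matrix (Fin a) (Fin d) F)
    (h : Matrix (Fin d) (Fin d) F) : tlb (bm g v h) = g := by
  ext i j
  simp [tlb, bm]

theorem utg_trb {a d : ℕ} (g : Matrix (Fin a) (Fin a) F) (v : Matrix (Fin a) (Fin d) F)
    (h : Matrix (Fin d) (Fin d) F) : trb (bm g v h) = v := by
  ext i j
  simp [trb, bm]

theorem utg_UT_bm (p : ℕ × Bool) (τ : List (ℕ × Bool)) (g : Matrix (Fin (sz τ)) (Fin (sz τ)) F)
    (v : Matrix (Fin (sz τ)) (Fin p.1) F) (h : UT τ g) : UT (p :: τ) (bm g v 1) := by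
  have h1 : tlb (bm g v (1 : Matrix (Fin p.1) (Fin p.1) F)) = g := utg_tlb g v 1
  have h2 : trb (bm g v (1 : Matrix (Fin p.1) (Fin p.1) F)) = v := utg_trb g v 1
  refine ⟨?_, ?_⟩
  · rw [h1]; exact h
  · rw [h1, h2]

theorem utg_UT_cons (p : ℕ × Bool) (τ : List (ℕ × Bool))
    (M : Matrix (Fin (sz (p :: τ))) (Fin (sz (p :: τ))) F) (h : UT (p :: τ) M) :
    ∃ (g : Matrix (Fin (sz τ)) (Fin (sz τ)) F) (v : Matrix (Fin (sz τ)) (Fin p.1) F),
      UT τ g ∧ M = bm g v 1 := ⟨_, _, h.1, h.2⟩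

theorem utg_tv_bm (p : ℕ × Bool) (τ : List (ℕ × Bool)) (g : Matrix (Fin (sz τ)) (Fin (sz τ)) F)
    (v : Matrix (Fin (sz τ)) (Fin p.1) F) :
    tv (p :: τ) (bm g v 1) = tv τ g + (if p.2 then lk v else 0) := by
  have h1 : tlb (bm g v (1 : Matrix (Fin p.1) (Fin p.1) F)) = g := utg_tlb g v 1
  have h2 : trb (bm g v (1 : Matrix (Fin p.1) (Fin p.1) F)) = v := utg_trb g v 1
  change tv τ (tlb (bm g v (1 : Matrix (Fin p.1) (Fin p.1) F))) +
    (if p.2 then lk (trb (bm g v (1 : Matrix (Fin p.1) (Fin p.1) F))) else 0) = _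
  rw [h1, h2]

theorem utg_lk_add {a d : ℕ} (v w : Matrix (Fin a) (Fin d) F) : lk (v + w) = lk v + lk w := by
  unfold lk
  rw [← Finset.sum_add_distrib]
  refine Finset.sum_congr rfl fun i _ => ?_
  rw [← Finset.sum_add_distrib]
  refine Finset.sum_congr rfl fun j _ => ?_
  split_ifs
  · rfl
  · simp

theorem utg_lk_zero {a d : ℕ} : lk (0 : Matrix (Fin a) (Fin d) F) = 0 := by
  unfold lk
  simp

theorem utg_one : ∀ τ : List (ℕ × Bool),
    UT τ (1 : Matrix (Fin (sz τ)) (Fin (sz τ)) F) ∧ tv τ (1 : Matrix (Fin (sz τ)) (Fin (sz τ)) F) = 0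
  | [] => ⟨trivial, rfl⟩
  | p :: τ => by
    obtain ⟨h1, h2⟩ := utg_one τ
    have h3 : (1 : Matrix (Fin (sz (p :: τ))) (Fin (sz (p :: τ))) F) =
      bm (1 : Matrix (Fin (sz τ)) (Fin (sz τ)) F) 0 (1 : Matrix (Fin p.1) (Fin p.1) F) :=
        (bm_one (sz τ) p.1).symm
    rw [h3]
    refine ⟨utg_UT_bm p τ _ _ h1, ?_⟩
    rw [utg_tv_bm, h2, utg_lk_zero]
    simp

/-- the last rows of `bm g v 1` are `(0 1)` -/
theorem utg_low {a d e : ℕ} (g : Matrix (Fin a) (Fin a) F) (v : Matrix (Fin a) (Fin d) F)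
    (w : Matrix (Fin (a + d)) (Fin e) F) (i : Fin d) (j : Fin e) :
    (bm g v (1 : Matrix (Fin d) (Fin d) F) * w) (Fin.natAdd a i) j = w (Fin.natAdd a i) j := by
  rw [Matrix.mul_apply, Fin.sum_univ_add]
  have h1 : ∀ k : Fin a, bm g v (1 : Matrix (Fin d) (Fin d) F) (Fin.natAdd a i) (Fin.castAdd d k) = 0 := by
    intro k; simp [bm]
  have h2 : ∀ k : Fin d, bm g v (1 : Matrix (Fin d) (Fin d) F) (Fin.natAdd a i) (Fin.natAdd a k) =
      (1 : Matrix (Fin d) (Fin d) F) i k := by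
    intro k; simp [bm]
  simp only [h1, h2, zero_mul, Finset.sum_const_zero, zero_add]
  rw [Finset.sum_eq_single i]
  · rw [Matrix.one_apply_eq, one_mul]
  · intro k _ hk
    rw [Matrix.one_apply_ne (Ne.symm hk), zero_mul]
  · simp

theorem utg_lk_low {a d : ℕ} (g : Matrix (Fin a) (Fin a) F) (v : Matrix (Fin a) (Fin d) F)
    (w : Matrix (Fin (a + d)) (Fin d) F) :
    lk (bm g v (1 : Matrix (Fin d) (Fin d) F) * w) = lk w := by
  unfold lk
  refine Finset.sum_congr rfl fun i _ => ?_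
  refine Finset.sum_congr rfl fun j _ => ?_
  by_cases h : i.val + d = a + d + j.val
  · rw [if_pos h, if_pos h]
    have h1 : i = Fin.natAdd a j := by
      ext
      rw [Fin.val_natAdd]
      omega
    rw [h1, utg_low]
  · rw [if_neg h, if_neg h]

theorem utg_lk_UT (τ : List (ℕ × Bool)) (d : ℕ) (β : Bool) (τ' : List (ℕ × Bool))
    (hτ : τ = (d, β) :: τ') (g : Matrix (Fin (sz τ)) (Fin (sz τ)) F) (hg : UT τ g)
    (w : Matrix (Fin (sz τ)) (Fin d) F) : lk (g * w) = lk w := by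
  subst hτ
  obtain ⟨g1, v1, -, rfl⟩ := utg_UT_cons _ _ _ hg
  exact utg_lk_low g1 v1 w

theorem utg_mul (m : ℕ) : ∀ τ : List (ℕ × Bool), vl m τ →
    ∀ A B : Matrix (Fin (sz τ)) (Fin (sz τ)) F, UT τ A → UT τ B →
      UT τ (A * B) ∧ tv τ (A * B) = tv τ A + tv τ B
  | [], _, _, _, _, _ => ⟨trivial, (add_zero _).symm⟩
  | p :: τ, hv, A, B, hA, hB => by
    obtain ⟨g, v, hg, rfl⟩ := utg_UT_cons _ _ _ hA
    obtain ⟨g', v', hg', rfl⟩ := utg_UT_cons _ _ _ hB
    obtain ⟨-, -, h3, h4⟩ := hv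
    obtain ⟨h5, h6⟩ := utg_mul m τ h4 g g' hg hg'
    have h7 : bm g v (1 : Matrix (Fin p.1) (Fin p.1) F) * bm g' v' 1 = bm (g * g') (g * v' + v) 1 := by
      rw [bm_mul, Matrix.mul_one, Matrix.mul_one]
    have h8 : bm g v (1 : Matrix (Fin p.1) (Fin p.1) F) * bm g' v' 1 =
      (bm (g * g') (g * v' + v) 1 : Matrix (Fin (sz (p :: τ))) (Fin (sz (p :: τ))) F) := h7
    refine ⟨?_, ?_⟩
    · have := utg_UT_bm p τ (g * g') (g * v' + v) h5
      rw [← h7] at this
      exact this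
    · have h9 := utg_tv_bm p τ (g * g') (g * v' + v)
      rw [← h7] at h9
      refine h9.trans ?_
      rw [utg_tv_bm, utg_tv_bm, h6]
      by_cases hp : p.2 = true
      · obtain ⟨β, τ', hτ⟩ := h3 hp
        rw [if_pos hp, if_pos hp, if_pos hp, utg_lk_add, utg_lk_UT τ p.1 β τ' hτ g hg v']
        ring
      · rw [if_neg hp, if_neg hp, if_neg hp]
        ring

theorem utg_unit : ∀ (τ : List (ℕ × Bool)) (A : Matrix (Fin (sz τ)) (Fin (sz τ)) F), UT τ A →
    IsUnit A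
  | [], A, _ => by
    have h : A = 1 := by
      ext i
      exact i.elim0
    rw [h]
    exact isUnit_one
  | p :: τ, A, hA => by
    obtain ⟨g, v, hg, rfl⟩ := utg_UT_cons _ _ _ hA
    obtain ⟨u, rfl⟩ := utg_unit τ g hg
    have h1 : bm (u : Matrix (Fin (sz τ)) (Fin (sz τ)) F) v (1 : Matrix (Fin p.1) (Fin p.1) F) *
        bm ((u⁻¹ : (Matrix (Fin (sz τ)) (Fin (sz τ)) F)ˣ) : Matrix (Fin (sz τ)) (Fin (sz τ)) F)
          (-(((u⁻¹ : (Matrix (Fin (sz τ)) (Fin (sz τ)) F)ˣ) : Matrix (Fin (sz τ)) (Fin (sz τ)) F) * v)) 1 = 1 := by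
      rw [bm_mul, Matrix.mul_neg, ← Matrix.mul_assoc, Units.mul_inv, Matrix.one_mul, Matrix.mul_one,
        Matrix.mul_one, neg_add_cancel]
      exact bm_one _ _
    have h2 : bm ((u⁻¹ : (Matrix (Fin (sz τ)) (Fin (sz τ)) F)ˣ) : Matrix (Fin (sz τ)) (Fin (sz τ)) F)
          (-(((u⁻¹ : (Matrix (Fin (sz τ)) (Fin (sz τ)) F)ˣ) : Matrix (Fin (sz τ)) (Fin (sz τ)) F) * v)) 1 *
        bm (u : Matrix (Fin (sz τ)) (Fin (sz τ)) F) v (1 : Matrix (Fin p.1) (Fin p.1) F) = 1 := by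
      rw [bm_mul, Units.inv_mul, Matrix.mul_one, Matrix.mul_one, add_neg_cancel]
      exact bm_one _ _
    exact ⟨⟨_, _, h1, h2⟩, rfl⟩

end

section

variable {F : Type} [Field F] [Fintype F]

open Classical in
theorem utg_sum (p : ℕ × Bool) (τ : List (ℕ × Bool))
    (f : Matrix (Fin (sz (p :: τ))) (Fin (sz (p :: τ))) F → ℂ) :
    ∑ M ∈ Finset.univ.filter (fun M => UT (p :: τ) M), f M =
      ∑ g ∈ Finset.univ.filter (fun g : Matrix (Fin (sz τ)) (Fin (sz τ)) F => UT τ g),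
        ∑ v : Matrix (Fin (sz τ)) (Fin p.1) F, f (bm g v 1) := by
  rw [← Finset.sum_product']
  symm
  refine Finset.sum_bij (fun x _ => bm x.1 x.2 1) ?_ ?_ ?_ ?_
  · intro x hx
    rw [Finset.mem_product, Finset.mem_filter] at hx
    rw [Finset.mem_filter]
    exact ⟨Finset.mem_univ _, utg_UT_bm p τ x.1 x.2 hx.1.2⟩
  · intro x _ y _ h
    have h1 := congrArg (tlb (d := p.1)) h
    have h2 := congrArg (trb (d := p.1)) h
    rw [utg_tlb, utg_tlb] at h1
    rw [utg_trb, utg_trb] at h2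
    exact Prod.ext h1 h2
  · intro M hM
    rw [Finset.mem_filter] at hM
    obtain ⟨g, v, hg, hM⟩ := utg_UT_cons _ _ _ hM.2
    refine ⟨(g, v), ?_, hM.symm⟩
    rw [Finset.mem_product, Finset.mem_filter]
    exact ⟨⟨Finset.mem_univ _, hg⟩, Finset.mem_univ _⟩
  · intro x _
    rfl

open Classical in
theorem utg_mu (ψ : AddChar F ℂ) : ∀ (τ : List (ℕ × Bool))
    (Y : Matrix (Fin (sz τ)) (Fin (sz τ)) F → ℂ),
    mu ψ τ Y = (∑ A ∈ Finset.univ.filter (fun A => UT τ A), Y A * ψ (-(tv τ A))) /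
      ((Finset.univ.filter (fun A : Matrix (Fin (sz τ)) (Fin (sz τ)) F => UT τ A)).card : ℂ)
  | [], Y => by
    have h1 : Finset.univ.filter (fun A : Matrix (Fin (sz [])) (Fin (sz [])) F => UT [] A) = {1} := by
      ext A
      rw [Finset.mem_filter, Finset.mem_singleton]
      refine ⟨fun _ => ?_, fun _ => ⟨Finset.mem_univ _, trivial⟩⟩
      ext i
      exact i.elim0
    rw [h1, Finset.sum_singleton, Finset.card_singleton, (utg_one []).2, neg_zero,
      AddChar.map_zero_eq_one]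
    simp [mu]
  | p :: τ, Y => by
    have h1 : mu ψ (p :: τ) Y = mu ψ τ (stp ψ p.2 (fun (g : Matrix (Fin (sz τ)) (Fin (sz τ)) F)
      (v : Matrix (Fin (sz τ)) (Fin p.1) F) => Y (bm g v 1))) := rfl
    rw [h1, utg_mu ψ τ]
    have h2 : ((Finset.univ.filter (fun A : Matrix (Fin (sz (p :: τ))) (Fin (sz (p :: τ))) F =>
        UT (p :: τ) A)).card : ℂ) =
        ((Finset.univ.filter (fun A : Matrix (Fin (sz τ)) (Fin (sz τ)) F => UT τ A)).card : ℂ) *
          (Nat.card F : ℂ) ^ (sz τ * p.1) := by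
      have h3 := utg_sum p τ (fun _ : Matrix (Fin (sz (p :: τ))) (Fin (sz (p :: τ))) F => (1 : ℂ))
      rw [Finset.sum_const, nsmul_eq_mul, mul_one] at h3
      rw [h3]
      rw [Finset.sum_const, nsmul_eq_mul, Finset.sum_const, nsmul_eq_mul, mul_one, Finset.card_univ,
        ← Nat.card_eq_fintype_card]
      congr 1
      have h4 : Nat.card (Matrix (Fin (sz τ)) (Fin p.1) F) = Nat.card F ^ (sz τ * p.1) := by
        rw [Matrix, Nat.card_fun, Nat.card_fun, Nat.card_fin, Nat.card_fin, ← pow_mul, Nat.mul_comm]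
      rw [h4]
      push_cast
      rfl
    rw [h2, utg_sum]
    rw [div_mul_eq_div_div_swap]
    congr 1
    rw [Finset.sum_div]
    refine Finset.sum_congr rfl fun g _ => ?_
    unfold stp
    rw [div_mul_eq_mul_div]
    congr 1
    rw [Finset.sum_mul]
    refine Finset.sum_congr rfl fun v _ => ?_
    have h5 : ψ (-(tv (p :: τ) (bm g v 1))) = (if p.2 = true then ψ (-(lk v)) else 1) * ψ (-(tv τ g)) := by
      rw [utg_tv_bm]
      by_cases hp : p.2 = true
      · rw [if_pos hp, if_pos hp, neg_add, AddChar.map_add_eq_mul, mul_comm]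
      · rw [if_neg hp, if_neg hp, add_zero, one_mul]
    rw [h5]
    ring

theorem t_UTG : S_UTG := by
  classical
  intro F _ _ _ ψ m τ hv
  let H : Subgroup (GL (Fin (sz τ)) F) :=
    { carrier := {g | UT τ (g : Matrix (Fin (sz τ)) (Fin (sz τ)) F)}
      one_mem' := (utg_one τ).1
      mul_mem' := by
        intro a b ha hb
        exact (utg_mul m τ hv _ _ ha hb).1
      inv_mem' := by
        intro g hg
        have h1 : ∀ k : ℕ, UT τ ((g ^ k : GL (Fin (sz τ)) F) : Matrix (Fin (sz τ)) (Fin (sz τ)) F) := by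
          intro k
          induction k with
          | zero => rw [pow_zero]; exact (utg_one τ).1
          | succ k ih =>
            rw [pow_succ]
            exact (utg_mul m τ hv _ _ ih hg).1
        have h2 : g⁻¹ = g ^ (orderOf g - 1) := by
          refine inv_eq_of_mul_eq_one_left ?_
          rw [← pow_succ, Nat.sub_add_cancel (orderOf_pos g), pow_orderOf_eq_one]
        change UT τ ((g⁻¹ : GL (Fin (sz τ)) F) : Matrix (Fin (sz τ)) (Fin (sz τ)) F)
        rw [h2]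
        exact h1 _ }
  have hH : ∀ g, g ∈ H ↔ UT τ (g : Matrix (Fin (sz τ)) (Fin (sz τ)) F) := fun g => Iff.rfl
  have key : ∀ f : Matrix (Fin (sz τ)) (Fin (sz τ)) F → ℂ,
      ∑ g : GL (Fin (sz τ)) F, (if g ∈ H then f (g : Matrix (Fin (sz τ)) (Fin (sz τ)) F) else 0) =
        ∑ A ∈ Finset.univ.filter (fun A => UT τ A), f A := by
    intro f
    rw [← Finset.sum_filter]
    refine Finset.sum_bij (fun g _ => (g : Matrix (Fin (sz τ)) (Fin (sz τ)) F)) ?_ ?_ ?_ ?_
    · intro g hg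
      rw [Finset.mem_filter] at hg ⊢
      exact ⟨Finset.mem_univ _, hg.2⟩
    · intro g _ g' _ h
      exact Units.ext h
    · intro A hA
      rw [Finset.mem_filter] at hA
      obtain ⟨u, hu⟩ := utg_unit τ A hA.2
      refine ⟨u, ?_, hu⟩
      rw [Finset.mem_filter]
      refine ⟨Finset.mem_univ _, ?_⟩
      rw [hH, hu]
      exact hA.2
    · intro g _
      rfl
  refine ⟨H, hH, ⟨?_, ?_⟩, ?_⟩
  · change ψ (tv τ (1 : Matrix (Fin (sz τ)) (Fin (sz τ)) F)) = 1
    rw [(utg_one τ).2, AddChar.map_zero_eq_one]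
  · intro g hg h hh
    change ψ (tv τ ((g : Matrix (Fin (sz τ)) (Fin (sz τ)) F) * (h : Matrix (Fin (sz τ)) (Fin (sz τ)) F))) = _
    rw [(utg_mul m τ hv _ _ hg hh).2, AddChar.map_add_eq_mul]
  · intro X
    have h1 : (Nat.card H : ℂ) =
        ((Finset.univ.filter (fun A : Matrix (Fin (sz τ)) (Fin (sz τ)) F => UT τ A)).card : ℂ) := by
      have h2 := key (fun _ => 1)
      rw [Finset.sum_const, nsmul_eq_mul, mul_one, ← Finset.sum_filter, Finset.sum_const, nsmul_eq_mul,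
        mul_one] at h2
      rw [← h2]
      congr 1
      rw [Nat.card_eq_fintype_card, Fintype.card_subtype]
    rw [utg_mu]
    unfold FLC.mlt
    rw [h1]
    congr 1
    rw [← key (fun A => FLC.xm X A * ψ (-(tv τ A)))]
    refine Finset.sum_congr rfl fun g _ => ?_
    by_cases hg : g ∈ H
    · rw [if_pos hg, if_pos hg]
      have h3 : FLC.xm X (g : Matrix (Fin (sz τ)) (Fin (sz τ)) F) = X g := by
        have h4 : IsUnit (g : Matrix (Fin (sz τ)) (Fin (sz τ)) F) := g.isUnit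
        unfold FLC.xm
        rw [dif_pos h4]
        congr 1
        exact Units.ext h4.unit_spec
      rw [h3, AddChar.map_neg_eq_inv]
    · rw [if_neg hg, if_neg hg]

end

end

end FLX
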