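import Pool.Agent.FLX.FinG
import Pool.Agent.FLX.IST
import Pool.Agent.FLX.MBX
import Pool.Agent.FLX.STP
import Pool.Agent.FLX.UTG

/-!
# A sharp character bound for `GL_n(q)`, all `q`: the theorem
-/

namespace FLX

/-- **the theorem** -/
theorem a_MainV : MainV := main_of t_STP t_IST t_UTG t_MBX

end FLX
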