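import Mathlib
import Pool.Agent.FLX.StX

/-!
# FLX, module HLD: Hoelder's inequality for two terms
-/

set_option autoImplicit false

namespace FLX

/-- Hoelder for two terms with exponents `a + b = 1` -/
lemma hld_two (a b : ℝ) (ha : 0 < a) (hb : 0 < b) (hab : a + b = 1) (x y u v : ℝ)
    (hx : 0 ≤ x) (hy : 0 ≤ y) (hu : 0 ≤ u) (hv : 0 ≤ v) :
    x ^ a * u ^ b + y ^ a * v ^ b ≤ (x + y) ^ a * (u + v) ^ b := by
  rcases eq_or_lt_of_le (add_nonneg hx hy) with h | h
  · have hx0 : x = 0 := by linarith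
    have hy0 : y = 0 := by linarith
    subst hx0
    subst hy0
    simp [Real.zero_rpow ha.ne']
  rcases eq_or_lt_of_le (add_nonneg hu hv) with h' | h'
  · have hu0 : u = 0 := by linarith
    have hv0 : v = 0 := by linarith
    subst hu0
    subst hv0
    simp [Real.zero_rpow hb.ne']
  have h1 := Real.geom_mean_le_arith_mean2_weighted ha.le hb.le
    (div_nonneg hx h.le) (div_nonneg hu h'.le) hab
  have h2 := Real.geom_mean_le_arith_mean2_weighted ha.le hb.le
    (div_nonneg hy h.le) (div_nonneg hv h'.le) hab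
  rw [Real.div_rpow hx h.le, Real.div_rpow hu h'.le] at h1
  rw [Real.div_rpow hy h.le, Real.div_rpow hv h'.le] at h2
  have h3 : 0 < (x + y) ^ a := Real.rpow_pos_of_pos h a
  have h4 : 0 < (u + v) ^ b := Real.rpow_pos_of_pos h' b
  have h5 : x ^ a / (x + y) ^ a * (u ^ b / (u + v) ^ b) +
      y ^ a / (x + y) ^ a * (v ^ b / (u + v) ^ b) ≤ 1 := by
    have h6 : a * (x / (x + y)) + b * (u / (u + v)) + (a * (y / (x + y)) + b * (v / (u + v))) =
        1 := by
      have e1 : x / (x + y) + y / (x + y) = 1 := by field_simp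
      have e2 : u / (u + v) + v / (u + v) = 1 := by field_simp
      linear_combination a * e1 + b * e2 + hab
    linarith
  have h7 : x ^ a / (x + y) ^ a * (u ^ b / (u + v) ^ b) +
      y ^ a / (x + y) ^ a * (v ^ b / (u + v) ^ b) =
      (x ^ a * u ^ b + y ^ a * v ^ b) / ((x + y) ^ a * (u + v) ^ b) := by
    field_simp
  rw [h7, div_le_one (by positivity)] at h5
  exact h5

theorem t_HLD : S_HLD := by
  intro m hm K T₀ T₁ D₀ D₁ hK hT₀ hT₁ hD₀ hD₁
  have hm' : (2 : ℝ) ≤ m := by exact_mod_cast hm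
  have hm0 : (0 : ℝ) < m := by linarith
  obtain ⟨b, hb⟩ : ∃ b : ℝ, b = 1 / (m : ℝ) := ⟨_, rfl⟩
  rw [← hb]
  have hb0 : 0 < b := by
    rw [hb]
    positivity
  have hb1 : b ≤ 1 / 2 := by
    rw [hb]
    exact one_div_le_one_div_of_le (by norm_num) hm'
  have hK0 : 0 ≤ K := by linarith
  have h1 : K ≤ (K ^ 2) ^ (1 - b) := by
    rw [← Real.rpow_natCast K 2, ← Real.rpow_mul hK0]
    have h2 : K ^ (1 : ℝ) ≤ K ^ (((2 : ℕ) : ℝ) * (1 - b)) :=
      Real.rpow_le_rpow_of_exponent_le hK (by push_cast; linarith)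
    rwa [Real.rpow_one] at h2
  have h3 : 0 ≤ T₁ ^ (1 - b) * D₁ ^ b :=
    mul_nonneg (Real.rpow_nonneg hT₁ _) (Real.rpow_nonneg hD₁ _)
  have h4 : K * (T₁ ^ (1 - b) * D₁ ^ b) ≤ (K ^ 2 * T₁) ^ (1 - b) * D₁ ^ b := by
    rw [Real.mul_rpow (by positivity) hT₁, mul_assoc]
    exact mul_le_mul_of_nonneg_right h1 h3
  have h5 := hld_two (1 - b) b (by linarith) hb0 (by ring) T₀ (K ^ 2 * T₁) D₀ D₁ hT₀
    (by positivity) hD₀ hD₁
  linarith

end FLX
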