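import Mathlib
import Pool.Agent.FLX.StX

/-!
# IFR: the induction step for `GL_n × C`
-/

set_option autoImplicit false

namespace FLX

open RSF FL0 SRJ Polynomial Pool.Agent.Lib_helper13

noncomputable section

theorem ifr_KK_nonneg (m : ℕ) (q : ℝ) (hq : 0 ≤ q) : 0 ≤ KK m q := by
  unfold KK
  positivity

theorem ifr_card_two (F : Type) [Field F] [Fintype F] : (2 : ℝ) ≤ (Nat.card F : ℝ) := by
  have h1 : 1 < Nat.card F := Finite.one_lt_card
  exact_mod_cast h1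

theorem ifr_pt_nonneg {F : Type} [Field F] (m : ℕ) {n : ℕ} (A : Matrix (Fin n) (Fin n) F) :
    0 ≤ pt m A := by
  unfold pt
  apply Real.rpow_nonneg
  exact le_max_of_le_left (by positivity)

theorem ifr_one_le_pt {F : Type} [Field F] [Fintype F] (m : ℕ) {n : ℕ}
    (A : Matrix (Fin n) (Fin n) F) : 1 ≤ pt m A := by
  unfold pt
  apply Real.one_le_rpow _ (by norm_num)
  refine le_max_of_le_right ?_
  apply Real.one_le_rpow
  · linarith [ifr_card_two F]
  · positivity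

/-- the case `n = 0` -/
theorem ifr_zero (hMN : FLC.S_MN) (m : ℕ) (hm : 2 ≤ m) (F : Type) [Field F] [Fintype F] [DecidableEq F]
    (ψ : AddChar F ℂ) (C : Type) [Group C] [Fintype C] (X : GL (Fin 0) F × C → ℂ) (hX : IsChr X)
    (c : ℕ → ℝ) (hBF : BF ψ m 0 c (FLC.xm fun g => X (g, 1)))
    (x : GL (Fin 0) F) (y : C) :
    ‖X (x, y)‖ ≤ pt m (x : Matrix (Fin 0) (Fin 0) F) * (c 0) ^ (1 - 1 / (m : ℝ)) *
        ((X 1).re) ^ (1 / (m : ℝ)) := by
  obtain ⟨-, ⟨k, hk⟩, hle, -⟩ := hMN (GL (Fin 0) F × C) X hX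
  have h1 : ‖X (x, y)‖ ≤ (k : ℝ) := by
    refine (hle (x, y)).trans ?_
    rw [hk, Complex.norm_natCast]
  have h2 : (X 1).re = (k : ℝ) := by rw [hk, Complex.natCast_re]
  have h3 : (k : ℝ) ≤ c 0 := by
    have h4 := hBF [] trivial rfl
    have h5 : mu ψ [] (fun A => FLC.xm (fun g => X (g, 1))
        (A.submatrix (Fin.cast (rfl : 0 = 0).symm) (Fin.cast (rfl : 0 = 0).symm))) = X 1 := by
      simp only [mu]
      unfold FLC.xm
      have hu : IsUnit ((1 : Matrix (Fin (sz [])) (Fin (sz [])) F).submatrix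
          (Fin.cast (rfl : 0 = 0).symm) (Fin.cast (rfl : 0 = 0).symm)) := by
        rw [Matrix.isUnit_iff_isUnit_det, Matrix.det_isEmpty]
        exact isUnit_one
      rw [dif_pos hu]
      congr 1
      apply Units.ext
      ext i
      exact i.elim0
    rw [h5, hk, Complex.norm_natCast] at h4
    exact h4
  rw [h2]
  refine h1.trans ?_
  have hk0 : (0 : ℝ) ≤ k := Nat.cast_nonneg k
  have hm0 : (0 : ℝ) < m := by positivity
  have hm1 : (1 : ℝ) / m ≤ 1 := by
    rw [div_le_one hm0]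
    exact_mod_cast (by omega : 1 ≤ m)
  have hc0 : 0 ≤ c 0 := hk0.trans h3
  have h6 : (k : ℝ) = (k : ℝ) ^ (1 - 1 / (m : ℝ)) * (k : ℝ) ^ (1 / (m : ℝ)) := by
    rcases hk0.eq_or_lt with h0 | hpos
    · rw [← h0, Real.zero_rpow (by positivity : (1 / (m : ℝ)) ≠ 0), mul_zero]
    · rw [← Real.rpow_add hpos, sub_add_cancel, Real.rpow_one]
  calc (k : ℝ) = (k : ℝ) ^ (1 - 1 / (m : ℝ)) * (k : ℝ) ^ (1 / (m : ℝ)) := h6
    _ ≤ (c 0) ^ (1 - 1 / (m : ℝ)) * (k : ℝ) ^ (1 / (m : ℝ)) := by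
        gcongr
    _ = 1 * (c 0) ^ (1 - 1 / (m : ℝ)) * (k : ℝ) ^ (1 / (m : ℝ)) := by rw [one_mul]
    _ ≤ pt m (x : Matrix (Fin 0) (Fin 0) F) * (c 0) ^ (1 - 1 / (m : ℝ)) *
        (k : ℝ) ^ (1 / (m : ℝ)) := by
        gcongr
        exact ifr_one_le_pt m _

theorem t_IFR : M_IFR := by
  intro hMN hCHR hK2N hPSC hPAT m hm F _ _ _ ψ hψ g₀ hg₀ hdeg n hind C _ _ X hX c hc hBF x y hx
  obtain ⟨hP1, hP2, hP3, hP4, hP5, hP6⟩ := hPSC
  have hq2 := ifr_card_two F
  have hK0 : 0 ≤ KK m (Nat.card F) := ifr_KK_nonneg m _ (by linarith)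
  rcases Nat.eq_zero_or_pos n with h0 | hn
  · subst h0
    have h1 := ifr_zero hMN m hm F ψ C X hX c hBF x y
    have h2 : pq (Nat.card F) 0 = 1 := by simp [pq]
    rw [hP2, h2, one_mul]
    exact h1
  · obtain ⟨b, d, hbd, p, G, hd1, hdm, hirr, hpg, hconj, hpt⟩ := hK2N m (by omega) F g₀ hg₀ hdeg n hn x hx
    subst hbd
    have hmat : (G : Matrix (Fin (b + d)) (Fin (b + d)) F) * (x : Matrix (Fin (b + d)) (Fin (b + d)) F) =
        ((PB.emb p : GL (Fin (b + d)) F) : Matrix (Fin (b + d)) (Fin (b + d)) F) *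
          (G : Matrix (Fin (b + d)) (Fin (b + d)) F) := by
      have h1 : (x : Matrix (Fin (b + d)) (Fin (b + d)) F).submatrix
          (Fin.cast (rfl : b + d = b + d).symm) (Fin.cast (rfl : b + d = b + d).symm) =
          (x : Matrix (Fin (b + d)) (Fin (b + d)) F) := by
        ext i j
        rfl
      rw [h1] at hconj
      exact hconj
    have hGx : G * x * G⁻¹ = PB.emb p := by
      have h1 : G * x = PB.emb p * G := Units.ext (by
        rw [Matrix.GeneralLinearGroup.coe_mul, Matrix.GeneralLinearGroup.coe_mul]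
        exact hmat)
      rw [h1, mul_assoc, mul_inv_cancel, mul_one]
    have hXe : X (x, y) = X (PB.emb p, y) := by
      have h1 := hX.conj_eq ((G, 1) : GL (Fin (b + d)) F × C) (x, y)
      rw [← h1]
      congr 1
      refine Prod.ext ?_ ?_
      · exact hGx
      · simp
    set X' : PB b d F × C → ℂ := fun p => X (PB.emb p.1, p.2) with hX'
    have hchr : IsChr X' := (hCHR F ψ C).2.2 b d X hX
    have hBS : BS ψ m b d c (zm X') := (hPAT F ψ C m c).2.2 b d X hBF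
    have hSt := hind b d (by omega) hd1 hdm C X' hchr c hc hBS p y hirr hpg
    have hX'1 : X' 1 = X 1 := by
      rw [hX']
      show X (PB.emb (1 : PB b d F), (1 : C)) = X 1
      rw [map_one]
      rfl
    have hX'p : X' (p, y) = X (x, y) := hXe.symm
    rw [hX'p, hX'1] at hSt
    refine hSt.trans ?_
    obtain ⟨-, ⟨k, hk⟩, -, -⟩ := hMN (GL (Fin (b + d)) F × C) X hX
    have hX0 : 0 ≤ (X 1).re := by
      rw [hk, Complex.natCast_re]
      exact Nat.cast_nonneg k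
    have hm0 : (0 : ℝ) < m := by positivity
    have hm1 : (1 : ℝ) / m ≤ 1 := by
      rw [div_le_one hm0]
      exact_mod_cast (by omega : 1 ≤ m)
    have hT := hP1 (b + 1) (b + d) (KK m (Nat.card F)) c (by omega) hK0 hc
    have hT0 : 0 ≤ TT (b + 1) (KK m (Nat.card F)) c := hT.1
    have hT1 : TT (b + 1) (KK m (Nat.card F)) c ≤ TT (b + d) (KK m (Nat.card F)) c := hT.2
    have hpq := hP4 (Nat.card F) b (b + d) hq2 (by omega)
    have hpq0 : 0 ≤ pq (Nat.card F) b := by linarith [hpq.1]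
    have hpq1 : 0 ≤ pq (Nat.card F) (b + d) := by linarith [hpq.1, hpq.2]
    have hptb := ifr_pt_nonneg m (p.g : Matrix (Fin b) (Fin b) F)
    have hptx := ifr_pt_nonneg m (x : Matrix (Fin (b + d)) (Fin (b + d)) F)
    have e1 : TT (b + 1) (KK m (Nat.card F)) c ^ (1 - 1 / (m : ℝ)) ≤
        TT (b + d) (KK m (Nat.card F)) c ^ (1 - 1 / (m : ℝ)) :=
      Real.rpow_le_rpow hT0 hT1 (by linarith)
    have e2 : (pq (Nat.card F) b * (X 1).re) ^ (1 / (m : ℝ)) ≤
        (pq (Nat.card F) (b + d) * (X 1).re) ^ (1 / (m : ℝ)) :=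
      Real.rpow_le_rpow (mul_nonneg hpq0 hX0) (mul_le_mul_of_nonneg_right hpq.2 hX0) (by positivity)
    have e3 : 0 ≤ TT (b + 1) (KK m (Nat.card F)) c ^ (1 - 1 / (m : ℝ)) := Real.rpow_nonneg hT0 _
    have e4 : 0 ≤ (pq (Nat.card F) b * (X 1).re) ^ (1 / (m : ℝ)) :=
      Real.rpow_nonneg (mul_nonneg hpq0 hX0) _
    exact mul_le_mul (mul_le_mul hpt e1 e3 hptx) e2 e4
      (mul_nonneg hptx (Real.rpow_nonneg (hT0.trans hT1) _))

end

end FLX
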