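import Mathlib
import Pool.Agent.FLX.StX

set_option autoImplicit false

/-!
# FLX, module K1N (MP_5b5212_al): the sum of the potentials
-/

namespace FLX

open RSF FL0 SRJ Polynomial Pool.Agent.Lib_helper13

noncomputable section

/-- the dimensions `kd A p t` increase -/
theorem k1n_kd_mono {F : Type} [Field F] {n : ℕ} (A : Matrix (Fin n) (Fin n) F) (p : F[X]) (t : ℕ) :
    kd A p t ≤ kd A p (t + 1) := by
  unfold kd
  apply Submodule.finrank_mono
  intro x hx
  rw [LinearMap.mem_ker, Matrix.toLin'_apply] at hx ⊢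
  rw [pow_succ', ← Matrix.mulVec_mulVec, hx, Matrix.mulVec_zero]

/-- conjugation and `aeval` -/
theorem k1n_conj {F : Type} [Field F] {n : ℕ} (G g : GL (Fin n) F) (f : F[X])
    (h : aeval (g : Matrix (Fin n) (Fin n) F) f = 0) :
    aeval ((G * g * G⁻¹ : GL (Fin n) F) : Matrix (Fin n) (Fin n) F) f = 0 := by
  have hc : ((G * g * G⁻¹ : GL (Fin n) F) : Matrix (Fin n) (Fin n) F) =
      (G : Matrix (Fin n) (Fin n) F) * (g : Matrix (Fin n) (Fin n) F) *
        ((G⁻¹ : GL (Fin n) F) : Matrix (Fin n) (Fin n) F) := by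
    simp only [Matrix.GeneralLinearGroup.coe_mul]
  have hinv : ((G⁻¹ : GL (Fin n) F) : Matrix (Fin n) (Fin n) F) * (G : Matrix (Fin n) (Fin n) F) = 1 := by
    rw [← Matrix.GeneralLinearGroup.coe_mul, inv_mul_cancel, Matrix.GeneralLinearGroup.coe_one]
  have hinv' : (G : Matrix (Fin n) (Fin n) F) * ((G⁻¹ : GL (Fin n) F) : Matrix (Fin n) (Fin n) F) = 1 := by
    rw [← Matrix.GeneralLinearGroup.coe_mul, mul_inv_cancel, Matrix.GeneralLinearGroup.coe_one]
  have hpow : ∀ i : ℕ, ((G : Matrix (Fin n) (Fin n) F) * (g : Matrix (Fin n) (Fin n) F) *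
        ((G⁻¹ : GL (Fin n) F) : Matrix (Fin n) (Fin n) F)) ^ i =
      (G : Matrix (Fin n) (Fin n) F) * (g : Matrix (Fin n) (Fin n) F) ^ i *
        ((G⁻¹ : GL (Fin n) F) : Matrix (Fin n) (Fin n) F) := by
    intro i
    induction i with
    | zero => simp only [pow_zero, mul_one, hinv']
    | succ i ih =>
      rw [pow_succ, ih, pow_succ]
      calc (G : Matrix (Fin n) (Fin n) F) * (g : Matrix (Fin n) (Fin n) F) ^ i *
            ((G⁻¹ : GL (Fin n) F) : Matrix (Fin n) (Fin n) F) *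
            ((G : Matrix (Fin n) (Fin n) F) * (g : Matrix (Fin n) (Fin n) F) *
              ((G⁻¹ : GL (Fin n) F) : Matrix (Fin n) (Fin n) F))
          = (G : Matrix (Fin n) (Fin n) F) * (g : Matrix (Fin n) (Fin n) F) ^ i *
            (((G⁻¹ : GL (Fin n) F) : Matrix (Fin n) (Fin n) F) * (G : Matrix (Fin n) (Fin n) F)) *
              ((g : Matrix (Fin n) (Fin n) F) * ((G⁻¹ : GL (Fin n) F) : Matrix (Fin n) (Fin n) F)) := by
            simp only [Matrix.mul_assoc]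
        _ = _ := by rw [hinv, mul_one]; simp only [Matrix.mul_assoc]
  rw [hc, aeval_eq_sum_range]
  rw [aeval_eq_sum_range] at h
  have : ∑ i ∈ Finset.range (f.natDegree + 1), f.coeff i • ((G : Matrix (Fin n) (Fin n) F) *
        (g : Matrix (Fin n) (Fin n) F) * ((G⁻¹ : GL (Fin n) F) : Matrix (Fin n) (Fin n) F)) ^ i =
      (G : Matrix (Fin n) (Fin n) F) * (∑ i ∈ Finset.range (f.natDegree + 1),
        f.coeff i • (g : Matrix (Fin n) (Fin n) F) ^ i) *
        ((G⁻¹ : GL (Fin n) F) : Matrix (Fin n) (Fin n) F) := by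
    rw [Finset.mul_sum, Finset.sum_mul]
    apply Finset.sum_congr rfl
    intro i _
    rw [hpow i, Matrix.mul_smul, Matrix.smul_mul]
  rw [this, h, mul_zero, zero_mul]

/-- the type of the kernel -/
theorem k1n_type {F : Type} [Field F] {N n b d : ℕ} (w e ν ν' : Fin N → ℕ) (P : Fin N → F[X])
    (A : Matrix (Fin n) (Fin n) F) (A' : Matrix (Fin b) (Fin b) F) (f₀ : F[X])
    (hf1 : f₀.Monic) (hf2 : Irreducible f₀) (hf3 : f₀.natDegree = d) (hd : 1 ≤ d)
    (h2 : ∀ j, w j ≠ 0 → (P j).Monic ∧ Irreducible (P j) ∧ (P j).natDegree = w j ∧ 1 ≤ e j)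
    (h3 : ∀ i j, w i ≠ 0 → w j ≠ 0 → P i = P j → e i = e j → i = j)
    (hν0 : ∀ j, w j = 0 → ν j = 0) (hν0' : ∀ j, w j = 0 → ν' j = 0)
    (hν : ∀ j, w j ≠ 0 → kd A (P j) (e j) = kd A (P j) (e j - 1) + w j * ν j)
    (hν' : ∀ j, w j ≠ 0 → kd A' (P j) (e j) = kd A' (P j) (e j - 1) + w j * ν' j)
    (hlast : ∀ (p : F[X]) (t : ℕ), p.Monic → Irreducible p → kd A p t ≠ kd A p (t + 1) →
      ∃ j, w j ≠ 0 ∧ P j = p ∧ e j = t + 1)
    (hk1 : ∀ f : F[X], f.Monic → Irreducible f → f ≠ f₀ → ∀ t, kd A' f t = kd A f t)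
    (t₀ : ℕ) (ht : 1 ≤ t₀) (hk2 : ∀ t, kd A f₀ t = kd A' f₀ t + if t₀ ≤ t then d else 0) :
    ∃ j, w j = d ∧ P j = f₀ ∧ e j = t₀ ∧ ∀ i, ν i = ν' i + if i = j then 1 else 0 := by
  obtain ⟨s, rfl⟩ : ∃ s, t₀ = s + 1 := ⟨t₀ - 1, by omega⟩
  have hne : kd A f₀ s ≠ kd A f₀ (s + 1) := by
    have e1 := hk2 s
    have e2 := hk2 (s + 1)
    have e3 := k1n_kd_mono A' f₀ s
    rw [if_neg (by omega)] at e1
    rw [if_pos le_rfl] at e2
    omega
  obtain ⟨j, hj1, hj2, hj3⟩ := hlast f₀ s hf1 hf2 hne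
  have hwj : w j = d := by
    rw [← (h2 j hj1).2.2.1, hj2, hf3]
  refine ⟨j, hwj, hj2, hj3, ?_⟩
  intro i
  by_cases hwi : w i = 0
  · have : i ≠ j := by
      rintro rfl
      exact hj1 hwi
    rw [hν0 i hwi, hν0' i hwi, if_neg this]
  · have e1 := hν i hwi
    have e2 := hν' i hwi
    obtain ⟨g1, g2, g3, g4⟩ := h2 i hwi
    by_cases hP : P i = f₀
    · have hwd : w i = d := by rw [← g3, hP, hf3]
      rw [hP] at e1 e2
      rw [hk2 (e i), hk2 (e i - 1)] at e1
      by_cases hei : e i = s + 1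
      · have hij : i = j := h3 i j hwi hj1 (by rw [hP, hj2]) (by rw [hei, hj3])
        rw [if_pos hij]
        rw [if_pos (by omega), if_neg (by omega), e2] at e1
        have : w i * ν i = w i * (ν' i + 1) := by
          rw [mul_add, mul_one]
          omega
        exact Nat.eq_of_mul_eq_mul_left (Nat.pos_of_ne_zero hwi) this
      · have hij : i ≠ j := by
          rintro rfl
          exact hei hj3
        rw [if_neg hij, add_zero]
        have hiff : (s + 1 ≤ e i) ↔ (s + 1 ≤ e i - 1) := by omega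
        simp only [hiff] at e1
        rw [e2] at e1
        have : w i * ν i = w i * ν' i := by omega
        exact Nat.eq_of_mul_eq_mul_left (Nat.pos_of_ne_zero hwi) this
    · have hij : i ≠ j := by
        rintro rfl
        exact hP hj2
      rw [if_neg hij, add_zero]
      rw [hk1 (P i) g1 g2 hP, hk1 (P i) g1 g2 hP] at e2
      have : w i * ν i = w i * ν' i := by omega
      exact Nat.eq_of_mul_eq_mul_left (Nat.pos_of_ne_zero hwi) this

/-- the exponents -/
theorem k1n_sq {N : ℕ} (w ν ν' : Fin N → ℕ) (j : Fin N)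
    (h : ∀ i, ν i = ν' i + if i = j then 1 else 0) :
    ((∑ i, w i * (ν i * ν i) : ℕ) : ℝ) =
      ((∑ i, w i * (ν' i * ν' i) : ℕ) : ℝ) + w j * (2 * ν j - 1) := by
  push_cast
  have h1 : ∀ i, (w i : ℝ) * ((ν i : ℝ) * ν i) = (w i : ℝ) * ((ν' i : ℝ) * ν' i) +
      if i = j then (w i : ℝ) * (2 * ν i - 1) else 0 := by
    intro i
    have h2 : (ν i : ℝ) = ν' i + if i = j then 1 else 0 := by
      rw [h i]
      push_cast
      split_ifs <;> simp
    by_cases hij : i = j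
    · rw [if_pos hij] at h2 ⊢
      rw [h2]
      ring
    · rw [if_neg hij] at h2 ⊢
      rw [h2]
      ring
  rw [Finset.sum_congr rfl (fun i _ => h1 i), Finset.sum_add_distrib, Finset.sum_ite_eq' Finset.univ j]
  simp

/-- the variance -/
theorem k1n_var {N : ℕ} (w ν : Fin N → ℕ) (n m : ℕ) (hm : 1 ≤ m) (hw : ∑ i, w i = m)
    (hn : ∑ i, w i * ν i = n) (i : Fin N) :
    (w i : ℝ) * (2 * (ν i - (n : ℝ) / m) - 1) ≤
      ((∑ i, w i * (ν i * ν i) : ℕ) : ℝ) - (n : ℝ) ^ 2 / m := by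
  have hm0 : (m : ℝ) ≠ 0 := by
    have : m ≠ 0 := by omega
    exact_mod_cast this
  have h1 : ((∑ i, w i * (ν i * ν i) : ℕ) : ℝ) - (n : ℝ) ^ 2 / m =
      ∑ i, (w i : ℝ) * ((ν i : ℝ) - (n : ℝ) / m) ^ 2 := by
    have h2 : ∀ i, (w i : ℝ) * ((ν i : ℝ) - (n : ℝ) / m) ^ 2 =
        (w i : ℝ) * ((ν i : ℝ) * ν i) - 2 * ((n : ℝ) / m) * ((w i : ℝ) * ν i) +
          ((n : ℝ) / m) ^ 2 * (w i : ℝ) := by
      intro i
      ring
    rw [Finset.sum_congr rfl (fun i _ => h2 i), Finset.sum_add_distrib, Finset.sum_sub_distrib,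
      ← Finset.mul_sum, ← Finset.mul_sum]
    have h3 : ∑ i, (w i : ℝ) = m := by exact_mod_cast hw
    have h4 : ∑ i, (w i : ℝ) * (ν i : ℝ) = n := by exact_mod_cast hn
    rw [h3, h4]
    push_cast
    field_simp
    ring
  rw [h1]
  calc (w i : ℝ) * (2 * (ν i - (n : ℝ) / m) - 1)
      ≤ (w i : ℝ) * ((ν i : ℝ) - (n : ℝ) / m) ^ 2 := by
        apply mul_le_mul_of_nonneg_left _ (Nat.cast_nonneg _)
        nlinarith [sq_nonneg ((ν i : ℝ) - (n : ℝ) / m - 1)]
    _ ≤ _ := Finset.single_le_sum (f := fun i => (w i : ℝ) * ((ν i : ℝ) - (n : ℝ) / m) ^ 2)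
        (fun i _ => mul_nonneg (Nat.cast_nonneg _) (sq_nonneg _)) (Finset.mem_univ i)

/-- lower bound of the potential -/
theorem k1n_pt_ge {F : Type} [Field F] [Finite F] (m : ℕ) {n : ℕ} (A : Matrix (Fin n) (Fin n) F) (S : ℕ)
    (hS : cN A = Nat.card F ^ S) :
    (Nat.card F : ℝ) ^ (((S : ℝ) - (n : ℝ) ^ 2 / m) / 2) ≤ pt m A := by
  have hq : (0 : ℝ) < Nat.card F := by exact_mod_cast Nat.card_pos
  unfold pt
  have h1 : (Nat.card F : ℝ) ^ (((S : ℝ) - (n : ℝ) ^ 2 / m) / 2) =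
      ((cN A : ℝ) * (Nat.card F : ℝ) ^ (-((n : ℝ) ^ 2 / m))) ^ (1 / 2 : ℝ) := by
    rw [hS]
    push_cast
    rw [← Real.rpow_natCast (Nat.card F : ℝ) S, ← Real.rpow_add hq, ← Real.rpow_mul hq.le]
    congr 1
    ring
  rw [h1]
  apply Real.rpow_le_rpow _ (le_max_left _ _) (by norm_num)
  positivity

/-- upper bound of the potential -/
theorem k1n_pt_le {F : Type} [Field F] [Finite F] (m : ℕ) {n : ℕ} (A : Matrix (Fin n) (Fin n) F) (S : ℕ)
    (hS : cN A = Nat.card F ^ S) :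
    pt m A ≤ (Nat.card F : ℝ) ^ (((S : ℝ) - (n : ℝ) ^ 2 / m) / 2) +
      (Nat.card F : ℝ) ^ (((m : ℝ) ^ 2 + m) / 2) := by
  have hq : (0 : ℝ) < Nat.card F := by exact_mod_cast Nat.card_pos
  unfold pt
  have h1 : (Nat.card F : ℝ) ^ (((S : ℝ) - (n : ℝ) ^ 2 / m) / 2) =
      ((cN A : ℝ) * (Nat.card F : ℝ) ^ (-((n : ℝ) ^ 2 / m))) ^ (1 / 2 : ℝ) := by
    rw [hS]
    push_cast
    rw [← Real.rpow_natCast (Nat.card F : ℝ) S, ← Real.rpow_add hq, ← Real.rpow_mul hq.le]
    congr 1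
    ring
  have h2 : (Nat.card F : ℝ) ^ (((m : ℝ) ^ 2 + m) / 2) =
      ((Nat.card F : ℝ) ^ ((m : ℝ) ^ 2 + m)) ^ (1 / 2 : ℝ) := by
    rw [← Real.rpow_mul hq.le]
    congr 1
    ring
  rw [h1, h2]
  rcases le_total ((cN A : ℝ) * (Nat.card F : ℝ) ^ (-((n : ℝ) ^ 2 / m)))
    ((Nat.card F : ℝ) ^ ((m : ℝ) ^ 2 + m)) with h | h
  · rw [max_eq_right h]
    have : (0 : ℝ) ≤ ((cN A : ℝ) * (Nat.card F : ℝ) ^ (-((n : ℝ) ^ 2 / m))) ^ (1 / 2 : ℝ) := by
      positivity
    linarith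
  · rw [max_eq_left h]
    have : (0 : ℝ) ≤ ((Nat.card F : ℝ) ^ ((m : ℝ) ^ 2 + m)) ^ (1 / 2 : ℝ) := by
      positivity
    linarith

theorem t_K1N : M_K1N := by
  intro hTYP hSEL hKDN hCNB m hm F _ _ _ g₀ hg₀ hdeg b d g h k hd hA hirr hsel
  classical
  obtain ⟨w, e, P, hw, h2, h3, h4, htype⟩ := hTYP F g₀ hg₀
  obtain ⟨ν, hν0, hν, -, hνn, hνc, hlast⟩ := htype (b + d) _ hA
  replace hw : ∑ j, w j = m := hw.trans hdeg
  set A : Matrix (Fin (b + d)) (Fin (b + d)) F := (g : Matrix (Fin (b + d)) (Fin (b + d)) F) with hAdef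
  set f₀ : F[X] := (h : Matrix (Fin d) (Fin d) F).charpoly with hf₀
  have hf1 : f₀.Monic := Matrix.charpoly_monic _
  have hf3 : f₀.natDegree = d := by
    rw [hf₀, Matrix.charpoly_natDegree_eq_dim, Fintype.card_fin]
  have hq0 : (0 : ℝ) < Nat.card F := by exact_mod_cast Nat.card_pos
  have hq1 : (1 : ℝ) ≤ Nat.card F := by exact_mod_cast Nat.card_pos
  have hm0 : (0 : ℝ) < m := by exact_mod_cast hm
  -- the data of a `B`
  have key : ∀ B : Matrix (Fin d) (Fin (b + d)) F,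
      ∃ j : Fin g₀.natDegree, B ∈ ib A (h : Matrix (Fin d) (Fin d) F) →
        w j = d ∧ P j = f₀ ∧
        (∀ x, ((aeval A f₀) ^ (e j - 1)).mulVec x = 0 → B.mulVec x = 0) ∧
        pt m ((k B).g : Matrix (Fin b) (Fin b) F) ≤
          (Nat.card F : ℝ) ^ ((((∑ i, w i * (ν i * ν i) : ℕ) : ℝ) - ((b + d : ℕ) : ℝ) ^ 2 / m) / 2 +
            (d : ℝ) / 2 + (d : ℝ) * ((b : ℝ) + d) / m - d * ν j) +
          (Nat.card F : ℝ) ^ (((m : ℝ) ^ 2 + m) / 2) := by
    intro B
    by_cases hB : B ∈ ib A (h : Matrix (Fin d) (Fin d) F)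
    · obtain ⟨hBh, G, hG1, hG2⟩ := hsel B hB
      have hA' : aeval ((k B).g : Matrix (Fin b) (Fin b) F) g₀ = 0 := by
        apply (hSEL F).2.2 b d (k B) g₀
        rw [← hG2]
        exact k1n_conj G g g₀ hA
      obtain ⟨ν', hν0', hν', -, hνn', hνc', -⟩ := htype b _ hA'
      have hirr' : Irreducible ((k B).h : Matrix (Fin d) (Fin d) F).charpoly := by
        rw [hBh]
        exact hirr
      obtain ⟨hk1, t₀, ht₀, hk2, hk3, -⟩ := hKDN F b d g (k B) G B hirr' hG1 hG2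
      rw [hBh] at hk1 hk2 hk3
      obtain ⟨j, hj1, hj2, hj3, hj4⟩ := k1n_type w e ν ν' P A ((k B).g : Matrix (Fin b) (Fin b) F) f₀ hf1
        hirr hf3 hd h2 h3 hν0 hν0' hν hν' hlast hk1 t₀ ht₀ hk2
      refine ⟨j, fun _ => ⟨hj1, hj2, ?_, ?_⟩⟩
      · rw [hj3]
        exact hk3
      · refine (k1n_pt_le m _ _ hνc').trans ?_
        apply add_le_add _ le_rfl
        apply Real.rpow_le_rpow_of_exponent_le hq1
        have hsq := k1n_sq w ν ν' j hj4
        rw [hj1] at hsq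
        rw [hsq]
        push_cast
        have hid : ((∑ i, (w i : ℝ) * ((ν' i : ℝ) * (ν' i : ℝ)) + d * (2 * (ν j : ℝ) - 1) -
              ((b : ℝ) + d) ^ 2 / m) / 2 + (d : ℝ) / 2 + (d : ℝ) * ((b : ℝ) + d) / m - d * ν j) =
            (∑ i, (w i : ℝ) * ((ν' i : ℝ) * (ν' i : ℝ)) - (b : ℝ) ^ 2 / m) / 2 +
              (d : ℝ) ^ 2 / (2 * m) := by
          field_simp
          ring
        rw [hid]
        have : (0 : ℝ) ≤ (d : ℝ) ^ 2 / (2 * m) := by positivity
        linarith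
    · have hpos : 0 < g₀.natDegree := by omega
      exact ⟨⟨0, hpos⟩, fun h => absurd h hB⟩
  choose J hJ using key
  set D : ℝ := (((∑ i, w i * (ν i * ν i) : ℕ) : ℝ) - ((b + d : ℕ) : ℝ) ^ 2 / m) / 2 with hD
  set E : ℝ := (d : ℝ) * ((b : ℝ) + d) / m with hE
  have hptA : (Nat.card F : ℝ) ^ D ≤ pt m A := k1n_pt_ge m A _ hνc
  have hptA0 : 0 ≤ pt m A := le_trans (by positivity) hptA
  -- the number of the `B` with given `j`
  have hcnt : ∀ j : Fin g₀.natDegree, w j = d → P j = f₀ →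
      (((ib A (h : Matrix (Fin d) (Fin d) F)).filter (fun B => ∀ x, ((aeval A f₀) ^ (e j - 1)).mulVec x = 0 →
        B.mulVec x = 0)).card : ℝ) ≤ (Nat.card F : ℝ) ^ ((d : ℝ) * ν j) := by
    intro j hj1 hj2
    have hwj : w j ≠ 0 := by omega
    have hej : 1 ≤ e j := (h2 j hwj).2.2.2
    have hc := hCNB F (b + d) d A h hirr (e j - 1)
    have hk := hν j hwj
    rw [hj2] at hk
    have e1 : e j - 1 + 1 = e j := by omega
    rw [e1, ← hf₀, hk, Nat.add_sub_cancel_left, hj1] at hc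
    rw [Nat.subtype_card ((ib A (h : Matrix (Fin d) (Fin d) F)).filter
      (fun B => ∀ x, ((aeval A f₀) ^ (e j - 1)).mulVec x = 0 → B.mulVec x = 0))
      (by intro B; rw [Finset.mem_filter])] at hc
    calc (((ib A (h : Matrix (Fin d) (Fin d) F)).filter (fun B => ∀ x,
          ((aeval A f₀) ^ (e j - 1)).mulVec x = 0 → B.mulVec x = 0)).card : ℝ)
        ≤ ((Nat.card F ^ (d * ν j) : ℕ) : ℝ) := by exact_mod_cast hc
      _ = (Nat.card F : ℝ) ^ ((d : ℝ) * ν j) := by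
          push_cast
          rw [← Real.rpow_natCast]
          push_cast
          rfl
  by_cases hemp : ib A (h : Matrix (Fin d) (Fin d) F) = ∅
  · rw [hemp, Finset.sum_empty]
    unfold KK
    positivity
  obtain ⟨B₀, hB₀⟩ := Finset.nonempty_iff_ne_empty.mpr hemp
  obtain ⟨hJ1, hJ2, -, -⟩ := hJ B₀ hB₀
  have hdm : d ≤ m := by
    rw [← hJ1, ← hw]
    exact Finset.single_le_sum (fun i _ => Nat.zero_le (w i)) (Finset.mem_univ (J B₀))
  have hdm' : (d : ℝ) ≤ m := by exact_mod_cast hdm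
  -- the first sum
  have hsum1 : ∑ B ∈ ib A (h : Matrix (Fin d) (Fin d) F),
      (Nat.card F : ℝ) ^ (D + (d : ℝ) / 2 + E - d * ν (J B)) ≤
        (m : ℝ) * (Nat.card F : ℝ) ^ (D + (d : ℝ) / 2 + E) := by
    rw [← Finset.sum_fiberwise (ib A (h : Matrix (Fin d) (Fin d) F)) J]
    calc ∑ j : Fin g₀.natDegree, ∑ B ∈ (ib A (h : Matrix (Fin d) (Fin d) F)).filter (fun B => J B = j),
          (Nat.card F : ℝ) ^ (D + (d : ℝ) / 2 + E - d * ν (J B))
        ≤ ∑ j : Fin g₀.natDegree, (Nat.card F : ℝ) ^ (D + (d : ℝ) / 2 + E) := by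
          apply Finset.sum_le_sum
          intro j _
          have e1 : ∑ B ∈ (ib A (h : Matrix (Fin d) (Fin d) F)).filter (fun B => J B = j),
              (Nat.card F : ℝ) ^ (D + (d : ℝ) / 2 + E - d * ν (J B)) =
              (((ib A (h : Matrix (Fin d) (Fin d) F)).filter (fun B => J B = j)).card : ℝ) *
                (Nat.card F : ℝ) ^ (D + (d : ℝ) / 2 + E - d * ν j) := by
            rw [← nsmul_eq_mul]
            apply Finset.sum_eq_card_nsmul
            intro B hB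
            rw [(Finset.mem_filter.mp hB).2]
          rw [e1]
          by_cases hfib : (ib A (h : Matrix (Fin d) (Fin d) F)).filter (fun B => J B = j) = ∅
          · rw [hfib, Finset.card_empty]
            simp only [Nat.cast_zero, zero_mul]
            positivity
          · obtain ⟨B₁, hB₁⟩ := Finset.nonempty_iff_ne_empty.mpr hfib
            rw [Finset.mem_filter] at hB₁
            obtain ⟨g1, g2, -, -⟩ := hJ B₁ hB₁.1
            rw [hB₁.2] at g1 g2
            have hle : (((ib A (h : Matrix (Fin d) (Fin d) F)).filter (fun B => J B = j)).card : ℝ) ≤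
                (Nat.card F : ℝ) ^ ((d : ℝ) * ν j) := by
              refine le_trans ?_ (hcnt j g1 g2)
              have : ((ib A (h : Matrix (Fin d) (Fin d) F)).filter (fun B => J B = j)).card ≤
                  ((ib A (h : Matrix (Fin d) (Fin d) F)).filter (fun B => ∀ x,
                    ((aeval A f₀) ^ (e j - 1)).mulVec x = 0 → B.mulVec x = 0)).card := by
                apply Finset.card_le_card
                intro B hB
                rw [Finset.mem_filter] at hB ⊢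
                refine ⟨hB.1, ?_⟩
                have := (hJ B hB.1).2.2.1
                rw [hB.2] at this
                exact this
              exact_mod_cast this
            calc (((ib A (h : Matrix (Fin d) (Fin d) F)).filter (fun B => J B = j)).card : ℝ) *
                  (Nat.card F : ℝ) ^ (D + (d : ℝ) / 2 + E - d * ν j)
                ≤ (Nat.card F : ℝ) ^ ((d : ℝ) * ν j) *
                  (Nat.card F : ℝ) ^ (D + (d : ℝ) / 2 + E - d * ν j) := by
                  apply mul_le_mul_of_nonneg_right hle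
                  positivity
              _ = (Nat.card F : ℝ) ^ (D + (d : ℝ) / 2 + E) := by
                  rw [← Real.rpow_add hq0]
                  congr 1
                  ring
      _ = (m : ℝ) * (Nat.card F : ℝ) ^ (D + (d : ℝ) / 2 + E) := by
          rw [Finset.sum_const, Finset.card_univ, Fintype.card_fin, nsmul_eq_mul, hdeg]
  -- the number of all `B`
  have hcard : ((ib A (h : Matrix (Fin d) (Fin d) F)).card : ℝ) ≤
      (Nat.card F : ℝ) ^ (D + (d : ℝ) / 2 + E) := by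
    have hwJ : w (J B₀) ≠ 0 := by omega
    obtain ⟨i, hi1, hi2, hi3⟩ := h4 (J B₀) 1 hwJ le_rfl (h2 _ hwJ).2.2.2
    have hwi : w i = d := by
      rw [← (h2 i hi1).2.2.1, hi2, hJ2, hf3]
    have hc := hcnt i hwi (by rw [hi2, hJ2])
    have hfil : (ib A (h : Matrix (Fin d) (Fin d) F)).filter (fun B => ∀ x,
        ((aeval A f₀) ^ (e i - 1)).mulVec x = 0 → B.mulVec x = 0) =
        ib A (h : Matrix (Fin d) (Fin d) F) := by
      apply Finset.filter_true_of_mem
      intro B _ x hx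
      rw [hi3, Nat.sub_self, pow_zero, Matrix.one_mulVec] at hx
      rw [hx, Matrix.mulVec_zero]
    rw [hfil] at hc
    refine hc.trans ?_
    apply Real.rpow_le_rpow_of_exponent_le hq1
    have hv := k1n_var w ν (b + d) m hm hw hνn i
    rw [hwi] at hv
    have hid : (d : ℝ) * (2 * ((ν i : ℝ) - ((b + d : ℕ) : ℝ) / m) - 1) =
        2 * (d * ν i) - 2 * E - d := by
      rw [hE]
      push_cast
      field_simp
    rw [hid] at hv
    have : 2 * D = ((∑ i, w i * (ν i * ν i) : ℕ) : ℝ) - ((b + d : ℕ) : ℝ) ^ 2 / m := by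
      rw [hD]
      ring
    linarith
  -- conclusion
  have hfin : (Nat.card F : ℝ) ^ (D + (d : ℝ) / 2 + E) * (Nat.card F : ℝ) ^ (((m : ℝ) ^ 2 + m) / 2) ≤
      (Nat.card F : ℝ) ^ (((m : ℝ) ^ 2 + 2 * m) / 2) * (Nat.card F : ℝ) ^ E * (Nat.card F : ℝ) ^ D := by
    rw [← Real.rpow_add hq0, ← Real.rpow_add hq0, ← Real.rpow_add hq0]
    apply Real.rpow_le_rpow_of_exponent_le hq1
    linarith
  have hfin2 : (Nat.card F : ℝ) ^ (D + (d : ℝ) / 2 + E) ≤
      (Nat.card F : ℝ) ^ (((m : ℝ) ^ 2 + 2 * m) / 2) * (Nat.card F : ℝ) ^ E * (Nat.card F : ℝ) ^ D := by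
    rw [← Real.rpow_add hq0, ← Real.rpow_add hq0]
    apply Real.rpow_le_rpow_of_exponent_le hq1
    nlinarith [sq_nonneg (m : ℝ)]
  calc ∑ B ∈ ib A (h : Matrix (Fin d) (Fin d) F), pt m ((k B).g : Matrix (Fin b) (Fin b) F)
      ≤ ∑ B ∈ ib A (h : Matrix (Fin d) (Fin d) F),
        ((Nat.card F : ℝ) ^ (D + (d : ℝ) / 2 + E - d * ν (J B)) +
          (Nat.card F : ℝ) ^ (((m : ℝ) ^ 2 + m) / 2)) :=
        Finset.sum_le_sum (fun B hB => (hJ B hB).2.2.2)
    _ = (∑ B ∈ ib A (h : Matrix (Fin d) (Fin d) F),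
        (Nat.card F : ℝ) ^ (D + (d : ℝ) / 2 + E - d * ν (J B))) +
          ((ib A (h : Matrix (Fin d) (Fin d) F)).card : ℝ) *
            (Nat.card F : ℝ) ^ (((m : ℝ) ^ 2 + m) / 2) := by
        rw [Finset.sum_add_distrib, Finset.sum_const, nsmul_eq_mul]
    _ ≤ (m : ℝ) * (Nat.card F : ℝ) ^ (D + (d : ℝ) / 2 + E) +
          (Nat.card F : ℝ) ^ (D + (d : ℝ) / 2 + E) *
            (Nat.card F : ℝ) ^ (((m : ℝ) ^ 2 + m) / 2) := by
        apply add_le_add hsum1
        apply mul_le_mul_of_nonneg_right hcard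
        positivity
    _ ≤ (m : ℝ) * ((Nat.card F : ℝ) ^ (((m : ℝ) ^ 2 + 2 * m) / 2) * (Nat.card F : ℝ) ^ E *
            (Nat.card F : ℝ) ^ D) +
          ((Nat.card F : ℝ) ^ (((m : ℝ) ^ 2 + 2 * m) / 2) * (Nat.card F : ℝ) ^ E *
            (Nat.card F : ℝ) ^ D) := by
        apply add_le_add _ hfin
        exact mul_le_mul_of_nonneg_left hfin2 hm0.le
    _ = KK m (Nat.card F) * (Nat.card F : ℝ) ^ E * (Nat.card F : ℝ) ^ D := by
        unfold KK
        ring
    _ ≤ KK m (Nat.card F) * (Nat.card F : ℝ) ^ E * pt m A := by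
        apply mul_le_mul_of_nonneg_left hptA
        unfold KK
        positivity

end

end FLX
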