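import Mathlib
import Pool.Agent.FLX.StX

/-!
# `FLX_K2N`: the potential does not increase if the simple quotient belongs to the largest multiplicity
-/

set_option autoImplicit false

namespace FLX

open RSF FL0 SRJ Polynomial Pool.Agent.Lib_helper13

noncomputable section

/-- the exponent of the potential -/
theorem k2n_num {m : ℕ} (hm : 1 ≤ m) (w ν : Fin m → ℕ) (n H d : ℕ) (hw : ∑ j, w j = m)
    (hn : ∑ j, w j * ν j = n) (hH : ∀ j, w j ≠ 0 → ν j ≤ H) (hd : d ≤ m) (hd1 : 1 ≤ d) :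
    ((∑ j, w j * (ν j * ν j) : ℕ) : ℝ) - (n : ℝ) ^ 2 / m - 2 * d * (H - (n : ℝ) / m) + d -
        (d : ℝ) ^ 2 / m ≤
      max (((∑ j, w j * (ν j * ν j) : ℕ) : ℝ) - (n : ℝ) ^ 2 / m) ((m : ℝ) ^ 2 + m) := by
  have hm0 : (0 : ℝ) < m := by exact_mod_cast hm
  have hm1 : (1 : ℝ) ≤ m := by exact_mod_cast hm
  have hdR : (1 : ℝ) ≤ d := by exact_mod_cast hd1
  have hdm : (d : ℝ) ≤ m := by exact_mod_cast hd
  have hwR : ∑ j, (w j : ℝ) = m := by exact_mod_cast hw
  have hnR : ∑ j, (w j : ℝ) * ν j = n := by exact_mod_cast hn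
  set S : ℝ := ((∑ j, w j * (ν j * ν j) : ℕ) : ℝ) with hS
  have hSR : S = ∑ j, (w j : ℝ) * ((ν j : ℝ) * ν j) := by
    rw [hS]
    push_cast
    rfl
  have hHm : (n : ℝ) / m ≤ H := by
    rw [div_le_iff₀ hm0, ← hnR, ← hwR, Finset.mul_sum]
    refine Finset.sum_le_sum fun j _ => ?_
    by_cases hj : w j = 0
    · simp [hj]
    · have h1 : (ν j : ℝ) ≤ H := by exact_mod_cast hH j hj
      have h2 : (0 : ℝ) ≤ w j := Nat.cast_nonneg _
      nlinarith
  have hdd : 0 ≤ (d : ℝ) ^ 2 / m := by positivity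
  by_cases hc : (1 : ℝ) / 2 ≤ H - (n : ℝ) / m
  · refine le_max_of_le_left ?_
    nlinarith
  · refine le_max_of_le_right ?_
    push Not at hc
    set μ : ℝ := (n : ℝ) / m with hμ
    have hμm : μ * m = n := by
      rw [hμ]
      field_simp
    have hsum0 : ∑ j, (w j : ℝ) * ((ν j : ℝ) - μ) = 0 := by
      have : ∑ j, (w j : ℝ) * ((ν j : ℝ) - μ) = ∑ j, (w j : ℝ) * ν j - μ * ∑ j, (w j : ℝ) := by
        rw [Finset.mul_sum, ← Finset.sum_sub_distrib]
        refine Finset.sum_congr rfl fun j _ => ?_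
        ring
      rw [this, hnR, hwR, hμm, sub_self]
    have hsq : ∑ j, (w j : ℝ) * ((ν j : ℝ) - μ) ^ 2 = S - (n : ℝ) ^ 2 / m := by
      have h1 : ∑ j, (w j : ℝ) * ((ν j : ℝ) - μ) ^ 2 =
          ∑ j, (w j : ℝ) * ((ν j : ℝ) * ν j) - 2 * μ * ∑ j, (w j : ℝ) * ν j +
            μ ^ 2 * ∑ j, (w j : ℝ) := by
        rw [Finset.mul_sum, Finset.mul_sum, ← Finset.sum_sub_distrib, ← Finset.sum_add_distrib]
        refine Finset.sum_congr rfl fun j _ => ?_
        ring
      rw [h1, ← hSR, hnR, hwR, hμ]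
      field_simp
      ring
    have hhalf : ∀ j, w j ≠ 0 → (ν j : ℝ) - μ ≤ 1 / 2 := by
      intro j hj
      have h1 : (ν j : ℝ) ≤ H := by exact_mod_cast hH j hj
      linarith
    have hm2 : ∑ j, (w j : ℝ) * (1 / 2 - ((ν j : ℝ) - μ)) = m / 2 := by
      have : ∑ j, (w j : ℝ) * (1 / 2 - ((ν j : ℝ) - μ)) =
          (1 / 2) * ∑ j, (w j : ℝ) - ∑ j, (w j : ℝ) * ((ν j : ℝ) - μ) := by
        rw [Finset.mul_sum, ← Finset.sum_sub_distrib]
        refine Finset.sum_congr rfl fun j _ => ?_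
        ring
      rw [this, hsum0, hwR]
      ring
    have hlow : ∀ j, w j ≠ 0 → -((m : ℝ) / 2) ≤ (ν j : ℝ) - μ := by
      intro j hj
      have h1 : (w j : ℝ) * (1 / 2 - ((ν j : ℝ) - μ)) ≤ m / 2 := by
        rw [← hm2]
        refine Finset.single_le_sum (f := fun j => (w j : ℝ) * (1 / 2 - ((ν j : ℝ) - μ)))
          (fun i _ => ?_) (Finset.mem_univ j)
        by_cases hi : w i = 0
        · simp [hi]
        · have h2 := hhalf i hi
          have h3 : (0 : ℝ) ≤ w i := Nat.cast_nonneg _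
          have h4 : 0 ≤ 1 / 2 - ((ν i : ℝ) - μ) := by linarith
          exact mul_nonneg h3 h4
      have h2 : (1 : ℝ) ≤ w j := by exact_mod_cast Nat.one_le_iff_ne_zero.2 hj
      have h3 := hhalf j hj
      nlinarith
    have hbd : ∑ j, (w j : ℝ) * ((ν j : ℝ) - μ) ^ 2 ≤ (m : ℝ) ^ 2 / 4 := by
      have h1 : ∑ j, (w j : ℝ) * ((ν j : ℝ) - μ) ^ 2 ≤
          ∑ j, ((1 / 2 - (m : ℝ) / 2) * ((w j : ℝ) * ((ν j : ℝ) - μ)) + (m : ℝ) / 4 * w j) := by
        refine Finset.sum_le_sum fun j _ => ?_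
        by_cases hj : w j = 0
        · simp [hj]
        · have h2 := hhalf j hj
          have h3 := hlow j hj
          have h4 : (0 : ℝ) ≤ w j := Nat.cast_nonneg _
          have h5 : 0 ≤ (1 / 2 - ((ν j : ℝ) - μ)) * (((ν j : ℝ) - μ) + (m : ℝ) / 2) :=
            mul_nonneg (by linarith) (by linarith)
          have h6 := mul_nonneg h4 h5
          nlinarith
      rw [Finset.sum_add_distrib, ← Finset.mul_sum, ← Finset.mul_sum, hsum0, hwR] at h1
      nlinarith
    rw [← hsq]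
    have h7 : 0 ≤ 2 * (d : ℝ) * ((H : ℝ) - μ) := by
      have : 0 ≤ (H : ℝ) - μ := by linarith
      positivity
    nlinarith

theorem k2n_kd0 {F : Type} [Field F] {n : ℕ} (A : Matrix (Fin n) (Fin n) F) (p : F[X]) :
    kd A p 0 = 0 := by
  unfold kd
  rw [pow_zero, Matrix.toLin'_one, LinearMap.ker_id]
  exact finrank_bot F _

theorem k2n_aeval_conj {F : Type} [Field F] {n : ℕ} (G g : GL (Fin n) F) (f : F[X])
    (h : aeval (g : Matrix (Fin n) (Fin n) F) f = 0) :
    aeval ((G * g * G⁻¹ : GL (Fin n) F) : Matrix (Fin n) (Fin n) F) f = 0 := by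
  have key : ∀ f : F[X], aeval ((G * g * G⁻¹ : GL (Fin n) F) : Matrix (Fin n) (Fin n) F) f =
      (G : Matrix (Fin n) (Fin n) F) * aeval (g : Matrix (Fin n) (Fin n) F) f *
        ((G⁻¹ : GL (Fin n) F) : Matrix (Fin n) (Fin n) F) := by
    have hGG : ((G⁻¹ : GL (Fin n) F) : Matrix (Fin n) (Fin n) F) * (G : Matrix (Fin n) (Fin n) F) = 1 := by
      rw [← Matrix.GeneralLinearGroup.coe_mul, inv_mul_cancel, Matrix.GeneralLinearGroup.coe_one]
    have hGG' : (G : Matrix (Fin n) (Fin n) F) * ((G⁻¹ : GL (Fin n) F) : Matrix (Fin n) (Fin n) F) = 1 := by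
      rw [← Matrix.GeneralLinearGroup.coe_mul, mul_inv_cancel, Matrix.GeneralLinearGroup.coe_one]
    intro f
    induction f using Polynomial.induction_on' with
    | add p q hp hq => rw [map_add, map_add, hp, hq, Matrix.mul_add, Matrix.add_mul]
    | monomial k a =>
      have h1 : ∀ k : ℕ, ((G * g * G⁻¹ : GL (Fin n) F) : Matrix (Fin n) (Fin n) F) ^ k =
          (G : Matrix (Fin n) (Fin n) F) * (g : Matrix (Fin n) (Fin n) F) ^ k *
            ((G⁻¹ : GL (Fin n) F) : Matrix (Fin n) (Fin n) F) := by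
        intro k
        induction k with
        | zero => rw [pow_zero, pow_zero, Matrix.mul_one, hGG']
        | succ k ih =>
          rw [pow_succ, ih, pow_succ, Matrix.GeneralLinearGroup.coe_mul,
            Matrix.GeneralLinearGroup.coe_mul]
          have : (G : Matrix (Fin n) (Fin n) F) * (g : Matrix (Fin n) (Fin n) F) ^ k *
              ((G⁻¹ : GL (Fin n) F) : Matrix (Fin n) (Fin n) F) *
              ((G : Matrix (Fin n) (Fin n) F) * (g : Matrix (Fin n) (Fin n) F) *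
                ((G⁻¹ : GL (Fin n) F) : Matrix (Fin n) (Fin n) F)) =
              (G : Matrix (Fin n) (Fin n) F) * ((g : Matrix (Fin n) (Fin n) F) ^ k *
                ((((G⁻¹ : GL (Fin n) F) : Matrix (Fin n) (Fin n) F) * (G : Matrix (Fin n) (Fin n) F)) *
                  (g : Matrix (Fin n) (Fin n) F))) *
                ((G⁻¹ : GL (Fin n) F) : Matrix (Fin n) (Fin n) F) := by
            simp only [Matrix.mul_assoc]
          rw [this, hGG, Matrix.one_mul]
      rw [aeval_monomial, aeval_monomial, h1]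
      rw [← Algebra.smul_def, ← Algebra.smul_def, Matrix.mul_smul, Matrix.smul_mul]
  rw [key, h, Matrix.mul_zero, Matrix.zero_mul]

/-- `pt` in terms of the type -/
theorem k2n_pt {F : Type} [Field F] [Finite F] {m n : ℕ} (A : Matrix (Fin n) (Fin n) F) (S : ℕ)
    (h : cN A = Nat.card F ^ S) :
    pt m A = (max ((Nat.card F : ℝ) ^ ((S : ℝ) - (n : ℝ) ^ 2 / m))
      ((Nat.card F : ℝ) ^ ((m : ℝ) ^ 2 + m))) ^ (1 / 2 : ℝ) := by
  have hq : (0 : ℝ) < Nat.card F := by exact_mod_cast Nat.card_pos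
  unfold pt
  rw [h, sub_eq_add_neg, Real.rpow_add hq (S : ℝ) (-((n : ℝ) ^ 2 / m)), Real.rpow_natCast,
    Nat.cast_pow]

theorem t_K2N : M_K2N := by
  intro hTYP hSEL hKDN hEXB m hm F _ _ _ g₀ hg₀ hdeg n hn g hg
  subst hdeg
  obtain ⟨w, e, P, hw, hP, hinj, hdown, hty⟩ := hTYP F g₀ hg₀
  obtain ⟨ν, hν0, hνkd, hνmon, hνsum, hνcN, hνex⟩ := hty n _ hg
  -- the maximal multiplicity
  have hne : (Finset.univ.filter fun j => w j ≠ 0).Nonempty := by
    by_contra hcon
    rw [Finset.not_nonempty_iff_eq_empty] at hcon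
    have h0 : ∑ j, w j = 0 := Finset.sum_eq_zero fun j _ => by
      by_contra hj
      have : j ∈ (Finset.univ.filter fun j => w j ≠ 0) := by simp [hj]
      rw [hcon] at this
      simp at this
    omega
  obtain ⟨i₀, hi₀, hi₀max⟩ := Finset.exists_max_image _ ν hne
  simp only [Finset.mem_filter, Finset.mem_univ, true_and] at hi₀ hi₀max
  set H := ν i₀ with hH
  have hHpos : 1 ≤ H := by
    by_contra hcon
    have h0 : H = 0 := by omega
    have h1 : ∑ j, w j * ν j = 0 := Finset.sum_eq_zero fun j _ => by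
      by_cases hj : w j = 0
      · simp [hj]
      · have := hi₀max j hj
        have h2 : ν j = 0 := by omega
        simp [h2]
    omega
  have hne2 : (Finset.univ.filter fun j => w j ≠ 0 ∧ P j = P i₀ ∧ ν j = H).Nonempty :=
    ⟨i₀, by simp [hi₀, hH]⟩
  obtain ⟨i, hi, himax⟩ := Finset.exists_max_image _ e hne2
  simp only [Finset.mem_filter, Finset.mem_univ, true_and] at hi himax
  obtain ⟨hwi, hPi, hνi⟩ := hi
  obtain ⟨hfm, hfi, hfd, hei⟩ := hP i hwi
  set f := P i with hf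
  set t := e i with ht
  have hwd : ∀ j, w j ≠ 0 → P j = f → w j = f.natDegree := by
    intro j hj hPj
    rw [← (hP j hj).2.2.1, hPj]
  have hd1 : 1 ≤ f.natDegree := by
    rw [hfd]
    omega
  have hdm : f.natDegree ≤ g₀.natDegree := by
    rw [hfd, ← hw]
    exact Finset.single_le_sum (f := w) (fun _ _ => Nat.zero_le _) (Finset.mem_univ i)
  -- `kd 1`
  obtain ⟨i₁, hwi₁, hPi₁, hei₁⟩ := hdown i 1 hwi le_rfl hei
  have hνi₁ : ν i₁ = H := by
    refine le_antisymm (hi₀max i₁ hwi₁) ?_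
    rw [← hνi]
    exact hνmon i i₁ hwi hwi₁ hPi₁.symm (by omega)
  have hkd1 : kd (g : Matrix (Fin n) (Fin n) F) f 1 = f.natDegree * H := by
    have h1 := hνkd i₁ hwi₁
    rw [hPi₁, hei₁, hνi₁, hwd i₁ hwi₁ hPi₁] at h1
    rw [h1]
    simp [k2n_kd0]
  have hkdlt : kd (g : Matrix (Fin n) (Fin n) F) f (t + 1) - kd (g : Matrix (Fin n) (Fin n) F) f t <
      kd (g : Matrix (Fin n) (Fin n) F) f 1 := by
    rw [hkd1]
    have hdH : 0 < f.natDegree * H := Nat.mul_pos hd1 hHpos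
    by_cases heq : kd (g : Matrix (Fin n) (Fin n) F) f t = kd (g : Matrix (Fin n) (Fin n) F) f (t + 1)
    · rw [← heq, Nat.sub_self]
      exact hdH
    · obtain ⟨j, hwj, hPj, hej⟩ := hνex f t hfm hfi heq
      have h1 := hνkd j hwj
      rw [hPj, hej, Nat.add_sub_cancel, hwd j hwj hPj] at h1
      rw [h1, Nat.add_sub_cancel_left]
      refine Nat.mul_lt_mul_of_pos_left ?_ hd1
      refine lt_of_le_of_ne (hi₀max j hwj) fun hcon => ?_
      have h2 := himax j ⟨hwj, hPj.trans hPi, hcon⟩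
      omega
  obtain ⟨h, B, hchar, hB, x, hx, hBx⟩ := hEXB F n g f t hfm hfi hkdlt
  have hBne : B ≠ 0 := by
    rintro rfl
    exact hBx (by simp)
  have hirr : Irreducible (h : Matrix (Fin f.natDegree) (Fin f.natDegree) F).charpoly := by
    rw [hchar]
    exact hfi
  have hBib : B ∈ ib (g : Matrix (Fin n) (Fin n) F)
      (h : Matrix (Fin f.natDegree) (Fin f.natDegree) F) := by
    simp only [ib, Finset.mem_filter, Finset.mem_univ, true_and]
    exact ⟨hBne, hB⟩
  have hle : f.natDegree ≤ n := by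
    by_contra hcon
    have h1 := (hSEL F).2.1 n f.natDegree g h (by omega) hirr
    rw [h1] at hBib
    simp at hBib
  clear_value f t H
  generalize hd : f.natDegree = d at *
  obtain ⟨b, rfl⟩ := Nat.exists_eq_add_of_le' hle
  obtain ⟨k, hk⟩ := (hSEL F).1 b d g h hirr
  obtain ⟨hkh, G, hBG, hGg⟩ := hk B hBib
  have hirr' : Irreducible ((k B).h : Matrix (Fin d) (Fin d) F).charpoly := by
    rw [hkh]
    exact hirr
  obtain ⟨hK1, t₀, ht₀, hK2, hK3, -⟩ := hKDN F b d g (k B) G B hirr' hBG hGg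
  rw [hkh, hchar] at hK1 hK2 hK3
  have ht₀t : t₀ ≤ t := by
    by_contra hcon
    refine hBx (hK3 x ?_)
    obtain ⟨s, hs⟩ := Nat.exists_eq_add_of_le' (show t ≤ t₀ - 1 by omega)
    rw [hs, pow_add, ← Matrix.mulVec_mulVec, hx, Matrix.mulVec_zero]
  have hpg : aeval ((k B).g : Matrix (Fin b) (Fin b) F) g₀ = 0 := by
    refine (hSEL F).2.2 b d (k B) g₀ ?_
    rw [← hGg]
    exact k2n_aeval_conj G g g₀ hg
  obtain ⟨ν', hν'0, hν'kd, -, hν'sum, hν'cN, -⟩ := hty b _ hpg
  obtain ⟨j₀, hwj₀, hPj₀, hej₀⟩ := hdown i t₀ hwi ht₀ (ht ▸ ht₀t)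
  have hPj₀f : P j₀ = f := hPj₀.trans hf.symm
  have hνj₀ : ν j₀ = H := by
    refine le_antisymm (hi₀max j₀ hwj₀) ?_
    rw [← hνi]
    exact hνmon i j₀ hwi hwj₀ hPj₀.symm (by rw [hej₀, ← ht]; exact ht₀t)
  have hνj₀' : ν' j₀ + 1 = ν j₀ := by
    have h1 := hνkd j₀ hwj₀
    have h2 := hν'kd j₀ hwj₀
    rw [hPj₀f, hej₀] at h1 h2
    have h3 := hK2 t₀
    have h4 := hK2 (t₀ - 1)
    rw [if_pos le_rfl] at h3
    rw [if_neg (by omega)] at h4
    rw [h3, h4, h2] at h1
    have h5 : w j₀ = d := by rw [hwd j₀ hwj₀ hPj₀f]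
    rw [h5] at h1
    have h6 : d * (ν' j₀ + 1) = d * ν j₀ := by
      rw [mul_add, mul_one]
      omega
    exact Nat.eq_of_mul_eq_mul_left hd1 h6
  have hνj : ∀ j, j ≠ j₀ → w j * ν' j = w j * ν j := by
    intro j hj
    by_cases hwj : w j = 0
    · simp [hwj]
    · have h1 := hνkd j hwj
      have h2 := hν'kd j hwj
      by_cases hPj : P j = f
      · have hej : e j ≠ t₀ := by
          intro hcon
          exact hj (hinj j j₀ hwj hwj₀ (hPj.trans hPj₀f.symm) (hcon.trans hej₀.symm))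
        have hej1 := (hP j hwj).2.2.2
        rw [hPj] at h1 h2
        have h3 := hK2 (e j)
        have h4 := hK2 (e j - 1)
        by_cases hle2 : t₀ ≤ e j
        · rw [if_pos hle2] at h3
          rw [if_pos (by omega)] at h4
          omega
        · rw [if_neg hle2] at h3
          rw [if_neg (by omega)] at h4
          omega
      · have h3 := hK1 (P j) (hP j hwj).1 (hP j hwj).2.1 hPj
        rw [h3, h3] at h2
        omega
  have hνjj : ∀ j, j ≠ j₀ → w j ≠ 0 → ν' j = ν j := fun j hj hwj =>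
    Nat.eq_of_mul_eq_mul_left (Nat.pos_of_ne_zero hwj) (hνj j hj)
  have hS : (∑ j, w j * (ν j * ν j)) + d = (∑ j, w j * (ν' j * ν' j)) + 2 * d * H := by
    rw [← Finset.add_sum_erase _ _ (Finset.mem_univ j₀), ← Finset.add_sum_erase _ (fun j => w j * (ν' j * ν' j)) (Finset.mem_univ j₀)]
    have h1 : ∑ j ∈ Finset.univ.erase j₀, w j * (ν j * ν j) =
        ∑ j ∈ Finset.univ.erase j₀, w j * (ν' j * ν' j) := by
      refine Finset.sum_congr rfl fun j hj => ?_
      by_cases hwj : w j = 0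
      · simp [hwj]
      · rw [hνjj j (Finset.ne_of_mem_erase hj) hwj]
    rw [h1]
    have h5 : w j₀ = d := by rw [hwd j₀ hwj₀ hPj₀f]
    have h6 : H = ν' j₀ + 1 := by omega
    have h7 : ν j₀ = ν' j₀ + 1 := by omega
    simp only [h5, h7, h6]
    ring
  refine ⟨b, d, rfl, k B, G, hd1, hdm, hirr', hpg, ?_, ?_⟩
  · have h1 : (g : Matrix (Fin (b + d)) (Fin (b + d)) F).submatrix (Fin.cast (rfl : b + d = b + d))
        (Fin.cast (rfl : b + d = b + d)) = g := by
      ext i j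
      rfl
    rw [h1, ← hGg, ← Matrix.GeneralLinearGroup.coe_mul, ← Matrix.GeneralLinearGroup.coe_mul]
    congr 1
    group
  · rw [k2n_pt _ _ hν'cN, k2n_pt _ _ hνcN]
    have hq : (1 : ℝ) ≤ Nat.card F := by exact_mod_cast Nat.card_pos
    refine Real.rpow_le_rpow (le_max_of_le_left (by positivity)) (max_le ?_ (le_max_right _ _))
      (by norm_num)
    have h1 := k2n_num hm w ν (b + d) H d hw hνsum hi₀max hdm hd1
    have h2 : ((∑ j, w j * (ν' j * ν' j) : ℕ) : ℝ) - (b : ℝ) ^ 2 / g₀.natDegree =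
        ((∑ j, w j * (ν j * ν j) : ℕ) : ℝ) - ((b + d : ℕ) : ℝ) ^ 2 / g₀.natDegree -
          2 * d * (H - ((b + d : ℕ) : ℝ) / g₀.natDegree) + d - (d : ℝ) ^ 2 / g₀.natDegree := by
      have h3 : (((∑ j, w j * (ν j * ν j)) + d : ℕ) : ℝ) =
          (((∑ j, w j * (ν' j * ν' j)) + 2 * d * H : ℕ) : ℝ) := by exact_mod_cast hS
      rw [Nat.cast_add, Nat.cast_add, Nat.cast_mul (2 * d) H, Nat.cast_mul 2 d] at h3
      have hm0 : (g₀.natDegree : ℝ) ≠ 0 := by
        have : g₀.natDegree ≠ 0 := by omega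
        exact_mod_cast this
      generalize (((∑ j, w j * (ν j * ν j) : ℕ)) : ℝ) = S₁ at h3 ⊢
      generalize (((∑ j, w j * (ν' j * ν' j) : ℕ)) : ℝ) = S₂ at h3 ⊢
      push_cast at h3 ⊢
      field_simp
      linear_combination (-(g₀.natDegree : ℝ)) * h3
    rw [h2]
    rcases le_max_iff.1 h1 with h4 | h4
    · exact le_max_of_le_left (Real.rpow_le_rpow_of_exponent_le hq h4)
    · exact le_max_of_le_right (Real.rpow_le_rpow_of_exponent_le hq h4)

end

end FLX
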