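import Mathlib
import Pool.Agent.FLX.StX

set_option autoImplicit false

/-!
# FLX: the module SEL
-/

namespace FLX

open RSF FL0 SRJ Polynomial Pool.Agent.Lib_helper13

section

variable {F : Type} [Field F]

theorem sel_bm_add {a d : ℕ} (g g' : Matrix (Fin a) (Fin a) F) (v v' : Matrix (Fin a) (Fin d) F)
    (h h' : Matrix (Fin d) (Fin d) F) :
    bm g v h + bm g' v' h' = bm (g + g') (v + v') (h + h') := by
  have h1 : Matrix.fromBlocks (g + g') (v + v') 0 (h + h') =
      Matrix.fromBlocks g v 0 h + Matrix.fromBlocks g' v' 0 h' := by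
    rw [Matrix.fromBlocks_add, add_zero]
  simp only [bm, Matrix.reindex_apply]
  rw [h1]
  rfl

theorem sel_bm_smul {a d : ℕ} (c : F) (g : Matrix (Fin a) (Fin a) F) (v : Matrix (Fin a) (Fin d) F)
    (h : Matrix (Fin d) (Fin d) F) :
    c • bm g v h = bm (c • g) (c • v) (c • h) := by
  have h1 : Matrix.fromBlocks (c • g) (c • v) 0 (c • h) =
      c • Matrix.fromBlocks g v 0 h := by
    rw [Matrix.fromBlocks_smul, smul_zero]
  simp only [bm, Matrix.reindex_apply]
  rw [h1]
  rfl

theorem sel_bm_pow {a d : ℕ} (g : Matrix (Fin a) (Fin a) F) (v : Matrix (Fin a) (Fin d) F)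
    (h : Matrix (Fin d) (Fin d) F) (n : ℕ) :
    ∃ w, bm g v h ^ n = bm (g ^ n) w (h ^ n) := by
  induction n with
  | zero => exact ⟨0, by rw [pow_zero, pow_zero, pow_zero, bm_one]⟩
  | succ n ih =>
    obtain ⟨w, hw⟩ := ih
    exact ⟨g ^ n * v + w * h, by rw [pow_succ, hw, bm_mul, ← pow_succ, ← pow_succ]⟩

theorem sel_aeval {a d : ℕ} (g : Matrix (Fin a) (Fin a) F) (v : Matrix (Fin a) (Fin d) F)
    (h : Matrix (Fin d) (Fin d) F) (f : F[X]) :
    ∃ w, aeval (bm g v h) f = bm (aeval g f) w (aeval h f) := by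
  induction f using Polynomial.induction_on' with
  | add p q hp hq =>
    obtain ⟨w, hw⟩ := hp
    obtain ⟨w', hw'⟩ := hq
    exact ⟨w + w', by rw [map_add, map_add, map_add, hw, hw', sel_bm_add]⟩
  | monomial n c =>
    obtain ⟨w, hw⟩ := sel_bm_pow g v h n
    refine ⟨c • w, ?_⟩
    rw [aeval_monomial, aeval_monomial, aeval_monomial, hw, ← Algebra.smul_def, ← Algebra.smul_def,
      ← Algebra.smul_def, sel_bm_smul]

theorem sel_bm_tl {a d : ℕ} (g : Matrix (Fin a) (Fin a) F) (v : Matrix (Fin a) (Fin d) F)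
    (h : Matrix (Fin d) (Fin d) F) (i j : Fin a) :
    bm g v h (Fin.castAdd d i) (Fin.castAdd d j) = g i j := by
  simp [bm, Matrix.reindex_apply, Matrix.submatrix_apply]

theorem sel_bm_tr {a d : ℕ} (g : Matrix (Fin a) (Fin a) F) (v : Matrix (Fin a) (Fin d) F)
    (h : Matrix (Fin d) (Fin d) F) (i : Fin a) (j : Fin d) :
    bm g v h (Fin.castAdd d i) (Fin.natAdd a j) = v i j := by
  simp [bm, Matrix.reindex_apply, Matrix.submatrix_apply]

theorem sel_bm_bl {a d : ℕ} (g : Matrix (Fin a) (Fin a) F) (v : Matrix (Fin a) (Fin d) F)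
    (h : Matrix (Fin d) (Fin d) F) (i : Fin d) (j : Fin a) :
    bm g v h (Fin.natAdd a i) (Fin.castAdd d j) = 0 := by
  simp [bm, Matrix.reindex_apply, Matrix.submatrix_apply]

theorem sel_bm_br {a d : ℕ} (g : Matrix (Fin a) (Fin a) F) (v : Matrix (Fin a) (Fin d) F)
    (h : Matrix (Fin d) (Fin d) F) (i j : Fin d) :
    bm g v h (Fin.natAdd a i) (Fin.natAdd a j) = h i j := by
  simp [bm, Matrix.reindex_apply, Matrix.submatrix_apply]

theorem sel_bm_det {a d : ℕ} (g : Matrix (Fin a) (Fin a) F) (v : Matrix (Fin a) (Fin d) F)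
    (h : Matrix (Fin d) (Fin d) F) : (bm g v h).det = g.det * h.det := by
  rw [bm, Matrix.det_reindex_self, Matrix.det_fromBlocks_zero₂₁]

/-- a matrix with last rows `[0 h]` is a block matrix -/
theorem sel_bm_eta {a d : ℕ} (M : Matrix (Fin (a + d)) (Fin (a + d)) F)
    (h : Matrix (Fin d) (Fin d) F)
    (h1 : ∀ i j, M (Fin.natAdd a i) (Fin.castAdd d j) = 0)
    (h2 : ∀ i j, M (Fin.natAdd a i) (Fin.natAdd a j) = h i j) :
    M = bm (fun i j => M (Fin.castAdd d i) (Fin.castAdd d j))
      (fun i j => M (Fin.castAdd d i) (Fin.natAdd a j)) h := by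
  ext i j
  refine Fin.addCases (fun i => ?_) (fun i => ?_) i <;>
    refine Fin.addCases (fun j => ?_) (fun j => ?_) j
  · rw [sel_bm_tl]
  · rw [sel_bm_tr]
  · rw [sel_bm_bl, h1]
  · rw [sel_bm_br, h2]

theorem sel_b0_mul {b d : ℕ} {ι : Type} (G : Matrix (Fin (b + d)) ι F) (i : Fin d) (j : ι) :
    (b0 b d F * G) i j = G (Fin.natAdd b i) j := by
  rw [Matrix.mul_apply, Finset.sum_eq_single (Fin.natAdd b i)]
  · simp [b0]
  · intro k _ hk
    have : k.val ≠ b + i.val := fun h => hk (Fin.ext (by simpa using h))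
    simp [b0, this]
  · intro h
    exact absurd (Finset.mem_univ _) h

theorem sel_mul_b0_l {b d : ℕ} (h : Matrix (Fin d) (Fin d) F) (i : Fin d) (j : Fin b) :
    (h * b0 b d F) i (Fin.castAdd d j) = 0 := by
  rw [Matrix.mul_apply]
  refine Finset.sum_eq_zero fun k _ => ?_
  have : (Fin.castAdd d j).val ≠ b + k.val := by
    simp only [Fin.val_castAdd]
    have := j.isLt
    omega
  simp only [b0]
  rw [if_neg this, mul_zero]

theorem sel_mul_b0_r {b d : ℕ} (h : Matrix (Fin d) (Fin d) F) (i j : Fin d) :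
    (h * b0 b d F) i (Fin.natAdd b j) = h i j := by
  rw [Matrix.mul_apply, Finset.sum_eq_single j]
  · simp [b0]
  · intro k _ hk
    have : (Fin.natAdd b j).val ≠ b + k.val := by
      intro h
      apply hk
      apply Fin.ext
      simp only [Fin.val_natAdd] at h
      omega
    simp only [b0]
    rw [if_neg this, mul_zero]
  · intro h
    exact absurd (Finset.mem_univ _) h

/-- the powers of `h` applied to a nonzero vector are linearly independent -/
theorem sel_li {d : ℕ} (h : Matrix (Fin d) (Fin d) F) (hi : Irreducible h.charpoly)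
    (w : Fin d → F) (hw : w ≠ 0) :
    LinearIndependent F (fun i : Fin d => (h ^ i.val).mulVec w) := by
  rw [Fintype.linearIndependent_iff]
  intro c hc
  set p : F[X] := ∑ i : Fin d, monomial i.val (c i) with hp
  have hpw : (aeval h p).mulVec w = 0 := by
    rw [hp, map_sum, Matrix.sum_mulVec, ← hc]
    refine Finset.sum_congr rfl fun i _ => ?_
    rw [aeval_monomial, ← Algebra.smul_def, Matrix.smul_mulVec]
  have hcoef : ∀ i : Fin d, p.coeff i.val = c i := by
    intro i
    rw [hp, finsetSum_coeff, Finset.sum_eq_single i]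
    · simp
    · intro j _ hj
      rw [coeff_monomial, if_neg]
      intro h
      exact hj (Fin.ext h)
    · intro h
      exact absurd (Finset.mem_univ _) h
  have hp0 : p = 0 := by
    by_contra hp0
    have hdeg : p.natDegree < h.charpoly.natDegree := by
      rw [Matrix.charpoly_natDegree_eq_dim, Fintype.card_fin]
      rw [Polynomial.natDegree_lt_iff_degree_lt hp0]
      rw [hp]
      refine lt_of_le_of_lt (Polynomial.degree_sum_le _ _) ?_
      rw [Finset.sup_lt_iff (by exact WithBot.bot_lt_coe _)]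
      intro i _
      refine lt_of_le_of_lt (Polynomial.degree_monomial_le _ _) ?_
      exact_mod_cast i.isLt
    have hco : IsCoprime h.charpoly p := by
      rw [hi.coprime_iff_not_dvd]
      intro hdvd
      exact absurd (Polynomial.natDegree_le_of_dvd hdvd hp0) (not_le.mpr hdeg)
    obtain ⟨u, v, huv⟩ := hco
    have h1 : aeval h (u * h.charpoly + v * p) = 1 := by rw [huv, map_one]
    rw [map_add, map_mul, map_mul, Matrix.aeval_self_charpoly, mul_zero, zero_add] at h1
    apply hw
    have h2 : ((aeval h v) * (aeval h p)).mulVec w = w := by rw [h1, Matrix.one_mulVec]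
    rw [← Matrix.mulVec_mulVec, hpw, Matrix.mulVec_zero] at h2
    exact h2.symm
  intro i
  rw [← hcoef i, hp0, coeff_zero]

/-- `B` is surjective -/
theorem sel_surj {a d : ℕ} (g : Matrix (Fin a) (Fin a) F) (h : Matrix (Fin d) (Fin d) F)
    (hi : Irreducible h.charpoly) (B : Matrix (Fin d) (Fin a) F) (hB : B ≠ 0)
    (hc : h * B = B * g) : LinearMap.range (Matrix.mulVecLin B) = ⊤ := by
  obtain ⟨x, hx⟩ : ∃ x : Fin a → F, B.mulVec x ≠ 0 := by
    by_contra hcon
    push Not at hcon
    apply hB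
    ext i j
    have := congrFun (hcon (Pi.single j 1)) i
    simpa using this
  have hpow : ∀ n : ℕ, h ^ n * B = B * g ^ n := by
    intro n
    induction n with
    | zero => rw [pow_zero, pow_zero, Matrix.one_mul, Matrix.mul_one]
    | succ n ih => rw [pow_succ, Matrix.mul_assoc, hc, ← Matrix.mul_assoc, ih, Matrix.mul_assoc, ← pow_succ]
  have hli := sel_li h hi (B.mulVec x) hx
  have hspan : Submodule.span F (Set.range (fun i : Fin d => (h ^ i.val).mulVec (B.mulVec x))) = ⊤ := by
    apply hli.span_eq_top_of_card_eq_finrank'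
    rw [Fintype.card_fin, Module.finrank_fin_fun]
  rw [eq_top_iff, ← hspan, Submodule.span_le]
  rintro _ ⟨i, rfl⟩
  refine ⟨(g ^ i.val).mulVec x, ?_⟩
  simp only [Matrix.mulVecLin_apply, Matrix.mulVec_mulVec, hpow]

/-- completion to an invertible matrix -/
theorem sel_compl {b d : ℕ} (B : Matrix (Fin d) (Fin (b + d)) F)
    (hB : LinearMap.range (Matrix.mulVecLin B) = ⊤) :
    ∃ G : GL (Fin (b + d)) F, B = b0 b d F * (G : Matrix (Fin (b + d)) (Fin (b + d)) F) := by
  set K := LinearMap.ker (Matrix.mulVecLin B) with hK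
  have hdim : Module.finrank F K = b := by
    have h1 := LinearMap.finrank_range_add_finrank_ker (Matrix.mulVecLin B)
    rw [hB, finrank_top, Module.finrank_fin_fun, Module.finrank_fin_fun, ← hK] at h1
    omega
  obtain ⟨π, hπ⟩ := LinearMap.exists_leftInverse_of_injective K.subtype (Submodule.ker_subtype K)
  have e : K ≃ₗ[F] (Fin b → F) := LinearEquiv.ofFinrankEq K (Fin b → F) (by
    rw [hdim, Module.finrank_fin_fun])
  let A : Matrix (Fin b) (Fin (b + d)) F := LinearMap.toMatrix' (e.toLinearMap ∘ₗ π)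
  have hA : ∀ x, A.mulVec x = e (π x) := by
    intro x
    simp only [A]
    rw [← Matrix.toLin'_apply, Matrix.toLin'_toMatrix']
    rfl
  let G : Matrix (Fin (b + d)) (Fin (b + d)) F :=
    fun i j => Fin.addCases (fun i' => A i' j) (fun i' => B i' j) i
  have hG1 : ∀ x i, G.mulVec x (Fin.castAdd d i) = A.mulVec x i := by
    intro x i
    simp only [Matrix.mulVec, dotProduct, G, Fin.addCases_left]
  have hG2 : ∀ x i, G.mulVec x (Fin.natAdd b i) = B.mulVec x i := by
    intro x i
    simp only [Matrix.mulVec, dotProduct, G, Fin.addCases_right]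
  have hinj : Function.Injective G.mulVec := by
    have : Function.Injective (Matrix.mulVecLin G) := by
      rw [← LinearMap.ker_eq_bot, LinearMap.ker_eq_bot']
      intro x hx
      rw [Matrix.mulVecLin_apply] at hx
      have h1 : A.mulVec x = 0 := by
        funext i
        rw [← hG1, hx]; rfl
      have h2 : B.mulVec x = 0 := by
        funext i
        rw [← hG2, hx]; rfl
      have h3 : x ∈ K := by
        rw [hK, LinearMap.mem_ker, Matrix.mulVecLin_apply, h2]
      have h4 : π x = ⟨x, h3⟩ := by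
        have := LinearMap.congr_fun hπ ⟨x, h3⟩
        simpa using this
      rw [hA, h4, LinearEquiv.map_eq_zero_iff] at h1
      exact congrArg Subtype.val h1
    exact this
  have hu : IsUnit G := Matrix.mulVec_injective_iff_isUnit.mp hinj
  refine ⟨hu.unit, ?_⟩
  ext i j
  rw [IsUnit.unit_spec, sel_b0_mul]
  simp only [G, Fin.addCases_right]

theorem sel_main {b d : ℕ} (g : GL (Fin (b + d)) F) (h : GL (Fin d) F)
    (hi : Irreducible (h : Matrix (Fin d) (Fin d) F).charpoly) (B : Matrix (Fin d) (Fin (b + d)) F)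
    (hB : B ≠ 0) (hc : (h : Matrix (Fin d) (Fin d) F) * B =
      B * (g : Matrix (Fin (b + d)) (Fin (b + d)) F)) :
    ∃ p : PB b d F, p.h = h ∧ ∃ G : GL (Fin (b + d)) F,
      B = b0 b d F * (G : Matrix (Fin (b + d)) (Fin (b + d)) F) ∧ G * g * G⁻¹ = PB.emb p := by
  obtain ⟨G, hG⟩ := sel_compl B (sel_surj _ _ hi B hB hc)
  set M : Matrix (Fin (b + d)) (Fin (b + d)) F := ((G * g * G⁻¹ : GL (Fin (b + d)) F) :
    Matrix (Fin (b + d)) (Fin (b + d)) F) with hM
  have hGG : (G : Matrix (Fin (b + d)) (Fin (b + d)) F) *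
      ((G⁻¹ : GL (Fin (b + d)) F) : Matrix (Fin (b + d)) (Fin (b + d)) F) = 1 := by
    rw [← Matrix.GeneralLinearGroup.coe_mul, mul_inv_cancel, Matrix.GeneralLinearGroup.coe_one]
  have hbM : b0 b d F * M = (h : Matrix (Fin d) (Fin d) F) * b0 b d F := by
    rw [hM, Matrix.GeneralLinearGroup.coe_mul, Matrix.GeneralLinearGroup.coe_mul, ← Matrix.mul_assoc,
      ← Matrix.mul_assoc, ← hG, ← hc, hG, Matrix.mul_assoc, Matrix.mul_assoc, hGG, Matrix.mul_one]
  have h1 : ∀ i j, M (Fin.natAdd b i) (Fin.castAdd d j) = 0 := by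
    intro i j
    rw [← sel_b0_mul M i (Fin.castAdd d j), hbM, sel_mul_b0_l]
  have h2 : ∀ i j, M (Fin.natAdd b i) (Fin.natAdd b j) = (h : Matrix (Fin d) (Fin d) F) i j := by
    intro i j
    rw [← sel_b0_mul M i (Fin.natAdd b j), hbM, sel_mul_b0_r]
  have h3 := sel_bm_eta M (h : Matrix (Fin d) (Fin d) F) h1 h2
  have hMu : IsUnit M := (G * g * G⁻¹ : GL (Fin (b + d)) F).isUnit
  have hdet : IsUnit M.det := (Matrix.isUnit_iff_isUnit_det M).mp hMu
  rw [h3, sel_bm_det, IsUnit.mul_iff] at hdet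
  have hgu := (Matrix.isUnit_iff_isUnit_det _).mpr hdet.1
  refine ⟨⟨hgu.unit, h, fun i j => M (Fin.castAdd d i) (Fin.natAdd b j)⟩, rfl, G, hG, ?_⟩
  apply Units.ext
  rw [PB.emb_val]
  simp only [IsUnit.unit_spec]
  exact h3

end

theorem t_SEL : S_SEL := by
  intro F _ _ _
  refine ⟨?_, ?_, ?_⟩
  · intro b d g h hi
    classical
    have key : ∀ B : Matrix (Fin d) (Fin (b + d)) F, ∃ p : PB b d F,
        B ∈ ib (g : Matrix (Fin (b + d)) (Fin (b + d)) F) (h : Matrix (Fin d) (Fin d) F) →
        p.h = h ∧ ∃ G : GL (Fin (b + d)) F,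
        B = b0 b d F * (G : Matrix (Fin (b + d)) (Fin (b + d)) F) ∧ G * g * G⁻¹ = PB.emb p := by
      intro B
      by_cases hB : B ∈ ib (g : Matrix (Fin (b + d)) (Fin (b + d)) F) (h : Matrix (Fin d) (Fin d) F)
      · have hB' := hB
        rw [ib, Finset.mem_filter] at hB'
        obtain ⟨p, hp⟩ := sel_main g h hi B hB'.2.1 hB'.2.2
        exact ⟨p, fun _ => hp⟩
      · exact ⟨1, fun h => absurd h hB⟩
    choose k hk using key
    exact ⟨k, fun B hB => hk B hB⟩
  · intro a d g h had hi
    classical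
    rw [Finset.eq_empty_iff_forall_notMem]
    intro B hB
    rw [ib, Finset.mem_filter] at hB
    have h1 := sel_surj _ _ hi B hB.2.1 hB.2.2
    have h2 := LinearMap.finrank_range_add_finrank_ker (Matrix.mulVecLin B)
    rw [h1, finrank_top, Module.finrank_fin_fun, Module.finrank_fin_fun] at h2
    omega
  · intro b d p f hf
    obtain ⟨w, hw⟩ := sel_aeval (p.g : Matrix (Fin b) (Fin b) F) p.v
      (p.h : Matrix (Fin d) (Fin d) F) f
    rw [PB.emb_val, hw] at hf
    ext i j
    rw [← sel_bm_tl (aeval (p.g : Matrix (Fin b) (Fin b) F) f) w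
      (aeval (p.h : Matrix (Fin d) (Fin d) F) f) i j, hf]
    rfl

end FLX
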