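import Mathlib
import Pool.Agent.FLX.StX
import Pool.Agent.FLX.SEL

set_option autoImplicit false

/-!
# FLX: the module KDN
-/

namespace FLX

open RSF FL0 SRJ Polynomial Pool.Agent.Lib_helper13

section

variable {F : Type} [Field F] {b d : ℕ}

theorem kdn_mv_l (A : Matrix (Fin b) (Fin b) F) (w : Matrix (Fin b) (Fin d) F)
    (H : Matrix (Fin d) (Fin d) F) (x : Fin (b + d) → F) (i : Fin b) :
    (bm A w H).mulVec x (Fin.castAdd d i) =
      A.mulVec (fun j => x (Fin.castAdd d j)) i + w.mulVec (fun j => x (Fin.natAdd b j)) i := by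
  simp only [Matrix.mulVec, dotProduct, Fin.sum_univ_add, sel_bm_tl, sel_bm_tr]

theorem kdn_mv_r (A : Matrix (Fin b) (Fin b) F) (w : Matrix (Fin b) (Fin d) F)
    (H : Matrix (Fin d) (Fin d) F) (x : Fin (b + d) → F) (i : Fin d) :
    (bm A w H).mulVec x (Fin.natAdd b i) = H.mulVec (fun j => x (Fin.natAdd b j)) i := by
  simp only [Matrix.mulVec, dotProduct, Fin.sum_univ_add, sel_bm_bl, sel_bm_br, zero_mul,
    Finset.sum_const_zero, zero_add]

theorem kdn_b0 (x : Fin (b + d) → F) :
    (b0 b d F).mulVec x = fun i => x (Fin.natAdd b i) := by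
  ext i
  simp only [Matrix.mulVec, dotProduct]
  rw [Finset.sum_eq_single (Fin.natAdd b i)]
  · simp [b0]
  · intro k _ hk
    have : k.val ≠ b + i.val := fun h => hk (Fin.ext (by simpa using h))
    simp [b0, this]
  · intro h
    exact absurd (Finset.mem_univ _) h

/-- the inclusion of the vectors with last coordinates `0` -/
def kdn_inl (b d : ℕ) (F : Type) [Field F] : (Fin b → F) →ₗ[F] (Fin (b + d) → F) where
  toFun y := fun i => Fin.addCases y (fun _ => 0) i
  map_add' y z := by
    ext i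
    refine Fin.addCases (fun i => ?_) (fun i => ?_) i
    · simp
    · simp
  map_smul' c y := by
    ext i
    refine Fin.addCases (fun i => ?_) (fun i => ?_) i
    · simp
    · simp

theorem kdn_inl_l (y : Fin b → F) (i : Fin b) : kdn_inl b d F y (Fin.castAdd d i) = y i := by
  simp [kdn_inl]

theorem kdn_inl_r (y : Fin b → F) (i : Fin d) : kdn_inl b d F y (Fin.natAdd b i) = 0 := by
  simp [kdn_inl]

theorem kdn_inl_inj : Function.Injective (kdn_inl b d F) := by
  intro y z h
  ext i
  rw [← kdn_inl_l (d := d) y i, h, kdn_inl_l]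

/-- the kernel of a block matrix and its image under the last coordinates -/
theorem kdn_split (A : Matrix (Fin b) (Fin b) F) (w : Matrix (Fin b) (Fin d) F)
    (H : Matrix (Fin d) (Fin d) F) :
    Module.finrank F (LinearMap.ker (Matrix.toLin' (bm A w H))) =
      Module.finrank F (LinearMap.ker (Matrix.toLin' A)) +
      Module.finrank F ((LinearMap.ker (Matrix.toLin' (bm A w H))).map
        (Matrix.toLin' (b0 b d F))) := by
  set K := LinearMap.ker (Matrix.toLin' (bm A w H)) with hK
  have h1 := LinearMap.finrank_range_add_finrank_ker ((Matrix.toLin' (b0 b d F)).domRestrict K)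
  rw [LinearMap.range_domRestrict] at h1
  have h2 : Module.finrank F (LinearMap.ker ((Matrix.toLin' (b0 b d F)).domRestrict K)) =
      Module.finrank F (LinearMap.ker (Matrix.toLin' A)) := by
    rw [← Submodule.finrank_map_subtype_eq K
      (LinearMap.ker ((Matrix.toLin' (b0 b d F)).domRestrict K))]
    have h3 : (LinearMap.ker ((Matrix.toLin' (b0 b d F)).domRestrict K)).map K.subtype =
        (LinearMap.ker (Matrix.toLin' A)).map (kdn_inl b d F) := by
      ext x
      simp only [Submodule.mem_map, LinearMap.mem_ker, LinearMap.domRestrict_apply,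
        Matrix.toLin'_apply, kdn_b0, Submodule.subtype_apply, Subtype.exists, exists_and_right,
        exists_eq_right]
      constructor
      · rintro ⟨hx, hx0⟩
        rw [hK, LinearMap.mem_ker, Matrix.toLin'_apply] at hx
        refine ⟨fun j => x (Fin.castAdd d j), ?_, ?_⟩
        · ext i
          have := congrFun hx (Fin.castAdd d i)
          rw [kdn_mv_l, hx0, Matrix.mulVec_zero] at this
          simpa using this
        · ext i
          refine Fin.addCases (fun i => ?_) (fun i => ?_) i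
          · rw [kdn_inl_l]
          · rw [kdn_inl_r]
            exact (congrFun hx0 i).symm
      · rintro ⟨y, hy, rfl⟩
        have h4 : (fun i : Fin d => kdn_inl b d F y (Fin.natAdd b i)) = 0 := by
          funext i
          exact kdn_inl_r y i
        refine ⟨?_, h4⟩
        rw [hK, LinearMap.mem_ker, Matrix.toLin'_apply]
        ext i
        refine Fin.addCases (fun i => ?_) (fun i => ?_) i
        · rw [kdn_mv_l, h4, Matrix.mulVec_zero]
          have h5 : (fun j : Fin b => kdn_inl b d F y (Fin.castAdd d j)) = y := by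
            funext j
            exact kdn_inl_l y j
          rw [h5, hy]
          simp
        · rw [kdn_mv_r, h4, Matrix.mulVec_zero]
          simp
    rw [h3]
    exact (Submodule.equivMapOfInjective (kdn_inl b d F) kdn_inl_inj _).symm.finrank_eq
  rw [h2] at h1
  omega

theorem kdn_ker_rank {n : ℕ} (A : Matrix (Fin n) (Fin n) F) :
    A.rank + Module.finrank F (LinearMap.ker (Matrix.toLin' A)) = n := by
  have h1 := LinearMap.finrank_range_add_finrank_ker (Matrix.toLin' A)
  rw [Module.finrank_fin_fun] at h1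
  exact h1

theorem kdn_conj {n : ℕ} (G g N : Matrix (Fin n) (Fin n) F) (h : N * G = G * g) (f : F[X]) :
    aeval N f * G = G * aeval g f := by
  induction f using Polynomial.induction_on' with
  | add p q hp hq => rw [map_add, map_add, Matrix.add_mul, Matrix.mul_add, hp, hq]
  | monomial k c =>
    have hk : N ^ k * G = G * g ^ k := by
      induction k with
      | zero => rw [pow_zero, pow_zero, Matrix.one_mul, Matrix.mul_one]
      | succ k ih => rw [pow_succ, Matrix.mul_assoc, h, ← Matrix.mul_assoc, ih, Matrix.mul_assoc, ← pow_succ]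
    rw [aeval_monomial, aeval_monomial, ← Algebra.smul_def, ← Algebra.smul_def, Matrix.smul_mul, hk,
      Matrix.mul_smul]

theorem kdn_conj_pow {n : ℕ} (G g N : Matrix (Fin n) (Fin n) F) (h : N * G = G * g) (f : F[X])
    (t : ℕ) : (aeval N f) ^ t * G = G * (aeval g f) ^ t := by
  have h1 := kdn_conj G g N h (f ^ t)
  rwa [map_pow, map_pow] at h1

theorem kdn_kd_conj {n : ℕ} (G g N : Matrix (Fin n) (Fin n) F) (hG : IsUnit G)
    (h : N * G = G * g) (f : F[X]) (t : ℕ) : kd g f t = kd N f t := by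
  have h1 := kdn_conj_pow G g N h f t
  have hd : IsUnit G.det := (Matrix.isUnit_iff_isUnit_det G).mp hG
  have h2 : ((aeval N f) ^ t).rank = ((aeval g f) ^ t).rank := by
    rw [← Matrix.rank_mul_eq_left_of_isUnit_det G ((aeval N f) ^ t) hd, h1,
      Matrix.rank_mul_eq_right_of_isUnit_det G ((aeval g f) ^ t) hd]
  have h3 := kdn_ker_rank ((aeval N f) ^ t)
  have h4 := kdn_ker_rank ((aeval g f) ^ t)
  unfold kd
  omega

/-- the image of a kernel under the last coordinates -/
noncomputable def kdn_W (N : Matrix (Fin (b + d)) (Fin (b + d)) F) (f : F[X]) (t : ℕ) :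
    Submodule F (Fin d → F) :=
  (LinearMap.ker (Matrix.toLin' ((aeval N f) ^ t))).map (Matrix.toLin' (b0 b d F))

theorem kdn_kd_split (g : Matrix (Fin b) (Fin b) F) (v : Matrix (Fin b) (Fin d) F)
    (h : Matrix (Fin d) (Fin d) F) (f : F[X]) (t : ℕ) :
    kd (bm g v h) f t = kd g f t + Module.finrank F (kdn_W (bm g v h) f t) := by
  obtain ⟨w, hw⟩ := sel_aeval g v h f
  obtain ⟨w', hw'⟩ := sel_bm_pow (aeval g f) w (aeval h f) t
  have h1 := kdn_split ((aeval g f) ^ t) w' ((aeval h f) ^ t)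
  unfold kd kdn_W
  rw [hw, hw']
  exact h1

theorem kdn_b0_bm (g : Matrix (Fin b) (Fin b) F) (v : Matrix (Fin b) (Fin d) F)
    (h : Matrix (Fin d) (Fin d) F) (x : Fin (b + d) → F) :
    (b0 b d F).mulVec ((bm g v h).mulVec x) = h.mulVec ((b0 b d F).mulVec x) := by
  rw [kdn_b0, kdn_b0]
  funext i
  rw [kdn_mv_r]

theorem kdn_mem_W {N : Matrix (Fin (b + d)) (Fin (b + d)) F} {f : F[X]} {t : ℕ} {z : Fin d → F} :
    z ∈ kdn_W N f t ↔ ∃ x, ((aeval N f) ^ t).mulVec x = 0 ∧ (b0 b d F).mulVec x = z := by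
  unfold kdn_W
  simp only [Submodule.mem_map, LinearMap.mem_ker, Matrix.toLin'_apply]

theorem kdn_W_zero (N : Matrix (Fin (b + d)) (Fin (b + d)) F) (f : F[X]) : kdn_W N f 0 = ⊥ := by
  rw [eq_bot_iff]
  intro z hz
  rw [kdn_mem_W] at hz
  obtain ⟨x, hx, rfl⟩ := hz
  rw [pow_zero, Matrix.one_mulVec] at hx
  rw [hx, Matrix.mulVec_zero]
  exact Submodule.zero_mem _

theorem kdn_W_mono (N : Matrix (Fin (b + d)) (Fin (b + d)) F) (f : F[X]) {s t : ℕ} (hst : s ≤ t) :
    kdn_W N f s ≤ kdn_W N f t := by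
  intro z hz
  rw [kdn_mem_W] at hz ⊢
  obtain ⟨x, hx, rfl⟩ := hz
  refine ⟨x, ?_, rfl⟩
  obtain ⟨k, rfl⟩ := Nat.exists_eq_add_of_le hst
  rw [add_comm s k, pow_add, ← Matrix.mulVec_mulVec, hx, Matrix.mulVec_zero]

/-- the image is zero if `f` is coprime to the characteristic polynomial -/
theorem kdn_W_bot (g : Matrix (Fin b) (Fin b) F) (v : Matrix (Fin b) (Fin d) F)
    (h : Matrix (Fin d) (Fin d) F) (f : F[X]) (t : ℕ) (hco : IsCoprime f h.charpoly) :
    kdn_W (bm g v h) f t = ⊥ := by
  rw [eq_bot_iff]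
  intro z hz
  rw [kdn_mem_W] at hz
  obtain ⟨x, hx, rfl⟩ := hz
  obtain ⟨w, hw⟩ := sel_aeval g v h f
  obtain ⟨w', hw'⟩ := sel_bm_pow (aeval g f) w (aeval h f) t
  have h1 : ((aeval h f) ^ t).mulVec ((b0 b d F).mulVec x) = 0 := by
    rw [← kdn_b0_bm ((aeval g f) ^ t) w' ((aeval h f) ^ t), ← hw', ← hw, hx, Matrix.mulVec_zero]
  have hco' : IsCoprime (f ^ t) h.charpoly := hco.pow_left
  obtain ⟨u, u', huu⟩ := hco'
  have h2 : aeval h (u * f ^ t + u' * h.charpoly) = 1 := by rw [huu, map_one]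
  rw [map_add, map_mul, map_mul, Matrix.aeval_self_charpoly, mul_zero, add_zero, map_pow] at h2
  have h3 : ((aeval h u) * (aeval h f) ^ t).mulVec ((b0 b d F).mulVec x) =
      (b0 b d F).mulVec x := by rw [h2, Matrix.one_mulVec]
  rw [← Matrix.mulVec_mulVec, h1, Matrix.mulVec_zero] at h3
  rw [← h3]
  exact Submodule.zero_mem _

/-- the image is everything if it is not zero -/
theorem kdn_W_top (g : Matrix (Fin b) (Fin b) F) (v : Matrix (Fin b) (Fin d) F)
    (h : Matrix (Fin d) (Fin d) F) (hi : Irreducible h.charpoly) (f : F[X]) (t : ℕ)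
    (hne : kdn_W (bm g v h) f t ≠ ⊥) : kdn_W (bm g v h) f t = ⊤ := by
  obtain ⟨z, hz, hz0⟩ := Submodule.exists_mem_ne_zero_of_ne_bot hne
  have hinv : ∀ z ∈ kdn_W (bm g v h) f t, h.mulVec z ∈ kdn_W (bm g v h) f t := by
    intro z hz
    rw [kdn_mem_W] at hz ⊢
    obtain ⟨x, hx, rfl⟩ := hz
    refine ⟨(bm g v h).mulVec x, ?_, kdn_b0_bm g v h x⟩
    have hc : (aeval (bm g v h) f) ^ t * bm g v h = bm g v h * (aeval (bm g v h) f) ^ t :=
      kdn_conj_pow (bm g v h) (bm g v h) (bm g v h) rfl f t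
    rw [Matrix.mulVec_mulVec, hc, ← Matrix.mulVec_mulVec, hx, Matrix.mulVec_zero]
  have hpow : ∀ k : ℕ, (h ^ k).mulVec z ∈ kdn_W (bm g v h) f t := by
    intro k
    induction k with
    | zero => rwa [pow_zero, Matrix.one_mulVec]
    | succ k ih =>
      rw [pow_succ', ← Matrix.mulVec_mulVec]
      exact hinv _ ih
  have hli := sel_li h hi z hz0
  have hspan : Submodule.span F (Set.range (fun i : Fin d => (h ^ i.val).mulVec z)) = ⊤ := by
    apply hli.span_eq_top_of_card_eq_finrank'
    rw [Fintype.card_fin, Module.finrank_fin_fun]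
  rw [eq_top_iff, ← hspan, Submodule.span_le]
  rintro _ ⟨i, rfl⟩
  exact hpow i.val

/-- for large `t` the image is not zero -/
theorem kdn_W_ne (g : Matrix (Fin b) (Fin b) F) (v : Matrix (Fin b) (Fin d) F)
    (h : Matrix (Fin d) (Fin d) F) (hi : Irreducible h.charpoly) :
    ∃ t, kdn_W (bm g v h) h.charpoly t ≠ ⊥ := by
  have hd : 0 < d := by
    have h1 := hi.natDegree_pos
    rwa [Matrix.charpoly_natDegree_eq_dim, Fintype.card_fin] at h1
  set M := aeval (bm g v h) h.charpoly with hM
  have hev := LinearMap.eventually_isCompl_ker_pow_range_pow (Matrix.toLin' M)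
  obtain ⟨k, hk⟩ := Filter.eventually_atTop.mp hev
  refine ⟨k + 1, ?_⟩
  have hc := (hk (k + 1) (Nat.le_succ k)).sup_eq_top
  intro hbot
  let z : Fin d → F := Pi.single ⟨0, hd⟩ 1
  have hz0 : z ≠ 0 := by
    intro h0
    have := congrFun h0 ⟨0, hd⟩
    simp [z] at this
  let x : Fin (b + d) → F := fun i => Fin.addCases (fun _ => 0) z i
  have hx : (b0 b d F).mulVec x = z := by
    rw [kdn_b0]
    funext i
    simp only [x, Fin.addCases_right]
  have hmem : x ∈ LinearMap.ker ((Matrix.toLin' M) ^ (k + 1)) ⊔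
      LinearMap.range ((Matrix.toLin' M) ^ (k + 1)) := by
    rw [hc]; trivial
  rw [Submodule.mem_sup] at hmem
  obtain ⟨y, hy, y', hy', hyy⟩ := hmem
  have hp : (Matrix.toLin' M) ^ (k + 1) = Matrix.toLin' (M ^ (k + 1)) := by
    rw [Matrix.toLin'_pow]
  rw [hp, LinearMap.mem_ker, Matrix.toLin'_apply] at hy
  rw [hp, LinearMap.mem_range] at hy'
  obtain ⟨u, rfl⟩ := hy'
  have h1 : (b0 b d F).mulVec y ∈ kdn_W (bm g v h) h.charpoly (k + 1) := by
    rw [kdn_mem_W]
    exact ⟨y, hy, rfl⟩
  rw [hbot, Submodule.mem_bot] at h1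
  have h2 : (b0 b d F).mulVec ((Matrix.toLin' (M ^ (k + 1))) u) = 0 := by
    obtain ⟨w, hw⟩ := sel_aeval g v h h.charpoly
    obtain ⟨w', hw'⟩ := sel_bm_pow (aeval g h.charpoly) w (aeval h h.charpoly) (k + 1)
    rw [Matrix.toLin'_apply, hM, hw, hw', kdn_b0_bm, Matrix.aeval_self_charpoly,
      zero_pow (Nat.succ_ne_zero k), Matrix.zero_mulVec]
  apply hz0
  rw [← hx, ← hyy, Matrix.mulVec_add, h1, h2, add_zero]

end

theorem t_KDN : S_KDN := by
  intro F _ _ _ b d g p G B hi hB hG
  have hN : (bm (p.g : Matrix (Fin b) (Fin b) F) p.v (p.h : Matrix (Fin d) (Fin d) F)) *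
      (G : Matrix (Fin (b + d)) (Fin (b + d)) F) =
      (G : Matrix (Fin (b + d)) (Fin (b + d)) F) * (g : Matrix (Fin (b + d)) (Fin (b + d)) F) := by
    have h1 : PB.emb p * G = G * g := by
      rw [← hG]; group
    have h2 := congrArg (fun M : GL (Fin (b + d)) F =>
      (M : Matrix (Fin (b + d)) (Fin (b + d)) F)) h1
    simp only [Matrix.GeneralLinearGroup.coe_mul, PB.emb_val] at h2
    exact h2
  set N := bm (p.g : Matrix (Fin b) (Fin b) F) p.v (p.h : Matrix (Fin d) (Fin d) F) with hNd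
  have hGu : IsUnit (G : Matrix (Fin (b + d)) (Fin (b + d)) F) := G.isUnit
  have hkd : ∀ (f : F[X]) (t : ℕ), kd (g : Matrix (Fin (b + d)) (Fin (b + d)) F) f t =
      kd (p.g : Matrix (Fin b) (Fin b) F) f t + Module.finrank F (kdn_W N f t) := by
    intro f t
    rw [kdn_kd_conj _ _ N hGu hN f t, hNd, kdn_kd_split]
  set f₀ := (p.h : Matrix (Fin d) (Fin d) F).charpoly with hf₀
  have hmon : f₀.Monic := Matrix.charpoly_monic _
  refine ⟨?_, ?_⟩
  · intro f hfm hfi hne t
    have hco : IsCoprime f f₀ := by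
      rw [hfi.coprime_iff_not_dvd]
      intro hdvd
      apply hne
      exact Polynomial.eq_of_monic_of_associated hfm hmon
        ((hfi.dvd_irreducible_iff_associated hi).mp hdvd)
    rw [hkd, hNd, kdn_W_bot _ _ _ f t hco, finrank_bot, add_zero]
  · classical
    have hex : ∃ t, kdn_W N f₀ t ≠ ⊥ := kdn_W_ne _ _ _ hi
    have hspec := Nat.find_spec hex
    have hmin : ∀ s, s < Nat.find hex → kdn_W N f₀ s = ⊥ := by
      intro s hs
      have := Nat.find_min hex hs
      push Not at this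
      exact this
    have hpos : 1 ≤ Nat.find hex := by
      rcases Nat.eq_zero_or_pos (Nat.find hex) with h0 | h0
      · rw [h0] at hspec
        exact absurd (kdn_W_zero N f₀) hspec
      · exact h0
    have hGinv : (G : Matrix (Fin (b + d)) (Fin (b + d)) F) *
        ((G⁻¹ : GL (Fin (b + d)) F) : Matrix (Fin (b + d)) (Fin (b + d)) F) = 1 := by
      rw [← Matrix.GeneralLinearGroup.coe_mul, mul_inv_cancel, Matrix.GeneralLinearGroup.coe_one]
    have hinvG : ((G⁻¹ : GL (Fin (b + d)) F) : Matrix (Fin (b + d)) (Fin (b + d)) F) *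
        (G : Matrix (Fin (b + d)) (Fin (b + d)) F) = 1 := by
      rw [← Matrix.GeneralLinearGroup.coe_mul, inv_mul_cancel, Matrix.GeneralLinearGroup.coe_one]
    refine ⟨Nat.find hex, hpos, ?_, ?_, ?_⟩
    · intro t
      rw [hkd]
      congr 1
      split_ifs with ht
      · have hne : kdn_W N f₀ t ≠ ⊥ := by
          intro h0
          apply hspec
          exact eq_bot_iff.mpr (le_trans (kdn_W_mono N f₀ ht) (le_of_eq h0))
        rw [kdn_W_top _ _ _ hi f₀ t hne, finrank_top, Module.finrank_fin_fun]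
      · rw [hmin t (not_le.mp ht), finrank_bot]
    · intro x hx
      have h1 : ((aeval N f₀) ^ (Nat.find hex - 1)).mulVec
          ((G : Matrix (Fin (b + d)) (Fin (b + d)) F).mulVec x) = 0 := by
        rw [Matrix.mulVec_mulVec, kdn_conj_pow _ _ N hN f₀, ← Matrix.mulVec_mulVec, hx,
          Matrix.mulVec_zero]
      have h2 : (b0 b d F).mulVec ((G : Matrix (Fin (b + d)) (Fin (b + d)) F).mulVec x) ∈
          kdn_W N f₀ (Nat.find hex - 1) := by
        rw [kdn_mem_W]
        exact ⟨_, h1, rfl⟩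
      rw [hmin _ (by omega), Submodule.mem_bot, Matrix.mulVec_mulVec, ← hB] at h2
      exact h2
    · obtain ⟨z, hz, hz0⟩ := Submodule.exists_mem_ne_zero_of_ne_bot hspec
      rw [kdn_mem_W] at hz
      obtain ⟨y, hy, hyz⟩ := hz
      refine ⟨((G⁻¹ : GL (Fin (b + d)) F) : Matrix (Fin (b + d)) (Fin (b + d)) F).mulVec y, ?_, ?_⟩
      · have hy' : y = (G : Matrix (Fin (b + d)) (Fin (b + d)) F).mulVec
            (((G⁻¹ : GL (Fin (b + d)) F) : Matrix (Fin (b + d)) (Fin (b + d)) F).mulVec y) := by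
          rw [Matrix.mulVec_mulVec, hGinv, Matrix.one_mulVec]
        rw [hy', Matrix.mulVec_mulVec, kdn_conj_pow _ _ N hN f₀, ← Matrix.mulVec_mulVec] at hy
        have h3 := congrArg (fun u =>
          ((G⁻¹ : GL (Fin (b + d)) F) : Matrix (Fin (b + d)) (Fin (b + d)) F).mulVec u) hy
        simp only [Matrix.mulVec_zero] at h3
        rw [Matrix.mulVec_mulVec, hinvG, Matrix.one_mulVec] at h3
        exact h3
      · rw [hB, Matrix.mulVec_mulVec, Matrix.mul_assoc, hGinv, Matrix.mul_one, hyz]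
        exact hz0

end FLX
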