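import Mathlib
import Pool.Agent.FLX.StX

/-!
# MAV: the theorem with the weights `1 - 1/k` for all `q`
-/

set_option autoImplicit false
set_option maxHeartbeats 4000000

namespace FLX

open RSF FL0 SRJ Polynomial Pool.Agent.Lib_helper13

lemma mav_card (n : ℕ) (F : Type) [Field F] [Finite F] :
    Nat.card (PS n F) ≤ (Nat.card F ^ n) ^ n := by
  have h1 : Nat.card (PS n F) ≤ Nat.card (SL n F) :=
    Nat.card_le_card_of_surjective _ (QuotientGroup.mk_surjective)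
  have h2 : Nat.card (SL n F) ≤ Nat.card (Matrix (Fin n) (Fin n) F) :=
    Nat.card_le_card_of_injective (fun y : SL n F => y.1) Subtype.val_injective
  have h3 : Nat.card (Matrix (Fin n) (Fin n) F) = (Nat.card F ^ n) ^ n := by
    unfold Matrix
    rw [Nat.card_fun, Nat.card_fun, Nat.card_eq_fintype_card (α := Fin n), Fintype.card_fin]
  omega

/-- `q ^ n` is large -/
lemma mav_large (K n : ℕ) (hK : 1 ≤ K) (F : Type) [Field F] [Finite F]
    (h : K ^ K + 1 ≤ Nat.card (PS n F)) : K ≤ Nat.card F ^ n := by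
  by_contra hc
  push Not at hc
  have hq : 2 ≤ Nat.card F := Finite.one_lt_card
  have h1 : n < Nat.card F ^ n := Nat.lt_pow_self (by omega)
  have h2 := mav_card n F
  have h3 : (Nat.card F ^ n) ^ n ≤ K ^ K := by
    calc (Nat.card F ^ n) ^ n ≤ K ^ n := Nat.pow_le_pow_left hc.le n
      _ ≤ K ^ K := Nat.pow_le_pow_right (by omega) (by omega)
  omega

lemma mav_delta (η c : ℝ) (hη : 0 < η) (hc : 0 < c) (q n K : ℕ) (hq : 2 ≤ q)
    (hK : (1 / η) ^ (2 / c) ≤ K) (h : K ≤ q ^ n) : (q : ℝ) ^ (-c * (n : ℝ) / 2) ≤ η := by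
  have hq0 : (0 : ℝ) < q := by
    have : 0 < q := by omega
    exact_mod_cast this
  have h1 : (1 / η) ^ (2 / c) ≤ (q : ℝ) ^ (n : ℝ) := by
    rw [Real.rpow_natCast]
    exact hK.trans (by exact_mod_cast h)
  have h2 : 1 / η ≤ (q : ℝ) ^ (c * (n : ℝ) / 2) := by
    have h3 := Real.rpow_le_rpow (by positivity) h1 (by positivity : (0 : ℝ) ≤ c / 2)
    rw [← Real.rpow_mul (by positivity), ← Real.rpow_mul hq0.le] at h3
    have h4 : 2 / c * (c / 2) = 1 := by field_simp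
    rw [h4, Real.rpow_one] at h3
    have h5 : (n : ℝ) * (c / 2) = c * (n : ℝ) / 2 := by ring
    rwa [h5] at h3
  have h6 : -c * (n : ℝ) / 2 = -(c * (n : ℝ) / 2) := by ring
  rw [h6, Real.rpow_neg hq0.le]
  rw [one_div] at h2
  exact inv_le_of_inv_le₀ hη h2

lemma mav_sq (c c' : ℝ) (hcc : c ≤ c') (q n : ℕ) (hq : 2 ≤ q) (v : ℝ)
    (h : v ≤ (q : ℝ) ^ (-c' * (n : ℝ))) : v ≤ ((q : ℝ) ^ (-c * (n : ℝ) / 2)) ^ 2 := by
  have hq0 : (0 : ℝ) < q := by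
    have : 0 < q := by omega
    exact_mod_cast this
  have hq1 : (1 : ℝ) ≤ q := by
    have : 1 ≤ q := by omega
    exact_mod_cast this
  rw [← Real.rpow_natCast, ← Real.rpow_mul hq0.le]
  refine h.trans (Real.rpow_le_rpow_of_exponent_le hq1 ?_)
  have hn : (0 : ℝ) ≤ n := Nat.cast_nonneg n
  push_cast
  nlinarith

lemma mav_cond (hNU : S_NUZ) (m : List ℕ) (hm : ∀ k ∈ m, 2 ≤ k) :
    ∃ (c : ℝ) (r : ℕ), 0 < c ∧ (1 < sig m → ∀ n, r ≤ n → ∀ (F : Type) [Field F] [Finite F],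
      V2 (PS n F) m ≤ (Nat.card F : ℝ) ^ (-c * (n : ℝ))) := by
  by_cases h : 1 < sig m
  · obtain ⟨c, r, hc, -, h1⟩ := hNU m hm h
    exact ⟨c, r, hc, fun _ => h1⟩
  · exact ⟨1, 0, one_pos, fun h' => absurd h' h⟩

theorem t_MAV : M_MAV := by
  intro hNU hZ hTB hTA hTO hGEN m₁ m₂ m₃ hm hw₁
  obtain ⟨c₁, r₁, hc₁, h₁⟩ := mav_cond hNU m₁ (fun k hk => hm k (by simp [hk]))
  obtain ⟨c₂, r₂, hc₂, h₂⟩ := mav_cond hNU m₂ (fun k hk => hm k (by simp [hk]))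
  obtain ⟨c₃, r₃, hc₃, h₃⟩ := mav_cond hNU m₃ (fun k hk => hm k (by simp [hk]))
  obtain ⟨r₄, h₄⟩ := hZ
  obtain ⟨r₅, h₅⟩ := hGEN
  refine ⟨r₁ + r₂ + r₃ + r₄ + r₅, fun ε hε => ?_⟩
  obtain ⟨N₀, hN₀⟩ := h₅ (ε / 4) (by positivity)
  set c : ℝ := min c₁ (min c₂ c₃)
  have hc : 0 < c := lt_min hc₁ (lt_min hc₂ hc₃)
  set η : ℝ := min (1 / 8) (ε / 16)
  have hη : 0 < η := lt_min (by norm_num) (by positivity)
  set K : ℕ := ⌈(1 / η) ^ (2 / c)⌉₊ + 1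
  have hK : (1 / η) ^ (2 / c) ≤ K := by
    refine (Nat.le_ceil _).trans ?_
    exact_mod_cast Nat.le_succ _
  refine ⟨N₀ + (K ^ K + 1), fun n hn F _ _ hN => ?_⟩
  have hq : 2 ≤ Nat.card F := Finite.one_lt_card
  have hKq : K ≤ Nat.card F ^ n := mav_large K n (by omega) F (by omega)
  have hδ := mav_delta η c hη hc (Nat.card F) n K hq hK hKq
  have hδ8 : (Nat.card F : ℝ) ^ (-c * (n : ℝ) / 2) ≤ 1 / 8 := hδ.trans (min_le_left _ _)
  have hδε : (Nat.card F : ℝ) ^ (-c * (n : ℝ) / 2) ≤ ε / 16 := hδ.trans (min_le_right _ _)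
  have hδ0 : 0 ≤ (Nat.card F : ℝ) ^ (-c * (n : ℝ) / 2) := by positivity
  have hg := hN₀ n (by omega) F (by omega)
  have : Fintype (PS n F) := Fintype.ofFinite _
  have hV₁ := mav_sq c c₁ (min_le_left _ _) (Nat.card F) n hq _ (h₁ hw₁ n (by omega) F)
  have hB := hTB (PS n F) m₁ _ hδ0 hδ8 (h₄ n (by omega) F) hV₁
  refine ⟨by linarith [hB.1], by linarith [hB.2], fun hw₂ => ?_⟩
  have hV₂ := mav_sq c c₂ ((min_le_right _ _).trans (min_le_left _ _)) (Nat.card F) n hq _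
    (h₂ hw₂ n (by omega) F)
  have hA := hTA (PS n F) m₁ m₂ _ hδ0 hδ8 hV₁ hV₂
  refine ⟨by linarith, fun hw₃ => ?_⟩
  have hV₃ := mav_sq c c₃ ((min_le_right _ _).trans (min_le_right _ _)) (Nat.card F) n hq _
    (h₃ hw₃ n (by omega) F)
  have hO := hTO (PS n F) m₁ m₂ m₃ _ hδ0 hδ8 hV₁ hV₂ hV₃
  linarith

end FLX
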