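import Mathlib
import Pool.Agent.FLX.StX

set_option autoImplicit false

namespace FLX

open RSF FL0 SRJ Polynomial Pool.Agent.Lib_helper13

lemma nuz_le_sum (f : ℕ → ℕ) (m : List ℕ) (k : ℕ) (hk : k ∈ m) : f k ≤ (m.map f).sum := by
  induction m with
  | nil => simp at hk
  | cons a m ih =>
    simp only [List.map_cons, List.sum_cons]
    rcases List.mem_cons.1 hk with rfl | h
    · omega
    · have := ih h
      omega

lemma nuz_unif (m : List ℕ) (hm : ∀ k ∈ m, 2 ≤ k) (ε : ℝ) (hε : 0 < ε) (hS : S_SBX) :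
    ∃ r : ℕ, ∀ n, r ≤ n → ∀ (F : Type) [Field F] [Finite F], ∀ k ∈ m,
      SB k (1 / (k : ℝ) + ε) n F := by
  have h1 : ∀ k : ℕ, ∃ r : ℕ, 2 ≤ k → ∀ n, r ≤ n → ∀ (F : Type) [Field F] [Finite F],
      SB k (1 / (k : ℝ) + ε) n F := by
    intro k
    by_cases hk : 2 ≤ k
    · obtain ⟨r, h⟩ := hS k hk ε hε
      exact ⟨r, fun _ n hn F _ _ => h n hn F⟩
    · exact ⟨0, fun h => absurd h hk⟩
  choose f hf using h1
  refine ⟨(m.map f).sum, fun n hn F _ _ k hk => ?_⟩
  exact hf k (hm k hk) n (le_trans (nuz_le_sum f m k hk) hn) F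

lemma nuz_sum (ε : ℝ) (m : List ℕ) :
    (m.map fun k : ℕ => 1 - (1 / (k : ℝ) + ε)).sum = sig m - (m.length : ℝ) * ε := by
  unfold sig
  induction m with
  | nil => simp
  | cons k m ih =>
    rw [List.map_cons, List.sum_cons, ih, List.length_cons, List.map_cons, List.sum_cons]
    push_cast
    ring

theorem t_NUZ : M_NUZ := by
  intro hS hL m hm hsig
  have hs : (0 : ℝ) < (sig m - 1) / 2 := by linarith
  have hd : (0 : ℝ) < (m.length : ℝ) + 1 := by positivity
  set ε : ℝ := (sig m - 1) / (2 * ((m.length : ℝ) + 1)) with hεd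
  have hε : 0 < ε := div_pos (by linarith) (by positivity)
  obtain ⟨r1, h1⟩ := nuz_unif m hm ε hε hS
  obtain ⟨c, r2, hc, hr2, h2⟩ := hL m ((sig m - 1) / 2) hs
  refine ⟨c, r1 + r2, hc, by omega, fun n hn F _ _ => ?_⟩
  refine h2 n (by omega) F (fun k => 1 / (k : ℝ) + ε) (fun k hk => ?_) ?_
  · exact h1 n (by omega) F k hk
  · rw [nuz_sum ε m]
    have h4 : (m.length : ℝ) * ε ≤ (sig m - 1) / 2 := by
      rw [hεd, ← mul_div_assoc, div_le_div_iff₀ (by positivity) (by norm_num)]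
      nlinarith
    linarith

end FLX
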