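import Mathlib
import Pool.Agent.FLX.StX

set_option autoImplicit false

namespace FLX

open RSF FL0 SRJ Polynomial Pool.Agent.Lib_helper13

lemma pat_isUnit_bm {F : Type} [Field F] {a d : ℕ} (g : Matrix (Fin a) (Fin a) F)
    (v : Matrix (Fin a) (Fin d) F) :
    IsUnit (bm g v (1 : Matrix (Fin d) (Fin d) F)) ↔ IsUnit g := by
  rw [Matrix.isUnit_iff_isUnit_det, Matrix.isUnit_iff_isUnit_det]
  have h : (bm g v (1 : Matrix (Fin d) (Fin d) F)).det = g.det := by
    rw [bm, Matrix.det_reindex_self, Matrix.det_fromBlocks_zero₂₁, Matrix.det_one, mul_one]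
  rw [h]

lemma pat_unit_eq {F : Type} [Field F] {a d : ℕ} (g : Matrix (Fin a) (Fin a) F)
    (v : Matrix (Fin a) (Fin d) F) (h1 : IsUnit (bm g v (1 : Matrix (Fin d) (Fin d) F)))
    (h2 : IsUnit g) :
    (h1.unit : GL (Fin (a + d)) F) = PB.emb (⟨h2.unit, 1, v⟩ : PB a d F) := by
  apply Units.ext
  rw [PB.emb_val, IsUnit.unit_spec]
  rfl

lemma pat_xm_zm {F : Type} [Field F] [Fintype F] [DecidableEq F] {C : Type} [Group C]
    (ψ : AddChar F ℂ) {a d : ℕ} (X : PB a d F × C → ℂ) :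
    (FLC.xm fun g => X0 X (g, 1)) = stp ψ false (zm X) := by
  funext g
  by_cases h : IsUnit g
  · simp only [FLC.xm, stp, zm, X0, dif_pos h, Bool.false_eq_true, if_false, one_mul, Prod.fst_one,
      Prod.snd_one]
  · simp only [FLC.xm, stp, zm, dif_neg h, mul_zero, Finset.sum_const_zero, zero_div]

lemma pat_stp_bm {F : Type} [Field F] [Fintype F] [DecidableEq F] {C : Type} [Group C]
    (ψ : AddChar F ℂ) {b d : ℕ} (X : PB (b + d) d F × C → ℂ) (g : Matrix (Fin b) (Fin b) F)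
    (v : Matrix (Fin b) (Fin d) F) :
    stp ψ true (zm X) (bm g v 1) = zm (X1 ψ X) g v := by
  by_cases h : IsUnit g
  · have h1 := (pat_isUnit_bm g v).2 h
    have h2 := pat_unit_eq g v h1 h
    simp only [stp, zm, X1, dif_pos h, dif_pos h1, if_true, h2, Matrix.GeneralLinearGroup.coe_one,
      Matrix.mul_one]
  · have h1 : ¬ IsUnit (bm g v (1 : Matrix (Fin d) (Fin d) F)) := fun h' => h ((pat_isUnit_bm g v).1 h')
    simp only [stp, zm, dif_neg h, dif_neg h1, mul_zero, Finset.sum_const_zero, zero_div]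

lemma pat_xm_bm {F : Type} [Field F] [Fintype F] [DecidableEq F] {C : Type} [Group C]
    {b d : ℕ} (X : GL (Fin (b + d)) F × C → ℂ) (g : Matrix (Fin b) (Fin b) F)
    (v : Matrix (Fin b) (Fin d) F) :
    (FLC.xm fun g => X (g, 1)) (bm g v 1) = zm (fun p : PB b d F × C => X (PB.emb p.1, p.2)) g v := by
  by_cases h : IsUnit g
  · have h1 := (pat_isUnit_bm g v).2 h
    have h2 := pat_unit_eq g v h1 h
    simp only [FLC.xm, zm, dif_pos h, dif_pos h1, h2]
  · have h1 : ¬ IsUnit (bm g v (1 : Matrix (Fin d) (Fin d) F)) := fun h' => h ((pat_isUnit_bm g v).1 h')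
    simp only [FLC.xm, zm, dif_neg h, dif_neg h1]

theorem t_PAT : S_PAT := by
  intro F _ _ _ ψ C _ _ m c
  refine ⟨?_, ?_, ?_⟩
  · intro a d X h1 h2 hB τ hv h
    have h3 := hB τ false ⟨h1, h2, fun h => absurd h Bool.false_ne_true, hv⟩ h
    rw [pat_xm_zm ψ X]
    simpa [fl] using h3
  · intro b d X hB τ β hv h
    subst h
    have h3 := hB ((d, β) :: τ) true ⟨hv.1, hv.2.1, fun _ => ⟨β, τ, rfl⟩, hv⟩ rfl
    have h4 : ∀ (g : Matrix (Fin (sz τ)) (Fin (sz τ)) F) (v : Matrix (Fin (sz τ)) (Fin d) F),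
        stp ψ true (zm X) (bm g v 1) = zm (X1 ψ X) g v := fun g v => pat_stp_bm ψ X g v
    have h5 : mu ψ ((d, β) :: τ) (fun A => stp ψ true (zm X) A) =
        mu ψ τ (fun A => stp ψ β (zm (X1 ψ X)) A) := by
      have h6 : mu ψ ((d, β) :: τ) (fun A => stp ψ true (zm X) A) =
        mu ψ τ (stp ψ β (fun (g : Matrix (Fin (sz τ)) (Fin (sz τ)) F)
          (v : Matrix (Fin (sz τ)) (Fin d) F) => stp ψ true (zm X) (bm g v 1))) := rfl
      rw [h6]
      simp only [h4]
    have h7 : ‖mu ψ ((d, β) :: τ) (fun A => stp ψ true (zm X) A)‖ ≤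
        c (fl ((d, true) :: (d, β) :: τ)) := h3
    rw [h5] at h7
    exact h7
  · intro b d X hB τ β hv h
    subst h
    have h3 := hB ((d, β) :: τ) hv rfl
    have h4 : ∀ (g : Matrix (Fin (sz τ)) (Fin (sz τ)) F) (v : Matrix (Fin (sz τ)) (Fin d) F),
        (FLC.xm fun g => X (g, 1)) (bm g v 1) =
          zm (fun p : PB (sz τ) d F × C => X (PB.emb p.1, p.2)) g v := fun g v => pat_xm_bm X g v
    have h5 : mu ψ ((d, β) :: τ) (fun A => (FLC.xm fun g => X (g, 1)) A) =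
        mu ψ τ (fun A => stp ψ β (zm (fun p : PB (sz τ) d F × C => X (PB.emb p.1, p.2))) A) := by
      have h6 : mu ψ ((d, β) :: τ) (fun A => (FLC.xm fun g => X (g, 1)) A) =
        mu ψ τ (stp ψ β (fun (g : Matrix (Fin (sz τ)) (Fin (sz τ)) F)
          (v : Matrix (Fin (sz τ)) (Fin d) F) => (FLC.xm fun g => X (g, 1)) (bm g v 1))) := rfl
      rw [h6]
      simp only [h4]
    have h7 : ‖mu ψ ((d, β) :: τ) (fun A => (FLC.xm fun g => X (g, 1)) A)‖ ≤
        c (fl ((d, β) :: τ)) := h3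
    rw [h5] at h7
    exact h7

end FLX
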