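import Mathlib
import Pool.Agent.FLX.StX
import Pool.Agent.FLC.BRG

/-!
# FLX, module RA1: double cosets of the unipotent groups of patterns
-/

set_option autoImplicit false

namespace FLX

open RSF FL0 SRJ Polynomial Pool.Agent.Lib_helper13

noncomputable section

section

variable {F : Type} [Field F]

theorem ra1_bm_tt {a d : ℕ} (g : Matrix (Fin a) (Fin a) F) (v : Matrix (Fin a) (Fin d) F)
    (h : Matrix (Fin d) (Fin d) F) (i j : Fin a) :
    bm g v h (Fin.castAdd d i) (Fin.castAdd d j) = g i j := by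
  simp [bm]

theorem ra1_bm_tr {a d : ℕ} (g : Matrix (Fin a) (Fin a) F) (v : Matrix (Fin a) (Fin d) F)
    (h : Matrix (Fin d) (Fin d) F) (i : Fin a) (j : Fin d) :
    bm g v h (Fin.castAdd d i) (Fin.natAdd a j) = v i j := by
  simp [bm]

theorem ra1_bm_bl {a d : ℕ} (g : Matrix (Fin a) (Fin a) F) (v : Matrix (Fin a) (Fin d) F)
    (h : Matrix (Fin d) (Fin d) F) (i : Fin d) (j : Fin a) :
    bm g v h (Fin.natAdd a i) (Fin.castAdd d j) = 0 := by
  simp [bm]

theorem ra1_bm_br {a d : ℕ} (g : Matrix (Fin a) (Fin a) F) (v : Matrix (Fin a) (Fin d) F)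
    (h : Matrix (Fin d) (Fin d) F) (i j : Fin d) :
    bm g v h (Fin.natAdd a i) (Fin.natAdd a j) = h i j := by
  simp [bm]

theorem ra1_tlb {a d : ℕ} (g : Matrix (Fin a) (Fin a) F) (v : Matrix (Fin a) (Fin d) F)
    (h : Matrix (Fin d) (Fin d) F) : tlb (bm g v h) = g := by
  ext i j
  exact ra1_bm_tt g v h i j

theorem ra1_trb {a d : ℕ} (g : Matrix (Fin a) (Fin a) F) (v : Matrix (Fin a) (Fin d) F)
    (h : Matrix (Fin d) (Fin d) F) : trb (bm g v h) = v := by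
  ext i j
  exact ra1_bm_tr g v h i j

/-- a matrix with lower left block zero is a block matrix -/
theorem ra1_eq_bm {a d : ℕ} (M : Matrix (Fin (a + d)) (Fin (a + d)) F)
    (h0 : ∀ (i : Fin d) (j : Fin a), M (Fin.natAdd a i) (Fin.castAdd d j) = 0) :
    M = bm (tlb M) (trb M) (fun i j => M (Fin.natAdd a i) (Fin.natAdd a j)) := by
  ext i j
  refine Fin.addCases (fun i => ?_) (fun i => ?_) i <;> refine Fin.addCases (fun j => ?_) (fun j => ?_) j
  · rw [ra1_bm_tt]; rfl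
  · rw [ra1_bm_tr]; rfl
  · rw [ra1_bm_bl]; exact h0 i j
  · rw [ra1_bm_br]

theorem ra1_UT_bm (p : ℕ × Bool) (τ : List (ℕ × Bool)) (g : Matrix (Fin (sz τ)) (Fin (sz τ)) F)
    (v : Matrix (Fin (sz τ)) (Fin p.1) F) (h : UT τ g) : UT (p :: τ) (bm g v 1) := by
  refine ⟨?_, ?_⟩
  · have h1 : tlb (bm g v (1 : Matrix (Fin p.1) (Fin p.1) F)) = g := ra1_tlb g v 1
    rw [h1]; exact h
  · have h1 : tlb (bm g v (1 : Matrix (Fin p.1) (Fin p.1) F)) = g := ra1_tlb g v 1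
    have h2 : trb (bm g v (1 : Matrix (Fin p.1) (Fin p.1) F)) = v := ra1_trb g v 1
    rw [h1, h2]

end

section

variable {F : Type} [Field F] [Fintype F] [DecidableEq F]

omit [DecidableEq F] in
theorem ra1_mem_US {n : ℕ} (u : Matrix (Fin n) (Fin n) F) (h1 : ∀ i, u i i = 1)
    (h2 : ∀ i j, j < i → u i j = 0) : u ∈ FLC.US n F (fun i => i) := by
  rw [FLC.BRG.mem_US]
  refine ⟨h1, fun i j hij hP => ?_⟩
  rcases lt_or_gt_of_ne hij with h | h
  · exact absurd ⟨h, fun h' => hij (Fin.ext h')⟩ hP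
  · exact h2 i j h

/-- the invertible unitriangular matrices -/
def ra1_U (d : ℕ) (F : Type) [Field F] [Fintype F] [DecidableEq F] : Set (GL (Fin d) F) :=
  {g | (g : Matrix (Fin d) (Fin d) F) ∈ FLC.US d F (fun i => i)}

theorem ra1_count (d : ℕ) : Nat.card (ra1_U d F) ^ 2 ≤ Nat.card F ^ (d * (d - 1)) := by
  have h1 : Nat.card (ra1_U d F) ^ 2 = Nat.card (ra1_U d F × ra1_U d F) := by
    rw [Nat.card_prod, pow_two]
  have h2 : Nat.card F ^ (d * (d - 1)) =
      Nat.card ({p : Fin d × Fin d // p.1 ≠ p.2} → F) := by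
    rw [Nat.card_fun]
    congr 1
    rw [Nat.card_eq_fintype_card, Fintype.card_subtype]
    have h3 : (Finset.univ.filter fun p : Fin d × Fin d => p.1 ≠ p.2) =
        (Finset.univ : Finset (Fin d)).offDiag := by
      ext p
      simp [Finset.mem_offDiag]
    rw [h3, Finset.offDiag_card, Finset.card_univ, Fintype.card_fin, Nat.mul_sub_one]
  rw [h1, h2]
  refine Nat.card_le_card_of_injective
    (fun (x : ra1_U d F × ra1_U d F) (p : {p : Fin d × Fin d // p.1 ≠ p.2}) =>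
      if p.1.1 < p.1.2 then ((x.1 : GL (Fin d) F) : Matrix (Fin d) (Fin d) F) p.1.1 p.1.2
      else ((x.2 : GL (Fin d) F) : Matrix (Fin d) (Fin d) F) p.1.2 p.1.1) ?_
  rintro ⟨⟨u, hu⟩, ⟨v, hv⟩⟩ ⟨⟨u', hu'⟩, ⟨v', hv'⟩⟩ hx
  have hu1 : (u : Matrix (Fin d) (Fin d) F) ∈ FLC.US d F (fun i => i) := hu
  have hv1 : (v : Matrix (Fin d) (Fin d) F) ∈ FLC.US d F (fun i => i) := hv
  have hu1' : (u' : Matrix (Fin d) (Fin d) F) ∈ FLC.US d F (fun i => i) := hu'
  have hv1' : (v' : Matrix (Fin d) (Fin d) F) ∈ FLC.US d F (fun i => i) := hv'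
  have e1 : u = u' := by
    apply Units.ext
    ext i j
    rcases lt_trichotomy i j with h | h | h
    · have := congrFun hx ⟨(i, j), h.ne⟩
      simpa [h] using this
    · subst h
      rw [FLC.BRG.diag hu1, FLC.BRG.diag hu1']
    · rw [FLC.BRG.lower hu1 h, FLC.BRG.lower hu1' h]
  have e2 : v = v' := by
    apply Units.ext
    ext i j
    rcases lt_trichotomy i j with h | h | h
    · have := congrFun hx ⟨(j, i), h.ne'⟩
      simpa [h.not_gt] using this
    · subst h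
      rw [FLC.BRG.diag hv1, FLC.BRG.diag hv1']
    · rw [FLC.BRG.lower hv1 h, FLC.BRG.lower hv1' h]
  subst e1
  subst e2
  rfl

omit [DecidableEq F] in
/-- a unitriangular matrix is in the block group, with unitriangular blocks -/
theorem ra1_split {a d : ℕ} (u : GL (Fin (a + d)) F)
    (hu : (u : Matrix (Fin (a + d)) (Fin (a + d)) F) ∈ FLC.US (a + d) F (fun i => i)) :
    ∃ p : PB a d F, PB.emb p = u ∧ (p.g : Matrix (Fin a) (Fin a) F) ∈ FLC.US a F (fun i => i) ∧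
      (p.h : Matrix (Fin d) (Fin d) F) ∈ FLC.US d F (fun i => i) := by
  set M : Matrix (Fin (a + d)) (Fin (a + d)) F := (u : Matrix (Fin (a + d)) (Fin (a + d)) F) with hM
  have h0 : ∀ (i : Fin d) (j : Fin a), M (Fin.natAdd a i) (Fin.castAdd d j) = 0 := by
    intro i j
    refine FLC.BRG.lower hu ?_
    rw [Fin.lt_def, Fin.val_castAdd, Fin.val_natAdd]
    have := j.2
    omega
  have h1 := ra1_eq_bm M h0
  have hg : tlb M ∈ FLC.US a F (fun i => i) := by
    refine ra1_mem_US _ (fun i => FLC.BRG.diag hu _) (fun i j h => FLC.BRG.lower hu ?_)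
    rw [Fin.lt_def, Fin.val_castAdd, Fin.val_castAdd]
    exact Fin.lt_def.1 h
  have hh : (fun i j => M (Fin.natAdd a i) (Fin.natAdd a j) : Matrix (Fin d) (Fin d) F) ∈
      FLC.US d F (fun i => i) := by
    refine ra1_mem_US _ (fun i => FLC.BRG.diag hu _) (fun i j h => FLC.BRG.lower hu ?_)
    rw [Fin.lt_def, Fin.val_natAdd, Fin.val_natAdd]
    have := Fin.lt_def.1 h
    omega
  refine ⟨⟨(FLC.BRG.isUnit hg).unit, (FLC.BRG.isUnit hh).unit, trb M⟩, ?_, ?_, ?_⟩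
  · apply Units.ext
    rw [PB.emb_val]
    exact h1.symm
  · exact hg
  · exact hh

open Classical in
theorem ra1_main (m : ℕ) (hm : 1 ≤ m) (τ : List (ℕ × Bool)) (hτ : vl m τ) :
    ∃ D : Finset (GL (Fin (sz τ)) F), D.card ^ 2 ≤ Nat.card F ^ ((m - 1) * sz τ) ∧
      ∀ u : GL (Fin (sz τ)) F, (u : Matrix (Fin (sz τ)) (Fin (sz τ)) F) ∈
          FLC.US (sz τ) F (fun i => i) →
        (∃ l ∈ D, UT τ ((l * u : GL (Fin (sz τ)) F) : Matrix (Fin (sz τ)) (Fin (sz τ)) F)) ∧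
        ∃ l ∈ D, UT τ ((u * l : GL (Fin (sz τ)) F) : Matrix (Fin (sz τ)) (Fin (sz τ)) F) := by
  induction τ with
  | nil =>
    refine ⟨{1}, ?_, fun u _ => ⟨⟨1, Finset.mem_singleton_self _, trivial⟩,
      ⟨1, Finset.mem_singleton_self _, trivial⟩⟩⟩
    rw [Finset.card_singleton, one_pow]
    exact Nat.one_le_pow _ _ Nat.card_pos
  | cons p τ ih =>
    obtain ⟨hp1, hpm, -, hτ'⟩ := hτ
    obtain ⟨D, hD, hDu⟩ := ih hτ'
    have hfin : (ra1_U p.1 F).Finite := Set.toFinite _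
    set E : Finset (GL (Fin p.1) F) := hfin.toFinset with hE
    have hEc : E.card = Nat.card (ra1_U p.1 F) := by
      rw [hE, ← Set.ncard_eq_toFinset_card _ hfin, Nat.card_coe_set_eq]
    have hEm : ∀ e : GL (Fin p.1) F, e ∈ E ↔
        (e : Matrix (Fin p.1) (Fin p.1) F) ∈ FLC.US p.1 F (fun i => i) := by
      intro e
      rw [hE, Set.Finite.mem_toFinset]
      rfl
    refine ⟨(D ×ˢ E).image fun x => (PB.emb (⟨x.1, x.2, 0⟩ : PB (sz τ) p.1 F) :
      GL (Fin (sz τ + p.1)) F), ?_, ?_⟩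
    · calc ((D ×ˢ E).image _).card ^ 2 ≤ (D ×ˢ E).card ^ 2 :=
            Nat.pow_le_pow_left Finset.card_image_le 2
        _ = D.card ^ 2 * E.card ^ 2 := by rw [Finset.card_product, mul_pow]
        _ ≤ Nat.card F ^ ((m - 1) * sz τ) * Nat.card F ^ (p.1 * (p.1 - 1)) := by
            rw [hEc]
            exact Nat.mul_le_mul hD (ra1_count p.1)
        _ ≤ Nat.card F ^ ((m - 1) * sz τ) * Nat.card F ^ ((m - 1) * p.1) := by
            refine Nat.mul_le_mul le_rfl (Nat.pow_le_pow_right Nat.card_pos ?_)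
            rw [mul_comm]
            exact Nat.mul_le_mul (by omega) le_rfl
        _ = Nat.card F ^ ((m - 1) * sz (p :: τ)) := by
            rw [← pow_add, ← Nat.mul_add]
            rfl
    · change ∀ u : GL (Fin (sz τ + p.1)) F, _
      intro u hu
      obtain ⟨P, hP, hPg, hPh⟩ := ra1_split (a := sz τ) (d := p.1) u hu
      obtain ⟨⟨l, hl, hlu⟩, ⟨r, hr, hru⟩⟩ := hDu P.g hPg
      have hinv : P.h⁻¹ ∈ E := by
        rw [hEm]
        have h1 := (FLC.BRG.grp (n := p.1) (F := F) (d := fun i => i) monotone_id).inv_mem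
          ((FLC.BRG.mem_grp monotone_id P.h).2 hPh)
        exact (FLC.BRG.mem_grp monotone_id P.h⁻¹).1 h1
      refine ⟨⟨_, Finset.mem_image.2 ⟨(l, P.h⁻¹), Finset.mem_product.2 ⟨hl, hinv⟩, rfl⟩, ?_⟩,
        ⟨_, Finset.mem_image.2 ⟨(r, P.h⁻¹), Finset.mem_product.2 ⟨hr, hinv⟩, rfl⟩, ?_⟩⟩
      · have h1 : (PB.emb (⟨l, P.h⁻¹, 0⟩ : PB (sz τ) p.1 F) * u : GL (Fin (sz τ + p.1)) F) =
            PB.emb ((⟨l, P.h⁻¹, 0⟩ : PB (sz τ) p.1 F) * P) := by
          rw [map_mul, hP]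
        have h2 : ((PB.emb (⟨l, P.h⁻¹, 0⟩ : PB (sz τ) p.1 F) * u : GL (Fin (sz τ + p.1)) F) :
            Matrix (Fin (sz τ + p.1)) (Fin (sz τ + p.1)) F) =
            bm ((l * P.g : GL (Fin (sz τ)) F) : Matrix (Fin (sz τ)) (Fin (sz τ)) F)
              ((⟨l, P.h⁻¹, 0⟩ : PB (sz τ) p.1 F) * P).v 1 := by
          rw [h1, PB.emb_val]
          congr 1
          rw [PB.mul_h]
          simp
        have h3 := ra1_UT_bm p τ _ ((⟨l, P.h⁻¹, 0⟩ : PB (sz τ) p.1 F) * P).v hlu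
        rw [← h2] at h3
        exact h3
      · have h1 : (u * PB.emb (⟨r, P.h⁻¹, 0⟩ : PB (sz τ) p.1 F) : GL (Fin (sz τ + p.1)) F) =
            PB.emb (P * (⟨r, P.h⁻¹, 0⟩ : PB (sz τ) p.1 F)) := by
          rw [map_mul, hP]
        have h2 : ((u * PB.emb (⟨r, P.h⁻¹, 0⟩ : PB (sz τ) p.1 F) : GL (Fin (sz τ + p.1)) F) :
            Matrix (Fin (sz τ + p.1)) (Fin (sz τ + p.1)) F) =
            bm ((P.g * r : GL (Fin (sz τ)) F) : Matrix (Fin (sz τ)) (Fin (sz τ)) F)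
              (P * (⟨r, P.h⁻¹, 0⟩ : PB (sz τ) p.1 F)).v 1 := by
          rw [h1, PB.emb_val]
          congr 1
          rw [PB.mul_h]
          simp
        have h3 := ra1_UT_bm p τ _ (P * (⟨r, P.h⁻¹, 0⟩ : PB (sz τ) p.1 F)).v hru
        rw [← h2] at h3
        exact h3

open Classical in
theorem t_RA1 : M_RA1 := by
  intro hBR F _ _ _ m τ hm hτ
  obtain ⟨D, hD, hDu⟩ := ra1_main (F := F) m hm τ hτ
  obtain ⟨R, hR, hRg⟩ := hBR (sz τ) F
  refine ⟨((D ×ˢ D) ×ˢ R).image fun x => x.1.1 * x.2 * x.1.2, ?_, ?_⟩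
  · calc (((D ×ˢ D) ×ˢ R).image fun x => x.1.1 * x.2 * x.1.2).card ≤ ((D ×ˢ D) ×ˢ R).card :=
          Finset.card_image_le
      _ = D.card ^ 2 * R.card := by rw [Finset.card_product, Finset.card_product, pow_two]
      _ ≤ Nat.card F ^ ((m - 1) * sz τ) * ((sz τ).factorial * (Nat.card F - 1) ^ sz τ) :=
          Nat.mul_le_mul hD hR
      _ ≤ Nat.card F ^ ((m - 1) * sz τ) * ((sz τ).factorial * Nat.card F ^ sz τ) :=
          Nat.mul_le_mul le_rfl (Nat.mul_le_mul le_rfl (Nat.pow_le_pow_left (Nat.sub_le _ _) _))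
      _ = (sz τ).factorial * Nat.card F ^ (m * sz τ) := by
          have h1 : m * sz τ = (m - 1) * sz τ + sz τ := by
            obtain ⟨k, rfl⟩ : ∃ k, m = k + 1 := ⟨m - 1, by omega⟩
            simp [Nat.succ_mul]
          rw [h1, pow_add]
          ring
  · intro g
    obtain ⟨h, k, hh, hk, hw⟩ := hRg g
    obtain ⟨⟨l, hl, hlu⟩, -⟩ := hDu h hh
    obtain ⟨-, ⟨r, hr, hru⟩⟩ := hDu k hk
    refine ⟨l * h, k * r, hlu, hru, Finset.mem_image.2 ⟨((l, r), h * g * k), ?_, ?_⟩⟩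
    · exact Finset.mem_product.2 ⟨Finset.mem_product.2 ⟨hl, hr⟩, hw⟩
    · simp only [mul_assoc]

end

end

end FLX
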