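import Mathlib
import Pool.Agent.FLX.StX

/-!
# FLX, module RA2: double cosets of the unipotent groups of patterns and of `HK`
-/

set_option autoImplicit false

namespace FLX

open RSF FL0 SRJ Polynomial Pool.Agent.Lib_helper13

noncomputable section

section

variable {F : Type} [Field F]

theorem ra2_bm_tt {a d : ℕ} (g : Matrix (Fin a) (Fin a) F) (v : Matrix (Fin a) (Fin d) F)
    (h : Matrix (Fin d) (Fin d) F) (i j : Fin a) :
    bm g v h (Fin.castAdd d i) (Fin.castAdd d j) = g i j := by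
  simp [bm]

theorem ra2_bm_tr {a d : ℕ} (g : Matrix (Fin a) (Fin a) F) (v : Matrix (Fin a) (Fin d) F)
    (h : Matrix (Fin d) (Fin d) F) (i : Fin a) (j : Fin d) :
    bm g v h (Fin.castAdd d i) (Fin.natAdd a j) = v i j := by
  simp [bm]

theorem ra2_bm_bl {a d : ℕ} (g : Matrix (Fin a) (Fin a) F) (v : Matrix (Fin a) (Fin d) F)
    (h : Matrix (Fin d) (Fin d) F) (i : Fin d) (j : Fin a) :
    bm g v h (Fin.natAdd a i) (Fin.castAdd d j) = 0 := by
  simp [bm]

theorem ra2_bm_br {a d : ℕ} (g : Matrix (Fin a) (Fin a) F) (v : Matrix (Fin a) (Fin d) F)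
    (h : Matrix (Fin d) (Fin d) F) (i j : Fin d) :
    bm g v h (Fin.natAdd a i) (Fin.natAdd a j) = h i j := by
  simp [bm]

theorem ra2_tlb {a d : ℕ} (g : Matrix (Fin a) (Fin a) F) (v : Matrix (Fin a) (Fin d) F)
    (h : Matrix (Fin d) (Fin d) F) : tlb (bm g v h) = g := by
  ext i j
  exact ra2_bm_tt g v h i j

theorem ra2_trb {a d : ℕ} (g : Matrix (Fin a) (Fin a) F) (v : Matrix (Fin a) (Fin d) F)
    (h : Matrix (Fin d) (Fin d) F) : trb (bm g v h) = v := by
  ext i j
  exact ra2_bm_tr g v h i j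

theorem ra2_UT_bm (p : ℕ × Bool) (τ : List (ℕ × Bool)) (g : Matrix (Fin (sz τ)) (Fin (sz τ)) F)
    (v : Matrix (Fin (sz τ)) (Fin p.1) F) (h : UT τ g) : UT (p :: τ) (bm g v 1) := by
  refine ⟨?_, ?_⟩
  · have h1 : tlb (bm g v (1 : Matrix (Fin p.1) (Fin p.1) F)) = g := ra2_tlb g v 1
    rw [h1]; exact h
  · have h1 : tlb (bm g v (1 : Matrix (Fin p.1) (Fin p.1) F)) = g := ra2_tlb g v 1
    have h2 : trb (bm g v (1 : Matrix (Fin p.1) (Fin p.1) F)) = v := ra2_trb g v 1
    rw [h1, h2]

theorem ra2_unit (τ : List (ℕ × Bool)) : ∀ u : Matrix (Fin (sz τ)) (Fin (sz τ)) F, UT τ u →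
    ∃ g : GL (Fin (sz τ)) F, (g : Matrix (Fin (sz τ)) (Fin (sz τ)) F) = u := by
  induction τ with
  | nil =>
    intro u _
    refine ⟨1, ?_⟩
    ext i
    exact Fin.elim0 i
  | cons p τ ih =>
    intro u hu
    obtain ⟨h1, h2⟩ := hu
    obtain ⟨g, hg⟩ := ih _ h1
    refine ⟨PB.emb ⟨g, 1, trb (d := p.1) u⟩, ?_⟩
    rw [PB.emb_val]
    change bm (g : Matrix (Fin (sz τ)) (Fin (sz τ)) F) (trb (d := p.1) u)
      ((1 : GL (Fin p.1) F) : Matrix (Fin p.1) (Fin p.1) F) = u
    rw [hg, Matrix.GeneralLinearGroup.coe_one]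
    exact h2.symm

/-- upper rows of the product with a block matrix -/
theorem ra2_mul_up {a d K : ℕ} (g : Matrix (Fin a) (Fin a) F) (v : Matrix (Fin a) (Fin d) F)
    (r : Matrix (Fin (a + d)) (Fin K) F) (i : Fin a) (j : Fin K) :
    (bm g v 1 * r) (Fin.castAdd d i) j =
      (g * (Matrix.of fun (k : Fin a) (l : Fin K) => r (Fin.castAdd d k) l)) i j +
        ∑ k : Fin d, v i k * r (Fin.natAdd a k) j := by
  rw [Matrix.mul_apply, Fin.sum_univ_add, Matrix.mul_apply]
  congr 1
  · refine Finset.sum_congr rfl fun k _ => ?_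
    rw [ra2_bm_tt, Matrix.of_apply]
  · refine Finset.sum_congr rfl fun k _ => ?_
    rw [ra2_bm_tr]

/-- lower rows of the product with a block matrix -/
theorem ra2_mul_low {a d K : ℕ} (g : Matrix (Fin a) (Fin a) F) (v : Matrix (Fin a) (Fin d) F)
    (r : Matrix (Fin (a + d)) (Fin K) F) (i : Fin d) (j : Fin K) :
    (bm g v 1 * r) (Fin.natAdd a i) j = r (Fin.natAdd a i) j := by
  rw [Matrix.mul_apply, Fin.sum_univ_add]
  have h1 : ∑ k : Fin a, bm g v 1 (Fin.natAdd a i) (Fin.castAdd d k) * r (Fin.castAdd d k) j = 0 :=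
    Finset.sum_eq_zero fun k _ => by rw [ra2_bm_bl, zero_mul]
  rw [h1, zero_add, Finset.sum_eq_single i]
  · rw [ra2_bm_br, Matrix.one_apply_eq, one_mul]
  · intro k _ hk
    rw [ra2_bm_br, Matrix.one_apply_ne (Ne.symm hk), zero_mul]
  · intro h
    exact absurd (Finset.mem_univ _) h

/-- The reduction: outside of a few blocks all rows can be moved into `W`. -/
theorem ra2_red (m K : ℕ) (τ : List (ℕ × Bool)) : vl m τ →
    ∀ (W : Submodule F (Fin K → F)) (r : Matrix (Fin (sz τ)) (Fin K) F),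
      ∃ (u : Matrix (Fin (sz τ)) (Fin (sz τ)) F) (T : Finset (Fin (sz τ))), UT τ u ∧
        T.card + Module.finrank F W ≤ K ∧
        ∀ i : Fin (sz τ), (∀ t ∈ T, ¬ (t.val ≤ i.val ∧ i.val < t.val + m)) →
          (fun j => (u * r) i j) ∈ W := by
  classical
  induction τ with
  | nil =>
    intro _ W r
    refine ⟨1, ∅, trivial, ?_, fun i => Fin.elim0 i⟩
    rw [Finset.card_empty, zero_add]
    have h := Submodule.finrank_le W
    rwa [Module.finrank_fin_fun] at h
  | cons p τ ih =>
    intro hv W r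
    change Matrix (Fin (sz τ + p.1)) (Fin K) F at r
    change ∃ (u : Matrix (Fin (sz τ + p.1)) (Fin (sz τ + p.1)) F) (T : Finset (Fin (sz τ + p.1))),
      UT (p :: τ) u ∧ T.card + Module.finrank F W ≤ K ∧
        ∀ i : Fin (sz τ + p.1), (∀ t ∈ T, ¬ (t.val ≤ i.val ∧ i.val < t.val + m)) →
          (fun j => (u * r) i j) ∈ W
    obtain ⟨hp1, hpm, -, hv'⟩ := hv
    -- upper and lower rows
    obtain ⟨ru, hru⟩ : ∃ ru : Matrix (Fin (sz τ)) (Fin K) F,
      ru = Matrix.of fun (k : Fin (sz τ)) (l : Fin K) => r (Fin.castAdd p.1 k) l := ⟨_, rfl⟩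
    obtain ⟨rl, hrl⟩ : ∃ rl : Fin p.1 → (Fin K → F),
      rl = fun k l => r (Fin.natAdd (sz τ) k) l := ⟨_, rfl⟩
    by_cases hW : ∀ k, rl k ∈ W
    · obtain ⟨u, T, hu, hT, hi⟩ := ih hv' W ru
      refine ⟨bm u 0 1, T.image (Fin.castAdd p.1), ra2_UT_bm p τ u 0 hu, ?_, ?_⟩
      · exact le_trans (Nat.add_le_add_right Finset.card_image_le _) hT
      · intro i
        refine Fin.addCases (fun i => ?_) (fun i => ?_) i
        · intro h
          have h1 : ∀ t ∈ T, ¬ (t.val ≤ i.val ∧ i.val < t.val + m) := fun t ht =>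
            h (Fin.castAdd p.1 t) (Finset.mem_image_of_mem _ ht)
          have h2 := hi i h1
          have h3 : (fun j => (bm u (0 : Matrix (Fin (sz τ)) (Fin p.1) F) 1 * r) (Fin.castAdd p.1 i) j) = fun j => (u * ru) i j := by
            funext j
            rw [ra2_mul_up, hru]
            simp
          rw [h3]
          exact h2
        · intro _
          have h3 : (fun j => (bm u (0 : Matrix (Fin (sz τ)) (Fin p.1) F) 1 * r) (Fin.natAdd (sz τ) i) j) = rl i := by
            funext j
            rw [ra2_mul_low, hrl]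
          rw [h3]
          exact hW i
    · push Not at hW
      obtain ⟨k0, hk0⟩ := hW
      obtain ⟨W', hW'⟩ : ∃ W' : Submodule F (Fin K → F), W' = W ⊔ Submodule.span F (Set.range rl) :=
        ⟨_, rfl⟩
      have hlt : W < W' := by
        refine lt_of_le_of_ne (hW' ▸ le_sup_left) fun h => hk0 ?_
        rw [h, hW']
        exact Submodule.mem_sup_right (Submodule.subset_span ⟨k0, rfl⟩)
      have hfr : Module.finrank F W < Module.finrank F W' := Submodule.finrank_lt_finrank_of_lt hlt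
      obtain ⟨u, T, hu, hT, hi⟩ := ih hv' W' ru
      -- the coefficients
      have hc : ∀ i : Fin (sz τ), ∃ c : Fin p.1 → F,
          (∀ t ∈ T, ¬ (t.val ≤ i.val ∧ i.val < t.val + m)) →
            (fun j => (u * ru) i j + ∑ k, c k * rl k j) ∈ W := by
        intro i
        by_cases h : ∀ t ∈ T, ¬ (t.val ≤ i.val ∧ i.val < t.val + m)
        · have h1 := hi i h
          rw [hW'] at h1
          obtain ⟨w, hw, y, hy, hwy⟩ := Submodule.mem_sup.1 h1
          obtain ⟨c, hc⟩ := (Submodule.mem_span_range_iff_exists_fun F).1 hy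
          refine ⟨fun k => - c k, fun _ => ?_⟩
          have h2 : (fun j => (u * ru) i j + ∑ k, - c k * rl k j) = w := by
            funext j
            have h3 := congrFun hwy j
            rw [← hc] at h3
            simp only [Pi.add_apply, Finset.sum_apply, Pi.smul_apply, smul_eq_mul] at h3
            rw [← h3]
            simp only [neg_mul, Finset.sum_neg_distrib]
            ring
          rw [h2]
          exact hw
        · exact ⟨0, fun h' => absurd h' h⟩
      choose c hc using hc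
      have hcard0 : 0 < p.1 := hp1
      refine ⟨bm u (Matrix.of c) 1,
        insert (Fin.natAdd (sz τ) (⟨0, hcard0⟩ : Fin p.1)) (T.image (Fin.castAdd p.1)),
        ra2_UT_bm p τ u _ hu, ?_, ?_⟩
      · have h1 := Finset.card_insert_le (Fin.natAdd (sz τ) (⟨0, hcard0⟩ : Fin p.1))
          (T.image (Fin.castAdd p.1))
        have h2 : (T.image (Fin.castAdd p.1)).card ≤ T.card := Finset.card_image_le
        omega
      · intro i
        refine Fin.addCases (fun i => ?_) (fun i => ?_) i
        · intro h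
          have h1 : ∀ t ∈ T, ¬ (t.val ≤ i.val ∧ i.val < t.val + m) := fun t ht =>
            h (Fin.castAdd p.1 t) (Finset.mem_insert_of_mem (Finset.mem_image_of_mem _ ht))
          have h2 := hc i h1
          have h3 : (fun j => (bm u (Matrix.of c) 1 * r) (Fin.castAdd p.1 i) j) =
              fun j => (u * ru) i j + ∑ k, c i k * rl k j := by
            funext j
            rw [ra2_mul_up, hru, hrl]
            rfl
          rw [h3]
          exact h2
        · intro h
          refine absurd ⟨?_, ?_⟩ (h _ (Finset.mem_insert_self _ _))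
          · simp
          · have := i.isLt
            simp only [Fin.val_natAdd]
            omega

/-- Covering a small set by a function. -/
theorem ra2_cover {n K : ℕ} (hK : K ≤ n) (T : Finset (Fin n)) (hT : T.card ≤ K) :
    ∃ f : Fin K → Fin n, ∀ i ∈ T, ∃ l, f l = i := by
  classical
  by_cases hne : T.Nonempty
  · obtain ⟨t, ht⟩ := hne
    have : Nonempty T := ⟨⟨t, ht⟩⟩
    obtain ⟨e⟩ : Nonempty (T ↪ Fin K) := Function.Embedding.nonempty_of_card_le (by
      rw [Fintype.card_coe, Fintype.card_fin]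
      exact hT)
    refine ⟨fun l => (Function.invFun e l : T), fun i hi => ⟨e ⟨i, hi⟩, ?_⟩⟩
    change ((Function.invFun e (e ⟨i, hi⟩) : T) : Fin n) = i
    rw [Function.leftInverse_invFun e.injective]
  · refine ⟨Fin.castLE hK, fun i hi => absurd ⟨i, hi⟩ hne⟩

end

open Classical in
/-- RA2. -/
theorem t_RA2 : S_RA2 := by
  intro F _ _ _ m τ K hv hK
  obtain ⟨n, hn⟩ : ∃ n, n = sz τ := ⟨_, rfl⟩
  -- the matrix given by the places and the entries
  let M : (Fin K → Fin (sz τ)) × (Fin K → Fin m → Fin K → F) → Fin (sz τ) → Fin K → F := fun p i j =>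
    if h : ∃ x : Fin K × Fin m, (p.1 x.1).val + x.2.val = i.val then p.2 h.choose.1 h.choose.2 j else 0
  let f : (Fin K → Fin (sz τ)) × (Fin K → Fin m → Fin K → F) → GL (Fin (sz τ)) F := fun p =>
    if h : ∃ g : GL (Fin (sz τ)) F, ∀ i j,
      (g : Matrix (Fin (sz τ)) (Fin (sz τ)) F) i (Fin.castLE hK j) = M p i j
    then h.choose else 1
  refine ⟨Finset.univ.image f, ?_, fun g => ?_⟩
  · refine Finset.card_image_le.trans (le_of_eq ?_)
    rw [Finset.card_univ, Fintype.card_prod, Fintype.card_fun, Fintype.card_fun,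
      Fintype.card_fun, Fintype.card_fun, Fintype.card_fin, Fintype.card_fin, Fintype.card_fin,
      Nat.card_eq_fintype_card, ← pow_mul, ← pow_mul]
    congr 2
    ring
  · obtain ⟨u, T, hu, hT, h0⟩ := ra2_red m K τ hv ⊥
      (Matrix.of fun (i : Fin (sz τ)) (j : Fin K) =>
        (g : Matrix (Fin (sz τ)) (Fin (sz τ)) F) i (Fin.castLE hK j))
    rw [finrank_bot, add_zero] at hT
    obtain ⟨pl, hpl⟩ := ra2_cover hK T hT
    obtain ⟨U, hU⟩ := ra2_unit τ u hu
    obtain ⟨B, hB⟩ : ∃ B : GL (Fin (sz τ)) F, B = U * g := ⟨_, rfl⟩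
    have hB' : (B : Matrix (Fin (sz τ)) (Fin (sz τ)) F) =
        u * (g : Matrix (Fin (sz τ)) (Fin (sz τ)) F) := by
      rw [hB, Units.val_mul, hU]
    let A : Fin K → Fin m → Fin K → F := fun l s j =>
      if h : (pl l).val + s.val < sz τ then
        (B : Matrix (Fin (sz τ)) (Fin (sz τ)) F) ⟨(pl l).val + s.val, h⟩ (Fin.castLE hK j) else 0
    have h1 : ∀ i j, (B : Matrix (Fin (sz τ)) (Fin (sz τ)) F) i (Fin.castLE hK j) = M (pl, A) i j := by
      intro i j
      change _ = if h : ∃ x : Fin K × Fin m, (pl x.1).val + x.2.val = i.val then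
        A h.choose.1 h.choose.2 j else 0
      split_ifs with h2
      · have h3 := h2.choose_spec
        change _ = if h : (pl h2.choose.1).val + h2.choose.2.val < sz τ then
          (B : Matrix (Fin (sz τ)) (Fin (sz τ)) F) ⟨(pl h2.choose.1).val + h2.choose.2.val, h⟩
            (Fin.castLE hK j) else 0
        have h4 : (pl h2.choose.1).val + h2.choose.2.val < sz τ := by
          rw [h3]
          exact i.isLt
        rw [dif_pos h4]
        have h5 : i = ⟨(pl h2.choose.1).val + h2.choose.2.val, h4⟩ := Fin.ext h3.symm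
        exact congrArg (fun x => (B : Matrix (Fin (sz τ)) (Fin (sz τ)) F) x (Fin.castLE hK j)) h5
      · have h3 := h0 i (by
          intro t ht hti
          obtain ⟨l, hl⟩ := hpl t ht
          refine h2 ⟨(l, ⟨i.val - t.val, by omega⟩), ?_⟩
          change (pl l).val + (i.val - t.val) = i.val
          rw [hl]
          omega)
        rw [Submodule.mem_bot] at h3
        have h4 := congrFun h3 j
        rw [hB', Matrix.mul_apply]
        rw [Pi.zero_apply] at h4
        rw [← h4, Matrix.mul_apply]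
        rfl
    have h2 : ∃ g : GL (Fin (sz τ)) F, ∀ i j,
        (g : Matrix (Fin (sz τ)) (Fin (sz τ)) F) i (Fin.castLE hK j) = M (pl, A) i j := ⟨B, h1⟩
    obtain ⟨C, hC⟩ : ∃ C : GL (Fin (sz τ)) F, C = f (pl, A) := ⟨_, rfl⟩
    have hC' : ∀ i j, (C : Matrix (Fin (sz τ)) (Fin (sz τ)) F) i (Fin.castLE hK j) = M (pl, A) i j := by
      have h3 : f (pl, A) = h2.choose := dif_pos h2
      rw [hC, h3]
      exact h2.choose_spec
    refine ⟨U, B⁻¹ * C, ?_, ?_, Finset.mem_image.2 ⟨(pl, A), Finset.mem_univ _, ?_⟩⟩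
    · rw [hU]
      exact hu
    · intro j hj
      have h4 : (C : Matrix (Fin (sz τ)) (Fin (sz τ)) F).mulVec (Pi.single j 1) =
          (B : Matrix (Fin (sz τ)) (Fin (sz τ)) F).mulVec (Pi.single j 1) := by
        rw [Matrix.mulVec_single_one, Matrix.mulVec_single_one]
        funext i
        have h5 : j = Fin.castLE hK ⟨j.val, hj⟩ := Fin.ext rfl
        change (C : Matrix (Fin (sz τ)) (Fin (sz τ)) F) i j =
          (B : Matrix (Fin (sz τ)) (Fin (sz τ)) F) i j
        rw [h5, hC', h1]
      rw [Units.val_mul, ← Matrix.mulVec_mulVec, h4, Matrix.mulVec_mulVec, ← Units.val_mul,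
        inv_mul_cancel, Units.val_one, Matrix.one_mulVec]
    · rw [← hC, ← hB, mul_inv_cancel_left]

end

end FLX
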