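import Mathlib
import Pool.Agent.FLX.StX

/-!
# FLX, module RNK: the rank argument

For a space `Y` of row vectors with `dim Y > n - rk τ` there is a matrix `1 + s N` in `UT τ` with one nonzero row of `N`, this row in
`Y`, and `tv τ (1 + s N) = s c`, `c ≠ 0` (`rnk_main`, induction on the pattern).
-/

set_option autoImplicit false

namespace FLX

open RSF FL0 SRJ Polynomial Pool.Agent.Lib_helper13

noncomputable section

section

variable {F : Type} [Field F]

/-- the matrix with the row `φ` in the place `r`, the other rows are zero -/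
def rnk_N {n : ℕ} (r : Fin n) (φ : Fin n → F) : Matrix (Fin n) (Fin n) F :=
  fun i j => if i = r then φ j else 0

theorem rnk_N_zero {n : ℕ} (r : Fin n) : rnk_N r (fun _ => (0 : F)) = 0 := by
  ext i j
  simp [rnk_N]

theorem rnk_tlb {a d : ℕ} (g : Matrix (Fin a) (Fin a) F) (v : Matrix (Fin a) (Fin d) F)
    (h : Matrix (Fin d) (Fin d) F) : tlb (bm g v h) = g := by
  ext i j
  simp [tlb, bm]

theorem rnk_trb {a d : ℕ} (g : Matrix (Fin a) (Fin a) F) (v : Matrix (Fin a) (Fin d) F)
    (h : Matrix (Fin d) (Fin d) F) : trb (bm g v h) = v := by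
  ext i j
  simp [trb, bm]

theorem rnk_UT_bm (p : ℕ × Bool) (τ : List (ℕ × Bool)) (g : Matrix (Fin (sz τ)) (Fin (sz τ)) F)
    (v : Matrix (Fin (sz τ)) (Fin p.1) F) (h : UT τ g) : UT (p :: τ) (bm g v 1) := by
  refine ⟨?_, ?_⟩
  · have h1 : tlb (bm g v (1 : Matrix (Fin p.1) (Fin p.1) F)) = g := rnk_tlb g v 1
    rw [h1]; exact h
  · have h1 : tlb (bm g v (1 : Matrix (Fin p.1) (Fin p.1) F)) = g := rnk_tlb g v 1
    have h2 : trb (bm g v (1 : Matrix (Fin p.1) (Fin p.1) F)) = v := rnk_trb g v 1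
    rw [h1, h2]

theorem rnk_tv_bm (p : ℕ × Bool) (τ : List (ℕ × Bool)) (g : Matrix (Fin (sz τ)) (Fin (sz τ)) F)
    (v : Matrix (Fin (sz τ)) (Fin p.1) F) :
    tv (p :: τ) (bm g v 1) = tv τ g + (if p.2 then lk v else 0) := by
  have h1 : tlb (bm g v (1 : Matrix (Fin p.1) (Fin p.1) F)) = g := rnk_tlb g v 1
  have h2 : trb (bm g v (1 : Matrix (Fin p.1) (Fin p.1) F)) = v := rnk_trb g v 1
  change tv τ (tlb (bm g v (1 : Matrix (Fin p.1) (Fin p.1) F))) +
    (if p.2 then lk (trb (bm g v (1 : Matrix (Fin p.1) (Fin p.1) F))) else 0) = _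
  rw [h1, h2]

theorem rnk_one : ∀ τ : List (ℕ × Bool),
    UT τ (1 : Matrix (Fin (sz τ)) (Fin (sz τ)) F) ∧ tv τ (1 : Matrix (Fin (sz τ)) (Fin (sz τ)) F) = 0
  | [] => ⟨trivial, rfl⟩
  | p :: τ => by
    obtain ⟨h1, h2⟩ := rnk_one τ
    have h3 : (1 : Matrix (Fin (sz (p :: τ))) (Fin (sz (p :: τ))) F) =
      bm (1 : Matrix (Fin (sz τ)) (Fin (sz τ)) F) 0 (1 : Matrix (Fin p.1) (Fin p.1) F) :=
        (bm_one (sz τ) p.1).symm
    rw [h3]
    refine ⟨rnk_UT_bm p τ _ _ h1, ?_⟩
    rw [rnk_tv_bm, h2]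
    have h4 : lk (0 : Matrix (Fin (sz τ)) (Fin p.1) F) = 0 := by
      unfold lk
      simp
    rw [h4]
    simp

theorem rnk_tt {a d : ℕ} (g : Matrix (Fin a) (Fin a) F) (v : Matrix (Fin a) (Fin d) F)
    (h : Matrix (Fin d) (Fin d) F) (i j : Fin a) :
    bm g v h (Fin.castAdd d i) (Fin.castAdd d j) = g i j := by
  simp [bm]

theorem rnk_tr {a d : ℕ} (g : Matrix (Fin a) (Fin a) F) (v : Matrix (Fin a) (Fin d) F)
    (h : Matrix (Fin d) (Fin d) F) (i : Fin a) (j : Fin d) :
    bm g v h (Fin.castAdd d i) (Fin.natAdd a j) = v i j := by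
  simp [bm]

theorem rnk_bl {a d : ℕ} (g : Matrix (Fin a) (Fin a) F) (v : Matrix (Fin a) (Fin d) F)
    (h : Matrix (Fin d) (Fin d) F) (i : Fin d) (j : Fin a) :
    bm g v h (Fin.natAdd a i) (Fin.castAdd d j) = 0 := by
  simp [bm]

theorem rnk_br {a d : ℕ} (g : Matrix (Fin a) (Fin a) F) (v : Matrix (Fin a) (Fin d) F)
    (h : Matrix (Fin d) (Fin d) F) (i j : Fin d) :
    bm g v h (Fin.natAdd a i) (Fin.natAdd a j) = h i j := by
  simp [bm]

/-- `1 + s N` as a block matrix -/
theorem rnk_bm {a d : ℕ} (r : Fin a) (φ : Fin (a + d) → F) (s : F) :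
    (1 : Matrix (Fin (a + d)) (Fin (a + d)) F) + s • rnk_N (Fin.castAdd d r) φ =
      bm (1 + s • rnk_N r (fun j => φ (Fin.castAdd d j)))
        (fun i j => if i = r then s * φ (Fin.natAdd a j) else 0) 1 := by
  ext i j
  refine Fin.addCases (fun i => ?_) (fun i => ?_) i <;> refine Fin.addCases (fun j => ?_) (fun j => ?_) j
  · rw [Matrix.add_apply, Matrix.smul_apply, rnk_tt, Matrix.add_apply, Matrix.smul_apply]
    have h1 : (1 : Matrix (Fin (a + d)) (Fin (a + d)) F) (Fin.castAdd d i) (Fin.castAdd d j) =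
        (1 : Matrix (Fin a) (Fin a) F) i j := by
      rw [← bm_one a d, rnk_tt]
    rw [h1]
    simp [rnk_N]
  · rw [Matrix.add_apply, Matrix.smul_apply, rnk_tr]
    have h1 : (1 : Matrix (Fin (a + d)) (Fin (a + d)) F) (Fin.castAdd d i) (Fin.natAdd a j) = 0 := by
      rw [← bm_one a d, rnk_tr]
      rfl
    rw [h1]
    simp [rnk_N]
  · have h1 : Fin.natAdd a i ≠ Fin.castAdd d r := by
      intro h
      have := congrArg Fin.val h
      rw [Fin.val_natAdd, Fin.val_castAdd] at this
      have := r.2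
      omega
    rw [Matrix.add_apply, Matrix.smul_apply, rnk_bl]
    have h2 : (1 : Matrix (Fin (a + d)) (Fin (a + d)) F) (Fin.natAdd a i) (Fin.castAdd d j) = 0 := by
      rw [← bm_one a d, rnk_bl]
    rw [h2]
    simp [rnk_N, h1]
  · have h1 : Fin.natAdd a i ≠ Fin.castAdd d r := by
      intro h
      have := congrArg Fin.val h
      rw [Fin.val_natAdd, Fin.val_castAdd] at this
      have := r.2
      omega
    rw [Matrix.add_apply, Matrix.smul_apply, rnk_br]
    have h2 : (1 : Matrix (Fin (a + d)) (Fin (a + d)) F) (Fin.natAdd a i) (Fin.natAdd a j) =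
        (1 : Matrix (Fin d) (Fin d) F) i j := by
      rw [← bm_one a d, rnk_br]
    rw [h2]
    simp [rnk_N, h1]

theorem rnk_lk {a d : ℕ} (r : Fin a) (x : Fin d → F) :
    lk (fun (i : Fin a) (j : Fin d) => if i = r then x j else 0) =
      ∑ j : Fin d, if r.val + d = a + j.val then x j else 0 := by
  unfold lk
  rw [Finset.sum_eq_single r]
  · simp
  · intro i _ hi
    simp [hi]
  · simp

/-- the restriction to the first coordinates -/
def rnk_res (a d : ℕ) (F : Type) [Field F] : (Fin (a + d) → F) →ₗ[F] (Fin a → F) where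
  toFun φ := fun j => φ (Fin.castAdd d j)
  map_add' _ _ := rfl
  map_smul' _ _ := rfl

/-- the restriction to the last coordinates -/
def rnk_res' (a d : ℕ) (F : Type) [Field F] : (Fin (a + d) → F) →ₗ[F] (Fin d → F) where
  toFun φ := fun j => φ (Fin.natAdd a j)
  map_add' _ _ := rfl
  map_smul' _ _ := rfl

theorem rnk_res_ext {a d : ℕ} (φ : Fin (a + d) → F) (h1 : rnk_res a d F φ = 0)
    (h2 : rnk_res' a d F φ = 0) : φ = 0 := by
  ext i
  refine Fin.addCases (fun i => ?_) (fun i => ?_) i
  · exact congrFun h1 i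
  · exact congrFun h2 i

theorem rnk_dim {a d : ℕ} (Y : Submodule F (Fin (a + d) → F)) :
    Module.finrank F Y ≤ Module.finrank F (Y.map (rnk_res a d F)) + d := by
  have h1 := LinearMap.finrank_range_add_finrank_ker ((rnk_res a d F).domRestrict Y)
  have h2 : LinearMap.range ((rnk_res a d F).domRestrict Y) = Y.map (rnk_res a d F) := by
    rw [LinearMap.range_domRestrict]
  have h3 : Module.finrank F (LinearMap.ker ((rnk_res a d F).domRestrict Y)) ≤ d := by
    have h4 : Module.finrank F (LinearMap.ker ((rnk_res a d F).domRestrict Y)) ≤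
        Module.finrank F (Fin d → F) := by
      refine LinearMap.finrank_le_finrank_of_injective
        (f := ((rnk_res' a d F).domRestrict Y).domRestrict
          (LinearMap.ker ((rnk_res a d F).domRestrict Y))) ?_
      rw [injective_iff_map_eq_zero]
      intro x hx
      have h5 : rnk_res a d F (x : Y) = 0 := x.2
      have h6 : rnk_res' a d F (x : Y) = 0 := hx
      have h7 := rnk_res_ext _ h5 h6
      exact Subtype.ext (Subtype.ext h7)
    rwa [Module.finrank_fin_fun] at h4
  rw [h2] at h1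
  omega

theorem rnk_dim' {a d : ℕ} (Y : Submodule F (Fin (a + d) → F))
    (h : ∀ φ ∈ Y, rnk_res a d F φ = 0 → φ = 0) :
    Module.finrank F Y = Module.finrank F (Y.map (rnk_res a d F)) := by
  have h1 := LinearMap.finrank_range_add_finrank_ker ((rnk_res a d F).domRestrict Y)
  have h2 : LinearMap.range ((rnk_res a d F).domRestrict Y) = Y.map (rnk_res a d F) := by
    rw [LinearMap.range_domRestrict]
  have h3 : LinearMap.ker ((rnk_res a d F).domRestrict Y) = ⊥ := by
    rw [LinearMap.ker_eq_bot']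
    intro x hx
    exact Subtype.ext (h x x.2 hx)
  rw [h2, h3, finrank_bot] at h1
  omega

theorem rnk_main (m : ℕ) : ∀ (τ : List (ℕ × Bool)), vl m τ →
    ∀ Y : Submodule F (Fin (sz τ) → F), sz τ < Module.finrank F Y + rk τ →
      ∃ (r : Fin (sz τ)) (φ : Fin (sz τ) → F) (c : F), φ ∈ Y ∧ c ≠ 0 ∧
        (∀ s : F, UT τ (1 + s • rnk_N r φ) ∧ tv τ (1 + s • rnk_N r φ) = s * c) ∧
        ∀ (p : ℕ × Bool) (τ' : List (ℕ × Bool)), τ = p :: τ' → r.val < sz τ'
  | [], _, Y, hY => by
    exfalso
    have h1 := Submodule.finrank_le Y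
    rw [Module.finrank_fin_fun] at h1
    have h2 : rk ([] : List (ℕ × Bool)) = 0 := rfl
    rw [h2] at hY
    omega
  | p :: τ, hv, Y, hY => by
    obtain ⟨hp1, hpm, hlink, hvl⟩ := hv
    have hY2 : sz τ + p.1 < Module.finrank F Y + (rk τ + (if p.2 then p.1 else 0)) := hY
    by_cases hcase : p.2 = true ∧ ∃ φ ∈ Y, rnk_res (sz τ) p.1 F φ = 0 ∧ φ ≠ 0
    · obtain ⟨hp2, φ, hφY, hφ0, hφ⟩ := hcase
      obtain ⟨β, τ', hτ'⟩ := hlink hp2
      have hj : ∃ j : Fin p.1, φ (Fin.natAdd (sz τ) j) ≠ 0 := by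
        by_contra hcon
        push Not at hcon
        exact hφ (rnk_res_ext φ hφ0 (funext hcon))
      obtain ⟨j, hj⟩ := hj
      have hszτ : sz τ = sz τ' + p.1 := by rw [hτ']; rfl
      have hr : sz τ' + j.val < sz τ := by rw [hszτ]; have := j.2; omega
      refine ⟨Fin.castAdd p.1 ⟨sz τ' + j.val, hr⟩, φ, φ (Fin.natAdd (sz τ) j), hφY, hj, ?_, ?_⟩
      · intro s
        have h1 := rnk_bm (F := F) (d := p.1) (⟨sz τ' + j.val, hr⟩ : Fin (sz τ)) φ s
        have h2 : (fun j => φ (Fin.castAdd p.1 j)) = fun _ => (0 : F) := hφ0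
        rw [h2, rnk_N_zero, smul_zero, add_zero] at h1
        constructor
        · exact h1 ▸ rnk_UT_bm p τ _ _ (rnk_one τ).1
        · have h3 := rnk_tv_bm p τ (1 : Matrix (Fin (sz τ)) (Fin (sz τ)) F)
            (fun i j_1 => if i = ⟨sz τ' + j.val, hr⟩ then s * φ (Fin.natAdd (sz τ) j_1) else 0)
          rw [(rnk_one τ).2, zero_add, if_pos hp2, rnk_lk] at h3
          refine Eq.trans (congrArg (tv (p :: τ)) h1) (h3.trans ?_)
          rw [Finset.sum_eq_single j]
          · rw [if_pos]
            simp only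
            omega
          · intro j' _ hj'
            rw [if_neg]
            intro h4
            simp only at h4
            apply hj'
            apply Fin.ext
            omega
          · simp
      · intro p' τ'' h
        have h1 : τ = τ'' := (List.cons.inj h).2
        rw [← h1]
        exact hr
    · have hd : sz τ < Module.finrank F (Y.map (rnk_res (sz τ) p.1 F)) + rk τ := by
        by_cases hp2 : p.2 = true
        · rw [if_pos hp2] at hY2
          have h1 := rnk_dim' (a := sz τ) (d := p.1) Y (fun φ hφ h0 => by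
            by_contra hne
            exact hcase ⟨hp2, φ, hφ, h0, hne⟩)
          have h2 : Module.finrank F Y = Module.finrank F (Y.map (rnk_res (sz τ) p.1 F)) := h1
          omega
        · rw [if_neg hp2] at hY2
          have h1 := rnk_dim (a := sz τ) (d := p.1) Y
          have h2 : Module.finrank F Y ≤ Module.finrank F (Y.map (rnk_res (sz τ) p.1 F)) + p.1 := h1
          omega
      obtain ⟨r, φ', c, hφ', hc, hs, hlast⟩ := rnk_main m τ hvl _ hd
      obtain ⟨φ, hφY, hφφ'⟩ := (Submodule.mem_map).1 hφ'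
      refine ⟨Fin.castAdd p.1 r, φ, c, hφY, hc, ?_, ?_⟩
      · intro s
        have h1 := rnk_bm (F := F) (d := p.1) r φ s
        have h2 : (fun j => φ (Fin.castAdd p.1 j)) = φ' := hφφ'
        rw [h2] at h1
        constructor
        · exact h1 ▸ rnk_UT_bm p τ _ _ (hs s).1
        · have h3 := rnk_tv_bm p τ (1 + s • rnk_N r φ')
            (fun i j_1 => if i = r then s * φ (Fin.natAdd (sz τ) j_1) else 0)
          rw [(hs s).2] at h3
          refine Eq.trans (congrArg (tv (p :: τ)) h1) (h3.trans ?_)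
          by_cases hp2 : p.2 = true
          · obtain ⟨β, τ', hτ'⟩ := hlink hp2
            have h4 := hlast _ _ hτ'
            have hszτ : sz τ = sz τ' + p.1 := by rw [hτ']; rfl
            rw [if_pos hp2, rnk_lk, Finset.sum_eq_zero, add_zero]
            intro j' _
            rw [if_neg]
            omega
          · rw [if_neg hp2, add_zero]
      · intro p' τ'' h
        have h1 : τ = τ'' := (List.cons.inj h).2
        rw [← h1]
        exact r.2

theorem rnk_det : ∀ (τ : List (ℕ × Bool)) (M : Matrix (Fin (sz τ)) (Fin (sz τ)) F), UT τ M → M.det = 1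
  | [], M, _ => by
    have : IsEmpty (Fin (sz ([] : List (ℕ × Bool)))) := by
      change IsEmpty (Fin 0)
      infer_instance
    exact Matrix.det_isEmpty
  | p :: τ, M, h => by
    obtain ⟨h1, h2⟩ := h
    have h3 := rnk_det τ _ h1
    have h4 : M.det = (bm (tlb (d := p.1) M) (trb (d := p.1) M) 1).det := congrArg Matrix.det h2
    rw [h4]
    unfold bm
    rw [Matrix.det_reindex_self, Matrix.det_fromBlocks_zero₂₁, h3, Matrix.det_one, one_mul]

end

theorem t_RNK : S_RNK := by
  intro F _ _ _ ψ hψ m τ hv K hK g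
  obtain ⟨t, ht⟩ : ∃ t : F, ψ t ≠ 1 := by
    by_contra hcon
    push Not at hcon
    exact hψ (by ext t; simpa using hcon t)
  -- the row vectors that kill the first columns of `g`
  let L : (Fin (sz τ) → F) →ₗ[F] ({j : Fin (sz τ) // j.val < K} → F) :=
    { toFun := fun φ j => ∑ i, φ i * (g : Matrix (Fin (sz τ)) (Fin (sz τ)) F) i j.1
      map_add' := by
        intro x y
        ext j
        simp only [Pi.add_apply, add_mul, Finset.sum_add_distrib]
      map_smul' := by
        intro s x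
        ext j
        simp only [Pi.smul_apply, smul_eq_mul, RingHom.id_apply, Finset.mul_sum, mul_assoc] }
  have hdim : sz τ < Module.finrank F (LinearMap.ker L) + rk τ := by
    have h1 := LinearMap.finrank_range_add_finrank_ker L
    rw [Module.finrank_fin_fun] at h1
    have h2 : Module.finrank F (LinearMap.range L) ≤ K := by
      refine (Submodule.finrank_le _).trans ?_
      rw [Module.finrank_fintype_fun_eq_card]
      have h3 : Fintype.card {j : Fin (sz τ) // j.val < K} ≤ Fintype.card (Fin K) :=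
        Fintype.card_le_of_injective (fun j => (⟨j.1.val, j.2⟩ : Fin K)) (by
          intro x y hxy
          have := congrArg Fin.val hxy
          exact Subtype.ext (Fin.ext this))
      rwa [Fintype.card_fin] at h3
    omega
  obtain ⟨r, φ, c, hφ, hc, hs, -⟩ := rnk_main m τ hv _ hdim
  have hU := (hs (t / c)).1
  have hT := (hs (t / c)).2
  have hdet := rnk_det τ _ hU
  let h : GL (Fin (sz τ)) F :=
    Matrix.GeneralLinearGroup.mkOfDetNeZero (1 + (t / c) • rnk_N r φ) (by rw [hdet]; exact one_ne_zero)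
  have hh : (h : Matrix (Fin (sz τ)) (Fin (sz τ)) F) = 1 + (t / c) • rnk_N r φ := rfl
  refine ⟨h, ?_, ?_, ?_⟩
  · rw [hh]; exact hU
  · intro j hj
    have hφ2 : L φ = 0 := hφ
    have h1 : ∑ i, φ i * (g : Matrix (Fin (sz τ)) (Fin (sz τ)) F) i j = 0 := congrFun hφ2 ⟨j, hj⟩
    have h2 : (h : Matrix (Fin (sz τ)) (Fin (sz τ)) F).mulVec
        ((g : Matrix (Fin (sz τ)) (Fin (sz τ)) F).mulVec (Pi.single j 1)) =
        (g : Matrix (Fin (sz τ)) (Fin (sz τ)) F).mulVec (Pi.single j 1) := by
      rw [hh, Matrix.add_mulVec, Matrix.one_mulVec, Matrix.smul_mulVec]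
      have h3 : (rnk_N r φ).mulVec ((g : Matrix (Fin (sz τ)) (Fin (sz τ)) F).mulVec (Pi.single j 1)) = 0 := by
        ext i
        rw [Matrix.mulVec_single_one]
        change ∑ k, rnk_N r φ i k * (g : Matrix (Fin (sz τ)) (Fin (sz τ)) F) k j = 0
        by_cases hi : i = r
        · simp only [rnk_N, if_pos hi]
          exact h1
        · simp only [rnk_N, if_neg hi, zero_mul, Finset.sum_const_zero]
      rw [h3, smul_zero, add_zero]
    rw [Matrix.GeneralLinearGroup.coe_mul, Matrix.GeneralLinearGroup.coe_mul, ← Matrix.mulVec_mulVec,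
      ← Matrix.mulVec_mulVec, h2, Matrix.mulVec_mulVec, ← Matrix.GeneralLinearGroup.coe_mul,
      inv_mul_cancel, Matrix.GeneralLinearGroup.coe_one, Matrix.one_mulVec]
  · rw [hh, hT, div_mul_cancel₀ _ hc]
    exact ht

end

end FLX
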