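import Mathlib
import Pool.Agent.FLX.StX
import Pool.Agent.SRJ.SBA

/-!
# FLX_SBX: the sharp character bound summed over the elements with central power, all `q`
-/

set_option autoImplicit false

namespace FLX

open RSF FL0 Polynomial Pool.Agent.Lib_helper13 SRJ

noncomputable section

/-- the element of central power is killed by a monic polynomial of degree `k` -/
theorem sbx_aeval (n k : ℕ) (hk : k ≠ 0) (F : Type) [Field F] (ζ : F)
    (M : Matrix (Fin n) (Fin n) F) (h : M ^ k = Matrix.scalar (Fin n) ζ) :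
    (X ^ k - C ζ : F[X]).Monic ∧ (X ^ k - C ζ : F[X]).natDegree = k ∧
      aeval M (X ^ k - C ζ : F[X]) = 0 := by
  refine ⟨monic_X_pow_sub_C ζ hk, natDegree_X_pow_sub_C, ?_⟩
  rw [map_sub, map_pow, aeval_X, aeval_C, h]
  rw [sub_eq_zero]
  rfl

theorem t_SBX : M_SBX := by
  intro hSTR hXMB hCLR hPOL k hk ε hε
  obtain ⟨r1, h1⟩ := hXMB k hk (ε / 2) (by positivity)
  obtain ⟨C', hC, h2⟩ := hCLR k (by omega)
  obtain ⟨r3, h3⟩ := SRJ.sba_num hPOL k C' ε hC hε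
  refine ⟨max (max r1 r3) 1, fun n hn F _ _ Y hY hY1 => ?_⟩
  classical
  haveI := Fintype.ofFinite F
  have hn1 : r1 ≤ n := le_trans (le_trans (le_max_left _ _) (le_max_left _ _)) hn
  have hn3 : r3 ≤ n := le_trans (le_trans (le_max_right _ _) (le_max_left _ _)) hn
  have hn0 : 1 ≤ n := le_trans (le_max_right _ _) hn
  have hdeg := SRJ.sba_deg hSTR n F Y hY hY1
  have hq : (2 : ℝ) ≤ Nat.card F := by
    have : 1 < Nat.card F := Finite.one_lt_card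
    exact_mod_cast this
  have hD0 : 0 < (Y 1).re := by
    have : 0 < (Nat.card F : ℝ) ^ ((n : ℝ) / 2) := by positivity
    linarith
  have key := h3 n hn3 (Nat.card F) (Y 1).re hq hdeg
  have hcl := h2 n hn0 F
  haveI := Fintype.ofFinite (CA n F k)
  rw [finsum_eq_sum_of_fintype] at hcl ⊢
  have hA : ∀ A : CA n F k, ‖Y (Matrix.SpecialLinearGroup.toGL A.1)‖ ≤
      ((cN A.1.1 : ℝ) * (Nat.card F : ℝ) ^ (-((n : ℝ) ^ 2 / k))) ^ (1 / 2 : ℝ) *
        (Y 1).re ^ (1 / (k : ℝ) + ε / 2) := by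
    intro A
    obtain ⟨ζ, _, hζ⟩ := Matrix.SpecialLinearGroup.mem_center_iff.mp A.2
    have h4 : ((Matrix.SpecialLinearGroup.toGL A.1 : GL (Fin n) F) : Matrix (Fin n) (Fin n) F) =
        A.1.1 := rfl
    obtain ⟨g1, g2, g3⟩ := sbx_aeval n k (by omega) F ζ A.1.1 (by
      rw [hζ]
      simp)
    have h5 := h1 n hn1 F Y hY hY1 (X ^ k - C ζ) g1 g2 (Matrix.SpecialLinearGroup.toGL A.1) (by
      rw [h4]
      exact g3)
    rw [h4] at h5
    exact h5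
  calc ‖∑ A : CA n F k, Y (Matrix.SpecialLinearGroup.toGL A.1)‖
      ≤ ∑ A : CA n F k, ‖Y (Matrix.SpecialLinearGroup.toGL A.1)‖ := norm_sum_le _ _
    _ ≤ ∑ A : CA n F k, ((cN A.1.1 : ℝ) * (Nat.card F : ℝ) ^ (-((n : ℝ) ^ 2 / k))) ^ (1 / 2 : ℝ) *
        (Y 1).re ^ (1 / (k : ℝ) + ε / 2) := Finset.sum_le_sum fun A _ => hA A
    _ = (∑ A : CA n F k, ((cN A.1.1 : ℝ) * (Nat.card F : ℝ) ^ (-((n : ℝ) ^ 2 / k))) ^ (1 / 2 : ℝ)) *
        (Y 1).re ^ (1 / (k : ℝ) + ε / 2) := by rw [Finset.sum_mul]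
    _ ≤ (((n : ℝ) + 1) ^ k * (Nat.card F : ℝ) ^ C' * Nat.card (CA n F k)) *
        (Y 1).re ^ (1 / (k : ℝ) + ε / 2) := by gcongr
    _ ≤ ((Y 1).re ^ (ε / 2) * Nat.card (CA n F k)) * (Y 1).re ^ (1 / (k : ℝ) + ε / 2) := by gcongr
    _ = Nat.card (CA n F k) * ((Y 1).re ^ (1 / (k : ℝ) + ε / 2) * (Y 1).re ^ (ε / 2)) := by ring
    _ = Nat.card (CA n F k) * (Y 1).re ^ (1 / (k : ℝ) + ε) := by
        rw [← Real.rpow_add hD0]
        congr 2
        ring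

end

end FLX
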