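import Mathlib
import Pool.Agent.FLX.StX
import Pool.Agent.SRJ.HMF

/-!
# FLX, module TYP: types of matrices killed by a polynomial
-/

set_option autoImplicit false

namespace FLX

open SRJ Polynomial Module RSF.KA

noncomputable section

/-- the kernel dimension in terms of the cyclic summands -/
theorem typ_kd {F : Type} [Field F] [Finite F] {n : ℕ} (A : Matrix (Fin n) (Fin n) F)
    {ι : Type} [Fintype ι] (f : ι → F[X] × ℕ)
    (hf : ∀ i, (f i).1.Monic ∧ Irreducible (f i).1 ∧ 1 ≤ (f i).2)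
    (E : AEval' (Matrix.toLin' A) ≃ₗ[F[X]] ∀ i, Q (f i)) (p : F[X]) (hp : p.Monic)
    (hpi : Irreducible p) (t : ℕ) :
    kd A p t = ∑ i, hmf_d (p, t) (f i) := by
  rcases Nat.eq_zero_or_pos t with rfl | ht
  · have h1 : ∀ i, hmf_d (p, 0) (f i) = 0 := by
      intro i
      unfold hmf_d
      split_ifs <;> simp
    rw [Finset.sum_eq_zero fun i _ => h1 i]
    unfold kd
    rw [pow_zero, Matrix.toLin'_one, LinearMap.ker_id, finrank_bot]
  · have hF : 1 < Nat.card F := Finite.one_lt_card
    apply Nat.pow_right_injective hF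
    show Nat.card F ^ kd A p t = Nat.card F ^ _
    have h1 : Nat.card F ^ kd A p t =
        Nat.card {x : AEval' (Matrix.toLin' A) // p ^ t • x = 0} := by
      unfold kd
      rw [← Module.natCard_eq_pow_finrank]
      have h2 : ∀ m : Fin n → F, Matrix.toLin' ((aeval A p) ^ t) m = 0 ↔
          (p ^ t) • (AEval'.of (Matrix.toLin' A) m) = 0 := by
        intro m
        have h3 : aeval (Matrix.toLin' A) (p ^ t) = Matrix.toLin' ((aeval A p) ^ t) := by
          rw [← map_pow]
          exact Polynomial.aeval_algHom_apply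
            (Matrix.toLinAlgEquiv' : Matrix (Fin n) (Fin n) F ≃ₐ[F] _).toAlgHom A (p ^ t)
        have h4 : (p ^ t) • (AEval'.of (Matrix.toLin' A) m) =
            AEval'.of (Matrix.toLin' A) (Matrix.toLin' ((aeval A p) ^ t) m) := by
          rw [← h3]
          exact (Module.AEval.of_aeval_smul (Matrix.toLin' A) (p ^ t) m).symm
        rw [h4, LinearEquiv.map_eq_zero_iff]
      refine Nat.card_congr
        { toFun := fun x => ⟨AEval'.of (Matrix.toLin' A) x.1, (h2 x.1).1 x.2⟩
          invFun := fun y => ⟨(AEval'.of (Matrix.toLin' A)).symm y.1, (h2 _).2 (by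
            rw [LinearEquiv.apply_symm_apply]
            exact y.2)⟩
          left_inv := fun x => Subtype.ext (LinearEquiv.symm_apply_apply _ _)
          right_inv := fun y => Subtype.ext (LinearEquiv.apply_symm_apply _ _) }
    have h5 : Nat.card {x : AEval' (Matrix.toLin' A) // p ^ t • x = 0} =
        Nat.card (Q (p, t) →ₗ[F[X]] AEval' (Matrix.toLin' A)) := (hmf_lift (p ^ t)).symm
    have h6 : Nat.card (Q (p, t) →ₗ[F[X]] AEval' (Matrix.toLin' A)) =
        Nat.card (∀ i, (Q (p, t) →ₗ[F[X]] Q (f i))) := by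
      refine Nat.card_congr ((LinearEquiv.arrowCongr (LinearEquiv.refl F[X] _) E).toEquiv.trans
        { toFun := fun g i => LinearMap.proj i ∘ₗ g
          invFun := fun g => LinearMap.pi g
          left_inv := fun g => rfl
          right_inv := fun g => rfl })
    rw [h1, h5, h6, Nat.card_pi, ← Finset.prod_pow_eq_pow_sum]
    exact Finset.prod_congr rfl fun i _ => hmf_pair (p, t) (f i) ⟨hp, hpi, ht⟩ (hf i)

theorem typ_min (d s t : ℕ) : d * min (t + 1) s = d * min t s + d * hmf_c (t + 1 ≤ s) := by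
  by_cases h : t + 1 ≤ s
  · rw [hmf_c_pos h, min_eq_left h, min_eq_left (by omega)]
    ring
  · rw [hmf_c_neg h, min_eq_right (by omega), min_eq_right (by omega)]
    ring

theorem typ_mono {P R : Prop} (h : P → R) : hmf_c P ≤ hmf_c R := by
  by_cases h1 : P
  · rw [hmf_c_pos h1, hmf_c_pos (h h1)]
  · rw [hmf_c_neg h1]
    exact Nat.zero_le _

theorem t_TYP : S_TYP := by
  classical
  intro F _ _ g hg
  have hg0 : g ≠ 0 := hg.ne_zero
  obtain ⟨nf, hnf⟩ : ∃ nf, nf = UniqueFactorizationMonoid.normalizedFactors g := ⟨_, rfl⟩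
  have hirr : ∀ p ∈ nf, Irreducible p := by
    intro p hp
    rw [hnf] at hp
    exact UniqueFactorizationMonoid.irreducible_of_normalized_factor p hp
  have hmon : ∀ p ∈ nf, p.Monic := by
    intro p hp
    rw [hnf] at hp
    have h1 := UniqueFactorizationMonoid.normalize_normalized_factor p hp
    rw [← h1]
    exact Polynomial.monic_normalize (hirr p (by rw [hnf]; exact hp)).ne_zero
  have hdeg : ∀ p ∈ nf, 1 ≤ p.natDegree := fun p hp => (hirr p hp).natDegree_pos
  have hsum : ∑ p : {p // p ∈ nf.toFinset}, nf.count p.1 * p.1.natDegree = g.natDegree := by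
    have h1 : Associated nf.prod g := by
      rw [hnf]
      exact UniqueFactorizationMonoid.prod_normalizedFactors hg0
    have h2 : nf.prod.natDegree = g.natDegree := by
      have := Polynomial.degree_eq_degree_of_associated h1
      exact Polynomial.natDegree_eq_natDegree this
    have h3 : nf.prod.natDegree = (nf.map natDegree).sum :=
      Polynomial.natDegree_multiset_prod _ fun h => (hirr 0 h).ne_zero rfl
    rw [← h2, h3, Finset.sum_multiset_map_count]
    exact Finset.sum_coe_sort nf.toFinset (fun p => nf.count p * p.natDegree)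
  have hmult : ∀ (p : F[X]) (e : ℕ), p.Monic → Irreducible p → 1 ≤ e → p ^ e ∣ g →
      p ∈ nf.toFinset ∧ e ≤ nf.count p := by
    intro p e hp1 hp2 he hdvd
    have h1 : e ≤ nf.count p := by
      have h2 := UniqueFactorizationMonoid.emultiplicity_eq_count_normalizedFactors hp2 hg0
      rw [hp1.normalize_eq_self, ← hnf] at h2
      have h3 := pow_dvd_iff_le_emultiplicity.1 hdvd
      rw [h2] at h3
      exact_mod_cast h3
    refine ⟨?_, h1⟩
    rw [Multiset.mem_toFinset]
    exact Multiset.count_pos.1 (by omega)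
  let J := hmf_J nf.toFinset (fun p => nf.count p)
  have hcard : Fintype.card J ≤ Fintype.card (Fin g.natDegree) := by
    rw [Fintype.card_fin, Fintype.card_sigma, ← hsum]
    refine Finset.sum_le_sum fun p _ => ?_
    rw [Fintype.card_fin]
    exact Nat.le_mul_of_pos_right _ (hdeg p.1 (Multiset.mem_toFinset.1 p.2))
  obtain ⟨φ⟩ := Function.Embedding.nonempty_of_card_le hcard
  have hφ := φ.injective
  let w0 : J → ℕ := fun z => z.1.1.natDegree
  let e0 : J → ℕ := fun z => z.2.1 + 1
  let P0 : J → F[X] := fun z => z.1.1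
  let w : Fin g.natDegree → ℕ := Function.extend φ w0 0
  let e : Fin g.natDegree → ℕ := Function.extend φ e0 0
  let P : Fin g.natDegree → F[X] := Function.extend φ P0 0
  have hw : ∀ z, w (φ z) = w0 z := fun z => hφ.extend_apply _ _ _
  have he : ∀ z, e (φ z) = e0 z := fun z => hφ.extend_apply _ _ _
  have hP : ∀ z, P (φ z) = P0 z := fun z => hφ.extend_apply _ _ _
  have hw' : ∀ k, k ∉ Set.range φ → w k = 0 := fun k hk => Function.extend_apply' _ _ _ hk
  have hwr : ∀ k, w k ≠ 0 → ∃ z, φ z = k := by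
    intro k hk
    by_contra h
    exact hk (hw' k h)
  have hwz : ∀ z : J, w (φ z) ≠ 0 := by
    intro z
    rw [hw]
    have h3 := hdeg z.1.1 (Multiset.mem_toFinset.1 z.1.2)
    show z.1.1.natDegree ≠ 0
    omega
  refine ⟨w, e, P, ?_, ?_, ?_, ?_, ?_⟩
  · rw [← Fintype.sum_of_injective φ hφ w0 w hw' fun z => (hw z).symm]
    rw [← hsum, Fintype.sum_sigma]
    refine Finset.sum_congr rfl fun p _ => ?_
    show ∑ _j : Fin (nf.count p.1), p.1.natDegree = _
    rw [Finset.sum_const, Finset.card_univ, Fintype.card_fin, smul_eq_mul]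
  · intro j hj
    obtain ⟨z, rfl⟩ := hwr j hj
    rw [hw, he, hP]
    exact ⟨hmon _ (Multiset.mem_toFinset.1 z.1.2), hirr _ (Multiset.mem_toFinset.1 z.1.2), rfl,
      Nat.le_add_left _ _⟩
  · intro i j hi hj h1 h2
    obtain ⟨z, rfl⟩ := hwr i hi
    obtain ⟨y, rfl⟩ := hwr j hj
    rw [hP, hP] at h1
    rw [he, he] at h2
    congr 1
    obtain ⟨⟨p, hp⟩, a⟩ := z
    obtain ⟨⟨p', hp'⟩, b⟩ := y
    have h3 : p = p' := h1
    subst h3
    have h4 : a.1 + 1 = b.1 + 1 := h2
    have h5 : a = b := Fin.ext (by omega)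
    rw [h5]
  · intro j t hj ht1 ht2
    obtain ⟨z, rfl⟩ := hwr j hj
    rw [he] at ht2
    obtain ⟨⟨p, hp⟩, a⟩ := z
    have h3 : t ≤ a.1 + 1 := ht2
    have h4 : a.1 < nf.count p := a.2
    refine ⟨φ ⟨⟨p, hp⟩, ⟨t - 1, by
      show t - 1 < nf.count p
      omega⟩⟩, hwz _, ?_, ?_⟩
    · rw [hP, hP]
    · rw [he]
      show t - 1 + 1 = t
      omega
  · intro n A hA
    obtain ⟨s, h1, ι, _, f, hf, ⟨E⟩⟩ := exists_dec _ (torsion (Matrix.toLin' A))
    have hfm : ∀ i, f i ∈ s := by
      intro i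
      rw [hf]
      exact Multiset.mem_map.2 ⟨i, Finset.mem_univ _, rfl⟩
    have hf1 : ∀ i, (f i).1.Monic ∧ Irreducible (f i).1 ∧ 1 ≤ (f i).2 := fun i => h1 _ (hfm i)
    have hin : ∀ i, (f i).1 ∈ nf.toFinset ∧ (f i).2 ≤ nf.count (f i).1 := fun i =>
      hmult _ _ (hf1 i).1 (hf1 i).2.1 (hf1 i).2.2 (hmf_dvd _ g (hmf_kill A g hA) f E i)
    have hkd := typ_kd A f hf1 E
    let ν0 : J → ℕ := fun z => ∑ i, hmf_c ((f i).1 = z.1.1 ∧ z.2.1 + 1 ≤ (f i).2)
    let ν : Fin g.natDegree → ℕ := Function.extend φ ν0 0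
    have hν : ∀ z, ν (φ z) = ν0 z := fun z => hφ.extend_apply _ _ _
    have hν' : ∀ k, k ∉ Set.range φ → ν k = 0 := fun k hk => Function.extend_apply' _ _ _ hk
    refine ⟨ν, ?_, ?_, ?_, ?_, ?_, ?_⟩
    · intro k hk
      by_cases hr : k ∈ Set.range φ
      · obtain ⟨z, rfl⟩ := hr
        exact absurd hk (hwz z)
      · exact hν' k hr
    · intro j hj
      obtain ⟨z, rfl⟩ := hwr j hj
      rw [hw, he, hP, hν]
      have hz := Multiset.mem_toFinset.1 z.1.2
      show kd A z.1.1 (z.2.1 + 1) = kd A z.1.1 (z.2.1 + 1 - 1) + z.1.1.natDegree *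
        ∑ i, hmf_c ((f i).1 = z.1.1 ∧ z.2.1 + 1 ≤ (f i).2)
      rw [Nat.add_sub_cancel, hkd _ (hmon _ hz) (hirr _ hz), hkd _ (hmon _ hz) (hirr _ hz),
        Finset.mul_sum, ← Finset.sum_add_distrib]
      refine Finset.sum_congr rfl fun i _ => ?_
      unfold hmf_d
      by_cases hi : z.1.1 = (f i).1
      · rw [if_pos hi, if_pos hi]
        show z.1.1.natDegree * min (z.2.1 + 1) (f i).2 = z.1.1.natDegree * min z.2.1 (f i).2 + _
        rw [typ_min]
        congr 2
        by_cases hc : z.2.1 + 1 ≤ (f i).2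
        · rw [hmf_c_pos hc, hmf_c_pos ⟨hi.symm, hc⟩]
        · rw [hmf_c_neg hc, hmf_c_neg fun h => hc h.2]
      · rw [if_neg hi, if_neg hi, hmf_c_neg fun h => hi h.1.symm]
        simp
    · intro i j hi hj hij hle
      obtain ⟨z, rfl⟩ := hwr i hi
      obtain ⟨y, rfl⟩ := hwr j hj
      rw [hP, hP] at hij
      rw [he, he] at hle
      rw [hν, hν]
      have h3 : z.1.1 = y.1.1 := hij
      have h4 : y.2.1 + 1 ≤ z.2.1 + 1 := hle
      refine Finset.sum_le_sum fun i _ => typ_mono fun h => ⟨h.1.trans h3, ?_⟩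
      exact h4.trans h.2
    · rw [← Fintype.sum_of_injective φ hφ (fun z => w0 z * ν0 z) (fun k => w k * ν k)
        (fun k hk => by rw [hw' k hk, zero_mul]) (fun z => by rw [hw, hν])]
      have e1 : ∑ z : J, w0 z * ν0 z =
          ∑ z : J, ∑ i, w0 z * hmf_c ((f i).1 = z.1.1 ∧ z.2.1 + 1 ≤ (f i).2) := by
        refine Finset.sum_congr rfl fun z _ => ?_
        exact Finset.mul_sum _ _ _
      rw [e1, Finset.sum_comm]
      have e2 : ∀ i, ∑ z : J, w0 z * hmf_c ((f i).1 = z.1.1 ∧ z.2.1 + 1 ≤ (f i).2) =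
          (f i).1.natDegree * (f i).2 := fun i =>
        hmf_sumJ nf.toFinset (fun p => nf.count p) natDegree (f i).1 (hin i).1
          (f i).2 (hin i).2
      rw [Finset.sum_congr rfl fun i _ => e2 i]
      have h3 := sum_eq (F := F) (AEval' (Matrix.toLin' A)) h1 ⟨ι, _, f, hf, ⟨E⟩⟩
      have h4 : Module.finrank F (AEval' (Matrix.toLin' A)) = n := by
        rw [← (AEval'.of (Matrix.toLin' A)).finrank_eq, Module.finrank_fin_fun]
      rw [h4, hf, Multiset.map_map] at h3
      rw [← h3]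
      show _ = ∑ i, (f i).2 * (f i).1.natDegree
      exact Finset.sum_congr rfl fun i _ => mul_comm _ _
    · unfold cN
      rw [hmf_mat, hmf_dec _ _ f f hf1 hf1 E E]
      congr 1
      rw [← Fintype.sum_of_injective φ hφ (fun z => w0 z * (ν0 z * ν0 z))
        (fun k => w k * (ν k * ν k))
        (fun k hk => by rw [hw' k hk, zero_mul]) (fun z => by rw [hw, hν])]
      have e1 : ∑ z : J, w0 z * (ν0 z * ν0 z) =
          ∑ z : J, ∑ j, ∑ i, w0 z *
            hmf_c ((f i).1 = (f j).1 ∧ (f i).1 = z.1.1 ∧ z.2.1 + 1 ≤ min (f i).2 (f j).2) := by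
        refine Finset.sum_congr rfl fun z _ => ?_
        show w0 z * ((∑ i, hmf_c ((f i).1 = z.1.1 ∧ z.2.1 + 1 ≤ (f i).2)) *
          ∑ i, hmf_c ((f i).1 = z.1.1 ∧ z.2.1 + 1 ≤ (f i).2)) = _
        rw [Finset.sum_mul_sum, Finset.sum_comm, Finset.mul_sum]
        refine Finset.sum_congr rfl fun j _ => ?_
        rw [Finset.mul_sum]
        refine Finset.sum_congr rfl fun i _ => ?_
        congr 1
        by_cases c1 : (f i).1 = z.1.1 ∧ z.2.1 + 1 ≤ (f i).2
        · by_cases c2 : (f j).1 = z.1.1 ∧ z.2.1 + 1 ≤ (f j).2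
          · rw [hmf_c_pos c1, hmf_c_pos c2,
              hmf_c_pos ⟨c1.1.trans c2.1.symm, c1.1, le_min c1.2 c2.2⟩, mul_one]
          · have c3 : ¬ ((f i).1 = (f j).1 ∧ (f i).1 = z.1.1 ∧
                z.2.1 + 1 ≤ min (f i).2 (f j).2) := by
              rintro ⟨d1, d2, d3⟩
              exact c2 ⟨d1.symm.trans d2, le_trans d3 (min_le_right _ _)⟩
            rw [hmf_c_pos c1, hmf_c_neg c2, hmf_c_neg c3, mul_zero]
        · have c3 : ¬ ((f i).1 = (f j).1 ∧ (f i).1 = z.1.1 ∧
              z.2.1 + 1 ≤ min (f i).2 (f j).2) := by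
            rintro ⟨d1, d2, d3⟩
            exact c1 ⟨d2, le_trans d3 (min_le_left _ _)⟩
          rw [hmf_c_neg c1, zero_mul, hmf_c_neg c3]
      symm
      rw [e1, Finset.sum_comm]
      refine Finset.sum_congr rfl fun j _ => ?_
      rw [Finset.sum_comm]
      refine Finset.sum_congr rfl fun i _ => ?_
      symm
      unfold hmf_d
      by_cases hij : (f i).1 = (f j).1
      · rw [if_pos hij]
        rw [← hmf_sumJ nf.toFinset (fun p => nf.count p) natDegree (f i).1
          (hin i).1 (min (f i).2 (f j).2)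
          (le_trans (min_le_left _ _) (hin i).2)]
        refine Finset.sum_congr rfl fun z _ => ?_
        congr 1
        by_cases c1 : (f i).1 = z.1.1 ∧ z.2.1 + 1 ≤ min (f i).2 (f j).2
        · rw [hmf_c_pos c1, hmf_c_pos ⟨hij, c1.1, c1.2⟩]
        · rw [hmf_c_neg c1, hmf_c_neg fun h => c1 h.2]
      · rw [if_neg hij]
        symm
        apply Finset.sum_eq_zero
        intro z _
        rw [hmf_c_neg fun h => hij h.1, mul_zero]
    · intro p t hp hpi hne
      rw [hkd p hp hpi, hkd p hp hpi] at hne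
      have h3 : ∃ i, p = (f i).1 ∧ t + 1 ≤ (f i).2 := by
        by_contra hcon
        push Not at hcon
        apply hne
        refine Finset.sum_congr rfl fun i _ => ?_
        unfold hmf_d
        by_cases hi : p = (f i).1
        · have h5 := hcon i hi
          rw [if_pos hi, if_pos hi]
          show p.natDegree * min t (f i).2 = p.natDegree * min (t + 1) (f i).2
          rw [min_eq_right (by omega), min_eq_right (by omega)]
        · rw [if_neg hi, if_neg hi]
      obtain ⟨i, rfl, hi2⟩ := h3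
      refine ⟨φ ⟨⟨(f i).1, (hin i).1⟩, ⟨t, lt_of_lt_of_le hi2 (hin i).2⟩⟩, hwz _, ?_, ?_⟩
      · rw [hP]
      · rw [he]

end

end FLX
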