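import Mathlib
import Pool.Agent.FLX.StX

/-!
# FLX, module XMB: the sharp character bound
-/

set_option autoImplicit false

namespace FLX

open RSF FL0 SRJ Polynomial Pool.Agent.Lib_helper13

/-- the size of the centralizer is at least `q^(n²/m)` -/
theorem xmb_delta (hTYP : S_TYP) {F : Type} [Field F] [Fintype F] (m : ℕ) (hm : 1 ≤ m)
    (g₀ : F[X]) (hg : g₀.Monic) (hgm : g₀.natDegree = m) {n : ℕ} (A : Matrix (Fin n) (Fin n) F)
    (hA : aeval A g₀ = 0) (hq : 1 ≤ Nat.card F) :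
    1 ≤ (cN A : ℝ) * (Nat.card F : ℝ) ^ (-((n : ℝ) ^ 2 / m)) := by
  obtain ⟨w, e, P, hw, -, -, -, h⟩ := hTYP F g₀ hg
  obtain ⟨ν, -, -, -, hν, hc, -⟩ := h n A hA
  have hq1 : (1 : ℝ) ≤ (Nat.card F : ℝ) := by exact_mod_cast hq
  have hq0 : (0 : ℝ) < (Nat.card F : ℝ) := lt_of_lt_of_le one_pos hq1
  have hm0 : (0 : ℝ) < (m : ℝ) := by exact_mod_cast hm
  have hcs : (∑ j, (w j : ℝ) * ν j) ^ 2 ≤ (∑ j, (w j : ℝ)) * ∑ j, (w j : ℝ) * ((ν j : ℝ) * ν j) := by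
    refine Finset.sum_sq_le_sum_mul_sum_of_sq_le_mul _ (fun i _ => Nat.cast_nonneg _)
      (fun i _ => by positivity) (fun i _ => le_of_eq (by ring))
  have h1 : (∑ j, (w j : ℝ) * ν j) = n := by
    rw [← hν]
    push_cast
    rfl
  have h2 : (∑ j, (w j : ℝ)) = m := by
    rw [← Nat.cast_sum, hw, hgm]
  rw [h1, h2] at hcs
  rw [hc]
  have h3 : (((Nat.card F ^ (∑ j, w j * (ν j * ν j)) : ℕ) : ℝ)) =
      (Nat.card F : ℝ) ^ (∑ j, (w j : ℝ) * ((ν j : ℝ) * ν j)) := by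
    rw [Nat.cast_pow, ← Real.rpow_natCast]
    congr 1
    push_cast
    rfl
  rw [h3, ← Real.rpow_add hq0]
  refine Real.one_le_rpow hq1 ?_
  have h4 : (n : ℝ) ^ 2 / m ≤ ∑ j, (w j : ℝ) * ((ν j : ℝ) * ν j) := by
    rw [div_le_iff₀ hm0]
    linarith
  linarith

/-- the potential is at most a constant times `δ^(1/2)` -/
theorem xmb_pt {q m δ : ℝ} (hq : 1 ≤ q) (hm : 0 ≤ m) (hδ : 1 ≤ δ) :
    (max δ (q ^ (m ^ 2 + m))) ^ (1 / 2 : ℝ) ≤ q ^ ((m ^ 2 + m) / 2) * δ ^ (1 / 2 : ℝ) := by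
  have hq0 : 0 ≤ q := zero_le_one.trans hq
  have hQ : 1 ≤ q ^ (m ^ 2 + m) := Real.one_le_rpow hq (by positivity)
  have h1 : max δ (q ^ (m ^ 2 + m)) ≤ q ^ (m ^ 2 + m) * δ := by
    refine max_le ?_ ?_
    · exact le_mul_of_one_le_left (zero_le_one.trans hδ) hQ
    · exact le_mul_of_one_le_right (zero_le_one.trans hQ) hδ
  refine (Real.rpow_le_rpow (by positivity) h1 (by norm_num)).trans ?_
  rw [Real.mul_rpow (zero_le_one.trans hQ) (zero_le_one.trans hδ), ← Real.rpow_mul hq0]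
  apply le_of_eq
  congr 2
  ring

/-- the weighted sum of the bounds -/
theorem xmb_TT {n j : ℕ} (hn : 1 ≤ n) {K B : ℝ} (hK : 1 ≤ K) (hB : 0 ≤ B) :
    0 ≤ TT n K (fun s => if s ≤ 2 * j then B else 0) ∧
    TT n K (fun s => if s ≤ 2 * j then B else 0) ≤
      (2 * j + 1) * (n : ℝ) ^ (2 * j) * K ^ (4 * j) * B := by
  have hK0 : 0 ≤ K := zero_le_one.trans hK
  have hn1 : (1 : ℝ) ≤ (n : ℝ) := by exact_mod_cast hn
  constructor
  · unfold TT
    refine Finset.sum_nonneg fun s _ => ?_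
    have h1 : (0 : ℝ) ≤ (if s ≤ 2 * j then B else 0) := by
      split_ifs
      · exact hB
      · exact le_refl _
    positivity
  · unfold TT
    have h1 : ∀ s ∈ Finset.range (n + 1), ((n - 1).choose s : ℝ) * K ^ (2 * s) *
        (if s ≤ 2 * j then B else 0) ≤
        if s ≤ 2 * j then (n : ℝ) ^ (2 * j) * K ^ (4 * j) * B else 0 := by
      intro s _
      split_ifs with hs
      · refine mul_le_mul_of_nonneg_right ?_ hB
        refine mul_le_mul ?_ ?_ (by positivity) (by positivity)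
        · have h2 : (n - 1).choose s ≤ n ^ s :=
            (Nat.choose_le_pow _ _).trans (Nat.pow_le_pow_left (Nat.sub_le _ _) _)
          have h3 : ((n - 1).choose s : ℝ) ≤ (n : ℝ) ^ s := by exact_mod_cast h2
          exact h3.trans (pow_le_pow_right₀ hn1 hs)
        · exact pow_le_pow_right₀ hK (by omega)
      · simp
    refine (Finset.sum_le_sum h1).trans ?_
    rw [← Finset.sum_filter, Finset.sum_const, nsmul_eq_mul]
    have h4 : ((Finset.range (n + 1)).filter fun s => s ≤ 2 * j).card ≤ 2 * j + 1 := by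
      refine (Finset.card_le_card (fun s hs => ?_)).trans (Finset.card_range (2 * j + 1)).le
      rw [Finset.mem_filter] at hs
      rw [Finset.mem_range]
      omega
    have h5 : (((Finset.range (n + 1)).filter fun s => s ≤ 2 * j).card : ℝ) ≤ 2 * j + 1 := by
      exact_mod_cast h4
    have h6 : 0 ≤ (n : ℝ) ^ (2 * j) * K ^ (4 * j) * B := by positivity
    refine (mul_le_mul_of_nonneg_right h5 h6).trans (le_of_eq ?_)
    ring

/-- the bounds for the multiplicities -/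
theorem xmb_BF (hMBX : S_MBX) {F : Type} [Field F] [Fintype F] [DecidableEq F] {ψ : AddChar F ℂ}
    (hψ : ψ ≠ 1) {m : ℕ} (hm : 1 ≤ m) {n : ℕ} (hn : 1 ≤ n) {X : GL (Fin n) F → ℂ} (hX : IsIrr X)
    {j K : ℕ} (l : Fˣ →* ℂˣ) (hKn : K ≤ n) (hKj : K ≤ 2 * j)
    (hmlt : FLC.mlt (FLC.HK n F K) (FLC.ld l) X ≠ 0) {B : ℝ}
    (hB : B = min (Real.sqrt ((n.factorial : ℝ) * (Nat.card F : ℝ) ^ (m * n)))
      ((n : ℝ) ^ (2 * j) * (Nat.card F : ℝ) ^ (4 * m * j ^ 2))) :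
    BF ψ m n (fun s => if s ≤ 2 * j then B else 0) (FLC.xm X) := by
  intro τ hτ h
  subst h
  have h0 : (fun A : Matrix (Fin (sz τ)) (Fin (sz τ)) F =>
      FLC.xm X (A.submatrix (Fin.cast (rfl : sz τ = sz τ).symm) (Fin.cast (rfl : sz τ = sz τ).symm))) =
      FLC.xm X := by
    funext A
    rfl
  rw [h0]
  obtain ⟨h1, h2⟩ := hMBX F ψ hψ m hm τ hτ X hX
  obtain ⟨h3, h4⟩ := h2 K l hKn hmlt
  have hq : 1 ≤ Nat.card F := Nat.card_pos
  have hq1 : (1 : ℝ) ≤ (Nat.card F : ℝ) := by exact_mod_cast hq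
  have hn1 : (1 : ℝ) ≤ (sz τ : ℝ) := by exact_mod_cast hn
  by_cases hf : fl τ ≤ 2 * j
  · simp only [hf, if_true]
    rw [hB]
    refine le_min (Real.le_sqrt_of_sq_le h1) (h3.trans ?_)
    refine mul_le_mul (pow_le_pow_right₀ hn1 hKj) (pow_le_pow_right₀ hq1 ?_) (by positivity)
      (by positivity)
    have h5 : K ^ 2 ≤ (2 * j) ^ 2 := Nat.pow_le_pow_left hKj 2
    calc m * K ^ 2 ≤ m * (2 * j) ^ 2 := Nat.mul_le_mul_left _ h5
      _ = 4 * m * j ^ 2 := by ring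
  · simp only [hf, if_false]
    rw [h4 (by omega), norm_zero]

theorem t_XMB : M_XMB := by
  classical
  intro hSTR hTYP hCHN hMBX hXNM m hm ε hε
  have hm1 : 1 ≤ m := by omega
  obtain ⟨r₀, hr₀⟩ := hXNM m ε hm1 hε
  refine ⟨max r₀ 1, ?_⟩
  intro n hn F _ _ _ X hX hX1 g₀ hg hgm x hx
  have hn1 : 1 ≤ n := (le_max_right _ _).trans hn
  obtain ⟨ψ, jj, hψ, hstr⟩ := hSTR n F
  obtain ⟨s1, ⟨K, hKn, hKj, l, hmlt⟩, -, -, s5⟩ := hstr X hX
  set j := jj X with hj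
  have hXc : IsChr X := hX.isChr
  have hj1 : 1 ≤ j := by
    by_contra h
    obtain ⟨l', hl'⟩ := s5 (by omega)
    apply hX1
    rw [hl']
    simp [FLC.ld]
  have hq2 : 2 ≤ Nat.card F := by
    rw [Nat.card_eq_fintype_card]
    exact Fintype.one_lt_card
  set B : ℝ := min (Real.sqrt ((n.factorial : ℝ) * (Nat.card F : ℝ) ^ (m * n)))
      ((n : ℝ) ^ (2 * j) * (Nat.card F : ℝ) ^ (4 * m * j ^ 2)) with hB
  have hBF := xmb_BF hMBX hψ hm1 hn1 hX (j := j) l hKn hKj hmlt hB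
  have hq1 : (1 : ℝ) ≤ (Nat.card F : ℝ) := by exact_mod_cast (by omega : 1 ≤ Nat.card F)
  have hq0 : (0 : ℝ) < (Nat.card F : ℝ) := lt_of_lt_of_le one_pos hq1
  have hm0 : (0 : ℝ) < (m : ℝ) := by exact_mod_cast hm1
  have hB0 : 0 ≤ B := by
    rw [hB]
    exact le_min (Real.sqrt_nonneg _) (by positivity)
  have hBsq : B ^ 2 ≤ (n.factorial : ℝ) * (Nat.card F : ℝ) ^ (m * n) := by
    have h1 : B ≤ Real.sqrt ((n.factorial : ℝ) * (Nat.card F : ℝ) ^ (m * n)) := min_le_left _ _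
    calc B ^ 2 ≤ (Real.sqrt ((n.factorial : ℝ) * (Nat.card F : ℝ) ^ (m * n))) ^ 2 :=
          pow_le_pow_left₀ hB0 h1 2
      _ = _ := Real.sq_sqrt (by positivity)
  obtain ⟨hD1, hfin⟩ := hr₀ n ((le_max_left _ _).trans hn) (Nat.card F) j (X 1).re B hq2 hj1 hB0 s1
    hBsq (min_le_right _ _)
  set D := (X 1).re with hD
  have hD0 : 0 < D := lt_of_lt_of_le one_pos hD1
  have hchn := hCHN m hm F ψ hψ g₀ hg hgm n X hXc (fun s => if s ≤ 2 * j then B else 0)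
    (fun s => by
      split_ifs
      · exact hB0
      · exact le_refl _) hBF x hx
  have hKK : 1 ≤ KK m (Nat.card F : ℝ) := by
    unfold KK
    have h1 : (1 : ℝ) ≤ (Nat.card F : ℝ) ^ (((m : ℝ) ^ 2 + 2 * m) / 2) :=
      Real.one_le_rpow hq1 (by positivity)
    have h2 : (1 : ℝ) ≤ (m : ℝ) + 1 := by linarith
    calc (1 : ℝ) = 1 * 1 := by ring
      _ ≤ _ := mul_le_mul h2 h1 zero_le_one (by positivity)
  obtain ⟨hT0, hT1⟩ := xmb_TT (j := j) hn1 hKK hB0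
  set T : ℝ := (2 * j + 1) * (n : ℝ) ^ (2 * j) * KK m (Nat.card F : ℝ) ^ (4 * j) * B with hT
  have hTT : TT n (KK m (Nat.card F : ℝ)) (fun s => if s ≤ 2 * j then B else 0) ^
      (1 - 1 / (m : ℝ)) ≤ 1 + T := by
    have he0 : 0 ≤ 1 - 1 / (m : ℝ) := by
      rw [sub_nonneg, div_le_one hm0]
      exact_mod_cast hm1
    have he1 : 1 - 1 / (m : ℝ) ≤ 1 := by
      have : 0 ≤ 1 / (m : ℝ) := by positivity
      linarith
    have hT' : 1 ≤ 1 + T := by linarith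
    calc _ ≤ (1 + T) ^ (1 - 1 / (m : ℝ)) := Real.rpow_le_rpow hT0 (by linarith) he0
      _ ≤ (1 + T) ^ (1 : ℝ) := Real.rpow_le_rpow_of_exponent_le hT' he1
      _ = 1 + T := Real.rpow_one _
  have hδ := xmb_delta hTYP m hm1 g₀ hg hgm (x : Matrix (Fin n) (Fin n) F) hx (by omega)
  set δ : ℝ := (cN (x : Matrix (Fin n) (Fin n) F) : ℝ) * (Nat.card F : ℝ) ^ (-((n : ℝ) ^ 2 / m))
    with hδd
  have hpt : pt m (x : Matrix (Fin n) (Fin n) F) ≤
      (Nat.card F : ℝ) ^ (((m : ℝ) ^ 2 + m) / 2) * δ ^ (1 / 2 : ℝ) := by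
    unfold pt
    exact xmb_pt hq1 hm0.le hδ
  have h4D : (4 * D) ^ (1 / (m : ℝ)) ≤ 4 * D ^ (1 / (m : ℝ)) := by
    rw [Real.mul_rpow (by norm_num) hD0.le]
    refine mul_le_mul_of_nonneg_right ?_ (Real.rpow_nonneg hD0.le _)
    have h6 : (4 : ℝ) ^ (1 / (m : ℝ)) ≤ (4 : ℝ) ^ (1 : ℝ) := by
      refine Real.rpow_le_rpow_of_exponent_le (by norm_num) ?_
      rw [div_le_one hm0]
      exact_mod_cast hm1
    rwa [Real.rpow_one] at h6
  have hδ0 : 0 ≤ δ ^ (1 / 2 : ℝ) := Real.rpow_nonneg (zero_le_one.trans hδ) _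
  have hQ0 : 0 ≤ (Nat.card F : ℝ) ^ (((m : ℝ) ^ 2 + m) / 2) := Real.rpow_nonneg hq0.le _
  have hDm : 0 ≤ D ^ (1 / (m : ℝ)) := Real.rpow_nonneg hD0.le _
  have hT00 : 0 ≤ T := hT0.trans hT1
  have h9 : D ^ (1 / (m : ℝ) + ε) = D ^ (1 / (m : ℝ)) * D ^ ε := Real.rpow_add hD0 _ _
  rw [h9]
  calc ‖X x‖ ≤ _ := hchn
    _ ≤ ((Nat.card F : ℝ) ^ (((m : ℝ) ^ 2 + m) / 2) * δ ^ (1 / 2 : ℝ)) * (1 + T) *
        (4 * D ^ (1 / (m : ℝ))) := by
        refine mul_le_mul ?_ h4D (Real.rpow_nonneg (by positivity) _) (by positivity)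
        refine mul_le_mul hpt hTT (Real.rpow_nonneg hT0 _) (by positivity)
    _ = δ ^ (1 / 2 : ℝ) * (D ^ (1 / (m : ℝ)) *
        (4 * (Nat.card F : ℝ) ^ (((m : ℝ) ^ 2 + m) / 2) * (1 + T))) := by ring
    _ ≤ δ ^ (1 / 2 : ℝ) * (D ^ (1 / (m : ℝ)) * D ^ ε) := by
        refine mul_le_mul_of_nonneg_left (mul_le_mul_of_nonneg_left ?_ hDm) hδ0
        exact hfin

end FLX
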