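import Mathlib
import Pool.Agent.FLX.StX

/-!
# FLX_XNM: the numerical part of the sharp character bound (MP_5b5212_al)
-/

set_option autoImplicit false

namespace FLX

theorem xnm_nat_le (n : ℕ) : (n : ℝ) ≤ Real.exp (2 * Real.sqrt n) := by
  have h1 : Real.sqrt n ≤ Real.exp (Real.sqrt n) := by
    have := Real.add_one_le_exp (Real.sqrt n)
    linarith
  have h2 : (n : ℝ) = Real.sqrt n * Real.sqrt n := (Real.mul_self_sqrt (by positivity)).symm
  calc (n : ℝ) = Real.sqrt n * Real.sqrt n := h2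
    _ ≤ Real.exp (Real.sqrt n) * Real.exp (Real.sqrt n) :=
        mul_le_mul h1 h1 (Real.sqrt_nonneg _) (Real.exp_pos _).le
    _ = Real.exp (2 * Real.sqrt n) := by rw [← Real.exp_add]; ring_nf

theorem xnm_npow_le (n k : ℕ) : (n : ℝ) ^ k ≤ Real.exp (2 * k * Real.sqrt n) := by
  calc (n : ℝ) ^ k ≤ Real.exp (2 * Real.sqrt n) ^ k :=
        pow_le_pow_left₀ (by positivity) (xnm_nat_le n) k
    _ = _ := by rw [← Real.exp_nat_mul]; ring_nf

theorem xnm_fact_le (n : ℕ) : (n.factorial : ℝ) ≤ Real.exp (2 * n * Real.sqrt n) := by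
  have h1 : (n.factorial : ℝ) ≤ (n : ℝ) ^ n := by exact_mod_cast Nat.factorial_le_pow n
  exact h1.trans (xnm_npow_le n n)

theorem xnm_qpow (q : ℕ) (hq : 2 ≤ q) (k : ℕ) : (q : ℝ) ^ k = Real.exp (k * Real.log q) := by
  have hq0 : (0 : ℝ) < q := by exact_mod_cast (by omega : 0 < q)
  rw [Real.exp_nat_mul, Real.exp_log hq0]

theorem xnm_qrpow (q : ℕ) (hq : 2 ≤ q) (a : ℝ) : (q : ℝ) ^ a = Real.exp (a * Real.log q) := by
  have hq0 : (0 : ℝ) < q := by exact_mod_cast (by omega : 0 < q)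
  rw [Real.rpow_def_of_pos hq0, mul_comm]

/-- the bound for `B` -/
theorem xnm_B (m n q j : ℕ) (B η : ℝ) (hη : 0 < η) (hm : 1 ≤ m) (hq : 2 ≤ q) (hj : 1 ≤ j)
    (hB : 0 ≤ B) (h1 : B ^ 2 ≤ (n.factorial : ℝ) * (q : ℝ) ^ (m * n))
    (h2 : B ≤ (n : ℝ) ^ (2 * j) * (q : ℝ) ^ (4 * m * j ^ 2)) (hL : 1 / 2 ≤ Real.log q) :
    max B 1 ≤ Real.exp ((8 + 2 / η) * Real.sqrt n * (j * Real.log q) +
      4 * m * η * n * (j * Real.log q) + m / (2 * η) * (j * Real.log q)) := by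
  have hs : 0 ≤ Real.sqrt n := Real.sqrt_nonneg _
  have hjr : (1 : ℝ) ≤ j := by exact_mod_cast hj
  have hj0 : (0 : ℝ) ≤ j := by linarith
  have hL0 : 0 < Real.log q := by linarith
  have hm0 : (0 : ℝ) ≤ m := by positivity
  have hn0 : (0 : ℝ) ≤ n := by positivity
  have hjQ : (j : ℝ) ≤ 2 * (j * Real.log q) := by nlinarith
  have hQ : 0 ≤ (j : ℝ) * Real.log q := by positivity
  have hpos : 0 ≤ (8 + 2 / η) * Real.sqrt n * (j * Real.log q) +
      4 * m * η * n * (j * Real.log q) + m / (2 * η) * (j * Real.log q) := by positivity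
  refine max_le ?_ (Real.one_le_exp hpos)
  by_cases hc : (j : ℝ) ≤ η * n
  · refine h2.trans ?_
    have h3 := xnm_npow_le n (2 * j)
    rw [xnm_qpow q hq]
    refine (mul_le_mul_of_nonneg_right h3 (Real.exp_pos _).le).trans ?_
    rw [← Real.exp_add]
    refine Real.exp_le_exp.2 ?_
    push_cast
    have h4 : 2 * (2 * (j : ℝ)) * Real.sqrt n ≤ 8 * Real.sqrt n * (j * Real.log q) := by
      have := mul_le_mul_of_nonneg_left hjQ (show 0 ≤ 4 * Real.sqrt n by positivity)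
      linarith
    have h5 : 4 * (m : ℝ) * (j : ℝ) ^ 2 * Real.log q ≤ 4 * m * η * n * (j * Real.log q) := by
      have := mul_le_mul_of_nonneg_left hc (show 0 ≤ 4 * (m : ℝ) * (j * Real.log q) by positivity)
      nlinarith
    have h6 : 0 ≤ 2 / η * Real.sqrt n * (j * Real.log q) := by positivity
    have h7 : 0 ≤ m / (2 * η) * (j * Real.log q) := by positivity
    nlinarith
  · have hc' : η * n ≤ j := (not_le.1 hc).le
    have hnj : (n : ℝ) ≤ j / η := by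
      rw [le_div_iff₀ hη]
      linarith
    have h3 : B ^ 2 ≤ (Real.exp (n * Real.sqrt n + m * n * Real.log q / 2)) ^ 2 := by
      refine h1.trans ?_
      rw [xnm_qpow q hq, ← Real.exp_nat_mul]
      refine (mul_le_mul_of_nonneg_right (xnm_fact_le n) (Real.exp_pos _).le).trans ?_
      rw [← Real.exp_add]
      refine Real.exp_le_exp.2 (le_of_eq ?_)
      push_cast
      ring
    have h4 : B ≤ Real.exp (n * Real.sqrt n + m * n * Real.log q / 2) :=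
      le_of_sq_le_sq h3 (Real.exp_pos _).le
    refine h4.trans (Real.exp_le_exp.2 ?_)
    have h5 : (n : ℝ) * Real.sqrt n ≤ 2 / η * Real.sqrt n * (j * Real.log q) := by
      calc (n : ℝ) * Real.sqrt n ≤ j / η * Real.sqrt n := mul_le_mul_of_nonneg_right hnj hs
        _ = 1 / η * Real.sqrt n * j := by ring
        _ ≤ 1 / η * Real.sqrt n * (2 * (j * Real.log q)) :=
            mul_le_mul_of_nonneg_left hjQ (by positivity)
        _ = _ := by ring
    have h6 : (m : ℝ) * n * Real.log q / 2 ≤ m / (2 * η) * (j * Real.log q) := by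
      calc (m : ℝ) * n * Real.log q / 2 = (m * Real.log q / 2) * n := by ring
        _ ≤ (m * Real.log q / 2) * (j / η) := mul_le_mul_of_nonneg_left hnj (by positivity)
        _ = _ := by field_simp
    have h7 : 0 ≤ 8 * Real.sqrt n * (j * Real.log q) := by positivity
    have h8 : 0 ≤ 4 * m * η * n * (j * Real.log q) := by positivity
    nlinarith

/-- all factors together -/
theorem xnm_main (m n q j : ℕ) (B η : ℝ) (hη : 0 < η) (hm : 1 ≤ m) (hq : 2 ≤ q) (hj : 1 ≤ j)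
    (hn : 1 ≤ n)
    (hB : 0 ≤ B) (h1 : B ^ 2 ≤ (n.factorial : ℝ) * (q : ℝ) ^ (m * n))
    (h2 : B ≤ (n : ℝ) ^ (2 * j) * (q : ℝ) ^ (4 * m * j ^ 2)) (hL : 1 / 2 ≤ Real.log q) :
    4 * (q : ℝ) ^ (((m : ℝ) ^ 2 + m) / 2) *
      (1 + (2 * j + 1) * (n : ℝ) ^ (2 * j) * KK m q ^ (4 * j) * B) ≤
      Real.exp ((j * Real.log q) * ((26 + ((m : ℝ) ^ 2 + m) / 2 + 8 * m + 2 * ((m : ℝ) ^ 2 + 2 * m) +
        2 / η + m / (2 * η)) * Real.sqrt n + 4 * m * η * n)) := by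
  have hjr : (1 : ℝ) ≤ j := by exact_mod_cast hj
  have hnr : (1 : ℝ) ≤ n := by exact_mod_cast hn
  have hqr : (2 : ℝ) ≤ q := by exact_mod_cast hq
  have hL0 : 0 < Real.log q := by linarith
  have hs1 : 1 ≤ Real.sqrt n := by
    rw [Real.one_le_sqrt]
    exact hnr
  obtain ⟨Q, hQd⟩ : ∃ Q : ℝ, Q = j * Real.log q := ⟨_, rfl⟩
  have hjQ : (j : ℝ) ≤ 2 * Q := by rw [hQd]; nlinarith
  have hLQ : Real.log q ≤ Q := by rw [hQd]; nlinarith
  have hQ : 1 / 2 ≤ Q := by linarith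
  have hm0 : (0 : ℝ) ≤ m := by positivity
  have hBm := xnm_B m n q j B η hη hm hq hj hB h1 h2 hL
  rw [← hQd] at hBm ⊢
  have hKK1 : 1 ≤ KK m q := by
    unfold KK
    have e1 : (1 : ℝ) ≤ (q : ℝ) ^ (((m : ℝ) ^ 2 + 2 * m) / 2) :=
      Real.one_le_rpow (by linarith) (by positivity)
    nlinarith
  have hKK2 : KK m q ≤ Real.exp (m + ((m : ℝ) ^ 2 + 2 * m) / 2 * Real.log q) := by
    unfold KK
    rw [xnm_qrpow q hq, Real.exp_add]
    exact mul_le_mul_of_nonneg_right (Real.add_one_le_exp _) (Real.exp_pos _).le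
  have hKK : KK m q ^ (4 * j) ≤
      Real.exp ((4 * j) * (m + ((m : ℝ) ^ 2 + 2 * m) / 2 * Real.log q)) := by
    refine (pow_le_pow_left₀ (by linarith) hKK2 _).trans (le_of_eq ?_)
    rw [← Real.exp_nat_mul]
    push_cast
    ring_nf
  have hn2 : (n : ℝ) ^ (2 * j) ≤ Real.exp (4 * j * Real.sqrt n) := by
    refine (xnm_npow_le n (2 * j)).trans (le_of_eq ?_)
    push_cast
    ring_nf
  have hj2 : (2 * (j : ℝ) + 1) ≤ Real.exp (2 * j) := Real.add_one_le_exp _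
  obtain ⟨P, hP⟩ : ∃ P : ℝ, P = (2 * j + 1) * (n : ℝ) ^ (2 * j) * KK m q ^ (4 * j) := ⟨_, rfl⟩
  have hP1 : 1 ≤ P := by
    rw [hP]
    have e1 : (1 : ℝ) ≤ (n : ℝ) ^ (2 * j) := one_le_pow₀ hnr
    have e2 : 1 ≤ KK m q ^ (4 * j) := one_le_pow₀ hKK1
    have e3 : (1 : ℝ) ≤ (2 * j + 1) * (n : ℝ) ^ (2 * j) := by nlinarith
    nlinarith
  have hP2 : P ≤ Real.exp (2 * j + 4 * j * Real.sqrt n +
      (4 * j) * (m + ((m : ℝ) ^ 2 + 2 * m) / 2 * Real.log q)) := by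
    rw [hP, Real.exp_add, Real.exp_add]
    have e0 : 0 ≤ (n : ℝ) ^ (2 * j) := by positivity
    have e1 : 0 ≤ KK m q ^ (4 * j) := by
      have : 0 ≤ KK m q := by linarith
      positivity
    exact mul_le_mul (mul_le_mul hj2 hn2 e0 (Real.exp_pos _).le) hKK e1 (by positivity)
  rw [← hP]
  have hB1 : 1 + P * B ≤ 2 * (P * max B 1) := by
    have e1 : B ≤ max B 1 := le_max_left _ _
    have e2 : 1 ≤ max B 1 := le_max_right _ _
    have e3 : P * B ≤ P * max B 1 := mul_le_mul_of_nonneg_left e1 (by linarith)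
    have e4 : 1 * 1 ≤ P * max B 1 := mul_le_mul hP1 e2 (by norm_num) (by linarith)
    linarith
  have h8 : (8 : ℝ) ≤ Real.exp 3 := by
    have e1 := Real.exp_one_gt_d9
    have e2 : Real.exp 3 = Real.exp 1 ^ 3 := by rw [← Real.exp_nat_mul]; norm_num
    rw [e2]
    have e3 : (2 : ℝ) ^ 3 ≤ Real.exp 1 ^ 3 := pow_le_pow_left₀ (by norm_num) (by linarith) 3
    linarith
  have hqp := xnm_qrpow q hq (((m : ℝ) ^ 2 + m) / 2)
  have hfin : 4 * (q : ℝ) ^ (((m : ℝ) ^ 2 + m) / 2) * (1 + P * B) ≤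
      Real.exp 3 * Real.exp (((m : ℝ) ^ 2 + m) / 2 * Real.log q) *
        (Real.exp (2 * j + 4 * j * Real.sqrt n +
          (4 * j) * (m + ((m : ℝ) ^ 2 + 2 * m) / 2 * Real.log q)) *
        Real.exp ((8 + 2 / η) * Real.sqrt n * Q + 4 * m * η * n * Q + m / (2 * η) * Q)) := by
    rw [hqp]
    have e0 := Real.exp_pos (((m : ℝ) ^ 2 + m) / 2 * Real.log q)
    have e1 : P * max B 1 ≤ Real.exp (2 * j + 4 * j * Real.sqrt n +
          (4 * j) * (m + ((m : ℝ) ^ 2 + 2 * m) / 2 * Real.log q)) *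
        Real.exp ((8 + 2 / η) * Real.sqrt n * Q + 4 * m * η * n * Q + m / (2 * η) * Q) :=
      mul_le_mul hP2 hBm (le_trans zero_le_one (le_max_right _ _)) (Real.exp_pos _).le
    have e2 : 0 ≤ P * max B 1 := mul_nonneg (by linarith) (le_trans zero_le_one (le_max_right _ _))
    calc 4 * Real.exp (((m : ℝ) ^ 2 + m) / 2 * Real.log q) * (1 + P * B)
        ≤ 4 * Real.exp (((m : ℝ) ^ 2 + m) / 2 * Real.log q) * (2 * (P * max B 1)) :=
          mul_le_mul_of_nonneg_left hB1 (by positivity)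
      _ = (8 * Real.exp (((m : ℝ) ^ 2 + m) / 2 * Real.log q)) * (P * max B 1) := by ring
      _ ≤ (Real.exp 3 * Real.exp (((m : ℝ) ^ 2 + m) / 2 * Real.log q)) * (P * max B 1) :=
          mul_le_mul_of_nonneg_right (mul_le_mul_of_nonneg_right h8 e0.le) e2
      _ ≤ _ := mul_le_mul_of_nonneg_left e1 (by positivity)
  refine hfin.trans ?_
  rw [← Real.exp_add, ← Real.exp_add, ← Real.exp_add]
  refine Real.exp_le_exp.2 ?_
  have hQ0 : 0 ≤ Q := by linarith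
  have hs0 : 0 ≤ Real.sqrt n := by linarith
  have f1 : (3 : ℝ) ≤ 6 * Q := by linarith
  have f2 : ((m : ℝ) ^ 2 + m) / 2 * Real.log q ≤ ((m : ℝ) ^ 2 + m) / 2 * Q :=
    mul_le_mul_of_nonneg_left hLQ (by positivity)
  have f3 : 2 * (j : ℝ) ≤ 4 * Q := by linarith
  have f4 : 4 * (j : ℝ) * Real.sqrt n ≤ 8 * Q * Real.sqrt n :=
    mul_le_mul_of_nonneg_right (by linarith) hs0
  have f5 : (4 * (j : ℝ)) * (m + ((m : ℝ) ^ 2 + 2 * m) / 2 * Real.log q) ≤
      8 * m * Q + 2 * ((m : ℝ) ^ 2 + 2 * m) * Q := by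
    have g1 : (4 * (j : ℝ)) * m ≤ (8 * Q) * m := mul_le_mul_of_nonneg_right (by linarith) hm0
    have g2 : (4 * (j : ℝ)) * (((m : ℝ) ^ 2 + 2 * m) / 2 * Real.log q) =
        2 * ((m : ℝ) ^ 2 + 2 * m) * Q := by rw [hQd]; ring
    rw [mul_add, g2]
    linarith
  obtain ⟨R, hR⟩ : ∃ R : ℝ, R = 6 + ((m : ℝ) ^ 2 + m) / 2 + 4 + 8 * m +
      2 * ((m : ℝ) ^ 2 + 2 * m) + m / (2 * η) := ⟨_, rfl⟩
  have hR0 : 0 ≤ R := by rw [hR]; positivity
  have f6 : R * Q ≤ R * Q * Real.sqrt n := le_mul_of_one_le_right (by positivity) hs1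
  have f7 : R * Q = 6 * Q + ((m : ℝ) ^ 2 + m) / 2 * Q + 4 * Q + 8 * m * Q +
      2 * ((m : ℝ) ^ 2 + 2 * m) * Q + m / (2 * η) * Q := by rw [hR]; ring
  have f8 : R * Q * Real.sqrt n + 8 * Q * Real.sqrt n + (8 + 2 / η) * Real.sqrt n * Q +
      4 * m * η * n * Q = Q * ((26 + ((m : ℝ) ^ 2 + m) / 2 + 8 * m + 2 * ((m : ℝ) ^ 2 + 2 * m) +
        2 / η + m / (2 * η)) * Real.sqrt n + 4 * m * η * n) := by rw [hR]; ring
  rw [← f8]
  linarith

theorem t_XNM : S_XNM := by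
  intro m ε hm hε
  have hmr : (1 : ℝ) ≤ m := by exact_mod_cast hm
  obtain ⟨η, hη⟩ : ∃ η : ℝ, η = ε / (32 * m) := ⟨_, rfl⟩
  have hη0 : 0 < η := by rw [hη]; positivity
  obtain ⟨A, hA⟩ : ∃ A : ℝ, A = 26 + ((m : ℝ) ^ 2 + m) / 2 + 8 * m + 2 * ((m : ℝ) ^ 2 + 2 * m) +
        2 / η + m / (2 * η) := ⟨_, rfl⟩
  have hA0 : 0 < A := by rw [hA]; positivity
  refine ⟨max 16 ⌈(8 * A / ε) ^ 2⌉₊, fun n hn q j D B hq hj hB h0 h1 h2 => ?_⟩
  have hn16 : 16 ≤ n := (le_max_left _ _).trans hn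
  have hnA : (8 * A / ε) ^ 2 ≤ n := by
    have : ⌈(8 * A / ε) ^ 2⌉₊ ≤ n := (le_max_right _ _).trans hn
    exact (Nat.le_ceil _).trans (by exact_mod_cast this)
  have hsA : 8 * A / ε ≤ Real.sqrt n := Real.le_sqrt_of_sq_le hnA
  have hnr : (16 : ℝ) ≤ n := by exact_mod_cast hn16
  have hjr : (1 : ℝ) ≤ j := by exact_mod_cast hj
  have hL : 1 / 2 ≤ Real.log q := by
    have e1 := Real.log_two_gt_d9
    have e2 : Real.log 2 ≤ Real.log q := Real.log_le_log (by norm_num) (by exact_mod_cast hq)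
    linarith
  have hmain := xnm_main m n q j B η hη0 hm hq hj (by omega) hB h1 h2 hL
  rw [← hA] at hmain
  obtain ⟨Q, hQd⟩ : ∃ Q : ℝ, Q = j * Real.log q := ⟨_, rfl⟩
  rw [← hQd] at hmain
  have hQ : 1 / 2 ≤ Q := by rw [hQd]; nlinarith
  -- lower bound for D
  have hD1 : Real.exp (n * Q / 2) ≤ 4 * D := by
    refine le_trans (le_of_eq ?_) h0
    rw [xnm_qrpow q hq, hQd]
    ring_nf
  have hD2 : Real.exp (n * Q / 4) * 4 ≤ Real.exp (n * Q / 2) := by
    have e1 : (2 : ℝ) ≤ n * Q / 4 := by nlinarith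
    have e2 : (4 : ℝ) ≤ Real.exp (n * Q / 4) := by
      have e3 := Real.exp_one_gt_d9
      have e4 : Real.exp 2 = Real.exp 1 ^ 2 := by rw [← Real.exp_nat_mul]; norm_num
      have e5 : (2 : ℝ) ^ 2 ≤ Real.exp 1 ^ 2 := pow_le_pow_left₀ (by norm_num) (by linarith) 2
      have e6 : Real.exp 2 ≤ Real.exp (n * Q / 4) := Real.exp_le_exp.2 e1
      linarith
    have e3 : Real.exp (n * Q / 2) = Real.exp (n * Q / 4) * Real.exp (n * Q / 4) := by
      rw [← Real.exp_add]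
      ring_nf
    rw [e3]
    exact mul_le_mul_of_nonneg_left e2 (Real.exp_pos _).le
  have hD3 : Real.exp (n * Q / 4) ≤ D := by linarith
  have hD4 : 1 ≤ D := by
    refine le_trans (Real.one_le_exp ?_) hD3
    have : 0 ≤ (n : ℝ) * Q := by nlinarith
    linarith
  refine ⟨hD4, hmain.trans ?_⟩
  have hD5 : Real.exp (n * Q / 4) ^ ε ≤ D ^ ε :=
    Real.rpow_le_rpow (Real.exp_pos _).le hD3 hε.le
  refine le_trans ?_ hD5
  rw [← Real.exp_mul]
  refine Real.exp_le_exp.2 ?_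
  have hs0 : 0 ≤ Real.sqrt n := Real.sqrt_nonneg _
  have g1 : A * Real.sqrt n ≤ ε / 8 * n := by
    have e1 : 8 * A ≤ Real.sqrt n * ε := by
      rwa [div_le_iff₀ hε] at hsA
    have e2 : (n : ℝ) = Real.sqrt n * Real.sqrt n := (Real.mul_self_sqrt (by positivity)).symm
    calc A * Real.sqrt n = (8 * A) * Real.sqrt n / 8 := by ring
      _ ≤ (Real.sqrt n * ε) * Real.sqrt n / 8 := by
          have := mul_le_mul_of_nonneg_right e1 hs0
          linarith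
      _ = ε / 8 * (Real.sqrt n * Real.sqrt n) := by ring
      _ = ε / 8 * n := by rw [← e2]
  have g2 : 4 * (m : ℝ) * η * n = ε / 8 * n := by
    rw [hη]
    field_simp
    ring
  rw [g2]
  have hQ0 : 0 ≤ Q := by linarith
  calc Q * (A * Real.sqrt n + ε / 8 * n) ≤ Q * (ε / 8 * n + ε / 8 * n) :=
        mul_le_mul_of_nonneg_left (by linarith) hQ0
    _ = n * Q / 4 * ε := by ring

end FLX
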