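import Pool.Agent.SRJ.FinG
import Pool.Agent.FLX.CHN
import Pool.Agent.FLX.CHR
import Pool.Agent.FLX.CLR
import Pool.Agent.FLX.CNB
import Pool.Agent.FLX.DC0
import Pool.Agent.FLX.DGR
import Pool.Agent.FLX.EXB
import Pool.Agent.FLX.HLD
import Pool.Agent.FLX.IFR
import Pool.Agent.FLX.K1N
import Pool.Agent.FLX.K2N
import Pool.Agent.FLX.KDN
import Pool.Agent.FLX.MAV
import Pool.Agent.FLX.NUZ
import Pool.Agent.FLX.PAT
import Pool.Agent.FLX.PSC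
import Pool.Agent.FLX.RA1
import Pool.Agent.FLX.RA2
import Pool.Agent.FLX.RNK
import Pool.Agent.FLX.SBX
import Pool.Agent.FLX.SEL
import Pool.Agent.FLX.TYP
import Pool.Agent.FLX.XMB
import Pool.Agent.FLX.XNM

/-!
# A sharp character bound for `GL_n(q)`, all `q`: assembly
-/

namespace FLX

open RSF FL0 SRJ

theorem a_K1N : S_K1N := t_K1N t_TYP t_SEL t_KDN t_CNB
theorem a_K2N : S_K2N := t_K2N t_TYP t_SEL t_KDN t_EXB
theorem a_IFR : S_IFR := t_IFR FLC.t_MN t_CHR a_K2N t_PSC t_PAT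
theorem a_RA1 : S_RA1 := t_RA1 FLC.t_BR1
theorem a_DC0 : S_DC0 := t_DC0 FLC.t_MN
theorem a_CLR : S_CLR := t_CLR t_HMF a_AUL f_JL

/-- the theorem from the four modules that are proved in separate files -/
theorem main_of (hSTP : S_STP) (hIST : M_IST) (hUTG : S_UTG) (hMBX : M_MBX) : MainV :=
  have h1 : S_IST := hIST t_CHR t_DGR hSTP t_SEL a_K1N t_HLD t_PSC t_PAT
  have h2 : S_CHN := t_CHN a_IFR h1 t_PSC
  have h3 : S_MBX := hMBX FLC.t_MN FLC.a_DC hUTG a_RA1 t_RA2 t_RNK a_DC0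
  have h4 : S_XMB := t_XMB FLC.a_STR t_TYP h2 h3 t_XNM
  have h5 : S_SBX := t_SBX FLC.a_STR h4 a_CLR t_POL
  have h6 : S_NUZ := t_NUZ h5 a_LTP
  t_MAV h6 a_ZEP a_TVB a_TVA a_TVO a_GEN

end FLX
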