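import Pool.Agent.FLX.FinG
import Pool.Agent.FLX.IST
import Pool.Agent.FLX.MBX
import Pool.Agent.FLX.STP
import Pool.Agent.FLX.UTG

/-!
# A sharp character bound for `GL_n(q)`, all `q`
-/

namespace FLX

open RSF FL0 SRJ

theorem a_IST : S_IST := t_IST t_CHR t_DGR t_STP t_SEL a_K1N t_HLD t_PSC t_PAT
theorem a_CHN : S_CHN := t_CHN a_IFR a_IST t_PSC
theorem a_MBX : S_MBX := t_MBX FLC.t_MN FLC.a_DC t_UTG a_RA1 t_RA2 t_RNK a_DC0

/-- **the character bound** -/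
theorem a_XMB : S_XMB := t_XMB FLC.a_STR t_TYP a_CHN a_MBX t_XNM

end FLX
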