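import Mathlib
import Pool.Agent.FLX.StX
import Pool.Agent.RSF.SM

set_option autoImplicit false

namespace FLX

theorem psc_term_nonneg (m s : ℕ) (K : ℝ) (c : ℕ → ℝ) (hK : 0 ≤ K) (hc : ∀ s, 0 ≤ c s) :
    0 ≤ (m.choose s : ℝ) * K ^ (2 * s) * c s := by
  have := hc s
  positivity

theorem psc_TT_nonneg (n : ℕ) (K : ℝ) (c : ℕ → ℝ) (hK : 0 ≤ K) (hc : ∀ s, 0 ≤ c s) :
    0 ≤ TT n K c :=
  Finset.sum_nonneg fun s _ => psc_term_nonneg (n - 1) s K c hK hc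

theorem psc_TT_mono (n n' : ℕ) (K : ℝ) (c : ℕ → ℝ) (hn : n ≤ n') (hK : 0 ≤ K)
    (hc : ∀ s, 0 ≤ c s) : TT n K c ≤ TT n' K c := by
  unfold TT
  refine le_trans (Finset.sum_le_sum (g := fun s => ((n' - 1).choose s : ℝ) * K ^ (2 * s) * c s) ?_) ?_
  · intro s _
    have h1 : ((n - 1).choose s : ℝ) ≤ ((n' - 1).choose s : ℝ) := by
      exact_mod_cast Nat.choose_le_choose s (Nat.sub_le_sub_right hn 1)
    have h2 : 0 ≤ K ^ (2 * s) := by positivity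
    exact mul_le_mul_of_nonneg_right (mul_le_mul_of_nonneg_right h1 h2) (hc s)
  · refine Finset.sum_le_sum_of_subset_of_nonneg ?_ ?_
    · exact Finset.range_mono (by omega)
    · intro s _ _
      exact psc_term_nonneg (n' - 1) s K c hK hc

theorem psc_TT_zero (K : ℝ) (c : ℕ → ℝ) : TT 0 K c = c 0 := by
  simp [TT]

theorem psc_TT_succ (a : ℕ) (K : ℝ) (c : ℕ → ℝ) (ha : 1 ≤ a) :
    TT a K c + K ^ 2 * TT a K (fun s => c (s + 1)) = TT (a + 1) K c := by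
  obtain ⟨m, rfl⟩ : ∃ m, a = m + 1 := ⟨a - 1, by omega⟩
  unfold TT
  simp only [Nat.add_sub_cancel]
  rw [Finset.sum_range_succ' (fun s => ((m + 1).choose s : ℝ) * K ^ (2 * s) * c s) (m + 1 + 1)]
  have e1 : ∑ s ∈ Finset.range (m + 1 + 1), (m.choose s : ℝ) * K ^ (2 * s) * c s =
      ∑ s ∈ Finset.range (m + 1 + 1), (m.choose (s + 1) : ℝ) * K ^ (2 * (s + 1)) * c (s + 1) +
        c 0 := by
    rw [Finset.sum_range_succ' (fun s => (m.choose s : ℝ) * K ^ (2 * s) * c s) (m + 1),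
      Finset.sum_range_succ (fun s => (m.choose (s + 1) : ℝ) * K ^ (2 * (s + 1)) * c (s + 1))
        (m + 1)]
    have : m.choose (m + 1 + 1) = 0 := Nat.choose_eq_zero_of_lt (by omega)
    rw [this]
    simp
  have e2 : ∑ s ∈ Finset.range (m + 1 + 1), ((m + 1).choose (s + 1) : ℝ) * K ^ (2 * (s + 1)) *
      c (s + 1) =
      ∑ s ∈ Finset.range (m + 1 + 1), (m.choose (s + 1) : ℝ) * K ^ (2 * (s + 1)) * c (s + 1) +
        K ^ 2 * ∑ s ∈ Finset.range (m + 1 + 1), (m.choose s : ℝ) * K ^ (2 * s) * c (s + 1) := by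
    rw [Finset.mul_sum, ← Finset.sum_add_distrib]
    refine Finset.sum_congr rfl fun s _ => ?_
    rw [Nat.choose_succ_succ, Nat.succ_eq_add_one, Nat.cast_add]
    have : K ^ (2 * (s + 1)) = K ^ 2 * K ^ (2 * s) := by
      rw [← pow_add]
      congr 1
      ring
    rw [this]
    ring
  rw [e1, e2]
  simp
  ring

theorem psc_fac (q : ℝ) (hq : 2 ≤ q) (j : ℕ) :
    q ^ (-((j : ℝ) + 1)) = (q⁻¹) ^ (j + 1) := by
  have hq0 : 0 < q := by linarith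
  rw [Real.rpow_neg hq0.le, inv_pow]
  congr 1
  have : ((j : ℝ) + 1) = ((j + 1 : ℕ) : ℝ) := by push_cast; ring
  rw [this, Real.rpow_natCast]

theorem psc_fac_lt (q : ℝ) (hq : 2 ≤ q) (j : ℕ) :
    0 < 1 - (q⁻¹) ^ (j + 1) ∧ 1 - (q⁻¹) ^ (j + 1) ≤ 1 := by
  have hq0 : 0 < q := by linarith
  have h1 : q⁻¹ < 1 := inv_lt_one_of_one_lt₀ (by linarith)
  have h2 : (q⁻¹) ^ (j + 1) < 1 := pow_lt_one₀ (inv_nonneg.2 hq0.le) h1 (by omega)
  have h3 : 0 < (q⁻¹) ^ (j + 1) := by positivity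
  exact ⟨by linarith, by linarith⟩

theorem psc_pq (q : ℝ) (hq : 2 ≤ q) (n : ℕ) :
    pq q n = ∏ j ∈ Finset.range n, (1 - (q⁻¹) ^ (j + 1))⁻¹ := by
  unfold pq
  exact Finset.prod_congr rfl fun j _ => by rw [psc_fac q hq j]

theorem psc_one_le (q : ℝ) (hq : 2 ≤ q) (n : ℕ) : 1 ≤ pq q n := by
  rw [psc_pq q hq]
  refine Finset.prod_induction (fun j => (1 - (q⁻¹) ^ (j + 1))⁻¹) (fun x => (1 : ℝ) ≤ x) ?_ le_rfl ?_
  · intro a b ha hb
    nlinarith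
  · intro j _
    obtain ⟨h1, h2⟩ := psc_fac_lt q hq j
    exact (one_le_inv₀ h1).2 h2

theorem psc_pq_add (q : ℝ) (hq : 2 ≤ q) (b d : ℕ) :
    pq q (b + d) = pq q b * ∏ j ∈ Finset.range d, (1 - (q⁻¹) ^ (b + j + 1))⁻¹ := by
  rw [psc_pq q hq, psc_pq q hq, Finset.prod_range_add]

theorem psc_pq_mono (q : ℝ) (n n' : ℕ) (hq : 2 ≤ q) (hn : n ≤ n') : pq q n ≤ pq q n' := by
  obtain ⟨d, rfl⟩ := Nat.exists_eq_add_of_le hn
  rw [psc_pq_add q hq]
  have h1 := psc_one_le q hq n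
  have h2 : 1 ≤ ∏ j ∈ Finset.range d, (1 - (q⁻¹) ^ (n + j + 1))⁻¹ := by
    refine Finset.prod_induction (fun j => (1 - (q⁻¹) ^ (n + j + 1))⁻¹) (fun x => (1 : ℝ) ≤ x) ?_
      le_rfl ?_
    · intro a b ha hb
      nlinarith
    · intro j _
      obtain ⟨h1, h2⟩ := psc_fac_lt q hq (n + j)
      exact (one_le_inv₀ h1).2 h2
  nlinarith

theorem psc_prod (q : ℝ) (b d : ℕ) (hq : 2 ≤ q) :
    q ^ ((b + d) * d) * pq q b =
      pq q (b + d) * ∏ t ∈ Finset.range d, (q ^ (b + d) - q ^ t) := by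
  have hq0 : 0 < q := by linarith
  rw [psc_pq_add q hq]
  have h1 : ∏ t ∈ Finset.range d, (q ^ (b + d) - q ^ t) =
      ∏ j ∈ Finset.range d, (q ^ (b + d) * (1 - (q⁻¹) ^ (b + j + 1))) := by
    rw [← Finset.prod_range_reflect (fun t => q ^ (b + d) - q ^ t) d]
    refine Finset.prod_congr rfl fun j hj => ?_
    have hj' := Finset.mem_range.1 hj
    have h2 : q ^ (b + d) = q ^ (d - 1 - j) * q ^ (b + j + 1) := by
      rw [← pow_add]
      congr 1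
      omega
    have h3 : q ^ (b + d) * (q⁻¹) ^ (b + j + 1) = q ^ (d - 1 - j) := by
      rw [h2, mul_assoc, ← mul_pow, mul_inv_cancel₀ hq0.ne', one_pow, mul_one]
    rw [mul_sub, h3, mul_one]
  rw [h1, Finset.prod_mul_distrib, Finset.prod_const, Finset.card_range, ← pow_mul]
  have h4 : (∏ j ∈ Finset.range d, (1 - (q⁻¹) ^ (b + j + 1))⁻¹) *
      ∏ j ∈ Finset.range d, (1 - (q⁻¹) ^ (b + j + 1)) = 1 := by
    rw [← Finset.prod_mul_distrib]
    refine Finset.prod_eq_one fun j _ => ?_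
    exact inv_mul_cancel₀ (psc_fac_lt q hq (b + j)).1.ne'
  calc q ^ ((b + d) * d) * pq q b = q ^ ((b + d) * d) * pq q b * 1 := by ring
    _ = q ^ ((b + d) * d) * pq q b * ((∏ j ∈ Finset.range d, (1 - (q⁻¹) ^ (b + j + 1))⁻¹) *
      ∏ j ∈ Finset.range d, (1 - (q⁻¹) ^ (b + j + 1))) := by rw [h4]
    _ = _ := by ring

theorem psc_le_four (q : ℝ) (n : ℕ) (hq : 2 ≤ q) : pq q n ≤ 4 := by
  rw [psc_pq q hq]
  have h := RSF.SM.t_PI q hq n
  rw [Finset.prod_inv_distrib]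
  have h4 : (4 : ℝ) = (1 / 4 : ℝ)⁻¹ := by norm_num
  rw [h4]
  exact inv_anti₀ (by norm_num) h

theorem t_PSC : S_PSC :=
  ⟨fun n n' K c hn hK hc => ⟨psc_TT_nonneg n K c hK hc, psc_TT_mono n n' K c hn hK hc⟩,
    psc_TT_zero,
    fun a K c ha _ _ => (psc_TT_succ a K c ha).le,
    fun q n n' hq hn => ⟨psc_one_le q hq n, psc_pq_mono q n n' hq hn⟩,
    fun q b d hq => psc_prod q b d hq,
    fun q n hq => psc_le_four q n hq⟩

end FLX
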